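import Pool.Agent.Lib.MP_b6ecfd_co.CombA_56

/-! Numbers of cofacial vertices (MP_b6ecfd), helper16. `E` is any set of facets with between four
and `k` vertices. -/

set_option autoImplicit false

namespace Pool.Agent.CY

open Finset

section

variable {P : Type} [DecidableEq P]

/-- the members of `E` at `x`. -/
def eE (E : Finset (Finset P)) (x : P) : Finset (Finset P) := E.filter (fun F => x ∈ F)

open Classical in
/-- the vertices cofacial with `x`. -/
noncomputable def cof (S : Finset P) (Fs : Finset (Finset P)) (k : ℕ) (x : P) : Finset P :=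
  S.filter (fun y => y ≠ x ∧ Hc Fs k x y)

open Classical in
/-- the vertices cofacial with `x` which are on no member of `E` at `x`. -/
noncomputable def out (S : Finset P) (Fs E : Finset (Finset P)) (k : ℕ) (x : P) : Finset P :=
  (cof S Fs k x).filter (fun y => ∀ F ∈ E, x ∈ F → y ∉ F)

/-- two members of `E` at `x` and few cofacial vertices. -/
def PA (S : Finset P) (Fs E : Finset (Finset P)) (k : ℕ) (x : P) : Prop :=
  ∃ f g : Finset P, f ≠ g ∧ eE E x = {f, g} ∧ (cof S Fs k x).card + 2 ≤ f.card + g.card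

theorem mem_eE {E : Finset (Finset P)} {x : P} {F : Finset P} :
    F ∈ eE E x ↔ F ∈ E ∧ x ∈ F := by simp [eE]

theorem mem_cof {S : Finset P} {Fs : Finset (Finset P)} {k : ℕ} {x y : P} :
    y ∈ cof S Fs k x ↔ y ∈ S ∧ y ≠ x ∧ Hc Fs k x y := by simp [cof]

theorem mem_out {S : Finset P} {Fs E : Finset (Finset P)} {k : ℕ} {x y : P} :
    y ∈ out S Fs E k x ↔ (y ∈ S ∧ y ≠ x ∧ Hc Fs k x y) ∧ ∀ F ∈ E, x ∈ F → y ∉ F := by
  simp [out, mem_cof]

theorem Hc_symm {Fs : Finset (Finset P)} {k : ℕ} {x y : P} (hH : Hc Fs k x y) :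
    Hc Fs k y x := by
  obtain ⟨F, hF, hFk, hxF, hyF⟩ := hH
  exact ⟨F, hF, hFk, hyF, hxF⟩

variable {S : Finset P} {Fs E : Finset (Finset P)} {k : ℕ}

theorem LightN_of_cof {n : ℕ} {x : P} (hc : (cof S Fs k x).card ≤ n) : LightN S Fs k n x :=
  ⟨cof S Fs k x, hc, fun y hy hyx hH => mem_cof.mpr ⟨hy, hyx, hH⟩⟩

theorem pair_mem {x : P} {f g : Finset P} (he : eE E x = {f, g}) :
    (f ∈ E ∧ x ∈ f) ∧ (g ∈ E ∧ x ∈ g) := by
  have hf : f ∈ eE E x := by rw [he]; simp
  have hg : g ∈ eE E x := by rw [he]; simp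
  exact ⟨mem_eE.mp hf, mem_eE.mp hg⟩

/-- the number of cofacial vertices. -/
theorem cof_card (h : FSys S Fs) (hEF : E ⊆ Fs) (hEk : ∀ F ∈ E, F.card ≤ k) {x : P}
    {f g : Finset P} (he : eE E x = {f, g}) :
    (cof S Fs k x).card + 1 = (f ∪ g).card + (out S Fs E k x).card := by
  obtain ⟨⟨hf, hxf⟩, hg, hxg⟩ := pair_mem he
  have h1 : insert x (cof S Fs k x) = (f ∪ g) ∪ out S Fs E k x := by
    ext y
    rw [mem_insert, mem_cof, mem_union, mem_union, mem_out]
    constructor
    · rintro (rfl | hy)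
      · exact Or.inl (Or.inl hxf)
      · by_cases h2 : y ∈ f
        · exact Or.inl (Or.inl h2)
        · by_cases h3 : y ∈ g
          · exact Or.inl (Or.inr h3)
          · refine Or.inr ⟨hy, ?_⟩
            intro F hF hxF hyF
            have : F ∈ eE E x := mem_eE.mpr ⟨hF, hxF⟩
            rw [he, mem_insert, mem_singleton] at this
            rcases this with rfl | rfl
            · exact h2 hyF
            · exact h3 hyF
    · rintro ((hy | hy) | hy)
      · by_cases hyx : y = x
        · exact Or.inl hyx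
        · exact Or.inr ⟨h.sub f (hEF hf) hy, hyx, f, hEF hf, hEk f hf, hxf, hy⟩
      · by_cases hyx : y = x
        · exact Or.inl hyx
        · exact Or.inr ⟨h.sub g (hEF hg) hy, hyx, g, hEF hg, hEk g hg, hxg, hy⟩
      · exact Or.inr hy.1
  have h2 : x ∉ cof S Fs k x := fun hx => (mem_cof.mp hx).2.1 rfl
  have h3 : Disjoint (f ∪ g) (out S Fs E k x) := by
    rw [Finset.disjoint_left]
    intro y hy hy'
    rw [mem_out] at hy'
    rw [mem_union] at hy
    rcases hy with hy | hy
    · exact hy'.2 f hf hxf hy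
    · exact hy'.2 g hg hxg hy
  rw [← Finset.card_insert_of_notMem h2, h1, Finset.card_union_of_disjoint h3]

/-- the number of cofacial vertices off the two facets. -/
theorem out_card (h : FSys S Fs) (hEF : E ⊆ Fs) (hEk : ∀ F ∈ E, F.card ≤ k) {x : P}
    {f g : Finset P} (he : eE E x = {f, g}) :
    (out S Fs E k x).card + f.card + g.card = (cof S Fs k x).card + 1 + (f ∩ g).card := by
  have h1 := cof_card h hEF hEk he
  have h2 := Finset.card_union_add_card_inter f g
  omega

/-- a common vertex of two members of `E` which is not of the kind `PA` has many cofacial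
vertices. -/
theorem mate_card (h : FSys S Fs) (hEF : E ⊆ Fs) (hE4 : ∀ F ∈ E, 4 ≤ F.card ∧ F.card ≤ k)
    {x u : P} {f g : Finset P} (hfg : f ≠ g) (hf : f ∈ E) (hg : g ∈ E) (hxf : x ∈ f)
    (hxg : x ∈ g) (hux : u ≠ x) (huf : u ∈ f) (hug : u ∈ g)
    (hn : ¬ (eE E u = {f, g} ∧ (cof S Fs k u).card + 2 ≤ f.card + g.card)) :
    (f ∪ g).card ≤ (cof S Fs k u).card := by
  have hEk : ∀ F ∈ E, F.card ≤ k := fun F hF => (hE4 F hF).2
  have h0 : f ∪ g ⊆ insert u (cof S Fs k u) := by
    intro y hy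
    rw [mem_insert, mem_cof]
    by_cases hyu : y = u
    · exact Or.inl hyu
    · right
      rw [mem_union] at hy
      rcases hy with hy | hy
      · exact ⟨h.sub f (hEF hf) hy, hyu, f, hEF hf, hEk f hf, huf, hy⟩
      · exact ⟨h.sub g (hEF hg) hy, hyu, g, hEF hg, hEk g hg, hug, hy⟩
  have hu : u ∉ cof S Fs k u := fun hx => (mem_cof.mp hx).2.1 rfl
  by_cases he : eE E u = {f, g}
  · have h1 : ¬ ((cof S Fs k u).card + 2 ≤ f.card + g.card) := fun hc => hn ⟨he, hc⟩
    have h2 := Finset.card_union_add_card_inter f g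
    have h3 := h.inter f (hEF hf) g (hEF hg) hfg
    have h4 : ({x, u} : Finset P) ⊆ f ∩ g := by
      intro a ha
      rw [mem_insert, mem_singleton] at ha
      rw [mem_inter]
      rcases ha with rfl | rfl
      · exact ⟨hxf, hxg⟩
      · exact ⟨huf, hug⟩
    have h5 := Finset.card_le_card h4
    rw [Finset.card_pair hux.symm] at h5
    omega
  · have hsub : ({f, g} : Finset (Finset P)) ⊆ eE E u := by
      intro G hG
      rw [mem_insert, mem_singleton] at hG
      rw [mem_eE]
      rcases hG with rfl | rfl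
      · exact ⟨hf, huf⟩
      · exact ⟨hg, hug⟩
    obtain ⟨H, hH, hHn⟩ : ∃ H ∈ eE E u, H ∉ ({f, g} : Finset (Finset P)) := by
      by_contra hcon
      push Not at hcon
      exact he (Finset.Subset.antisymm hcon hsub)
    rw [mem_insert, mem_singleton] at hHn
    push Not at hHn
    rw [mem_eE] at hH
    have i1 := h.inter H (hEF hH.1) f (hEF hf) hHn.1
    have i2 := h.inter H (hEF hH.1) g (hEF hg) hHn.2
    have i3 : ((H ∩ f) ∪ (H ∩ g)).card ≤ 3 := by
      have h1 := Finset.card_union_add_card_inter (H ∩ f) (H ∩ g)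
      have h2 : 1 ≤ ((H ∩ f) ∩ (H ∩ g)).card := by
        apply Finset.card_pos.mpr
        exact ⟨u, by simp only [mem_inter]; exact ⟨⟨hH.2, huf⟩, hH.2, hug⟩⟩
      omega
    obtain ⟨z, hz, hzn⟩ : ∃ z ∈ H, z ∉ (H ∩ f) ∪ (H ∩ g) := by
      apply Finset.exists_mem_notMem_of_card_lt_card
      have := (hE4 H hH.1).1
      omega
    rw [mem_union, mem_inter, mem_inter] at hzn
    have hzf : z ∉ f := fun hc => hzn (Or.inl ⟨hz, hc⟩)
    have hzg : z ∉ g := fun hc => hzn (Or.inr ⟨hz, hc⟩)
    have hzu : z ≠ u := fun hE => hzf (hE ▸ huf)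
    have h1 : insert z (f ∪ g) ⊆ insert u (cof S Fs k u) := by
      apply Finset.insert_subset _ h0
      rw [mem_insert, mem_cof]
      exact Or.inr ⟨h.sub H (hEF hH.1) hz, hzu, H, hEF hH.1, hEk H hH.1, hH.2, hz⟩
    have h2 := Finset.card_le_card h1
    have h3 : z ∉ f ∪ g := by
      rw [mem_union]
      rintro (hc | hc)
      · exact hzf hc
      · exact hzg hc
    rw [Finset.card_insert_of_notMem h3, Finset.card_insert_of_notMem hu] at h2
    omega

/-- the two members of `E` at a vertex with the same two members. -/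
theorem eE_eq_of_mem {x u : P} {f g : Finset P} (hfg : f ≠ g) (he : eE E x = {f, g})
    (huf : u ∈ f) (hug : u ∈ g) (hc : (eE E u).card = 2) : eE E x = eE E u := by
  obtain ⟨⟨hf, hxf⟩, hg, hxg⟩ := pair_mem he
  rw [he]
  apply Finset.eq_of_subset_of_card_le
  · intro G hG
    rw [mem_insert, mem_singleton] at hG
    rw [mem_eE]
    rcases hG with rfl | rfl
    · exact ⟨hf, huf⟩
    · exact ⟨hg, hug⟩
  · rw [hc, Finset.card_pair hfg]

end

end Pool.Agent.CY
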