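import Pool.Agent.Lib.MP_b6ecfd_co.Comb_56

/-! The general combinatorial theorem: good and light vertices (MP_b6ecfd_co), helper56. -/

set_option autoImplicit false

namespace Pool.Agent.CY

open Finset

section

variable {P : Type} [DecidableEq P]

/-- good vertices: two essential facets, and degree three, or degree four and off `Q`. -/
def Good (Fs Q : Finset (Finset P)) (k : ℕ) (x : P) : Prop :=
  ((ess Fs Q k).filter (fun F => x ∈ F)).card = 2 ∧
    ((ft Fs x).card ≤ 3 ∨ ((ft Fs x).card ≤ 4 ∧ ∀ F ∈ Q, x ∉ F))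

/-- light vertices: at most `n` cofacial vertices. -/
def LightN (S : Finset P) (Fs : Finset (Finset P)) (k n : ℕ) (x : P) : Prop :=
  ∃ T : Finset P, T.card ≤ n ∧ ∀ y ∈ S, y ≠ x → Hc Fs k x y → y ∈ T

variable {S : Finset P} {Fs : Finset (Finset P)}

theorem opp_card_good (h : FSys S Fs) {Q : Finset (Finset P)} (hQF : Q ⊆ Fs)
    (hQ4 : ∀ F ∈ Q, F.card = 4) {k : ℕ} {x : P} {f g : Finset P} (hfg : f ≠ g)
    (he : (ess Fs Q k).filter (fun F => x ∈ F) = {f, g})
    (hgd : (ft Fs x).card ≤ 3 ∨ ((ft Fs x).card ≤ 4 ∧ ∀ F ∈ Q, x ∉ F)) :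
    (opp S Fs Q x).card ≤ 1 := by
  by_cases hx : ∃ m ∈ Q, x ∈ m
  · obtain ⟨m, hm, hxm⟩ := hx
    have h3 : (ft Fs x).card ≤ 3 := by
      rcases hgd with h1 | ⟨_, h2⟩
      · exact h1
      · exact absurd hxm (h2 m hm)
    have hf : f ∈ (ess Fs Q k).filter (fun F => x ∈ F) := by rw [he]; simp
    have hg : g ∈ (ess Fs Q k).filter (fun F => x ∈ F) := by rw [he]; simp
    rw [mem_filter, mem_ess] at hf hg
    have hfm : ∀ F ∈ Q, f ≠ F := fun F hF hE => hf.1.2.2.2 (hE ▸ hF)
    have hgm : ∀ F ∈ Q, g ≠ F := fun F hF hE => hg.1.2.2.2 (hE ▸ hF)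
    have h1 : Q.filter (fun F => x ∈ F) = {m} := by
      ext F
      rw [mem_filter, mem_singleton]
      constructor
      · rintro ⟨hF, hxF⟩
        by_contra hne
        have hsub : ({f, g, m, F} : Finset (Finset P)) ⊆ ft Fs x := by
          intro G hG
          simp only [mem_insert, mem_singleton] at hG
          rw [mem_ft]
          rcases hG with rfl | rfl | rfl | rfl
          · exact ⟨hf.1.1, hf.2⟩
          · exact ⟨hg.1.1, hg.2⟩
          · exact ⟨hQF hm, hxm⟩
          · exact ⟨hQF hF, hxF⟩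
        have hc4 : ({f, g, m, F} : Finset (Finset P)).card = 4 := by
          rw [Finset.card_insert_of_notMem, Finset.card_insert_of_notMem,
            Finset.card_insert_of_notMem, Finset.card_singleton]
          · rw [mem_singleton]; exact fun hE => hne hE.symm
          · simp only [mem_insert, mem_singleton]
            rintro (hE | hE)
            · exact hgm m hm hE
            · exact hgm F hF hE
          · simp only [mem_insert, mem_singleton]
            rintro (hE | hE | hE)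
            · exact hfg hE
            · exact hfm m hm hE
            · exact hfm F hF hE
        have := Finset.card_le_card hsub
        omega
      · rintro rfl
        exact ⟨hm, hxm⟩
    rw [opp, h1, Finset.singleton_biUnion]
    exact (quad_opp h (hQF hm) hxm (hQ4 m hm)).le
  · rw [opp_empty hx]
    simp

/-- conflict vertices of a good vertex `x`: cofacial, but in no common essential facet. -/
theorem conflictA (h : FSys S Fs) {Q : Finset (Finset P)} (hQF : Q ⊆ Fs)
    (hQ4 : ∀ F ∈ Q, F.card = 4) {k : ℕ}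
    {x : P} {f g : Finset P} (hfg : f ≠ g)
    (he : (ess Fs Q k).filter (fun F => x ∈ F) = {f, g})
    (hgd : (ft Fs x).card ≤ 3 ∨ ((ft Fs x).card ≤ 4 ∧ ∀ F ∈ Q, x ∉ F)) :
    (∀ z ∈ S, z ≠ x → Hc Fs k x z → z ∉ f → z ∉ g → ∃ u ∈ S, u ≠ x ∧ u ∈ f ∧ u ∈ g) ∧
    (∀ z ∈ S, ∀ w ∈ S, z ≠ x → w ≠ x → Hc Fs k x z → Hc Fs k x w → z ∉ f → z ∉ g →
      w ∉ f → w ∉ g → z = w) := by
  have hf : f ∈ (ess Fs Q k).filter (fun F => x ∈ F) := by rw [he]; simp
  have hg : g ∈ (ess Fs Q k).filter (fun F => x ∈ F) := by rw [he]; simp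
  rw [mem_filter, mem_ess] at hf hg
  obtain ⟨⟨hfF, hf4, hfk, hfQ⟩, hxf⟩ := hf
  obtain ⟨⟨hgF, hg4, hgk, hgQ⟩, hxg⟩ := hg
  have hff : f ∈ ft Fs x := mem_ft.mpr ⟨hfF, hxf⟩
  have hgf : g ∈ ft Fs x := mem_ft.mpr ⟨hgF, hxg⟩
  have hdd : (ft Fs x).card ≤ 4 := by
    rcases hgd with h1 | h1
    · omega
    · omega
  have hn := nbr_card h x
  have hnf := nbr_inter h hfF hxf
  have hng := nbr_inter h hgF hxg
  -- a conflict vertex is in no essential facet through x
  have hcase : ∀ z, z ≠ x → Hc Fs k x z → z ∉ f → z ∉ g →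
      z ∈ nbr S Fs x ∨ z ∈ opp S Fs Q x := by
    intro z hzx hH hzf hzg
    rcases Hc_cases h hQ4 hzx hH with ⟨F, hF, hx, hy⟩ | h1 | ⟨F, hF, _, hx, hy⟩
    · have : F ∈ (ess Fs Q k).filter (fun F => x ∈ F) := mem_filter.mpr ⟨hF, hx⟩
      rw [he, mem_insert, mem_singleton] at this
      rcases this with rfl | rfl
      · exact absurd hy hzf
      · exact absurd hy hzg
    · exact Or.inl h1
    · exact Or.inr (mem_opp.mpr ⟨F, hF, hx, hy⟩)
  -- the common facets of x and a conflict neighbour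
  have hsub : ∀ z, z ∉ f → z ∉ g → cm Fs x z ⊆ ft Fs x \ {f, g} := by
    intro z hzf hzg G hG
    rw [mem_cm] at hG
    rw [mem_sdiff, mem_ft, mem_insert, mem_singleton]
    refine ⟨⟨hG.1, hG.2.1⟩, ?_⟩
    rintro (rfl | rfl)
    · exact hzf hG.2.2
    · exact hzg hG.2.2
  have hcs : (ft Fs x \ {f, g}).card + 2 = (ft Fs x).card := by
    have h1 : ({f, g} : Finset (Finset P)) ⊆ ft Fs x := by
      intro G hG
      rw [mem_insert, mem_singleton] at hG
      rcases hG with rfl | rfl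
      · exact hff
      · exact hgf
    have h2 := Finset.card_sdiff_add_card_eq_card h1
    rw [Finset.card_pair hfg] at h2
    exact h2
  have hopp3 : (∃ m ∈ Q, x ∈ m) → (ft Fs x).card ≤ 3 := by
    rintro ⟨m, hm, hxm⟩
    rcases hgd with h1 | ⟨_, h2⟩
    · exact h1
    · exact absurd hxm (h2 m hm)
  have hnbr4 : ∀ z, z ∈ nbr S Fs x → z ∉ f → z ∉ g → (ft Fs x).card = 4 := by
    intro z hz hzf hzg
    have h1 := Finset.card_le_card (hsub z hzf hzg)
    rw [cm_card_nbr h hz] at h1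
    omega
  constructor
  · intro z hz hzx hH hzf hzg
    by_contra hcon
    push Not at hcon
    have hdis : Disjoint (nbr S Fs x ∩ f) (nbr S Fs x ∩ g) := by
      rw [Finset.disjoint_left]
      intro u hu1 hu2
      rw [mem_inter, mem_nbr] at hu1 hu2
      exact hcon u hu1.1.1 hu1.1.2.1 hu1.2 hu2.2
    have hcu := Finset.card_union_of_disjoint hdis
    have hsu : (nbr S Fs x ∩ f) ∪ (nbr S Fs x ∩ g) ⊆ nbr S Fs x :=
      Finset.union_subset Finset.inter_subset_left Finset.inter_subset_left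
    have hcl := Finset.card_le_card hsu
    rcases hcase z hzx hH hzf hzg with h1 | h1
    · have h4 := hnbr4 z h1 hzf hzg
      have h5 : (nbr S Fs x ∩ f) ∪ (nbr S Fs x ∩ g) = nbr S Fs x :=
        Finset.eq_of_subset_of_card_le hsu (by omega)
      rw [← h5, mem_union, mem_inter, mem_inter] at h1
      rcases h1 with h1 | h1
      · exact hzf h1.2
      · exact hzg h1.2
    · have h2 : ∃ m ∈ Q, x ∈ m := by
        obtain ⟨F, hF, hx, _⟩ := mem_opp.mp h1
        exact ⟨F, hF, hx⟩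
      have h3 := hopp3 h2
      omega
  · intro z hz w hw hzx hwx hHz hHw hzf hzg hwf hwg
    rcases hcase z hzx hHz hzf hzg with h1 | h1
    · have h4 := hnbr4 z h1 hzf hzg
      rcases hcase w hwx hHw hwf hwg with h2 | h2
      · by_contra hne
        have e1 : cm Fs x z = ft Fs x \ {f, g} :=
          Finset.eq_of_subset_of_card_le (hsub z hzf hzg) (by rw [cm_card_nbr h h1]; omega)
        have e2 : cm Fs x w = ft Fs x \ {f, g} :=
          Finset.eq_of_subset_of_card_le (hsub w hwf hwg) (by rw [cm_card_nbr h h2]; omega)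
        have hc2 : (ft Fs x \ {f, g}).card = 2 := by omega
        obtain ⟨s, t, hst, hEq⟩ := Finset.card_eq_two.mp hc2
        have hs1 : s ∈ cm Fs x z := by rw [e1, hEq]; simp
        have ht1 : t ∈ cm Fs x z := by rw [e1, hEq]; simp
        have hs2 : s ∈ cm Fs x w := by rw [e2, hEq]; simp
        have ht2 : t ∈ cm Fs x w := by rw [e2, hEq]; simp
        rw [mem_cm] at hs1 ht1 hs2 ht2
        have h3 := h.inter s hs1.1 t ht1.1 hst
        have h5 : ({x, z, w} : Finset P) ⊆ s ∩ t := by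
          intro a ha
          rw [mem_insert, mem_insert, mem_singleton] at ha
          rw [mem_inter]
          rcases ha with rfl | rfl | rfl
          · exact ⟨hs1.2.1, ht1.2.1⟩
          · exact ⟨hs1.2.2, ht1.2.2⟩
          · exact ⟨hs2.2.2, ht2.2.2⟩
        have h6 : ({x, z, w} : Finset P).card = 3 :=
          Finset.card_eq_three.mpr ⟨x, z, w, hzx.symm, hwx.symm, hne, rfl⟩
        have h7 := Finset.card_le_card h5
        omega
      · have h3 : ∃ m ∈ Q, x ∈ m := by
          obtain ⟨F, hF, hx, _⟩ := mem_opp.mp h2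
          exact ⟨F, hF, hx⟩
        have := hopp3 h3
        omega
    · have h3 : ∃ m ∈ Q, x ∈ m := by
        obtain ⟨F, hF, hx, _⟩ := mem_opp.mp h1
        exact ⟨F, hF, hx⟩
      have h3' := hopp3 h3
      rcases hcase w hwx hHw hwf hwg with h2 | h2
      · have := hnbr4 w h2 hwf hwg
        omega
      · exact Finset.card_le_one.mp (opp_card_good h hQF hQ4 hfg he hgd) z h1 w h2

end

/-- vertices of degree at most four, off `Q`, on at most one essential facet, are light. -/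
theorem light3 {P : Type} [DecidableEq P] {S : Finset P} {Fs : Finset (Finset P)}
    (h : FSys S Fs) {Q : Finset (Finset P)} {k n : ℕ} (hkn : k + 1 ≤ n)
    {x : P} (hd : (ft Fs x).card ≤ 4) (hQ : ∀ F ∈ Q, x ∉ F)
    (he : ((ess Fs Q k).filter (fun F => x ∈ F)).card ≤ 1) : LightN S Fs k n x := by
  by_cases hk : k < 3
  · refine ⟨∅, by simp, ?_⟩
    rintro y _ _ ⟨F, hF, hFk, _⟩
    have := h.three F hF
    omega
  have hn := nbr_card h x
  rcases Nat.lt_or_ge ((ess Fs Q k).filter (fun F => x ∈ F)).card 1 with h0 | h1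
  · have h0' : (ess Fs Q k).filter (fun F => x ∈ F) = ∅ := Finset.card_eq_zero.mp (by omega)
    refine ⟨nbr S Fs x, by omega, ?_⟩
    rintro y _ hyx ⟨F, hF, hFk, hxF, hyF⟩
    by_cases h3 : 4 ≤ F.card
    · exfalso
      have : F ∈ (ess Fs Q k).filter (fun F => x ∈ F) :=
        mem_filter.mpr ⟨mem_ess.mpr ⟨hF, h3, hFk, fun hFQ => hQ F hFQ hxF⟩, hxF⟩
      rw [h0'] at this
      simp at this
    · have h4 := h.three F hF
      exact tri_nbr h hF hxF hyF hyx (by omega)
  · obtain ⟨f, hf⟩ := Finset.card_eq_one.mp (le_antisymm he h1)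
    have hfm : f ∈ (ess Fs Q k).filter (fun F => x ∈ F) := by rw [hf]; simp
    rw [mem_filter, mem_ess] at hfm
    obtain ⟨⟨hfF, hf4, hfk, hfQ⟩, hxf⟩ := hfm
    refine ⟨f.erase x ∪ (nbr S Fs x \ f), ?_, ?_⟩
    · have h1' := Finset.card_union_le (f.erase x) (nbr S Fs x \ f)
      have h6 : (nbr S Fs x \ f).card + (nbr S Fs x ∩ f).card = (nbr S Fs x).card :=
        Finset.card_sdiff_add_card_inter _ _
      have h7 := nbr_inter h hfF hxf
      have h8 : (f.erase x).card = f.card - 1 := Finset.card_erase_of_mem hxf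
      omega
    · rintro y _ hyx ⟨F, hF, hFk, hxF, hyF⟩
      rw [mem_union, mem_sdiff]
      by_cases hyf : y ∈ f
      · exact Or.inl (mem_erase.mpr ⟨hyx, hyf⟩)
      · by_cases h3 : 4 ≤ F.card
        · exfalso
          have : F ∈ (ess Fs Q k).filter (fun F => x ∈ F) :=
            mem_filter.mpr ⟨mem_ess.mpr ⟨hF, h3, hFk, fun hFQ => hQ F hFQ hxF⟩, hxF⟩
          rw [hf, mem_singleton] at this
          rw [this] at hyF
          exact hyf hyF
        · have h4 := h.three F hF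
          exact Or.inr ⟨tri_nbr h hF hxF hyF hyx (by omega), hyf⟩

/-- the general theorem. -/
theorem combA_56 (hV : StVizing) (P : Type) [DecidableEq P] (S : Finset P)
    (Fs Q : Finset (Finset P)) (k n : ℕ) (hkn : k + 1 ≤ n) (h : FSys S Fs) (hQF : Q ⊆ Fs)
    (hQ4 : ∀ F ∈ Q, F.card = 4)
    (hgl : ∀ x ∈ S, Good Fs Q k x ∨ LightN S Fs k n x)
    (hpart : ∀ x ∈ S, ∀ z ∈ S, Good Fs Q k x → Good Fs Q k z → x ≠ z → Hc Fs k x z →
      (∀ F ∈ ess Fs Q k, x ∈ F → z ∉ F) →
      ∀ u ∈ S, (∀ F ∈ ess Fs Q k, x ∈ F → u ∈ F) → Good Fs Q k u) :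
    ∃ col : P → Fin (n + 1), ∀ F ∈ Fs, F.card ≤ k → Set.InjOn col (F : Set P) := by
  classical
  set e : P → Finset (Finset P) := fun x => (ess Fs Q k).filter (fun F => x ∈ F) with he
  have memE : ∀ x F, F ∈ e x ↔ F ∈ ess Fs Q k ∧ x ∈ F := by
    intro x F
    simp [he]
  set X : Finset P := S.filter (fun x => Good Fs Q k x) with hX
  have hXS : X ⊆ S := Finset.filter_subset _ _
  have hXmem : ∀ x, x ∈ X ↔ x ∈ S ∧ Good Fs Q k x := by
    intro x; simp [hX]
  have hpq : ∀ x : X, ∃ f g : Finset P, f ≠ g ∧ e x.1 = {f, g} :=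
    fun x => Finset.card_eq_two.mp ((hXmem x.1).mp x.2).2.1
  choose p q hpq1 hpq2 using hpq
  have hp : ∀ x : X, p x ∈ ess Fs Q k ∧ x.1 ∈ p x := by
    intro x
    rw [← memE, hpq2]
    simp
  have hq : ∀ x : X, q x ∈ ess Fs Q k ∧ x.1 ∈ q x := by
    intro x
    rw [← memE, hpq2]
    simp
  -- Vizing
  obtain ⟨φ, hφ⟩ := hV X (Finset P) p q k 2 hpq1 (by
    intro v
    by_cases hv : v ∈ ess Fs Q k
    · have h1 : (univ.filter (fun x : X => p x = v ∨ q x = v)).card ≤ v.card := by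
        apply Finset.card_le_card_of_injOn (fun x => x.1)
        · intro x hx
          simp only [coe_filter, mem_univ, true_and, Set.mem_ofPred_eq] at hx
          rcases hx with rfl | rfl
          · exact (hp x).2
          · exact (hq x).2
        · intro x _ y _ hxy
          exact Subtype.ext hxy
      exact h1.trans (mem_ess.mp hv).2.2.1
    · have h1 : univ.filter (fun x : X => p x = v ∨ q x = v) = ∅ := by
        apply Finset.filter_eq_empty_iff.mpr
        intro x _ hx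
        rcases hx with rfl | rfl
        · exact hv (hp x).1
        · exact hv (hq x).1
      rw [h1]
      simp) (by
    intro u v huv
    by_cases hv : u ∈ ess Fs Q k ∧ v ∈ ess Fs Q k
    · have h1 : (univ.filter (fun x : X => (p x = u ∧ q x = v) ∨ (p x = v ∧ q x = u))).card
          ≤ (u ∩ v).card := by
        apply Finset.card_le_card_of_injOn (fun x => x.1)
        · intro x hx
          simp only [coe_filter, mem_univ, true_and, Set.mem_ofPred_eq] at hx
          simp only [coe_inter, Set.mem_inter_iff, mem_coe]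
          rcases hx with ⟨rfl, rfl⟩ | ⟨rfl, rfl⟩
          · exact ⟨(hp x).2, (hq x).2⟩
          · exact ⟨(hq x).2, (hp x).2⟩
        · intro x _ y _ hxy
          exact Subtype.ext hxy
      exact h1.trans (h.inter u (mem_ess.mp hv.1).1 v (mem_ess.mp hv.2).1 huv)
    · have h1 : univ.filter (fun x : X => (p x = u ∧ q x = v) ∨ (p x = v ∧ q x = u)) = ∅ := by
        apply Finset.filter_eq_empty_iff.mpr
        intro x _ hx
        apply hv
        rcases hx with ⟨rfl, rfl⟩ | ⟨rfl, rfl⟩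
        · exact ⟨(hp x).1, (hq x).1⟩
        · exact ⟨(hq x).1, (hp x).1⟩
      rw [h1]
      simp) (by norm_num)
  have hcommon : ∀ x y : X, x ≠ y → ∀ F ∈ ess Fs Q k, x.1 ∈ F → y.1 ∈ F → φ x ≠ φ y := by
    intro x y hxy F hF hxF hyF
    apply hφ x y hxy
    have h1 : F ∈ e x.1 := (memE _ _).mpr ⟨hF, hxF⟩
    have h2 : F ∈ e y.1 := (memE _ _).mpr ⟨hF, hyF⟩
    rw [hpq2, mem_insert, mem_singleton] at h1 h2
    rcases h1 with h1 | h1 <;> rcases h2 with h2 | h2 <;> rw [← h1, ← h2] <;> simp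
  -- two vertices determine the pair
  have huniq : ∀ x y z : X, x ≠ y → x ≠ z → e x.1 = e y.1 → e x.1 = e z.1 → y = z := by
    intro x y z hxy hxz hey hez
    by_contra hyz
    have h1 := h.inter (p x) (mem_ess.mp (hp x).1).1 (q x) (mem_ess.mp (hq x).1).1 (hpq1 x)
    have hsub : ({x.1, y.1, z.1} : Finset P) ⊆ p x ∩ q x := by
      intro a ha
      rw [mem_insert, mem_insert, mem_singleton] at ha
      rw [mem_inter]
      have hpx : p x ∈ e x.1 := (memE _ _).mpr (hp x)
      have hqx : q x ∈ e x.1 := (memE _ _).mpr (hq x)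
      rcases ha with rfl | rfl | rfl
      · exact ⟨(hp x).2, (hq x).2⟩
      · rw [hey] at hpx hqx
        exact ⟨((memE _ _).mp hpx).2, ((memE _ _).mp hqx).2⟩
      · rw [hez] at hpx hqx
        exact ⟨((memE _ _).mp hpx).2, ((memE _ _).mp hqx).2⟩
    have h6 : ({x.1, y.1, z.1} : Finset P).card = 3 :=
      Finset.card_eq_three.mpr ⟨x.1, y.1, z.1, fun hE => hxy (Subtype.ext hE),
        fun hE => hxz (Subtype.ext hE), fun hE => hyz (Subtype.ext hE), rfl⟩
    have h7 := Finset.card_le_card hsub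
    omega
  obtain ⟨σ, hσ1, hσ2, hσ3⟩ := exists_inv_56 (fun x y : X => x ≠ y ∧ e x.1 = e y.1)
    (fun x y hxy => ⟨hxy.1.symm, hxy.2.symm⟩)
    (fun x y z hxy hxz => huniq x y z hxy.1 hxz.1 hxy.2 hxz.2)
  have hcf := fun x : X => conflictA h hQF hQ4 (k := k) (hpq1 x) (hpq2 x)
    ((hXmem x.1).mp x.2).2.2
  obtain ⟨τ, hτ1, hτ2, hτ3⟩ := exists_inv_56 (fun x y : X => x ≠ y ∧ Hc Fs k x.1 y.1 ∧
      ∀ F ∈ ess Fs Q k, x.1 ∈ F → y.1 ∉ F)
    (by
      rintro x y ⟨h1, ⟨F, hF, hFk, hxF, hyF⟩, h3⟩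
      exact ⟨h1.symm, ⟨F, hF, hFk, hyF, hxF⟩, fun G hG hyG hxG => h3 G hG hxG hyG⟩)
    (by
      rintro x y z ⟨h1, h2, h3⟩ ⟨h4, h5, h6⟩
      apply Subtype.ext
      exact (hcf x).2 y.1 (hXS y.2) z.1 (hXS z.2) (fun hE => h1 (Subtype.ext hE.symm))
        (fun hE => h4 (Subtype.ext hE.symm)) h2 h5 (h3 _ (hp x).1 (hp x).2)
        (h3 _ (hq x).1 (hq x).2) (h6 _ (hp x).1 (hp x).2) (h6 _ (hq x).1 (hq x).2))
  obtain ⟨π, hπ1, hπ2, hπ3⟩ := stFlip_56 X (Fin (k + 2)) σ τ φ hσ1 hτ1 (by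
      intro x hx
      obtain ⟨h1, h2, h3⟩ := hτ2 x hx
      obtain ⟨u, huS, hux, huf, hug⟩ := (hcf x).1 (τ x).1 (hXS (τ x).2)
        (fun hE => h1 (Subtype.ext hE.symm)) h2 (h3 _ (hp x).1 (hp x).2) (h3 _ (hq x).1 (hq x).2)
      have hsub : e x.1 ⊆ e u := by
        rw [hpq2]
        intro G hG
        rw [mem_insert, mem_singleton] at hG
        rw [memE]
        rcases hG with rfl | rfl
        · exact ⟨(hp x).1, huf⟩
        · exact ⟨(hq x).1, hug⟩
      have huG : Good Fs Q k u := by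
        apply hpart x.1 (hXS x.2) (τ x).1 (hXS (τ x).2) ((hXmem _).mp x.2).2
          ((hXmem _).mp (τ x).2).2 (fun hE => h1 (Subtype.ext hE)) h2 h3 u huS
        intro F hF hxF
        have : F ∈ e u := hsub ((memE _ _).mpr ⟨hF, hxF⟩)
        exact ((memE _ _).mp this).2
      have hxc : (e x.1).card = 2 := ((hXmem _).mp x.2).2.1
      have huc : (e u).card = 2 := huG.1
      have heq : e x.1 = e u := Finset.eq_of_subset_of_card_le hsub (by omega)
      have huX : u ∈ X := (hXmem u).mpr ⟨huS, huG⟩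
      have := hσ3 x ⟨u, huX⟩ ⟨fun hE => hux (by rw [hE]), heq⟩
      rw [this]
      exact fun hE => hux (by rw [← hE])) (by
      intro x hx
      obtain ⟨h1, h2⟩ := hσ2 x hx
      have hpx : p x ∈ e x.1 := (memE _ _).mpr (hp x)
      rw [h2] at hpx
      exact hcommon (σ x) x hx (p x) (hp x).1 ((memE _ _).mp hpx).2 (hp x).2)
  have hπe : ∀ x : X, e (π x).1 = e x.1 := by
    intro x
    rcases hπ1 x with h1 | h1
    · rw [h1]
    · by_cases hx : σ x = x
      · rw [h1, hx]
      · rw [h1]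
        exact (hσ2 x hx).2.symm
  have hfinal : ∀ x y : X, x ≠ y → Hc Fs k x.1 y.1 → φ (π x) ≠ φ (π y) := by
    intro x y hxy hH
    by_cases hc : ∃ F ∈ ess Fs Q k, x.1 ∈ F ∧ y.1 ∈ F
    · obtain ⟨F, hF, hxF, hyF⟩ := hc
      apply hcommon (π x) (π y) (fun hE => hxy (hπ2 hE)) F hF
      · have : F ∈ e x.1 := (memE _ _).mpr ⟨hF, hxF⟩
        rw [← hπe] at this
        exact ((memE _ _).mp this).2
      · have : F ∈ e y.1 := (memE _ _).mpr ⟨hF, hyF⟩
        rw [← hπe] at this
        exact ((memE _ _).mp this).2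
    · have h1 : τ x = y := hτ3 x y ⟨hxy, hH, fun F hF hxF hyF => hc ⟨F, hF, hxF, hyF⟩⟩
      rw [← h1]
      apply hπ3
      rw [h1]
      exact hxy.symm
  have hle : k + 2 ≤ n + 1 := by omega
  obtain ⟨ψ, hψ⟩ := stGreedy_56 P S (Hc Fs k) n X
    (fun x => if hx : x ∈ X then Fin.castLE hle (φ (π ⟨x, hx⟩)) else 0)
    (by
      rintro x y ⟨F, hF, hFk, hxF, hyF⟩
      exact ⟨F, hF, hFk, hyF, hxF⟩)
    (by
      intro x hx y hy hxy hH
      simp only [dif_pos hx, dif_pos hy]
      intro hE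
      exact hfinal ⟨x, hx⟩ ⟨y, hy⟩ (fun hE => hxy (Subtype.mk.inj hE)) hH
        (Fin.castLE_injective hle hE))
    (by
      intro x hxS hxX
      rcases hgl x hxS with h1 | h1
      · exact absurd ((hXmem x).mpr ⟨hxS, h1⟩) hxX
      · exact h1)
    hXS
  refine ⟨ψ, ?_⟩
  intro F hF hFk x hx y hy hE
  by_contra hxy
  exact hψ x (h.sub F hF hx) y (h.sub F hF hy) hxy ⟨F, hF, hFk, hx, hy⟩ hE

end Pool.Agent.CY
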