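import Pool.Agent.Lib.MP_b6ecfd_co.CombA_56

/-! The theorem with pairs of colours (pentagons allowed), MP_b6ecfd_co, helper56. -/

set_option autoImplicit false

namespace Pool.Agent.CY

open Finset

section

variable {P : Type} [DecidableEq P] {S : Finset P} {Fs : Finset (Finset P)}

theorem nbr_symm {x y : P} (hx : x ∈ S) (hy : y ∈ nbr S Fs x) : x ∈ nbr S Fs y := by
  rw [mem_nbr] at hy ⊢
  refine ⟨hx, hy.2.1.symm, ?_⟩
  have : cm Fs y x = cm Fs x y := by
    ext G; simp only [mem_cm]; tauto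
  rw [this]
  exact hy.2.2

theorem Hc_casesB (h : FSys S Fs) {Q : Finset (Finset P)} {k : ℕ}
    {x y : P} (hyx : y ≠ x) (hH : Hc Fs k x y) :
    (∃ F ∈ ess Fs Q k, x ∈ F ∧ y ∈ F) ∨ y ∈ nbr S Fs x ∨
      (∃ F ∈ Q, F ∈ Fs ∧ x ∈ F ∧ y ∈ F ∧ y ∉ nbr S Fs x) := by
  obtain ⟨F, hF, hk, hx, hy⟩ := hH
  by_cases h1 : F ∈ Q
  · by_cases h2 : y ∈ nbr S Fs x
    · exact Or.inr (Or.inl h2)
    · exact Or.inr (Or.inr ⟨F, h1, hF, hx, hy, h2⟩)
  · by_cases h3 : 4 ≤ F.card
    · exact Or.inl ⟨F, mem_ess.mpr ⟨hF, h3, hk, h1⟩, hx, hy⟩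
    · have h4 := h.three F hF
      exact Or.inr (Or.inl (tri_nbr h hF hx hy hyx (by omega)))

/-- in a pentagon the two vertices which are not neighbours of `x` are neighbours. -/
theorem penta (h : FSys S Fs) {m : Finset P} (hm : m ∈ Fs) (hc : m.card ≤ 5) {x z w : P}
    (hx : x ∈ m) (hz : z ∈ m) (hw : w ∈ m) (hzx : z ≠ x) (hwx : w ≠ x) (hzw : z ≠ w)
    (hz1 : z ∉ nbr S Fs x) (hw1 : w ∉ nbr S Fs x) : w ∈ nbr S Fs z := by
  by_contra hcon
  have hS : ∀ a, a ∈ m → a ∈ S := fun a ha => h.sub m hm ha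
  have hz2 : x ∉ nbr S Fs z := fun hE => hz1 (nbr_symm (hS z hz) hE)
  have hw2 : x ∉ nbr S Fs w := fun hE => hw1 (nbr_symm (hS w hw) hE)
  have hzw2 : z ∉ nbr S Fs w := fun hE => hcon (nbr_symm (hS w hw) hE)
  -- the remaining vertices
  set R : Finset P := ((m.erase x).erase z).erase w with hR
  have hRc : R.card ≤ 2 := by
    have h1 : (m.erase x).card = m.card - 1 := Finset.card_erase_of_mem hx
    have h2 : ((m.erase x).erase z).card = (m.erase x).card - 1 :=
      Finset.card_erase_of_mem (mem_erase.mpr ⟨hzx, hz⟩)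
    have h3 : R.card = ((m.erase x).erase z).card - 1 :=
      Finset.card_erase_of_mem (mem_erase.mpr ⟨hzw.symm, mem_erase.mpr ⟨hwx, hw⟩⟩)
    omega
  have hsubx : nbr S Fs x ∩ m ⊆ R := by
    intro a ha
    rw [mem_inter] at ha
    rw [hR, mem_erase, mem_erase, mem_erase]
    refine ⟨fun hE => hw1 (hE ▸ ha.1), fun hE => hz1 (hE ▸ ha.1), ?_, ha.2⟩
    exact (mem_nbr.mp ha.1).2.1
  have hsubz : nbr S Fs z ∩ m ⊆ R := by
    intro a ha
    rw [mem_inter] at ha
    rw [hR, mem_erase, mem_erase, mem_erase]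
    refine ⟨fun hE => hcon (hE ▸ ha.1), ?_, fun hE => hz2 (hE ▸ ha.1), ha.2⟩
    exact (mem_nbr.mp ha.1).2.1
  have hsubw : nbr S Fs w ∩ m ⊆ R := by
    intro a ha
    rw [mem_inter] at ha
    rw [hR, mem_erase, mem_erase, mem_erase]
    refine ⟨?_, fun hE => hzw2 (hE ▸ ha.1), fun hE => hw2 (hE ▸ ha.1), ha.2⟩
    exact (mem_nbr.mp ha.1).2.1
  have hnx := nbr_inter h hm hx
  have hnz := nbr_inter h hm hz
  have hnw := nbr_inter h hm hw
  have ex : nbr S Fs x ∩ m = R := Finset.eq_of_subset_of_card_le hsubx (by omega)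
  have ez : nbr S Fs z ∩ m = R := Finset.eq_of_subset_of_card_le hsubz (by omega)
  have ew : nbr S Fs w ∩ m = R := Finset.eq_of_subset_of_card_le hsubw (by omega)
  have hRne : R.Nonempty := by
    rw [← Finset.card_pos, ← ex, hnx]; norm_num
  obtain ⟨a, ha⟩ := hRne
  have ax : a ∈ nbr S Fs x ∩ m := by rw [ex]; exact ha
  have az : a ∈ nbr S Fs z ∩ m := by rw [ez]; exact ha
  have aw : a ∈ nbr S Fs w ∩ m := by rw [ew]; exact ha
  rw [mem_inter] at ax az aw
  have hna := nbr_inter h hm ax.2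
  have hsub3 : ({x, z, w} : Finset P) ⊆ nbr S Fs a ∩ m := by
    intro b hb
    rw [mem_insert, mem_insert, mem_singleton] at hb
    rw [mem_inter]
    rcases hb with rfl | rfl | rfl
    · exact ⟨nbr_symm (hS _ hx) ax.1, hx⟩
    · exact ⟨nbr_symm (hS _ hz) az.1, hz⟩
    · exact ⟨nbr_symm (hS _ hw) aw.1, hw⟩
  have h6 : ({x, z, w} : Finset P).card = 3 :=
    Finset.card_eq_three.mpr ⟨x, z, w, hzx.symm, hwx.symm, hzw, rfl⟩
  have h7 := Finset.card_le_card hsub3
  omega

/-- two conflict vertices of a good vertex lie with it in a member of `Q` and are neighbours. -/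
theorem conflictB (h : FSys S Fs) {Q : Finset (Finset P)} (hQF : Q ⊆ Fs)
    (hQ5 : ∀ F ∈ Q, F.card ≤ 5) {k : ℕ}
    {x : P} {f g : Finset P} (hfg : f ≠ g)
    (he : (ess Fs Q k).filter (fun F => x ∈ F) = {f, g})
    (hgd : (ft Fs x).card ≤ 3 ∨ ((ft Fs x).card ≤ 4 ∧ ∀ F ∈ Q, x ∉ F)) :
    ∀ z ∈ S, ∀ w ∈ S, z ≠ x → w ≠ x → Hc Fs k x z → Hc Fs k x w → z ∉ f → z ∉ g →
      w ∉ f → w ∉ g → z = w ∨ ∃ m ∈ Q, z ∈ m ∧ w ∈ m ∧ w ∈ nbr S Fs z := by
  have hf : f ∈ (ess Fs Q k).filter (fun F => x ∈ F) := by rw [he]; simp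
  have hg : g ∈ (ess Fs Q k).filter (fun F => x ∈ F) := by rw [he]; simp
  rw [mem_filter, mem_ess] at hf hg
  obtain ⟨⟨hfF, hf4, hfk, hfQ⟩, hxf⟩ := hf
  obtain ⟨⟨hgF, hg4, hgk, hgQ⟩, hxg⟩ := hg
  have hff : f ∈ ft Fs x := mem_ft.mpr ⟨hfF, hxf⟩
  have hgf : g ∈ ft Fs x := mem_ft.mpr ⟨hgF, hxg⟩
  have hcase : ∀ z, z ≠ x → Hc Fs k x z → z ∉ f → z ∉ g →
      z ∈ nbr S Fs x ∨ ∃ m ∈ Q, x ∈ m ∧ z ∈ m ∧ z ∉ nbr S Fs x := by
    intro z hzx hH hzf hzg
    rcases Hc_casesB h (Q := Q) hzx hH with ⟨F, hF, hx, hy⟩ | h1 | ⟨F, hF, _, hx, hy⟩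
    · have : F ∈ (ess Fs Q k).filter (fun F => x ∈ F) := mem_filter.mpr ⟨hF, hx⟩
      rw [he, mem_insert, mem_singleton] at this
      rcases this with rfl | rfl
      · exact absurd hy hzf
      · exact absurd hy hzg
    · exact Or.inl h1
    · exact Or.inr ⟨F, hF, hx, hy⟩
  have hsub : ∀ z, z ∉ f → z ∉ g → cm Fs x z ⊆ ft Fs x \ {f, g} := by
    intro z hzf hzg G hG
    rw [mem_cm] at hG
    rw [mem_sdiff, mem_ft, mem_insert, mem_singleton]
    refine ⟨⟨hG.1, hG.2.1⟩, ?_⟩
    rintro (rfl | rfl)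
    · exact hzf hG.2.2
    · exact hzg hG.2.2
  have hcs : (ft Fs x \ {f, g}).card + 2 = (ft Fs x).card := by
    have h1 : ({f, g} : Finset (Finset P)) ⊆ ft Fs x := by
      intro G hG
      rw [mem_insert, mem_singleton] at hG
      rcases hG with rfl | rfl
      · exact hff
      · exact hgf
    have h2 := Finset.card_sdiff_add_card_eq_card h1
    rw [Finset.card_pair hfg] at h2
    exact h2
  have hnbr4 : ∀ z, z ∈ nbr S Fs x → z ∉ f → z ∉ g → (ft Fs x).card = 4 := by
    intro z hz hzf hzg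
    have h1 := Finset.card_le_card (hsub z hzf hzg)
    rw [cm_card_nbr h hz] at h1
    rcases hgd with h2 | h2
    · omega
    · have := h2.1
      omega
  have hopp3 : (∃ m ∈ Q, x ∈ m) → (ft Fs x).card ≤ 3 := by
    rintro ⟨m, hm, hxm⟩
    rcases hgd with h1 | ⟨_, h2⟩
    · exact h1
    · exact absurd hxm (h2 m hm)
  intro z hz w hw hzx hwx hHz hHw hzf hzg hwf hwg
  rcases hcase z hzx hHz hzf hzg with h1 | ⟨m, hm, hxm, hzm, hzn⟩
  · have h4 := hnbr4 z h1 hzf hzg
    rcases hcase w hwx hHw hwf hwg with h2 | ⟨m, hm, hxm, _⟩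
    · left
      by_contra hne
      have e1 : cm Fs x z = ft Fs x \ {f, g} :=
        Finset.eq_of_subset_of_card_le (hsub z hzf hzg) (by rw [cm_card_nbr h h1]; omega)
      have e2 : cm Fs x w = ft Fs x \ {f, g} :=
        Finset.eq_of_subset_of_card_le (hsub w hwf hwg) (by rw [cm_card_nbr h h2]; omega)
      have hc2 : (ft Fs x \ {f, g}).card = 2 := by omega
      obtain ⟨s, t, hst, hEq⟩ := Finset.card_eq_two.mp hc2
      have hs1 : s ∈ cm Fs x z := by rw [e1, hEq]; simp
      have ht1 : t ∈ cm Fs x z := by rw [e1, hEq]; simp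
      have hs2 : s ∈ cm Fs x w := by rw [e2, hEq]; simp
      have ht2 : t ∈ cm Fs x w := by rw [e2, hEq]; simp
      rw [mem_cm] at hs1 ht1 hs2 ht2
      have h3 := h.inter s hs1.1 t ht1.1 hst
      have h5 : ({x, z, w} : Finset P) ⊆ s ∩ t := by
        intro a ha
        rw [mem_insert, mem_insert, mem_singleton] at ha
        rw [mem_inter]
        rcases ha with rfl | rfl | rfl
        · exact ⟨hs1.2.1, ht1.2.1⟩
        · exact ⟨hs1.2.2, ht1.2.2⟩
        · exact ⟨hs2.2.2, ht2.2.2⟩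
      have h6 : ({x, z, w} : Finset P).card = 3 :=
        Finset.card_eq_three.mpr ⟨x, z, w, hzx.symm, hwx.symm, hne, rfl⟩
      have h7 := Finset.card_le_card h5
      omega
    · have := hopp3 ⟨m, hm, hxm⟩
      omega
  · have h3 := hopp3 ⟨m, hm, hxm⟩
    rcases hcase w hwx hHw hwf hwg with h2 | ⟨m', hm', hxm', hwm', hwn⟩
    · have := hnbr4 w h2 hwf hwg
      omega
    · -- m = m'
      have hmm : m' = m := by
        by_contra hne
        have hsub3 : ({m, m'} : Finset (Finset P)) ⊆ ft Fs x \ {f, g} := by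
          intro G hG
          rw [mem_insert, mem_singleton] at hG
          rw [mem_sdiff, mem_ft, mem_insert, mem_singleton]
          rcases hG with rfl | rfl
          · refine ⟨⟨hQF hm, hxm⟩, ?_⟩
            rintro (rfl | rfl)
            · exact hfQ hm
            · exact hgQ hm
          · refine ⟨⟨hQF hm', hxm'⟩, ?_⟩
            rintro (rfl | rfl)
            · exact hfQ hm'
            · exact hgQ hm'
        have h5 := Finset.card_le_card hsub3
        rw [Finset.card_pair (fun hE => hne hE.symm)] at h5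
        omega
      rw [hmm] at hwm'
      by_cases hzw : z = w
      · exact Or.inl hzw
      · right
        exact ⟨m, hm, hzm, hwm', penta h (hQF hm) (hQ5 m hm) hxm hzm hwm' hzx hwx hzw hzn hwn⟩

end

/-- the theorem with pairs of colours. -/
theorem combB_56 (hV : StVizing) (P : Type) [DecidableEq P] (S : Finset P)
    (Fs Q : Finset (Finset P)) (k n : ℕ) (hkn : 2 * (k / 2) + 1 ≤ n) (h : FSys S Fs)
    (hQF : Q ⊆ Fs) (hQ5 : ∀ F ∈ Q, F.card ≤ 5)
    (hgl : ∀ x ∈ S, LightN S Fs k n x ∨ (Good Fs Q k x ∧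
      ∃ u ∈ S, u ≠ x ∧ Good Fs Q k u ∧ ∀ F ∈ ess Fs Q k, x ∈ F → u ∈ F)) :
    ∃ col : P → Fin (n + 1), ∀ F ∈ Fs, F.card ≤ k → Set.InjOn col (F : Set P) := by
  classical
  set e : P → Finset (Finset P) := fun x => (ess Fs Q k).filter (fun F => x ∈ F) with he
  have memE : ∀ x F, F ∈ e x ↔ F ∈ ess Fs Q k ∧ x ∈ F := by
    intro x F
    simp [he]
  have hEsub : ∀ x u, Good Fs Q k x → Good Fs Q k u → (∀ F ∈ ess Fs Q k, x ∈ F → u ∈ F) →
      e x = e u := by
    intro x u hx hu hxu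
    have h1 : e x ⊆ e u := by
      intro F hF
      rw [memE] at hF ⊢
      exact ⟨hF.1, hxu F hF.1 hF.2⟩
    exact Finset.eq_of_subset_of_card_le h1 (le_of_eq (hu.1.trans hx.1.symm))
  set X : Finset P := S.filter (fun x => Good Fs Q k x ∧
      ∃ u ∈ S, u ≠ x ∧ Good Fs Q k u ∧ e x = e u) with hX
  have hXS : X ⊆ S := Finset.filter_subset _ _
  have hXmem : ∀ x, x ∈ X ↔ x ∈ S ∧ Good Fs Q k x ∧
      ∃ u ∈ S, u ≠ x ∧ Good Fs Q k u ∧ e x = e u := by
    intro x; simp [hX]
  have hXpart : ∀ x ∈ X, ∃ u ∈ X, u ≠ x ∧ e x = e u := by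
    intro x hx
    obtain ⟨hxS, hxG, u, huS, hux, huG, hE⟩ := (hXmem x).mp hx
    exact ⟨u, (hXmem u).mpr ⟨huS, huG, x, hxS, hux.symm, hxG, hE.symm⟩, hux, hE⟩
  -- units
  set T : Finset (Finset (Finset P)) := X.image e with hT
  have hT2 : ∀ t : T, ∃ f g : Finset P, f ≠ g ∧ t.1 = {f, g} := by
    intro t
    obtain ⟨x, hx, hxt⟩ := Finset.mem_image.mp t.2
    apply Finset.card_eq_two.mp
    rw [← hxt]
    exact ((hXmem x).mp hx).2.1.1
  choose p q hpq1 hpq2 using hT2
  have hTess : ∀ t : T, ∀ F ∈ t.1, F ∈ ess Fs Q k := by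
    intro t F hF
    obtain ⟨x, hx, hxt⟩ := Finset.mem_image.mp t.2
    rw [← hxt, memE] at hF
    exact hF.1
  have hp : ∀ t : T, p t ∈ t.1 := by
    intro t; rw [hpq2]; simp
  have hq : ∀ t : T, q t ∈ t.1 := by
    intro t; rw [hpq2]; simp
  obtain ⟨ψ, hψ⟩ := hV T (Finset P) p q (k / 2) 1 hpq1 (by
    intro v
    by_cases hv : v ∈ ess Fs Q k
    · set Tv : Finset (Finset (Finset P)) := T.filter (fun t => v ∈ t) with hTv
      have h0 : (univ.filter (fun t : T => p t = v ∨ q t = v)).card ≤ Tv.card := by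
        apply Finset.card_le_card_of_injOn (fun t => t.1)
        · intro t ht
          simp only [coe_filter, mem_univ, true_and, Set.mem_ofPred_eq] at ht
          simp only [hTv, coe_filter, Set.mem_ofPred_eq]
          refine ⟨t.2, ?_⟩
          rcases ht with rfl | rfl
          · exact hp t
          · exact hq t
        · intro x _ y _ hxy
          exact Subtype.ext hxy
      set U : Finset P := X.filter (fun x => x ∈ v) with hU
      have hUv : U.card ≤ v.card := by
        apply Finset.card_le_card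
        intro x hx
        exact (mem_filter.mp hx).2
      have hmaps : ∀ x ∈ U, e x ∈ Tv := by
        intro x hx
        rw [hU, mem_filter] at hx
        rw [hTv, mem_filter, memE]
        exact ⟨Finset.mem_image_of_mem e hx.1, hv, hx.2⟩
      have hfib := Finset.card_eq_sum_card_fiberwise (s := U) (t := Tv) (f := e) hmaps
      have hge : Tv.card • 2 ≤ ∑ b ∈ Tv, (U.filter (fun a => e a = b)).card := by
        apply Finset.card_nsmul_le_sum
        intro t ht
        rw [hTv, mem_filter] at ht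
        obtain ⟨x, hx, hxt⟩ := Finset.mem_image.mp ht.1
        obtain ⟨u, hu, hux, hxu⟩ := hXpart x hx
        have hvx : v ∈ e x := by rw [hxt]; exact ht.2
        have hvu : v ∈ e u := by rw [← hxu]; exact hvx
        have hsub : ({x, u} : Finset P) ⊆ U.filter (fun a => e a = t) := by
          intro a ha
          rw [mem_insert, mem_singleton] at ha
          rw [mem_filter, hU, mem_filter]
          rcases ha with rfl | rfl
          · exact ⟨⟨hx, ((memE _ _).mp hvx).2⟩, hxt⟩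
          · exact ⟨⟨hu, ((memE _ _).mp hvu).2⟩, by rw [← hxu]; exact hxt⟩
        have := Finset.card_le_card hsub
        rw [Finset.card_pair hux.symm] at this
        exact this
      have hvk := (mem_ess.mp hv).2.2.1
      rw [smul_eq_mul, ← hfib] at hge
      omega
    · have h1 : univ.filter (fun t : T => p t = v ∨ q t = v) = ∅ := by
        apply Finset.filter_eq_empty_iff.mpr
        intro t _ ht
        rcases ht with rfl | rfl
        · exact hv (hTess t _ (hp t))
        · exact hv (hTess t _ (hq t))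
      rw [h1]
      simp) (by
    intro u v huv
    apply Finset.card_le_one.mpr
    intro s hs t ht
    simp only [mem_filter, mem_univ, true_and] at hs ht
    apply Subtype.ext
    rw [hpq2 s, hpq2 t]
    rcases hs with ⟨h1, h2⟩ | ⟨h1, h2⟩ <;> rcases ht with ⟨h3, h4⟩ | ⟨h3, h4⟩ <;>
      rw [h1, h2, h3, h4] <;> first | rfl | exact Finset.pair_comm _ _) le_rfl
  -- colour of a vertex: the colour of its unit and a bit
  let un : X → T := fun x => ⟨e x.1, Finset.mem_image_of_mem e x.2⟩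
  have hψun : ∀ x y : X, e x.1 ≠ e y.1 → ∀ F, F ∈ e x.1 → F ∈ e y.1 → ψ (un x) ≠ ψ (un y) := by
    intro x y hne F hFx hFy
    apply hψ (un x) (un y) (fun hE => hne (Subtype.mk.inj hE))
    have h1 : F ∈ (un x).1 := hFx
    have h2 : F ∈ (un y).1 := hFy
    rw [hpq2, mem_insert, mem_singleton] at h1 h2
    rcases h1 with h1 | h1 <;> rcases h2 with h2 | h2 <;> rw [← h1, ← h2] <;> simp
  have hrep : ∀ t : T, ∃ x : X, un x = t := by
    intro t
    obtain ⟨x, hx, hxt⟩ := Finset.mem_image.mp t.2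
    exact ⟨⟨x, hx⟩, Subtype.ext hxt⟩
  choose rep hrep1 using hrep
  let φ : X → Fin (k / 2 + 1) × Bool := fun x => (ψ (un x), decide (x = rep (un x)))
  have huniq : ∀ x y z : X, x ≠ y → x ≠ z → e x.1 = e y.1 → e x.1 = e z.1 → y = z := by
    intro x y z hxy hxz hey hez
    by_contra hyz
    have hpx : p (un x) ∈ e x.1 := hp (un x)
    have hqx : q (un x) ∈ e x.1 := hq (un x)
    have h1 := h.inter (p (un x)) (mem_ess.mp ((memE _ _).mp hpx).1).1 (q (un x))
      (mem_ess.mp ((memE _ _).mp hqx).1).1 (hpq1 (un x))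
    have hsub : ({x.1, y.1, z.1} : Finset P) ⊆ p (un x) ∩ q (un x) := by
      intro a ha
      rw [mem_insert, mem_insert, mem_singleton] at ha
      rw [mem_inter]
      rcases ha with rfl | rfl | rfl
      · exact ⟨((memE _ _).mp hpx).2, ((memE _ _).mp hqx).2⟩
      · rw [hey] at hpx hqx
        exact ⟨((memE _ _).mp hpx).2, ((memE _ _).mp hqx).2⟩
      · rw [hez] at hpx hqx
        exact ⟨((memE _ _).mp hpx).2, ((memE _ _).mp hqx).2⟩
    have h6 : ({x.1, y.1, z.1} : Finset P).card = 3 :=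
      Finset.card_eq_three.mpr ⟨x.1, y.1, z.1, fun hE => hxy (Subtype.ext hE),
        fun hE => hxz (Subtype.ext hE), fun hE => hyz (Subtype.ext hE), rfl⟩
    have h7 := Finset.card_le_card hsub
    omega
  have hφp : ∀ x y : X, x ≠ y → e x.1 = e y.1 → φ x ≠ φ y := by
    intro x y hxy hE hφE
    have hun : un x = un y := Subtype.ext hE
    have h2 : decide (x = rep (un x)) = decide (y = rep (un y)) := congrArg Prod.snd hφE
    have hr : un (rep (un x)) = un x := hrep1 (un x)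
    have hr' : e (rep (un x)).1 = e x.1 := congrArg Subtype.val hr
    by_cases hx : x = rep (un x)
    · have hy : y = rep (un y) := by
        have h3 : decide (x = rep (un x)) = true := decide_eq_true hx
        rw [h3] at h2
        exact of_decide_eq_true h2.symm
      apply hxy
      rw [hx, hy, hun]
    · have hy : ¬ (y = rep (un y)) := by
        have h3 : decide (x = rep (un x)) = false := decide_eq_false hx
        rw [h3] at h2
        exact of_decide_eq_false h2.symm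
      apply hy
      rw [← hun]
      exact huniq x y (rep (un x)) hxy hx hE hr'.symm
  have hcommon : ∀ x y : X, x ≠ y → ∀ F ∈ ess Fs Q k, x.1 ∈ F → y.1 ∈ F → φ x ≠ φ y := by
    intro x y hxy F hF hxF hyF
    by_cases hE : e x.1 = e y.1
    · exact hφp x y hxy hE
    · intro hφE
      exact hψun x y hE F ((memE _ _).mpr ⟨hF, hxF⟩) ((memE _ _).mpr ⟨hF, hyF⟩)
        (congrArg Prod.fst hφE)
  obtain ⟨σ, hσ1, hσ2, hσ3⟩ := exists_inv_56 (fun x y : X => x ≠ y ∧ e x.1 = e y.1)
    (fun x y hxy => ⟨hxy.1.symm, hxy.2.symm⟩)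
    (fun x y z hxy hxz => huniq x y z hxy.1 hxz.1 hxy.2 hxz.2)
  have hσne : ∀ x : X, σ x ≠ x := by
    intro x
    obtain ⟨u, hu, hux, hxu⟩ := hXpart x.1 x.2
    have := hσ3 x ⟨u, hu⟩ ⟨fun hE => hux (by rw [hE]), hxu⟩
    rw [this]
    exact fun hE => hux (by rw [← hE])
  obtain ⟨τ, hτ1, hτ2, hτ3⟩ := exists_inv_56 (fun x y : X => (x ≠ y ∧ Hc Fs k x.1 y.1 ∧
      ∀ F ∈ ess Fs Q k, x.1 ∈ F → y.1 ∉ F) ∧ ψ (un x) = ψ (un y))
    (by
      rintro x y ⟨⟨h1, ⟨F, hF, hFk, hxF, hyF⟩, h3⟩, h4⟩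
      exact ⟨⟨h1.symm, ⟨F, hF, hFk, hyF, hxF⟩, fun G hG hyG hxG => h3 G hG hxG hyG⟩, h4.symm⟩)
    (by
      rintro x y z ⟨⟨h1, h2, h3⟩, h7⟩ ⟨⟨h4, h5, h6⟩, h8⟩
      apply Subtype.ext
      have hpx : p (un x) ∈ e x.1 := hp (un x)
      have hqx : q (un x) ∈ e x.1 := hq (un x)
      have hpx' := (memE _ _).mp hpx
      have hqx' := (memE _ _).mp hqx
      rcases conflictB h hQF hQ5 (hpq1 (un x)) (hpq2 (un x)) ((hXmem x.1).mp x.2).2.1.2
        y.1 (hXS y.2) z.1 (hXS z.2) (fun hE => h1 (Subtype.ext hE.symm))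
        (fun hE => h4 (Subtype.ext hE.symm)) h2 h5 (h3 _ hpx'.1 hpx'.2)
        (h3 _ hqx'.1 hqx'.2) (h6 _ hpx'.1 hpx'.2) (h6 _ hqx'.1 hqx'.2) with hE | ⟨m, hm, hym, hzm, hnb⟩
      · exact hE
      · exfalso
        -- y and z are neighbours on m
        have hyG := ((hXmem y.1).mp y.2).2.1
        have hy3 : (ft Fs y.1).card ≤ 3 := by
          rcases hyG.2 with h9 | h9
          · exact h9
          · exact absurd hym (h9.2 m hm)
        have hmess : m ∉ ess Fs Q k := fun hE => (mem_ess.mp hE).2.2.2 hm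
        have hsub1 : e y.1 ⊆ ft Fs y.1 := by
          intro F hF
          rw [memE] at hF
          exact mem_ft.mpr ⟨(mem_ess.mp hF.1).1, hF.2⟩
        have hmft : m ∈ ft Fs y.1 := mem_ft.mpr ⟨hQF hm, hym⟩
        have hins : (insert m (e y.1)).card = 3 := by
          rw [Finset.card_insert_of_notMem (fun hE => hmess ((memE _ _).mp hE).1)]
          have : (e y.1).card = 2 := hyG.1
          omega
        have hft : insert m (e y.1) = ft Fs y.1 := by
          apply Finset.eq_of_subset_of_card_le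
          · exact Finset.insert_subset hmft hsub1
          · omega
        have hcm2 := cm_card_nbr h hnb
        have hmcm : m ∈ cm Fs y.1 z.1 := mem_cm.mpr ⟨hQF hm, hym, hzm⟩
        by_cases hE : e y.1 = e z.1
        · -- three common facets
          have hsub2 : insert m (e y.1) ⊆ cm Fs y.1 z.1 := by
            apply Finset.insert_subset hmcm
            intro F hF
            have hF' := hF
            rw [hE] at hF'
            rw [memE] at hF hF'
            exact mem_cm.mpr ⟨(mem_ess.mp hF.1).1, hF.2, hF'.2⟩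
          have := Finset.card_le_card hsub2
          omega
        · -- another common facet is essential
          have hone : 1 < (cm Fs y.1 z.1).card := by omega
          obtain ⟨F, hF, hFm⟩ := Finset.exists_mem_ne hone m
          rw [mem_cm] at hF
          have hF1 : F ∈ insert m (e y.1) := by
            rw [hft]
            exact mem_ft.mpr ⟨hF.1, hF.2.1⟩
          rw [mem_insert] at hF1
          have hF2 : F ∈ e y.1 := by
            rcases hF1 with h9 | h9
            · exact absurd h9 hFm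
            · exact h9
          have hF3 : F ∈ e z.1 := (memE _ _).mpr ⟨((memE _ _).mp hF2).1, hF.2.2⟩
          exact hψun y z hE F hF2 hF3 (h7.symm.trans h8))
  obtain ⟨π, hπ1, hπ2, hπ3⟩ := stFlip_56 X (Fin (k / 2 + 1) × Bool) σ τ φ hσ1 hτ1
    (fun x _ => hσne x)
    (fun x hx => hφp (σ x) x hx (hσ2 x hx).2.symm)
  have hπe : ∀ x : X, e (π x).1 = e x.1 := by
    intro x
    rcases hπ1 x with h1 | h1
    · rw [h1]
    · rw [h1]
      exact (hσ2 x (hσne x)).2.symm
  have hfinal : ∀ x y : X, x ≠ y → Hc Fs k x.1 y.1 → φ (π x) ≠ φ (π y) := by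
    intro x y hxy hH
    by_cases hc : ∃ F ∈ ess Fs Q k, x.1 ∈ F ∧ y.1 ∈ F
    · obtain ⟨F, hF, hxF, hyF⟩ := hc
      apply hcommon (π x) (π y) (fun hE => hxy (hπ2 hE)) F hF
      · have : F ∈ e x.1 := (memE _ _).mpr ⟨hF, hxF⟩
        rw [← hπe] at this
        exact ((memE _ _).mp this).2
      · have : F ∈ e y.1 := (memE _ _).mpr ⟨hF, hyF⟩
        rw [← hπe] at this
        exact ((memE _ _).mp this).2
    · have hc' : ∀ F ∈ ess Fs Q k, x.1 ∈ F → y.1 ∉ F :=
        fun F hF hxF hyF => hc ⟨F, hF, hxF, hyF⟩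
      by_cases hψE : ψ (un x) = ψ (un y)
      · have h1 : τ x = y := hτ3 x y ⟨⟨hxy, hH, hc'⟩, hψE⟩
        rw [← h1]
        apply hπ3
        rw [h1]
        exact hxy.symm
      · intro hφE
        apply hψE
        have h1 : ψ (un (π x)) = ψ (un (π y)) := congrArg Prod.fst hφE
        have h2 : un (π x) = un x := Subtype.ext (hπe x)
        have h3 : un (π y) = un y := Subtype.ext (hπe y)
        rw [h2, h3] at h1
        exact h1
  -- embedding of the colours
  let ι : Fin (k / 2 + 1) × Bool → Fin (n + 1) :=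
    fun a => ⟨2 * a.1.1 + (if a.2 then 1 else 0), by
      have := a.1.2
      split <;> omega⟩
  have hι : Function.Injective ι := by
    rintro ⟨a, b⟩ ⟨c, d⟩ hE
    have h1 : 2 * a.1 + (if b then 1 else 0) = 2 * c.1 + (if d then 1 else 0) :=
      congrArg Fin.val hE
    have h2 : a = c := by
      apply Fin.ext
      rcases b <;> rcases d <;> simp at h1 <;> omega
    subst h2
    rcases b <;> rcases d <;> simp at h1 ⊢
  obtain ⟨col, hcol⟩ := stGreedy_56 P S (Hc Fs k) n X
    (fun x => if hx : x ∈ X then ι (φ (π ⟨x, hx⟩)) else 0)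
    (by
      rintro x y ⟨F, hF, hFk, hxF, hyF⟩
      exact ⟨F, hF, hFk, hyF, hxF⟩)
    (by
      intro x hx y hy hxy hH
      simp only [dif_pos hx, dif_pos hy]
      intro hE
      exact hfinal ⟨x, hx⟩ ⟨y, hy⟩ (fun hE => hxy (Subtype.mk.inj hE)) hH (hι hE))
    (by
      intro x hxS hxX
      rcases hgl x hxS with h1 | ⟨hG, u, huS, hux, huG, hxu⟩
      · exact h1
      · exact absurd ((hXmem x).mpr ⟨hxS, hG, u, huS, hux, huG, hEsub x u hG huG hxu⟩) hxX)
    hXS
  refine ⟨col, ?_⟩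
  intro F hF hFk x hx y hy hE
  by_contra hxy
  exact hcol x (h.sub F hF hx) y (h.sub F hF hy) hxy ⟨F, hF, hFk, hx, hy⟩ hE

end Pool.Agent.CY
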