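import Mathlib

/-! List colourings of ladders: an incomplete colouring of largest size is moved around an even
cycle (MP_b6ecfd), helper16. -/

set_option autoImplicit false

namespace Pool.Agent.CY.Rung

open Finset

section hole

variable {W C : Type} [Fintype W] [DecidableEq W] [DecidableEq C]

/-- proper colouring from lists of some of the vertices. -/
def Ok (adj : W → W → Prop) (L : W → Finset C) (φ : W → Option C) : Prop :=
  (∀ u c, φ u = some c → c ∈ L u) ∧ ∀ u v c, adj u v → φ u = some c → φ v ≠ some c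

/-- the number of vertices which are not coloured. -/
def cnt (φ : W → Option C) : ℕ := (univ.filter (fun u => φ u = none)).card

/-- a best colouring with a hole at `y`. -/
def Mx (adj : W → W → Prop) (L : W → Finset C) (φ : W → Option C) (y : W) : Prop :=
  Ok adj L φ ∧ φ y = none ∧ ∀ ψ, Ok adj L ψ → cnt φ ≤ cnt ψ

variable {adj : W → W → Prop} [DecidableRel adj] {L : W → Finset C}

/-- neighbours. -/
def nb (adj : W → W → Prop) [DecidableRel adj] (y : W) : Finset W :=
  univ.filter (fun u => adj y u)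

omit [DecidableEq W] in
theorem mem_nb {y u : W} : u ∈ nb adj y ↔ adj y u := by simp [nb]

omit [DecidableRel adj] [DecidableEq C] in
theorem exists_col (hs : ∀ u v, adj u v → adj v u) (hi : ∀ u, ¬ adj u u) {φ : W → Option C} {y : W}
    (h : Mx adj L φ y) {c : C} (hc : c ∈ L y) : ∃ u, adj y u ∧ φ u = some c := by
  by_contra hcon
  push Not at hcon
  obtain ⟨⟨h1, h2⟩, h3, h4⟩ := h
  have hok : Ok adj L (Function.update φ y (some c)) := by
    constructor
    · intro u d hd
      by_cases hu : u = y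
      · subst hu
        rw [Function.update_self] at hd
        rw [← Option.some.inj hd]; exact hc
      · rw [Function.update_of_ne hu] at hd
        exact h1 u d hd
    · intro u v d huv hd hv
      by_cases hu : u = y
      · subst hu
        rw [Function.update_self] at hd
        by_cases hv' : v = u
        · subst hv'
          exact hi _ huv
        · rw [Function.update_of_ne hv'] at hv
          apply hcon v huv
          rw [hv, ← hd]
      · rw [Function.update_of_ne hu] at hd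
        by_cases hv' : v = y
        · subst hv'
          rw [Function.update_self] at hv
          apply hcon u (hs _ _ huv)
          rw [hd, ← hv]
        · rw [Function.update_of_ne hv'] at hv
          exact h2 u v d huv hd hv
  have h5 := h4 _ hok
  have h6 : cnt (Function.update φ y (some c)) < cnt φ := by
    unfold cnt
    apply Finset.card_lt_card
    rw [Finset.ssubset_iff_of_subset]
    · refine ⟨y, by simp [h3], by simp⟩
    · intro u hu
      simp only [mem_filter, mem_univ, true_and] at hu ⊢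
      by_cases hu' : u = y
      · subst hu'
        simp at hu
      · rw [Function.update_of_ne hu'] at hu
        exact hu
  omega

/-- at a hole the colours of the neighbours are distinct and are the whole list. -/
theorem tight (hs : ∀ u v, adj u v → adj v u) (hi : ∀ u, ¬ adj u u) {φ : W → Option C} {y : W}
    (h : Mx adj L φ y) (hdeg : (nb adj y).card ≤ (L y).card) :
    (L y).card = (nb adj y).card ∧ (∀ u, adj y u → ∃ c ∈ L y, φ u = some c) ∧
      (∀ u v, adj y u → adj y v → φ u = φ v → u = v) := by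
  have hsub : (L y).image some ⊆ (nb adj y).image φ := by
    intro x hx
    obtain ⟨c, hc, rfl⟩ := Finset.mem_image.mp hx
    obtain ⟨u, hu, hu2⟩ := exists_col hs hi h hc
    exact Finset.mem_image.mpr ⟨u, mem_nb.mpr hu, hu2⟩
  have hc1 : ((L y).image some).card = (L y).card :=
    Finset.card_image_of_injective _ (Option.some_injective C)
  have hc2 := Finset.card_le_card hsub
  have hc3 : ((nb adj y).image φ).card ≤ (nb adj y).card := Finset.card_image_le
  have hEq : (L y).image some = (nb adj y).image φ :=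
    Finset.eq_of_subset_of_card_le hsub (by omega)
  have hinj : Set.InjOn φ (nb adj y : Set W) := by
    apply Finset.card_image_iff.mp
    omega
  refine ⟨by omega, ?_, ?_⟩
  · intro u hu
    have : φ u ∈ (L y).image some := by
      rw [hEq]
      exact Finset.mem_image_of_mem φ (mem_nb.mpr hu)
    obtain ⟨c, hc, hc'⟩ := Finset.mem_image.mp this
    exact ⟨c, hc, hc'.symm⟩
  · intro u v hu hv hE
    exact hinj (mem_coe.mpr (mem_nb.mpr hu)) (mem_coe.mpr (mem_nb.mpr hv)) hE

/-- moving the hole. -/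
theorem move (hs : ∀ u v, adj u v → adj v u) (hi : ∀ u, ¬ adj u u) {φ : W → Option C} {y u : W}
    (h : Mx adj L φ y) (hdeg : (nb adj y).card ≤ (L y).card) (hyu : adj y u) :
    Mx adj L (φ ∘ Equiv.swap y u) u := by
  obtain ⟨_, t2, t3⟩ := tight hs hi h hdeg
  obtain ⟨⟨h1, h2⟩, h3, h4⟩ := h
  have hne : u ≠ y := fun hE => hi y (hE ▸ hyu)
  have e1 : (φ ∘ Equiv.swap y u) y = φ u := by simp
  have e2 : (φ ∘ Equiv.swap y u) u = none := by simp [h3]
  have e3 : ∀ w, w ≠ y → w ≠ u → (φ ∘ Equiv.swap y u) w = φ w := by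
    intro w hw1 hw2
    simp [Equiv.swap_apply_of_ne_of_ne hw1 hw2]
  have key : ∀ v, adj y v → v ≠ u → ∀ d, φ u = some d → φ v ≠ some d := by
    intro v hv hvu d hd hd'
    exact hvu (t3 v u hv hyu (hd'.trans hd.symm))
  refine ⟨⟨?_, ?_⟩, e2, ?_⟩
  · intro w d hd
    by_cases hw1 : w = y
    · rw [hw1, e1] at hd
      obtain ⟨c, hc, hc'⟩ := t2 u hyu
      rw [hd] at hc'
      rw [hw1, Option.some.inj hc']
      exact hc
    · by_cases hw2 : w = u
      · rw [hw2, e2] at hd
        exact absurd hd (by simp)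
      · rw [e3 w hw1 hw2] at hd
        exact h1 w d hd
  · intro w v d hwv hd hv
    by_cases hw1 : w = y
    · rw [hw1] at hd hwv
      rw [e1] at hd
      have hvy : v ≠ y := fun hE => hi y (hE ▸ hwv)
      by_cases hvu : v = u
      · rw [hvu, e2] at hv
        exact absurd hv (by simp)
      · rw [e3 v hvy hvu] at hv
        exact key v hwv hvu d hd hv
    · by_cases hw2 : w = u
      · rw [hw2, e2] at hd
        exact absurd hd (by simp)
      · rw [e3 w hw1 hw2] at hd
        by_cases hvy : v = y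
        · rw [hvy] at hv hwv
          rw [e1] at hv
          exact key w (hs _ _ hwv) hw2 d hv hd
        · by_cases hvu : v = u
          · rw [hvu, e2] at hv
            exact absurd hv (by simp)
          · rw [e3 v hvy hvu] at hv
            exact h2 w v d hwv hd hv
  · intro ψ hψ
    have h5 := h4 ψ hψ
    have h6 : cnt (φ ∘ Equiv.swap y u) = cnt φ := by
      unfold cnt
      apply Finset.card_bij (fun w _ => Equiv.swap y u w)
      · intro w hw
        simpa using hw
      · intro a _ b _ hab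
        exact (Equiv.swap y u).injective hab
      · intro b hb
        refine ⟨Equiv.swap y u b, ?_, by simp⟩
        simpa using hb
    omega

/-- the hole moves along a path. -/
theorem path (hs : ∀ u v, adj u v → adj v u) (hi : ∀ u, ¬ adj u u)
    (hdeg : ∀ w, (nb adj w).card ≤ (L w).card) {φ : W → Option C} {n : ℕ} (y : ℕ → W)
    (h : Mx adj L φ (y 0)) (hinj : ∀ i j, i ≤ n → j ≤ n → y i = y j → i = j)
    (hstep : ∀ i, i < n → adj (y i) (y (i + 1))) :
    ∀ j, j ≤ n → ∃ ψ, Mx adj L ψ (y j) ∧ (∀ i, i < j → ψ (y i) = φ (y (i + 1))) ∧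
      (∀ i, j < i → i ≤ n → ψ (y i) = φ (y i)) ∧
      (∀ w, (∀ i, i ≤ n → w ≠ y i) → ψ w = φ w) := by
  intro j
  induction j with
  | zero =>
    intro _
    exact ⟨φ, h, by intro i hi; omega, fun _ _ _ => rfl, fun _ _ => rfl⟩
  | succ j ih =>
    intro hj
    obtain ⟨ψ, h1, h2, h3, h4⟩ := ih (by omega)
    have hne : ∀ i, i ≤ n → i ≠ j → y i ≠ y j := fun i hi hij hE => hij (hinj i j hi (by omega) hE)
    have hne' : ∀ i, i ≤ n → i ≠ j + 1 → y i ≠ y (j + 1) :=
      fun i hi hij hE => hij (hinj i (j + 1) hi hj hE)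
    refine ⟨ψ ∘ Equiv.swap (y j) (y (j + 1)), move hs hi h1 (hdeg _) (hstep j (by omega)), ?_, ?_,
      ?_⟩
    · intro i hi
      by_cases hij : i = j
      · subst hij
        simp only [Function.comp_apply, Equiv.swap_apply_left]
        exact h3 (i + 1) (by omega) hj
      · simp only [Function.comp_apply]
        rw [Equiv.swap_apply_of_ne_of_ne (hne i (by omega) hij) (hne' i (by omega) (by omega))]
        exact h2 i (by omega)
    · intro i hi1 hi2
      simp only [Function.comp_apply]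
      rw [Equiv.swap_apply_of_ne_of_ne (hne i (by omega) (by omega)) (hne' i (by omega) (by omega))]
      exact h3 i (by omega) hi2
    · intro w hw
      simp only [Function.comp_apply]
      rw [Equiv.swap_apply_of_ne_of_ne (hw j (by omega)) (hw (j + 1) hj)]
      exact h4 w hw

/-- one round, and what it says at `y 0`. -/
theorem round (hs : ∀ u v, adj u v → adj v u) (hi : ∀ u, ¬ adj u u)
    (hdeg : ∀ w, (nb adj w).card ≤ (L w).card) {n : ℕ} (h3n : 3 ≤ n) (y : ℕ → W)
    (hinj : ∀ i j, i ≤ n → j ≤ n → y i = y j → i = j)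
    (hstep : ∀ i, i < n → adj (y i) (y (i + 1))) (hclose : adj (y n) (y 0))
    (hchord : ∀ i, 2 ≤ i → i < n → ¬ adj (y 0) (y i)) {φ : W → Option C}
    (h : Mx adj L φ (y 0)) :
    φ (y n) = φ (y 2) ∧ ∃ ψ, Mx adj L ψ (y 0) ∧
      (∀ i, 1 ≤ i → i < n → ψ (y i) = φ (y (i + 1))) ∧ ψ (y n) = φ (y 1) := by
  obtain ⟨ψ0, h1, h2, _, h4⟩ := path hs hi hdeg y h hinj hstep n le_rfl
  have hne : ∀ i, 1 ≤ i → i < n → y i ≠ y n ∧ y i ≠ y 0 := by
    intro i hi1 hi2
    constructor
    · intro hE
      have := hinj i n (by omega) le_rfl hE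
      omega
    · intro hE
      have := hinj i 0 (by omega) (by omega) hE
      omega
  have hmx := move hs hi h1 (hdeg _) hclose
  set ψ := ψ0 ∘ Equiv.swap (y n) (y 0) with hψ
  have e1 : ∀ i, 1 ≤ i → i < n → ψ (y i) = φ (y (i + 1)) := by
    intro i hi1 hi2
    rw [hψ, Function.comp_apply, Equiv.swap_apply_of_ne_of_ne (hne i hi1 hi2).1 (hne i hi1 hi2).2]
    exact h2 i hi2
  have e2 : ψ (y n) = φ (y 1) := by
    rw [hψ, Function.comp_apply, Equiv.swap_apply_left]
    exact h2 0 (by omega)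
  have e3 : ∀ w, (∀ i, i ≤ n → w ≠ y i) → ψ w = φ w := by
    intro w hw
    rw [hψ, Function.comp_apply, Equiv.swap_apply_of_ne_of_ne (hw n le_rfl) (hw 0 (by omega))]
    exact h4 w hw
  refine ⟨?_, ψ, hmx, e1, e2⟩
  obtain ⟨_, t2, t3⟩ := tight hs hi h (hdeg _)
  obtain ⟨c, hc, hcn⟩ := t2 (y n) (hs _ _ hclose)
  obtain ⟨u, hu, huc⟩ := exists_col hs hi hmx hc
  have hadj1 : adj (y 0) (y 1) := hstep 0 (by omega)
  by_cases hon : ∃ i, i ≤ n ∧ u = y i
  · obtain ⟨i, hin, rfl⟩ := hon
    have hi0 : i ≠ 0 := by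
      rintro rfl
      exact hi _ hu
    by_cases hi1 : i = 1
    · subst hi1
      rw [e1 1 le_rfl (by omega)] at huc
      rw [hcn, huc]
    · by_cases hi2 : i = n
      · subst hi2
        rw [e2] at huc
        have := t3 (y 1) (y i) hadj1 (hs _ _ hclose) (huc.trans hcn.symm)
        have := hinj 1 i (by omega) le_rfl this
        omega
      · exact absurd hu (hchord i (by omega) (by omega))
  · push Not at hon
    rw [e3 u hon] at huc
    have := t3 u (y n) hu (hs _ _ hclose) (huc.trans hcn.symm)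
    exact absurd this (hon n le_rfl)

/-- a hole cannot lie on an even cycle on which it has no chord. -/
theorem no_cycle (hs : ∀ u v, adj u v → adj v u) (hi : ∀ u, ¬ adj u u)
    (hdeg : ∀ w, (nb adj w).card ≤ (L w).card) {n : ℕ} (h3n : 3 ≤ n) (hodd : Odd n) (y : ℕ → W)
    (hinj : ∀ i j, i ≤ n → j ≤ n → y i = y j → i = j)
    (hstep : ∀ i, i < n → adj (y i) (y (i + 1))) (hclose : adj (y n) (y 0))
    (hchord : ∀ i, 2 ≤ i → i < n → ¬ adj (y 0) (y i)) {φ : W → Option C}
    (h : Mx adj L φ (y 0)) : False := by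
  have key : ∀ i, 1 ≤ i → i + 2 ≤ n → ∀ φ : W → Option C, Mx adj L φ (y 0) →
      φ (y i) = φ (y (i + 2)) := by
    intro i hi1
    induction i, hi1 using Nat.le_induction with
    | base =>
      intro hn φ h
      obtain ⟨_, ψ, h1, h2, h3⟩ := round hs hi hdeg h3n y hinj hstep hclose hchord h
      have h4 := (round hs hi hdeg h3n y hinj hstep hclose hchord h1).1
      rw [h3, h2 2 (by omega) (by omega)] at h4
      exact h4
    | succ i hi1 ih =>
      intro hn φ h
      obtain ⟨_, ψ, h1, h2, _⟩ := round hs hi hdeg h3n y hinj hstep hclose hchord h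
      have h4 := ih (by omega) ψ h1
      rw [h2 i (by omega) (by omega), h2 (i + 2) (by omega) (by omega)] at h4
      exact h4
  have key2 : ∀ t, 1 + 2 * t ≤ n → φ (y (1 + 2 * t)) = φ (y 1) := by
    intro t
    induction t with
    | zero => intro _; rfl
    | succ t ih =>
      intro hn
      rw [← ih (by omega)]
      exact (key (1 + 2 * t) (by omega) (by omega) φ h).symm
  obtain ⟨t, ht⟩ := hodd
  have h1 := key2 t (by omega)
  have h2 : 1 + 2 * t = n := by omega
  rw [h2] at h1
  obtain ⟨_, _, t3⟩ := tight hs hi h (hdeg _)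
  have h3 := t3 (y n) (y 1) (hs _ _ hclose) (hstep 0 (by omega)) h1
  have := hinj n 1 le_rfl (by omega) h3
  omega

/-- four cycles. -/
theorem no_four (hs : ∀ u v, adj u v → adj v u) (hi : ∀ u, ¬ adj u u)
    (hdeg : ∀ w, (nb adj w).card ≤ (L w).card) {p q r s : W} (hpq : adj p q) (hqr : adj q r)
    (hrs : adj r s) (hsp : adj s p) (hpr : ¬ adj p r) (hne : p ≠ r) (hne' : q ≠ s)
    (h : ∃ φ, Mx adj L φ p) : False := by
  obtain ⟨φ, h⟩ := h
  have nq : p ≠ q := fun hE => hi p (hE ▸ hpq)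
  have nr : q ≠ r := fun hE => hi q (hE ▸ hqr)
  have ns : r ≠ s := fun hE => hi r (hE ▸ hrs)
  have np : s ≠ p := fun hE => hi s (hE ▸ hsp)
  set y : ℕ → W := fun i => if i = 0 then p else if i = 1 then q else if i = 2 then r else s with hy
  have y0 : y 0 = p := by simp [hy]
  have y1 : y 1 = q := by simp [hy]
  have y2 : y 2 = r := by simp [hy]
  have y3 : y 3 = s := by simp [hy]
  apply no_cycle hs hi hdeg (n := 3) le_rfl (by decide) y
  · intro i j hi' hj' hE
    interval_cases i <;> interval_cases j <;> first | rfl | skip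
    all_goals (exfalso; simp only [y0, y1, y2, y3] at hE)
    all_goals first
      | exact nq hE | exact nq hE.symm | exact nr hE | exact nr hE.symm | exact ns hE
      | exact ns hE.symm | exact np hE | exact np hE.symm | exact hne hE | exact hne hE.symm
      | exact hne' hE | exact hne' hE.symm
  · intro i hi'
    interval_cases i
    · rw [y0, y1]; exact hpq
    · rw [y1, y2]; exact hqr
    · rw [y2, y3]; exact hrs
  · rw [y3, y0]; exact hsp
  · intro i hi1 hi2
    have : i = 2 := by omega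
    subst this
    rw [y0, y2]; exact hpr
  · rw [y0]; exact h

end hole

section ladder

variable {W Φ C : Type} [Fintype W] [DecidableEq W] [DecidableEq C]

/-- conflicts of the ends of rungs: same face, partners, diagonals. -/
def Adj (F : W → Φ) (τ : W → W) (Dg : W → W → Prop) (u v : W) : Prop :=
  u ≠ v ∧ (F u = F v ∨ v = τ u ∨ Dg u v)

variable {F : W → Φ} {τ : W → W} {Dg : W → W → Prop} {L : W → Finset C}

/-- the third vertex of a face with a diagonal. -/
theorem third [DecidableRel (Adj F τ Dg)] (hτ : ∀ w, τ (τ w) = w) (hFτ : ∀ w, F (τ w) ≠ F w)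
    (hs : ∀ u v, Adj F τ Dg u v → Adj F τ Dg v u) (hi : ∀ u, ¬ Adj F τ Dg u u)
    (hdeg : ∀ w, (nb (Adj F τ Dg) w).card ≤ (L w).card)
    (hD1 : ∀ y b, Dg y b → Dg b y) (hD2 : ∀ y b, Dg y b → F (τ b) = F y ∧ F b = F (τ y))
    (hD3 : ∀ y b, Dg y b → Dg (τ y) (τ b))
    (htri : ∀ v a y, v ≠ a → v ≠ y → a ≠ y → F v = F y → F a = F y → Dg y (τ a) →
      ¬ (Adj F τ Dg v (τ a) ∧ Adj F τ Dg v (τ y)))
    (hR : ∀ u v, (∃ φ, Mx (Adj F τ Dg) L φ u) → Adj F τ Dg u v → ∃ φ, Mx (Adj F τ Dg) L φ v)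
    {y b v : W} (hyb : Dg y b) (hb : b ≠ τ y) (hy : ∃ φ, Mx (Adj F τ Dg) L φ y)
    (hv : F v = F y) (hvy : v ≠ y) : v = τ b := by
  by_contra hva
  have hay : τ b ≠ y := fun hE => hb (by rw [← hE, hτ])
  have hFa : F (τ b) = F y := (hD2 y b hyb).1
  have hFb : F b = F (τ y) := (hD2 y b hyb).2
  have hvR : ∃ φ, Mx (Adj F τ Dg) L φ v := hR y v hy ⟨hvy.symm, Or.inl hv.symm⟩
  have hτb : τ b ≠ b := fun hE => hFτ b (by rw [hE])
  have hτy : τ y ≠ y := fun hE => hFτ y (by rw [hE])
  have hbF : F b ≠ F y := by rw [hFb]; exact hFτ y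
  have h1 : Adj F τ Dg v (τ y) := by
    by_contra hcon
    -- v, a, c, y
    refine no_four hs hi hdeg (p := v) (q := τ b) (r := τ y) (s := y) ?_ ?_ ?_ ?_ hcon ?_ hay hvR
    · exact ⟨hva, Or.inl (hv.trans hFa.symm)⟩
    · refine ⟨?_, Or.inr (Or.inr (hD1 _ _ (hD3 _ _ hyb)))⟩
      intro hE
      exact hFτ y (by rw [← hE, hFa])
    · exact ⟨hτy, Or.inr (Or.inl (hτ y).symm)⟩
    · exact ⟨hvy.symm, Or.inl hv.symm⟩
    · intro hE
      exact hFτ y (by rw [← hE, hv])
  have h2 : Adj F τ Dg v b := by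
    by_contra hcon
    -- v, a, b, y
    refine no_four hs hi hdeg (p := v) (q := τ b) (r := b) (s := y) ?_ ?_ ?_ ?_ hcon ?_ hay hvR
    · exact ⟨hva, Or.inl (hv.trans hFa.symm)⟩
    · exact ⟨hτb, Or.inr (Or.inl (hτ b).symm)⟩
    · refine ⟨?_, Or.inr (Or.inr (hD1 _ _ hyb))⟩
      intro hE
      exact hbF (by rw [hE])
    · exact ⟨hvy.symm, Or.inl hv.symm⟩
    · intro hE
      exact hbF (by rw [← hE, hv])
  exact htri v (τ b) y hva hvy hay hv hFa (by rw [hτ]; exact hyb) ⟨by rw [hτ]; exact h2, h1⟩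

/-- the ends of the rungs can be coloured. -/
theorem rung_16 (F : W → Φ) (τ : W → W) (Dg : W → W → Prop) (L : W → Finset C)
    (hτ : ∀ w, τ (τ w) = w) (hFτ : ∀ w, F (τ w) ≠ F w)
    (hD1 : ∀ y b, Dg y b → Dg b y) (hD2 : ∀ y b, Dg y b → F (τ b) = F y ∧ F b = F (τ y))
    (hD3 : ∀ y b, Dg y b → Dg (τ y) (τ b))
    (hdeg : ∀ w, ∀ T : Finset W, (∀ u ∈ T, Adj F τ Dg w u) → T.card ≤ (L w).card)
    (hleaf : ∀ w, (∀ u, F u = F w → u = w) →
      ∀ T : Finset W, (∀ u ∈ T, Adj F τ Dg w u) → T.card < (L w).card)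
    (htri : ∀ v a y, v ≠ a → v ≠ y → a ≠ y → F v = F y → F a = F y → Dg y (τ a) →
      ¬ (Adj F τ Dg v (τ a) ∧ Adj F τ Dg v (τ y)))
    (hK4 : ∀ y a, y ≠ a → F a = F y → Dg y (τ a) → (∀ v, F v = F y → v = y ∨ v = a) →
      (∀ v, F v = F (τ y) → v = τ y ∨ v = τ a) →
      3 < (L y).card ∨ 3 < (L a).card ∨ L y ≠ L a) :
    ∃ φ : W → C, (∀ w, φ w ∈ L w) ∧ ∀ u v, Adj F τ Dg u v → φ u ≠ φ v := by
  classical
  have hs : ∀ u v, Adj F τ Dg u v → Adj F τ Dg v u := by
    rintro u v ⟨h1, h2⟩
    refine ⟨h1.symm, ?_⟩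
    rcases h2 with h2 | h2 | h2
    · exact Or.inl h2.symm
    · exact Or.inr (Or.inl (by rw [h2, hτ]))
    · exact Or.inr (Or.inr (hD1 _ _ h2))
  have hi : ∀ u, ¬ Adj F τ Dg u u := fun u hu => hu.1 rfl
  have hdeg' : ∀ w, (nb (Adj F τ Dg) w).card ≤ (L w).card :=
    fun w => hdeg w _ (fun u hu => mem_nb.mp hu)
  -- a best colouring
  obtain ⟨φ, hφ, hφmin⟩ : ∃ φ : W → Option C, Ok (Adj F τ Dg) L φ ∧
      ∀ ψ, Ok (Adj F τ Dg) L ψ → cnt φ ≤ cnt ψ := by
    have hex : ∃ n, ∃ φ : W → Option C, Ok (Adj F τ Dg) L φ ∧ cnt φ = n := by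
      refine ⟨_, fun _ => none, ⟨?_, ?_⟩, rfl⟩
      · intro u c hc; simp at hc
      · intro u v c _ hc; simp at hc
    obtain ⟨φ, h1, h2⟩ := Nat.find_spec hex
    refine ⟨φ, h1, ?_⟩
    intro ψ hψ
    rw [h2]
    exact Nat.find_min' hex ⟨ψ, hψ, rfl⟩
  by_cases hfull : ∀ u, φ u ≠ none
  · have h1 : ∀ u, ∃ c, φ u = some c := fun u => Option.ne_none_iff_exists'.mp (hfull u)
    choose c hc using h1
    refine ⟨c, fun w => hφ.1 w _ (hc w), ?_⟩
    intro u v huv hE
    exact hφ.2 u v _ huv (hc u) (by rw [hE]; exact hc v)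
  exfalso
  push Not at hfull
  obtain ⟨y0, hy0⟩ := hfull
  set R : W → Prop := fun y => ∃ φ, Mx (Adj F τ Dg) L φ y with hRdef
  have hR0 : R y0 := ⟨φ, hφ, hy0, hφmin⟩
  have hR : ∀ u v, R u → Adj F τ Dg u v → R v := by
    rintro u v ⟨ψ, hψ⟩ huv
    exact ⟨_, move hs hi hψ (hdeg' u) huv⟩
  have hτne : ∀ u, τ u ≠ u := fun u hE => hFτ u (by rw [hE])
  have hRτ : ∀ u, R u → R (τ u) := fun u hu => hR u _ hu ⟨(hτne u).symm, Or.inr (Or.inl rfl)⟩
  have htwo : ∀ u, R u → ∃ v, v ≠ u ∧ F v = F u := by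
    rintro u ⟨ψ, hψ⟩
    by_contra hcon
    push Not at hcon
    have h1 := hleaf u (fun v hv => by
      by_contra hne
      exact hcon v hne hv) (nb (Adj F τ Dg) u) (fun v hv => mem_nb.mp hv)
    have h2 := (tight hs hi hψ (hdeg' u)).1
    omega
  -- the walk
  have hnx : ∀ u : {w // R w}, ∃ v : {w // R w}, v.1 ≠ τ u.1 ∧ F v.1 = F (τ u.1) := by
    rintro ⟨u, hu⟩
    obtain ⟨v, hv1, hv2⟩ := htwo (τ u) (hRτ u hu)
    exact ⟨⟨v, hR _ v (hRτ u hu) ⟨hv1.symm, Or.inl hv2.symm⟩⟩, hv1, hv2⟩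
  choose nx hnx1 hnx2 using hnx
  set z : ℕ → {w // R w} := fun n => nx^[n] ⟨y0, hR0⟩ with hz
  have hzs : ∀ n, z (n + 1) = nx (z n) := fun n => Function.iterate_succ_apply' nx n _
  have hz1 : ∀ n, (z (n + 1)).1 ≠ τ (z n).1 := by
    intro n; rw [hzs]; exact hnx1 _
  have hz2 : ∀ n, F (z (n + 1)).1 = F (τ (z n).1) := by
    intro n; rw [hzs]; exact hnx2 _
  have hz3 : ∀ n, F (z (n + 1)).1 ≠ F (z n).1 := by
    intro n; rw [hz2]; exact hFτ _
  have hrep : ∃ j, ∃ i, i < j ∧ F (z i).1 = F (z j).1 := by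
    obtain ⟨i, j, hij, hE⟩ := Finite.exists_ne_map_eq_of_infinite (fun n => (z n).1)
    rcases lt_or_gt_of_ne hij with h | h
    · exact ⟨j, i, h, congrArg F hE⟩
    · exact ⟨i, j, h, congrArg F hE.symm⟩
  obtain ⟨i, hij, hFij⟩ := Nat.find_spec hrep
  have hmin : ∀ a b, a < b → b < Nat.find hrep → F (z a).1 ≠ F (z b).1 := by
    intro a b hab hb hE
    exact Nat.find_min hrep hb ⟨a, hab, hE⟩
  set j := Nat.find hrep with hj
  have hj2 : i + 2 ≤ j := by
    by_contra hcon
    have : j = i + 1 := by omega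
    rw [this] at hFij
    exact hz3 i hFij.symm
  obtain ⟨m, hm⟩ : ∃ m, j = i + m := ⟨j - i, by omega⟩
  have hm2 : 2 ≤ m := by omega
  -- vertices of the cycle
  set yy : ℕ → W := fun s => (z (i + s)).1 with hyy
  have y1 : ∀ s, yy (s + 1) ≠ τ (yy s) := fun s => hz1 (i + s)
  have y2 : ∀ s, F (yy (s + 1)) = F (τ (yy s)) := fun s => hz2 (i + s)
  have yR : ∀ s, R (yy s) := fun s => (z (i + s)).2
  have yd : ∀ a b, a < b → b < m → F (yy a) ≠ F (yy b) :=
    fun a b hab hb => hmin (i + a) (i + b) (by omega) (by omega)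
  have yd' : ∀ a b, a < m → b < m → F (yy a) = F (yy b) → a = b := by
    intro a b ha hb hE
    rcases lt_trichotomy a b with h | h | h
    · exact absurd hE (yd a b h hb)
    · exact h
    · exact absurd hE.symm (yd b a h ha)
  have ym : F (yy m) = F (yy 0) := by
    have : i + m = j := by omega
    simp only [hyy, this, Nat.add_zero]
    exact hFij.symm
  -- the last partner is not the first vertex
  have hlast : τ (yy (m - 1)) ≠ yy 0 := by
    intro hE
    have h1 : yy (m - 1) = τ (yy 0) := by rw [← hE, hτ]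
    have h2 : F (yy (m - 1)) = F (yy 1) := by rw [h1, ← y2 0]
    have h3 := yd' (m - 1) 1 (by omega) (by omega) h2
    rw [h3] at h1
    exact y1 0 h1
  -- faces of the partners
  have yc : ∀ s t, s < m → t < m → F (τ (yy s)) = F (yy t) → t = s + 1 ∨ (t = 0 ∧ s + 1 = m) := by
    intro s t hs' ht hE
    rw [← y2 s] at hE
    by_cases hsm : s + 1 = m
    · rw [hsm, ym] at hE
      exact Or.inr ⟨(yd' 0 t (by omega) ht hE).symm, hsm⟩
    · exact Or.inl (yd' (s + 1) t (by omega) ht hE).symm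
  have ycc : ∀ s t, s < m → t < m → τ (yy s) = τ (yy t) → s = t := by
    intro s t hs' ht hE
    have h1 : yy s = yy t := by rw [← hτ (yy s), hE, hτ]
    exact yd' s t hs' ht (by rw [h1])
  have ycy : ∀ s t, s < m → t < m → τ (yy s) ≠ yy t := by
    intro s t hs' ht hE
    rcases yc s t hs' ht (by rw [hE]) with h1 | ⟨h1, h2⟩
    · rw [h1] at hE
      exact y1 s hE.symm
    · have h3 : s = m - 1 := by omega
      rw [h1, h3] at hE
      exact hlast hE
  -- the cycle itself
  set Y : ℕ → W := fun t => if t % 2 = 0 then yy (t / 2) else τ (yy (t / 2)) with hY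
  have Ye : ∀ s, Y (2 * s) = yy s := by
    intro s
    simp [hY]
  have Yo : ∀ s, Y (2 * s + 1) = τ (yy s) := by
    intro s
    have h1 : (2 * s + 1) % 2 = 1 := by omega
    have h2 : (2 * s + 1) / 2 = s := by omega
    simp only [hY, h1, h2]
    simp
  have par : ∀ t, ∃ s, t = 2 * s ∨ t = 2 * s + 1 := fun t => ⟨t / 2, by omega⟩
  have hYinj : ∀ a b, a ≤ 2 * m - 1 → b ≤ 2 * m - 1 → Y a = Y b → a = b := by
    intro a b ha hb hE
    obtain ⟨s, hs' | hs'⟩ := par a <;> obtain ⟨t, ht | ht⟩ := par b <;> subst hs' <;> subst ht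
    · rw [Ye, Ye] at hE
      have := yd' s t (by omega) (by omega) (by rw [hE])
      omega
    · rw [Ye, Yo] at hE
      exact absurd hE.symm (ycy t s (by omega) (by omega))
    · rw [Ye, Yo] at hE
      exact absurd hE (ycy s t (by omega) (by omega))
    · rw [Yo, Yo] at hE
      have := ycc s t (by omega) (by omega) hE
      omega
  have hYstep : ∀ t, t < 2 * m - 1 → Adj F τ Dg (Y t) (Y (t + 1)) := by
    intro t ht
    obtain ⟨s, hs' | hs'⟩ := par t <;> subst hs'
    · rw [Ye, Yo]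
      exact ⟨(hτne _).symm, Or.inr (Or.inl rfl)⟩
    · have : 2 * s + 1 + 1 = 2 * (s + 1) := by ring
      rw [this, Ye, Yo]
      exact ⟨(y1 s).symm, Or.inl (y2 s).symm⟩
  have hYclose : Adj F τ Dg (Y (2 * m - 1)) (Y 0) := by
    have h1 : 2 * m - 1 = 2 * (m - 1) + 1 := by omega
    have h2 : Y 0 = yy 0 := Ye 0
    rw [h1, Yo, h2]
    refine ⟨hlast, Or.inl ?_⟩
    have h3 := y2 (m - 1)
    have h4 : m - 1 + 1 = m := by omega
    rw [h4, ym] at h3
    exact h3.symm
  have hYodd : Odd (2 * m - 1) := ⟨m - 1, by omega⟩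
  have hY0 : Y 0 = yy 0 := Ye 0
  have hF1 : F (τ (yy 0)) = F (yy 1) := (y2 0).symm
  -- is there a chord at the first vertex
  by_cases hchord : ∀ t, 2 ≤ t → t < 2 * m - 1 → ¬ Adj F τ Dg (Y 0) (Y t)
  · obtain ⟨ψ, hψ⟩ := yR 0
    exact no_cycle hs hi hdeg' (by omega) hYodd Y hYinj hYstep hYclose hchord
      (by rw [hY0]; exact hψ)
  push Not at hchord
  obtain ⟨t, ht1, ht2, _, ht3⟩ := hchord
  rw [hY0] at ht3
  have hm2' : m = 2 ∧ Dg (yy 0) (yy 1) := by
    obtain ⟨s, hs' | hs'⟩ := par t <;> subst hs'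
    · rw [Ye] at ht3
      rcases ht3 with h1 | h1 | h1
      · have := yd' 0 s (by omega) (by omega) h1
        omega
      · exact absurd h1.symm (ycy 0 s (by omega) (by omega))
      · obtain ⟨h2, h3⟩ := hD2 _ _ h1
        rw [hF1] at h3
        have h4 := yd' s 1 (by omega) (by omega) h3
        subst h4
        rcases yc 1 0 (by omega) (by omega) h2 with h5 | h5
        · omega
        · exact ⟨h5.2.symm, h1⟩
    · rw [Yo] at ht3
      rcases ht3 with h1 | h1 | h1
      · rcases yc s 0 (by omega) (by omega) h1.symm with h5 | h5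
        · omega
        · omega
      · have := ycc s 0 (by omega) (by omega) h1
        omega
      · obtain ⟨_, h3⟩ := hD2 _ _ h1
        rw [hF1] at h3
        rcases yc s 1 (by omega) (by omega) h3 with h5 | h5
        · omega
        · omega
  obtain ⟨hm', hyb⟩ := hm2'
  clear hYclose hYstep hYinj hYodd ht3 ht2 ht1
  -- the ladder with two rungs in a common quadrilateral
  set y := yy 0 with hy
  set b := yy 1 with hb
  have hbc : b ≠ τ y := y1 0
  have hay : τ b ≠ y := fun hE => hbc (by rw [← hE, hτ])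
  have hFa : F (τ b) = F y := (hD2 y b hyb).1
  have hFb : F b = F (τ y) := (hD2 y b hyb).2
  have hyR : R y := yR 0
  have hca : Dg (τ y) (τ b) := hD3 _ _ hyb
  have hfib1 : ∀ v, F v = F y → v = y ∨ v = τ b := by
    intro v hv
    by_cases hvy : v = y
    · exact Or.inl hvy
    · exact Or.inr (third hτ hFτ hs hi hdeg' hD1 hD2 hD3 htri hR hyb hbc hyR hv hvy)
  have hfib2 : ∀ v, F v = F (τ y) → v = τ y ∨ v = b := by
    intro v hv
    by_cases hvy : v = τ y
    · exact Or.inl hvy
    · have h1 := third hτ hFτ hs hi hdeg' hD1 hD2 hD3 htri hR hca (by rw [hτ]; exact hay)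
        (hRτ y hyR) hv hvy
      rw [hτ] at h1
      exact Or.inr h1
  obtain ⟨ψ, hψ⟩ := hyR
  have hadj : Adj F τ Dg y (τ b) := ⟨hay.symm, Or.inl hFa.symm⟩
  have hψ' := move hs hi hψ (hdeg' y) hadj
  have hbF : F b ≠ F y := by rw [hFb]; exact hFτ y
  have hby : b ≠ y := fun hE => hbF (by rw [hE])
  have hcy : τ y ≠ y := hτne y
  have hcF : F (τ y) ≠ F y := hFτ y
  have hca' : τ y ≠ τ b := fun hE => hcF (by rw [hE, hFa])
  have hba' : b ≠ τ b := (hτne b).symm
  have hNy : nb (Adj F τ Dg) y = {τ b, b, τ y} := by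
    ext u
    rw [mem_nb, mem_insert, mem_insert, mem_singleton]
    constructor
    · rintro ⟨h1, h2 | h2 | h2⟩
      · rcases hfib1 u h2.symm with h3 | h3
        · exact absurd h3.symm h1
        · exact Or.inl h3
      · exact Or.inr (Or.inr h2)
      · rcases hfib2 u (hD2 _ _ h2).2 with h3 | h3
        · exact Or.inr (Or.inr h3)
        · exact Or.inr (Or.inl h3)
    · rintro (rfl | rfl | rfl)
      · exact hadj
      · exact ⟨hby.symm, Or.inr (Or.inr hyb)⟩
      · exact ⟨hcy.symm, Or.inr (Or.inl rfl)⟩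
  have hNa : nb (Adj F τ Dg) (τ b) = {y, b, τ y} := by
    ext u
    rw [mem_nb, mem_insert, mem_insert, mem_singleton]
    constructor
    · rintro ⟨h1, h2 | h2 | h2⟩
      · rcases hfib1 u (h2.symm.trans hFa) with h3 | h3
        · exact Or.inl h3
        · exact absurd h3.symm h1
      · rw [hτ] at h2
        exact Or.inr (Or.inl h2)
      · have h4 := (hD2 _ _ h2).2
        rw [hτ, hFb] at h4
        rcases hfib2 u h4 with h3 | h3
        · exact Or.inr (Or.inr h3)
        · exact Or.inr (Or.inl h3)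
    · rintro (rfl | rfl | rfl)
      · exact hs _ _ hadj
      · exact ⟨hba'.symm, Or.inr (Or.inl (hτ b).symm)⟩
      · exact ⟨hca'.symm, Or.inr (Or.inr (hD1 _ _ hca))⟩
  have hcard3 : ∀ p q r : W, ({p, q, r} : Finset W).card ≤ 3 := fun p q r => Finset.card_le_three
  have ty := tight hs hi hψ (hdeg' y)
  have ta := tight hs hi hψ' (hdeg' (τ b))
  have hLy : (L y).image some = ({τ b, b, τ y} : Finset W).image ψ := by
    rw [← hNy]
    have hsub : (nb (Adj F τ Dg) y).image ψ ⊆ (L y).image some := by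
      intro x hx
      obtain ⟨u, hu, rfl⟩ := Finset.mem_image.mp hx
      obtain ⟨c, hc, hc'⟩ := ty.2.1 u (mem_nb.mp hu)
      exact Finset.mem_image.mpr ⟨c, hc, hc'.symm⟩
    have hinj : ((nb (Adj F τ Dg) y).image ψ).card = (nb (Adj F τ Dg) y).card := by
      apply Finset.card_image_of_injOn
      intro u hu v hv hE
      exact ty.2.2 u v (mem_nb.mp (mem_coe.mp hu)) (mem_nb.mp (mem_coe.mp hv)) hE
    have h1 : ((L y).image some).card = (L y).card :=
      Finset.card_image_of_injective _ (Option.some_injective C)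
    exact (Finset.eq_of_subset_of_card_le hsub (by rw [h1, hinj, ty.1])).symm
  have hLa : (L (τ b)).image some =
      ({y, b, τ y} : Finset W).image (ψ ∘ Equiv.swap y (τ b)) := by
    rw [← hNa]
    have hsub : (nb (Adj F τ Dg) (τ b)).image (ψ ∘ Equiv.swap y (τ b)) ⊆
        (L (τ b)).image some := by
      intro x hx
      obtain ⟨u, hu, rfl⟩ := Finset.mem_image.mp hx
      obtain ⟨c, hc, hc'⟩ := ta.2.1 u (mem_nb.mp hu)
      exact Finset.mem_image.mpr ⟨c, hc, hc'.symm⟩
    have hinj : ((nb (Adj F τ Dg) (τ b)).image (ψ ∘ Equiv.swap y (τ b))).card =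
        (nb (Adj F τ Dg) (τ b)).card := by
      apply Finset.card_image_of_injOn
      intro u hu v hv hE
      exact ta.2.2 u v (mem_nb.mp (mem_coe.mp hu)) (mem_nb.mp (mem_coe.mp hv)) hE
    have h1 : ((L (τ b)).image some).card = (L (τ b)).card :=
      Finset.card_image_of_injective _ (Option.some_injective C)
    exact (Finset.eq_of_subset_of_card_le hsub (by rw [h1, hinj, ta.1])).symm
  have hsame : ({y, b, τ y} : Finset W).image (ψ ∘ Equiv.swap y (τ b)) =
      ({τ b, b, τ y} : Finset W).image ψ := by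
    simp only [Finset.image_insert, Finset.image_singleton, Function.comp_apply,
      Equiv.swap_apply_left]
    rw [Equiv.swap_apply_of_ne_of_ne hby hba', Equiv.swap_apply_of_ne_of_ne hcy hca']
  have hLL : L y = L (τ b) := by
    apply Finset.image_injective (Option.some_injective C)
    rw [hLy, hLa, hsame]
  have hy3 : (L y).card ≤ 3 := by
    rw [ty.1, hNy]
    exact hcard3 _ _ _
  have ha3 : (L (τ b)).card ≤ 3 := by
    rw [ta.1, hNa]
    exact hcard3 _ _ _
  rcases hK4 y (τ b) hay.symm hFa (by rw [hτ]; exact hyb) hfib1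
    (by rw [hτ]; exact hfib2) with h1 | h1 | h1
  · omega
  · omega
  · exact h1 hLL

end ladder

end Pool.Agent.CY.Rung
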