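import Pool.Agent.Lib.MP_b6ecfd_co.Local16
import Pool.Agent.Lib.MP_b6ecfd_co.Rung16

/-! The theorem with rungs (MP_b6ecfd), helper16. -/

set_option autoImplicit false

namespace Pool.Agent.CY

open Finset

section

variable {P : Type} [DecidableEq P] {S : Finset P} {Fs Q : Finset (Finset P)} {k : ℕ}

theorem mem_es {x : P} {F : Finset P} : F ∈ es Fs Q k x ↔ F ∈ ess Fs Q k ∧ x ∈ F := by
  simp [es]

theorem R4_ess (hQF : Q ⊆ Fs) (hk : 4 ≤ k) {y : P} {f : Finset P} (hR : R4 Fs Q k y f) :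
    f ∈ ess Fs Q k := by
  have hm := R4_mem hQF hR
  rw [mem_ess]
  exact ⟨hm.1, by rw [hR.2.1]; exact hk, by rw [hR.2.1], hR.1⟩

theorem R4_not_good (hQF : Q ⊆ Fs) {y : P} {f : Finset P} (hR : R4 Fs Q k y f) :
    ¬ Good Fs Q k y := by
  intro hG
  have hm := R4_mem hQF hR
  have hsub : (ess Fs Q k).filter (fun F => y ∈ F) ⊆ {f} := by
    intro G hGm
    rw [mem_filter, mem_ess] at hGm
    rw [mem_singleton]
    exact hm.2.2.1 G hGm.1.1 hGm.2 hGm.1.2.2.2
  have h1 := Finset.card_le_card hsub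
  have h2 := hG.1
  rw [Finset.card_singleton] at h1
  omega

/-- the partner of a vertex is not good. -/
theorem Pt_not_good (hQF : Q ⊆ Fs) {y c : P} (hp : Pt Q y c) : ¬ Good Fs Q k c := by
  rintro ⟨h2, h3⟩
  obtain ⟨_, q1, q2, h12, hq1, hq2, _, _, c1, c2⟩ := hp
  have hc3 : (ft Fs c).card ≤ 3 := by
    rcases h3 with h3 | ⟨_, h3⟩
    · exact h3
    · exact absurd c1 (h3 q1 hq1)
  have hsub : (ess Fs Q k).filter (fun F => c ∈ F) ∪ {q1, q2} ⊆ ft Fs c := by
    intro G hG
    rw [mem_union, mem_filter, mem_ess, mem_insert, mem_singleton] at hG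
    rw [mem_ft]
    rcases hG with hG | rfl | rfl
    · exact ⟨hG.1.1, hG.2⟩
    · exact ⟨hQF hq1, c1⟩
    · exact ⟨hQF hq2, c2⟩
  have hdis : Disjoint ((ess Fs Q k).filter (fun F => c ∈ F)) {q1, q2} := by
    rw [Finset.disjoint_left]
    intro G hG1 hG2
    rw [mem_filter, mem_ess] at hG1
    rw [mem_insert, mem_singleton] at hG2
    rcases hG2 with rfl | rfl
    · exact hG1.1.2.2.2 hq1
    · exact hG1.1.2.2.2 hq2
  have h4 := Finset.card_le_card hsub
  rw [Finset.card_union_of_disjoint hdis, Finset.card_pair h12] at h4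
  omega

end

theorem pair_bool {n : ℕ} (a b c : Fin n × Bool) (h1 : a.1 = b.1) (h2 : a.1 = c.1) (h3 : a ≠ b)
    (h4 : a ≠ c) : b = c := by
  obtain ⟨a1, a2⟩ := a
  obtain ⟨b1, b2⟩ := b
  obtain ⟨c1, c2⟩ := c
  simp only at h1 h2
  subst h1
  subst h2
  have h5 : a2 ≠ b2 := fun hE => h3 (by rw [hE])
  have h6 : a2 ≠ c2 := fun hE => h4 (by rw [hE])
  have h7 : b2 = c2 := by
    cases a2 <;> cases b2 <;> cases c2 <;> first | rfl | exact absurd rfl h5 | exact absurd rfl h6
  rw [h7]

/-- the theorem with rungs. -/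
theorem combC_16 (hV : StVizing) (P : Type) [DecidableEq P] (S : Finset P)
    (Fs Q : Finset (Finset P)) (k : ℕ) (hk : 4 ≤ k) (h : FSys S Fs) (htri : TriAx Fs)
    (hQF : Q ⊆ Fs) (hQ5 : ∀ F ∈ Q, F.card ≤ 5)
    (hgl : ∀ x ∈ S, LightN S Fs k (k + 1) x ∨
      (Good Fs Q k x ∧ ∃ u ∈ S, u ≠ x ∧ Good Fs Q k u ∧ ∀ F ∈ ess Fs Q k, x ∈ F → u ∈ F) ∨
      (∃ f, R4 Fs Q k x f ∧ ∀ c ∈ S, Pt Q x c →
        LightN S Fs k (k + 1) c ∨ ∃ g, R4 Fs Q k c g)) :
    ∃ col : P → Fin (k + 2), ∀ F ∈ Fs, F.card ≤ k → Set.InjOn col (F : Set P) := by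
  classical
  obtain ⟨φ, φ1, φ2, φ3, φ4⟩ := pairs_16 hV P S Fs Q k h hQF hQ5
  set X : Finset P := XX S Fs Q k with hX
  have hXmem : ∀ x, x ∈ X ↔ x ∈ S ∧ Good Fs Q k x ∧
      ∃ u ∈ S, u ≠ x ∧ Good Fs Q k u ∧ es Fs Q k x = es Fs Q k u := fun x => mem_XX
  have hXS : X ⊆ S := fun x hx => ((hXmem x).mp hx).1
  have hmate : ∀ x ∈ X, ∃ u ∈ X, u ≠ x ∧ es Fs Q k x = es Fs Q k u := by
    intro x hx
    obtain ⟨hxS, hxG, u, huS, hux, huG, hE⟩ := (hXmem x).mp hx
    exact ⟨u, (hXmem u).mpr ⟨huS, huG, x, hxS, hux.symm, hxG, hE.symm⟩, hux, hE⟩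
  have hHcs : ∀ x y, Hc Fs k x y → Hc Fs k y x := by
    rintro x y ⟨F, hF, hFk, hxF, hyF⟩
    exact ⟨F, hF, hFk, hyF, hxF⟩
  -- the colours
  let ι : Fin (k / 2 + 1) × Bool → Fin (k + 1 + 1) :=
    fun a => ⟨2 * a.1.1 + (if a.2 then 1 else 0), by
      have := a.1.2
      split <;> omega⟩
  have hι : Function.Injective ι := by
    rintro ⟨a, b⟩ ⟨c, d⟩ hE
    have h1 : 2 * a.1 + (if b then 1 else 0) = 2 * c.1 + (if d then 1 else 0) :=
      congrArg Fin.val hE
    have h2 : a = c := by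
      apply Fin.ext
      rcases b <;> rcases d <;> simp at h1 <;> omega
    subst h2
    rcases b <;> rcases d <;> simp at h1 ⊢
  set col1 : P → Fin (k + 1 + 1) := fun x => ι (φ x) with hcol1
  have col1_eq : ∀ x y, col1 x = col1 y ↔ φ x = φ y := fun x y => ⟨fun hE => hι hE,
    fun hE => by simp only [hcol1, hE]⟩
  -- heavy ends
  set Hv : Finset P := S.filter (fun x => (∃ f, R4 Fs Q k x f) ∧
    ∃ c ∈ S, Pt Q x c ∧ ∃ g, R4 Fs Q k c g) with hHv
  have hHmem : ∀ x, x ∈ Hv ↔ x ∈ S ∧ (∃ f, R4 Fs Q k x f) ∧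
    ∃ c ∈ S, Pt Q x c ∧ ∃ g, R4 Fs Q k c g := by
    intro x; simp [hHv]
  have hXH : ∀ x ∈ X, x ∉ Hv := by
    intro x hx hx'
    obtain ⟨_, ⟨f, hf⟩, _⟩ := (hHmem x).mp hx'
    exact R4_not_good hQF hf ((hXmem x).mp hx).2.1
  have hfF : ∀ w : {x // x ∈ Hv}, ∃ f, R4 Fs Q k w.1 f := fun w => ((hHmem w.1).mp w.2).2.1
  choose F hF using hfF
  have hττ : ∀ w : {x // x ∈ Hv}, ∃ c : {x // x ∈ Hv}, Pt Q w.1 c.1 := by
    intro w
    obtain ⟨hwS, ⟨f, hf⟩, c, hcS, hpc, g, hg⟩ := (hHmem w.1).mp w.2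
    exact ⟨⟨c, (hHmem c).mpr ⟨hcS, ⟨g, hg⟩, w.1, hwS, Pt_symm hpc, f, hf⟩⟩, hpc⟩
  choose τ hτ using hττ
  have hWS : ∀ w : {x // x ∈ Hv}, w.1 ∈ S := fun w => ((hHmem w.1).mp w.2).1
  have hFm := fun w : {x // x ∈ Hv} => R4_mem hQF (hF w)
  have hFeq : ∀ u w : {x // x ∈ Hv}, u.1 ∈ F w → F u = F w := by
    intro u w hu
    exact ((hFm u).2.2.1 (F w) (hFm w).1 hu (hF w).1).symm
  have hττ : ∀ w, τ (τ w) = w := by
    intro w
    apply Subtype.ext
    exact Pt_unique h hQF (hF (τ w)) (hτ (τ w)) (Pt_symm (hτ w))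
  have hτinj : ∀ u w, τ u = τ w → u = w := by
    intro u w hE
    rw [← hττ u, hE, hττ]
  set Dg : {x // x ∈ Hv} → {x // x ∈ Hv} → Prop := fun u v => Op S Fs Q u.1 v.1 with hDg
  have hFτ : ∀ w, F (τ w) ≠ F w := by
    intro w hE
    have h1 := Pt_nbr h hQF (hF w) (hτ w)
    have h2 := (hFm (τ w)).2.1
    rw [hE] at h2
    exact h1.2 h2
  have hD1 : ∀ y b, Dg y b → Dg b y := fun y b hyb => Op_symm h hQF hyb
  have hopf : ∀ (w : {x // x ∈ Hv}) (z : P), Op S Fs Q w.1 z →
      z ∈ F (τ w) ∧ (τ w).1 ≠ z ∧ z ∈ nbr S Fs (τ w).1 ∧ (τ w).1 ∈ nbr S Fs z :=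
    fun w z hz => Op_facet h hQF (hF w) (hF (τ w)) (hτ w) hz
  have hD2 : ∀ y b, Dg y b → F (τ b) = F y ∧ F b = F (τ y) := by
    intro y b hyb
    constructor
    · exact (hFeq y (τ b) (hopf b y.1 (hD1 y b hyb)).1).symm
    · exact hFeq b (τ y) (hopf y b.1 hyb).1
  have hD3 : ∀ y b, Dg y b → Dg (τ y) (τ b) := fun y b hyb =>
    Op_partner h hQF (hF y) (hF (τ y)) (hτ y) (hF b) (hF (τ b)) (hτ b) hyb
  -- the lists
  set A : {x // x ∈ Hv} → Finset P := fun w => X.filter (fun x => x ∈ F w) with hA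
  set B : {x // x ∈ Hv} → Finset P := fun w => X.filter (fun x => Op S Fs Q w.1 x) with hB
  set HA : {x // x ∈ Hv} → Finset P := fun w => Hv.filter (fun x => x ∈ F w) with hHA
  set HB : {x // x ∈ Hv} → Finset P := fun w => Hv.filter (fun x => Op S Fs Q w.1 x) with hHB
  set L : {x // x ∈ Hv} → Finset (Fin (k + 1 + 1)) :=
    fun w => univ \ (A w ∪ B w).image col1 with hL
  have mA : ∀ w x, x ∈ A w ↔ x ∈ X ∧ x ∈ F w := by intro w x; simp [hA]
  have mB : ∀ w x, x ∈ B w ↔ x ∈ X ∧ Op S Fs Q w.1 x := by intro w x; simp [hB]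
  have mHA : ∀ w x, x ∈ HA w ↔ x ∈ Hv ∧ x ∈ F w := by intro w x; simp [hHA]
  have mHB : ∀ w x, x ∈ HB w ↔ x ∈ Hv ∧ Op S Fs Q w.1 x := by intro w x; simp [hHB]
  have cA : ∀ w, (A w).card + (HA w).card ≤ k := by
    intro w
    rw [← (hF w).2.1, ← Finset.card_union_of_disjoint]
    · apply Finset.card_le_card
      intro x hx
      rw [mem_union, mA, mHA] at hx
      rcases hx with hx | hx
      · exact hx.2
      · exact hx.2
    · rw [Finset.disjoint_left]
      intro x hx hx'
      rw [mA] at hx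
      rw [mHA] at hx'
      exact hXH x hx.1 hx'.1
  have cB : ∀ w, (B w).card + (HB w).card ≤ 2 := by
    intro w
    rw [← Finset.card_union_of_disjoint]
    · apply Op_card h hQF (hF w)
      intro x hx
      rw [mem_union, mB, mHB] at hx
      rcases hx with hx | hx
      · exact hx.2
      · exact hx.2
    · rw [Finset.disjoint_left]
      intro x hx hx'
      rw [mB] at hx
      rw [mHB] at hx'
      exact hXH x hx.1 hx'.1
  have cL : ∀ w, (L w).card + ((A w ∪ B w).image col1).card = k + 2 := by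
    intro w
    have := Finset.card_sdiff_add_card_eq_card (Finset.subset_univ ((A w ∪ B w).image col1))
    rw [Finset.card_univ, Fintype.card_fin] at this
    exact this
  have cAB : ∀ w, (A w ∪ B w).card ≤ (A w).card + (B w).card :=
    fun w => Finset.card_union_le _ _
  have cI : ∀ w, ((A w ∪ B w).image col1).card ≤ (A w ∪ B w).card :=
    fun w => Finset.card_image_le
  have hwHA : ∀ w : {x // x ∈ Hv}, w.1 ∈ HA w := fun w => (mHA w w.1).mpr ⟨w.2, (hFm w).2.1⟩
  have cT : ∀ w, ∀ T : Finset {x // x ∈ Hv}, (∀ u ∈ T, Rung.Adj F τ Dg w u) →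
      T.card ≤ (HA w).card + (HB w).card := by
    intro w T hT
    have h1 : T.card = (T.map ⟨Subtype.val, Subtype.val_injective⟩).card := by
      rw [Finset.card_map]
    have h2 : T.map ⟨Subtype.val, Subtype.val_injective⟩ ⊆
        ((HA w).erase w.1 ∪ {(τ w).1}) ∪ HB w := by
      intro x hx
      rw [Finset.mem_map] at hx
      obtain ⟨u, hu, rfl⟩ := hx
      obtain ⟨h3, h4⟩ := hT u hu
      rw [mem_union, mem_union, mem_singleton, mem_erase, mHA, mHB]
      have h5 : u.1 ≠ w.1 := fun hE => h3 (Subtype.ext hE.symm)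
      rcases h4 with h4 | h4 | h4
      · left; left
        refine ⟨h5, u.2, ?_⟩
        rw [h4]
        exact (hFm u).2.1
      · left; right
        rw [h4]
        rfl
      · right
        exact ⟨u.2, h4⟩
    have h3 := Finset.card_le_card h2
    have h4 := Finset.card_union_le ((HA w).erase w.1 ∪ {(τ w).1}) (HB w)
    have h5 := Finset.card_union_le ((HA w).erase w.1) {(τ w).1}
    have h6 := Finset.card_erase_add_one (hwHA w)
    rw [Finset.card_singleton] at h5
    omega
  obtain ⟨ρ, ρ1, ρ2⟩ := Rung.rung_16 F τ Dg L hττ hFτ hD1 hD2 hD3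
    (by
      intro w T hT
      have h1 := cT w T hT
      have h2 := cA w
      have h3 := cB w
      have h4 := cL w
      have h5 := cAB w
      have h6 := cI w
      omega)
    (by
      intro w hw T hT
      have hHA1 : HA w ⊆ {w.1} := by
        intro x hx
        rw [mHA] at hx
        have := hw ⟨x, hx.1⟩ (hFeq ⟨x, hx.1⟩ w hx.2)
        rw [mem_singleton, ← this]
      have hHB0 : HB w = ∅ := by
        rw [Finset.eq_empty_iff_forall_notMem]
        intro x hx
        rw [mHB] at hx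
        have h1 := (hD2 w ⟨x, hx.1⟩ hx.2).1
        have h2 := hw _ h1
        have h3 : (⟨x, hx.1⟩ : {x // x ∈ Hv}) = τ w := by
          apply hτinj
          rw [h2, hττ]
        have h4 := Pt_nbr h hQF (hF w) (hτ w)
        rw [← h3] at h4
        obtain ⟨q, _, _, _, _, hn⟩ := hx.2
        exact hn h4.1
      have h1 := cT w T hT
      have h2 := Finset.card_le_card hHA1
      rw [Finset.card_singleton] at h2
      rw [hHB0, Finset.card_empty] at h1
      have h3 : 1 ≤ (HA w).card := Finset.card_pos.mpr ⟨_, hwHA w⟩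
      by_contra hcon
      push Not at hcon
      have h4 := cL w
      have h5 := cAB w
      have h6 := cI w
      have h7 := cA w
      have h8 := cB w
      have hAk : (A w).card = k - 1 := by omega
      have hB2 : (B w).card = 2 := by omega
      have hinj : Set.InjOn col1 (A w ∪ B w : Finset P) := by
        apply Finset.card_image_iff.mp
        omega
      have hdis : Disjoint (A w) (B w) := by
        rw [← Finset.card_union_eq_card_add_card]
        omega
      obtain ⟨p, q, hpq, hBpq⟩ := Finset.card_eq_two.mp hB2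
      have hpB : p ∈ B w := by rw [hBpq]; simp
      have hqB : q ∈ B w := by rw [hBpq]; simp
      have hfess : F w ∈ ess Fs Q k := R4_ess hQF hk (hF w)
      have hgess : F (τ w) ∈ ess Fs Q k := R4_ess hQF hk (hF (τ w))
      -- the pairs on the face of w
      set I := (A w).image (fun x => (φ x).1) with hI
      have hAI : (A w).card ≤ 2 * I.card := by
        apply Finset.card_le_mul_card_image
        intro i _
        by_contra hcon2
        push Not at hcon2
        obtain ⟨a, ha, b, hb, c, hc, hab, hac, hbc⟩ := Finset.two_lt_card.mp hcon2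
        rw [mem_filter, mA] at ha hb hc
        have key : ∀ u v, (u ∈ X ∧ u ∈ F w) ∧ (φ u).1 = i → (v ∈ X ∧ v ∈ F w) ∧ (φ v).1 = i →
            es Fs Q k u = es Fs Q k v := by
          intro u v hu hv
          by_contra hne
          exact φ3 u hu.1.1 v hv.1.1 hne (F w) (mem_es.mpr ⟨hfess, hu.1.2⟩)
            (mem_es.mpr ⟨hfess, hv.1.2⟩) (hu.2.trans hv.2.symm)
        exact hbc (φ4 a ha.1.1 b hb.1.1 c hc.1.1 hab hac (key a b ha hb) (key a c ha hc))
      have hnI : ∀ r ∈ B w, (φ r).1 ∉ I := by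
        intro r hr hrI
        rw [hI, Finset.mem_image] at hrI
        obtain ⟨u, hu, hur⟩ := hrI
        have hu' := (mA w u).mp hu
        obtain ⟨u', hu'X, hu'ne, hu'E⟩ := hmate u hu'.1
        have hu'F : u' ∈ F w := by
          have : F w ∈ es Fs Q k u := mem_es.mpr ⟨hfess, hu'.2⟩
          rw [hu'E] at this
          exact (mem_es.mp this).2
        have hu'A : u' ∈ A w := (mA w u').mpr ⟨hu'X, hu'F⟩
        have h9 : (φ u).1 = (φ u').1 := φ2 u hu'.1 u' hu'X hu'E
        have h10 : φ u ≠ φ u' := φ1 u hu'.1 u' hu'X hu'ne.symm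
          ⟨F w, (hFm w).1, (hF w).2.1.le, hu'.2, hu'F⟩
        have hr1 : φ r ≠ φ u := by
          intro hE
          have := hinj (mem_coe.mpr (mem_union_right _ hr)) (mem_coe.mpr (mem_union_left _ hu))
            ((col1_eq r u).mpr hE)
          exact Finset.disjoint_left.mp hdis hu (this ▸ hr)
        have hr2 : φ r ≠ φ u' := by
          intro hE
          have := hinj (mem_coe.mpr (mem_union_right _ hr)) (mem_coe.mpr (mem_union_left _ hu'A))
            ((col1_eq r u').mpr hE)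
          exact Finset.disjoint_left.mp hdis hu'A (this ▸ hr)
        exact h10 (pair_bool _ _ _ hur.symm (hur.symm.trans h9) hr1 hr2)
      have hpq1 : (φ p).1 = (φ q).1 := by
        by_contra hne
        have hsub : ({(φ p).1, (φ q).1} : Finset (Fin (k / 2 + 1))) ⊆ univ \ I := by
          intro i hi
          rw [mem_insert, mem_singleton] at hi
          rw [mem_sdiff]
          rcases hi with rfl | rfl
          · exact ⟨mem_univ _, hnI p hpB⟩
          · exact ⟨mem_univ _, hnI q hqB⟩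
        have h9 := Finset.card_le_card hsub
        rw [Finset.card_pair hne] at h9
        have h10 := Finset.card_sdiff_add_card_eq_card (Finset.subset_univ I)
        rw [Finset.card_univ, Fintype.card_fin] at h10
        omega
      have hpX := ((mB w p).mp hpB).1
      have hqX := ((mB w q).mp hqB).1
      have hpo := hopf w p ((mB w p).mp hpB).2
      have hqo := hopf w q ((mB w q).mp hqB).2
      obtain ⟨p', hp'X, hp'ne, hp'E⟩ := hmate p hpX
      have hp'F : p' ∈ F (τ w) := by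
        have : F (τ w) ∈ es Fs Q k p := mem_es.mpr ⟨hgess, hpo.1⟩
        rw [hp'E] at this
        exact (mem_es.mp this).2
      have hgk : (F (τ w)).card ≤ k := (hF (τ w)).2.1.le
      have h9 : φ p ≠ φ p' := φ1 p hpX p' hp'X hp'ne.symm
        ⟨F (τ w), (hFm (τ w)).1, hgk, hpo.1, hp'F⟩
      have h10 : φ p ≠ φ q := by
        intro hE
        exact hpq (hinj (mem_coe.mpr (mem_union_right _ hpB)) (mem_coe.mpr (mem_union_right _ hqB))
            ((col1_eq p q).mpr hE))
      have h11 : φ p' = φ q := pair_bool _ _ _ (φ2 p hpX p' hp'X hp'E) hpq1 h9 h10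
      have h12 : p' = q := by
        by_contra hne
        exact φ1 p' hp'X q hqX hne ⟨F (τ w), (hFm (τ w)).1, hgk, hp'F, hqo.1⟩ h11
      rw [h12] at hp'E
      have hcpq : 2 ≤ (Fs.filter (fun G => p ∈ G ∧ q ∈ G)).card := by
        have hsub : es Fs Q k p ⊆ Fs.filter (fun G => p ∈ G ∧ q ∈ G) := by
          intro G hG
          have hG' := hG
          rw [hp'E] at hG'
          rw [mem_es, mem_ess] at hG hG'
          rw [mem_filter]
          exact ⟨hG.1.1, hG.2, hG'.2⟩
        have h13 := Finset.card_le_card hsub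
        have h14 : (es Fs Q k p).card = 2 := ((hXmem p).mp hpX).2.1.1
        omega
      have h15 := htri (F (τ w)) (hFm (τ w)).1 (τ w).1 (hFm (τ w)).2.1 p hpo.1 q hqo.1
        hpo.2.1 hqo.2.1 hpq (mem_nbr.mp hpo.2.2.1).2.2 (mem_nbr.mp hqo.2.2.1).2.2 hcpq
      rw [(hF (τ w)).2.1] at h15
      omega)
    (by
      rintro v a y hva hvy hay hFv hFa hya ⟨⟨_, h1⟩, ⟨_, h2⟩⟩
      have e1 : Dg v (τ a) := by
        rcases h1 with h1 | h1 | h1
        · exact absurd (h1.symm.trans (hFv.trans hFa.symm)) (hFτ a)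
        · exact absurd (hτinj _ _ h1).symm hva
        · exact h1
      have e2 : Dg v (τ y) := by
        rcases h2 with h2 | h2 | h2
        · exact absurd (h2.symm.trans hFv) (hFτ y)
        · exact absurd (hτinj _ _ h2).symm hvy
        · exact h2
      have f1 := hopf (τ a) v.1 (hD1 _ _ e1)
      have f2 := hopf (τ y) v.1 (hD1 _ _ e2)
      have f3 := hopf (τ a) y.1 (hD1 _ _ hya)
      rw [hττ] at f1 f2 f3
      have h15 := htri (F v) (hFm v).1 v.1 (hFm v).2.1 a.1 (by rw [hFv, ← hFa]; exact (hFm a).2.1)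
        y.1 (by rw [hFv]; exact (hFm y).2.1)
        (fun hE => hva (Subtype.ext hE)) (fun hE => hvy (Subtype.ext hE))
        (fun hE => hay (Subtype.ext hE)) (mem_nbr.mp f1.2.2.2).2.2 (mem_nbr.mp f2.2.2.2).2.2
        (mem_nbr.mp f3.2.2.1).2.2
      rw [(hF v).2.1] at h15
      omega)
    (by
      intro y a hya hFa hyb _ _
      by_contra hcon
      push Not at hcon
      obtain ⟨hy3, ha3, hLL⟩ := hcon
      have hab : Dg a (τ y) := by
        have h1 := hD3 _ _ hyb
        rw [hττ] at h1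
        exact hD1 _ _ h1
      have key : ∀ w w' : {x // x ∈ Hv}, w ≠ w' → F w' = F w → Dg w (τ w') → (L w).card ≤ 3 →
          ∃ p, B w = {p} ∧ ∀ x ∈ A w, col1 p ≠ col1 x := by
        intro w w' hne hFw hw3 hL3
        have h1 : 2 ≤ (HA w).card := by
          have hsub : ({w.1, w'.1} : Finset P) ⊆ HA w := by
            intro x hx
            rw [mem_insert, mem_singleton] at hx
            rcases hx with rfl | rfl
            · exact hwHA w
            · rw [mHA]
              exact ⟨w'.2, by rw [← hFw]; exact (hFm w').2.1⟩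
          have := Finset.card_le_card hsub
          rwa [Finset.card_pair (fun hE => hne (Subtype.ext hE))] at this
        have h2 : 1 ≤ (HB w).card := Finset.card_pos.mpr ⟨(τ w').1, (mHB _ _).mpr
          ⟨(τ w').2, hw3⟩⟩
        have h3 := cA w
        have h4 := cB w
        have h5 := cL w
        have h6 := cAB w
        have h7 := cI w
        have hB1 : (B w).card = 1 := by omega
        have hinj : Set.InjOn col1 (A w ∪ B w : Finset P) := by
          apply Finset.card_image_iff.mp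
          omega
        have hdis : Disjoint (A w) (B w) := by
          rw [← Finset.card_union_eq_card_add_card]
          omega
        obtain ⟨p, hp⟩ := Finset.card_eq_one.mp hB1
        refine ⟨p, hp, ?_⟩
        intro x hx hE
        have hpB : p ∈ B w := by rw [hp]; simp
        have := hinj (mem_coe.mpr (mem_union_right _ hpB)) (mem_coe.mpr (mem_union_left _ hx)) hE
        exact Finset.disjoint_left.mp hdis hx (this ▸ hpB)
      obtain ⟨p, hp1, hp2⟩ := key y a hya hFa hyb hy3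
      obtain ⟨p', hp'1, _⟩ := key a y hya.symm hFa.symm hab ha3
      have hAA : A y = A a := by simp only [hA, hFa]
      have hcc : col1 p = col1 p' := by
        have h1 : col1 p ∉ L y := by
          simp only [hL, mem_sdiff, mem_univ, true_and, not_not]
          exact Finset.mem_image_of_mem col1 (mem_union_right _ (by rw [hp1]; simp))
        rw [hLL] at h1
        simp only [hL, mem_sdiff, mem_univ, true_and, not_not] at h1
        obtain ⟨x, hx, hxE⟩ := Finset.mem_image.mp h1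
        rw [mem_union, ← hAA, hp'1, mem_singleton] at hx
        rcases hx with hx | rfl
        · exact absurd hxE.symm (hp2 x hx)
        · exact hxE.symm
      have hpB : p ∈ B y := by rw [hp1]; simp
      have hp'B : p' ∈ B a := by rw [hp'1]; simp
      have hpo := hopf y p ((mB y p).mp hpB).2
      have hp'o := hopf a p' ((mB a p').mp hp'B).2
      have hFb : F (τ a) = F (τ y) := (hD2 _ _ hyb).2
      have hpp : p = p' := by
        by_contra hne
        refine φ1 p ((mB y p).mp hpB).1 p' ((mB a p').mp hp'B).1 hne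
          ⟨F (τ y), (hFm (τ y)).1, (hF (τ y)).2.1.le, hpo.1, by rw [← hFb]; exact hp'o.1⟩ ?_
        exact (col1_eq _ _).mp hcc
      rw [← hpp] at hp'o
      have hbo := hopf y (τ a).1 hyb
      have h15 := htri (F (τ y)) (hFm (τ y)).1 (τ y).1 (hFm (τ y)).2.1 (τ a).1
        (by rw [← hFb]; exact (hFm (τ a)).2.1) p hpo.1 hbo.2.1 hpo.2.1 hp'o.2.1
        (mem_nbr.mp hbo.2.2.1).2.2 (mem_nbr.mp hpo.2.2.1).2.2 (mem_nbr.mp hp'o.2.2.1).2.2
      rw [(hF (τ y)).2.1] at h15
      omega)
  -- the colouring of X and Hv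
  set col2 : P → Fin (k + 1 + 1) := fun x => if hx : x ∈ Hv then ρ ⟨x, hx⟩ else col1 x
    with hcol2
  have hcolX : ∀ x ∈ X, col2 x = col1 x := by
    intro x hx
    simp only [hcol2, dif_neg (hXH x hx)]
  have hcolH : ∀ w : {x // x ∈ Hv}, col2 w.1 = ρ w := by
    intro w
    simp only [hcol2, dif_pos w.2]
  have hconfH : ∀ (w : {x // x ∈ Hv}) (z : P), z ≠ w.1 → Hc Fs k w.1 z →
      z ∈ F w ∨ z = (τ w).1 ∨ Op S Fs Q w.1 z :=
    fun w z hz hH => R4_conf h hQF (hF w) (hτ w) hz hH
  have hXHprop : ∀ x ∈ X, ∀ w : {x // x ∈ Hv}, Hc Fs k w.1 x → col1 x ≠ ρ w := by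
    intro x hx w hH hE
    have hxw : x ≠ w.1 := fun hE' => hXH x hx (hE' ▸ w.2)
    have hmem : x ∈ A w ∪ B w := by
      rw [mem_union, mA, mB]
      rcases hconfH w x hxw hH with h1 | h1 | h1
      · exact Or.inl ⟨hx, h1⟩
      · exact absurd (τ w).2 (h1 ▸ hXH x hx)
      · exact Or.inr ⟨hx, h1⟩
    have h1 := ρ1 w
    simp only [hL, mem_sdiff, mem_univ, true_and] at h1
    exact h1 (hE ▸ Finset.mem_image_of_mem col1 hmem)
  have hprop2 : ∀ x ∈ X ∪ Hv, ∀ y ∈ X ∪ Hv, x ≠ y → Hc Fs k x y → col2 x ≠ col2 y := by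
    intro x hx y hy hxy hH
    by_cases hxX : x ∈ X
    · rw [hcolX x hxX]
      by_cases hyX : y ∈ X
      · rw [hcolX y hyX]
        intro hE
        exact φ1 x hxX y hyX hxy hH ((col1_eq x y).mp hE)
      · have hyH : y ∈ Hv := by
          rw [mem_union] at hy
          exact hy.resolve_left hyX
        have := hcolH ⟨y, hyH⟩
        simp only at this
        rw [this]
        exact hXHprop x hxX ⟨y, hyH⟩ (hHcs x y hH)
    · have hxH : x ∈ Hv := by
        rw [mem_union] at hx
        exact hx.resolve_left hxX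
      have h1 := hcolH ⟨x, hxH⟩
      simp only at h1
      rw [h1]
      by_cases hyX : y ∈ X
      · rw [hcolX y hyX]
        exact (hXHprop y hyX ⟨x, hxH⟩ hH).symm
      · have hyH : y ∈ Hv := by
          rw [mem_union] at hy
          exact hy.resolve_left hyX
        have h2 := hcolH ⟨y, hyH⟩
        simp only at h2
        rw [h2]
        apply ρ2
        refine ⟨fun hE => hxy (Subtype.mk.inj hE), ?_⟩
        rcases hconfH ⟨x, hxH⟩ y hxy.symm hH with h3 | h3 | h3
        · exact Or.inl (hFeq ⟨y, hyH⟩ ⟨x, hxH⟩ h3).symm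
        · exact Or.inr (Or.inl (Subtype.ext h3))
        · exact Or.inr (Or.inr h3)
  -- the remaining heavy vertices
  set R3 : Finset P := S.filter (fun x => x ∉ X ∧ x ∉ Hv ∧ ¬ LightN S Fs k (k + 1) x) with hR3
  have mR3 : ∀ x, x ∈ R3 ↔ x ∈ S ∧ x ∉ X ∧ x ∉ Hv ∧ ¬ LightN S Fs k (k + 1) x := by
    intro x; simp [hR3]
  have hHvS : Hv ⊆ S := fun x hx => ((hHmem x).mp hx).1
  have hR3S : R3 ⊆ S := fun x hx => ((mR3 x).mp hx).1
  have hgood : ∀ x ∈ S, (Good Fs Q k x ∧ ∃ u ∈ S, u ≠ x ∧ Good Fs Q k u ∧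
      ∀ F ∈ ess Fs Q k, x ∈ F → u ∈ F) → x ∈ X := by
    rintro x hx ⟨hG, u, huS, hux, huG, hxu⟩
    refine (hXmem x).mpr ⟨hx, hG, u, huS, hux, huG, ?_⟩
    have h1 : es Fs Q k x ⊆ es Fs Q k u := by
      intro F hF
      rw [mem_es] at hF ⊢
      exact ⟨hF.1, hxu F hF.1 hF.2⟩
    exact Finset.eq_of_subset_of_card_le h1 (le_of_eq (huG.1.trans hG.1.symm))
  obtain ⟨ψ, hψ⟩ := stGreedy_56 P (X ∪ Hv ∪ R3) (Hc Fs k) (k + 1) (X ∪ Hv) col2 hHcs hprop2
    (by
      intro x hx hxn
      have hxR : x ∈ R3 := by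
        rw [mem_union] at hx
        exact hx.resolve_left hxn
      obtain ⟨hxS, hxX, hxH, hxL⟩ := (mR3 x).mp hxR
      obtain ⟨f, hf, hc⟩ : ∃ f, R4 Fs Q k x f ∧ ∀ c ∈ S, Pt Q x c →
          LightN S Fs k (k + 1) c ∨ ∃ g, R4 Fs Q k c g := by
        rcases hgl x hxS with h1 | h1 | h1
        · exact absurd h1 hxL
        · exact absurd (hgood x hxS h1) hxX
        · exact h1
      obtain ⟨c, hcS, hpc⟩ := Pt_exists h hQF hf
      have hcR : ¬ ∃ g, R4 Fs Q k c g := by
        intro hg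
        exact hxH ((hHmem x).mpr ⟨hxS, ⟨f, hf⟩, c, hcS, hpc, hg⟩)
      have hcL : LightN S Fs k (k + 1) c := (hc c hcS hpc).resolve_right hcR
      have hcn : c ∉ X ∪ Hv ∪ R3 := by
        rw [mem_union, mem_union]
        rintro ((h1 | h1) | h1)
        · exact Pt_not_good hQF hpc ((hXmem c).mp h1).2.1
        · exact hcR ((hHmem c).mp h1).2.1
        · exact ((mR3 c).mp h1).2.2.2 hcL
      refine ⟨f.erase x ∪ S.filter (fun z => Op S Fs Q x z), ?_, ?_⟩
      · have h1 := Finset.card_union_le (f.erase x) (S.filter (fun z => Op S Fs Q x z))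
        have h2 : (S.filter (fun z => Op S Fs Q x z)).card ≤ 2 :=
          Op_card h hQF hf (fun z hz => (mem_filter.mp hz).2)
        have h3 := Finset.card_erase_add_one (R4_mem hQF hf).2.1
        have h4 := hf.2.1
        omega
      · intro z hz hzx hH
        rw [mem_union, mem_erase, mem_filter]
        rcases R4_conf h hQF hf hpc hzx hH with h1 | h1 | h1
        · exact Or.inl ⟨hzx, h1⟩
        · exact absurd hz (h1 ▸ hcn)
        · refine Or.inr ⟨?_, h1⟩
          rw [mem_union, mem_union] at hz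
          rcases hz with (hz | hz) | hz
          · exact hXS hz
          · exact hHvS hz
          · exact hR3S hz)
    (Finset.subset_union_left)
  obtain ⟨col, hcol⟩ := stGreedy_56 P S (Hc Fs k) (k + 1) (X ∪ Hv ∪ R3) ψ hHcs hψ
    (by
      intro x hxS hxn
      by_contra hcon
      apply hxn
      rw [mem_union, mem_union]
      by_cases hxX : x ∈ X
      · exact Or.inl (Or.inl hxX)
      · by_cases hxH : x ∈ Hv
        · exact Or.inl (Or.inr hxH)
        · exact Or.inr ((mR3 x).mpr ⟨hxS, hxX, hxH, hcon⟩))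
    (by
      intro x hx
      rw [mem_union, mem_union] at hx
      rcases hx with (hx | hx) | hx
      · exact hXS hx
      · exact hHvS hx
      · exact hR3S hx)
  refine ⟨col, ?_⟩
  intro G hG hGk x hx y hy hE
  by_contra hxy
  exact hcol x (h.sub G hG hx) y (h.sub G hG hy) hxy ⟨G, hG, hGk, hx, hy⟩ hE

end Pool.Agent.CY
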