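import Pool.Agent.Lib.MP_b6ecfd_co.Comb_56

/-! StComb from StVizing (MP_b6ecfd_co), helper56. -/

set_option autoImplicit false

namespace Pool.Agent.CY

open Finset

theorem stComb_56 (hV : StVizing) : StComb := by
  intro P _ S Fs Q k hk h hQF hQ4 hQd hQ3 hdeg
  classical
  set e : P → Finset (Finset P) := fun x => (ess Fs Q k).filter (fun F => x ∈ F) with he
  have memE : ∀ x F, F ∈ e x ↔ F ∈ ess Fs Q k ∧ x ∈ F := by
    intro x F
    simp [he]
  set X : Finset P := S.filter (fun x => (e x).card = 2) with hX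
  have hXS : X ⊆ S := Finset.filter_subset _ _
  have hXmem : ∀ x, x ∈ X ↔ x ∈ S ∧ (e x).card = 2 := by
    intro x; simp [hX]
  have hpq : ∀ x : X, ∃ f g : Finset P, f ≠ g ∧ e x.1 = {f, g} :=
    fun x => Finset.card_eq_two.mp ((hXmem x.1).mp x.2).2
  choose p q hpq1 hpq2 using hpq
  have hp : ∀ x : X, p x ∈ ess Fs Q k ∧ x.1 ∈ p x := by
    intro x
    rw [← memE, hpq2]
    simp
  have hq : ∀ x : X, q x ∈ ess Fs Q k ∧ x.1 ∈ q x := by
    intro x
    rw [← memE, hpq2]
    simp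
  have hdeg4 : ∀ x : X, (Fs.filter (fun G => x.1 ∈ G)).card ≤ 4 := by
    intro x
    have hx := (hXmem x.1).mp x.2
    have hcx : ((ess Fs Q k).filter (fun F => x.1 ∈ F)).card = 2 := hx.2
    rcases hdeg x.1 hx.1 with h1 | h1 | h1
    · exact h1.2
    · omega
    · omega
  -- Vizing
  obtain ⟨φ, hφ⟩ := hV X (Finset P) p q k 2 hpq1 (by
    intro v
    by_cases hv : v ∈ ess Fs Q k
    · have h1 : (univ.filter (fun x : X => p x = v ∨ q x = v)).card ≤ v.card := by
        apply Finset.card_le_card_of_injOn (fun x => x.1)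
        · intro x hx
          simp only [coe_filter, mem_univ, true_and, Set.mem_ofPred_eq] at hx
          rcases hx with rfl | rfl
          · exact (hp x).2
          · exact (hq x).2
        · intro x _ y _ hxy
          exact Subtype.ext hxy
      exact h1.trans (mem_ess.mp hv).2.2.1
    · have h1 : univ.filter (fun x : X => p x = v ∨ q x = v) = ∅ := by
        apply Finset.filter_eq_empty_iff.mpr
        intro x _ hx
        rcases hx with rfl | rfl
        · exact hv (hp x).1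
        · exact hv (hq x).1
      rw [h1]
      simp) (by
    intro u v huv
    by_cases hv : u ∈ ess Fs Q k ∧ v ∈ ess Fs Q k
    · have h1 : (univ.filter (fun x : X => (p x = u ∧ q x = v) ∨ (p x = v ∧ q x = u))).card
          ≤ (u ∩ v).card := by
        apply Finset.card_le_card_of_injOn (fun x => x.1)
        · intro x hx
          simp only [coe_filter, mem_univ, true_and, Set.mem_ofPred_eq] at hx
          simp only [coe_inter, Set.mem_inter_iff, mem_coe]
          rcases hx with ⟨rfl, rfl⟩ | ⟨rfl, rfl⟩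
          · exact ⟨(hp x).2, (hq x).2⟩
          · exact ⟨(hq x).2, (hp x).2⟩
        · intro x _ y _ hxy
          exact Subtype.ext hxy
      exact h1.trans (h.inter u (mem_ess.mp hv.1).1 v (mem_ess.mp hv.2).1 huv)
    · have h1 : univ.filter (fun x : X => (p x = u ∧ q x = v) ∨ (p x = v ∧ q x = u)) = ∅ := by
        apply Finset.filter_eq_empty_iff.mpr
        intro x _ hx
        apply hv
        rcases hx with ⟨rfl, rfl⟩ | ⟨rfl, rfl⟩
        · exact ⟨(hp x).1, (hq x).1⟩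
        · exact ⟨(hq x).1, (hp x).1⟩
      rw [h1]
      simp) (by norm_num)
  have hcommon : ∀ x y : X, x ≠ y → ∀ F ∈ ess Fs Q k, x.1 ∈ F → y.1 ∈ F → φ x ≠ φ y := by
    intro x y hxy F hF hxF hyF
    apply hφ x y hxy
    have h1 : F ∈ e x.1 := (memE _ _).mpr ⟨hF, hxF⟩
    have h2 : F ∈ e y.1 := (memE _ _).mpr ⟨hF, hyF⟩
    rw [hpq2, mem_insert, mem_singleton] at h1 h2
    rcases h1 with h1 | h1 <;> rcases h2 with h2 | h2 <;> rw [← h1, ← h2] <;> simp
  -- two vertices determine the pair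
  have huniq : ∀ x y z : X, x ≠ y → x ≠ z → e x.1 = e y.1 → e x.1 = e z.1 → y = z := by
    intro x y z hxy hxz hey hez
    by_contra hyz
    have h1 := h.inter (p x) (mem_ess.mp (hp x).1).1 (q x) (mem_ess.mp (hq x).1).1 (hpq1 x)
    have hsub : ({x.1, y.1, z.1} : Finset P) ⊆ p x ∩ q x := by
      intro a ha
      rw [mem_insert, mem_insert, mem_singleton] at ha
      rw [mem_inter]
      have hpx : p x ∈ e x.1 := (memE _ _).mpr (hp x)
      have hqx : q x ∈ e x.1 := (memE _ _).mpr (hq x)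
      rcases ha with rfl | rfl | rfl
      · exact ⟨(hp x).2, (hq x).2⟩
      · rw [hey] at hpx hqx
        exact ⟨((memE _ _).mp hpx).2, ((memE _ _).mp hqx).2⟩
      · rw [hez] at hpx hqx
        exact ⟨((memE _ _).mp hpx).2, ((memE _ _).mp hqx).2⟩
    have h6 : ({x.1, y.1, z.1} : Finset P).card = 3 :=
      Finset.card_eq_three.mpr ⟨x.1, y.1, z.1, fun hE => hxy (Subtype.ext hE),
        fun hE => hxz (Subtype.ext hE), fun hE => hyz (Subtype.ext hE), rfl⟩
    have h7 := Finset.card_le_card hsub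
    omega
  obtain ⟨σ, hσ1, hσ2, hσ3⟩ := exists_inv_56 (fun x y : X => x ≠ y ∧ e x.1 = e y.1)
    (fun x y hxy => ⟨hxy.1.symm, hxy.2.symm⟩)
    (fun x y z hxy hxz => huniq x y z hxy.1 hxz.1 hxy.2 hxz.2)
  have hcf := fun x : X => conflict h hQF hQ4 hQd hQ3 (k := k) (hpq1 x) (hpq2 x) (hdeg4 x)
  obtain ⟨τ, hτ1, hτ2, hτ3⟩ := exists_inv_56 (fun x y : X => x ≠ y ∧ Hc Fs k x.1 y.1 ∧
      ∀ F ∈ ess Fs Q k, x.1 ∈ F → y.1 ∉ F)
    (by
      rintro x y ⟨h1, ⟨F, hF, hFk, hxF, hyF⟩, h3⟩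
      exact ⟨h1.symm, ⟨F, hF, hFk, hyF, hxF⟩, fun G hG hyG hxG => h3 G hG hxG hyG⟩)
    (by
      rintro x y z ⟨h1, h2, h3⟩ ⟨h4, h5, h6⟩
      apply Subtype.ext
      exact (hcf x).2 y.1 (hXS y.2) z.1 (hXS z.2) (fun hE => h1 (Subtype.ext hE.symm))
        (fun hE => h4 (Subtype.ext hE.symm)) h2 h5 (h3 _ (hp x).1 (hp x).2)
        (h3 _ (hq x).1 (hq x).2) (h6 _ (hp x).1 (hp x).2) (h6 _ (hq x).1 (hq x).2))
  obtain ⟨π, hπ1, hπ2, hπ3⟩ := stFlip_56 X (Fin (k + 2)) σ τ φ hσ1 hτ1 (by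
      intro x hx
      obtain ⟨h1, h2, h3⟩ := hτ2 x hx
      obtain ⟨u, huS, hux, huf, hug⟩ := (hcf x).1 (τ x).1 (hXS (τ x).2)
        (fun hE => h1 (Subtype.ext hE.symm)) h2 (h3 _ (hp x).1 (hp x).2) (h3 _ (hq x).1 (hq x).2)
      have hsub : e x.1 ⊆ e u := by
        rw [hpq2]
        intro G hG
        rw [mem_insert, mem_singleton] at hG
        rw [memE]
        rcases hG with rfl | rfl
        · exact ⟨(hp x).1, huf⟩
        · exact ⟨(hq x).1, hug⟩
      have hxc : (e x.1).card = 2 := ((hXmem _).mp x.2).2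
      have hle := Finset.card_le_card hsub
      have huc : (e u).card = 2 := by
        have huc' : ((ess Fs Q k).filter (fun F => u ∈ F)).card = (e u).card := rfl
        rcases hdeg u huS with h4 | h4 | h4
        · omega
        · omega
        · omega
      have heq : e x.1 = e u := Finset.eq_of_subset_of_card_le hsub (by omega)
      have huX : u ∈ X := (hXmem u).mpr ⟨huS, huc⟩
      have := hσ3 x ⟨u, huX⟩ ⟨fun hE => hux (by rw [hE]), heq⟩
      rw [this]
      exact fun hE => hux (by rw [← hE])) (by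
      intro x hx
      obtain ⟨h1, h2⟩ := hσ2 x hx
      have hpx : p x ∈ e x.1 := (memE _ _).mpr (hp x)
      rw [h2] at hpx
      exact hcommon (σ x) x hx (p x) (hp x).1 ((memE _ _).mp hpx).2 (hp x).2)
  have hπe : ∀ x : X, e (π x).1 = e x.1 := by
    intro x
    rcases hπ1 x with h1 | h1
    · rw [h1]
    · by_cases hx : σ x = x
      · rw [h1, hx]
      · rw [h1]
        exact (hσ2 x hx).2.symm
  have hfinal : ∀ x y : X, x ≠ y → Hc Fs k x.1 y.1 → φ (π x) ≠ φ (π y) := by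
    intro x y hxy hH
    by_cases hc : ∃ F ∈ ess Fs Q k, x.1 ∈ F ∧ y.1 ∈ F
    · obtain ⟨F, hF, hxF, hyF⟩ := hc
      apply hcommon (π x) (π y) (fun hE => hxy (hπ2 hE)) F hF
      · have : F ∈ e x.1 := (memE _ _).mpr ⟨hF, hxF⟩
        rw [← hπe] at this
        exact ((memE _ _).mp this).2
      · have : F ∈ e y.1 := (memE _ _).mpr ⟨hF, hyF⟩
        rw [← hπe] at this
        exact ((memE _ _).mp this).2
    · have h1 : τ x = y := hτ3 x y ⟨hxy, hH, fun F hF hxF hyF => hc ⟨F, hF, hxF, hyF⟩⟩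
      rw [← h1]
      apply hπ3
      rw [h1]
      exact hxy.symm
  obtain ⟨ψ, hψ⟩ := stGreedy_56 P S (Hc Fs k) (k + 1) X
    (fun x => if hx : x ∈ X then φ (π ⟨x, hx⟩) else 0)
    (by
      rintro x y ⟨F, hF, hFk, hxF, hyF⟩
      exact ⟨F, hF, hFk, hyF, hxF⟩)
    (by
      intro x hx y hy hxy hH
      simp only [dif_pos hx, dif_pos hy]
      exact hfinal ⟨x, hx⟩ ⟨y, hy⟩ (fun hE => hxy (Subtype.mk.inj hE)) hH)
    (by
      intro x hxS hxX
      have hne : (e x).card ≠ 2 := fun hE => hxX ((hXmem x).mpr ⟨hxS, hE⟩)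
      have hEe : ((ess Fs Q k).filter (fun F => x ∈ F)).card = (e x).card := rfl
      rcases hdeg x hxS with h1 | h1 | h1
      · omega
      · obtain ⟨f, hf⟩ := Finset.card_eq_one.mp h1.1
        have hfm : f ∈ (ess Fs Q k).filter (fun F => x ∈ F) := by rw [hf]; simp
        rw [mem_filter] at hfm
        exact bound1 h hQF hQ4 hQd hQ3 hf (h1.2 f hfm.1 hfm.2)
      · exact bound0 h hQF hQ4 hQd hQ3 hk (Finset.card_eq_zero.mp h1.1) h1.2)
    hXS
  refine ⟨ψ, ?_⟩
  intro F hF hFk x hx y hy hE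
  by_contra hxy
  exact hψ x (h.sub F hF hx) y (h.sub F hF hy) hxy ⟨F, hF, hFk, hx, hy⟩ hE

end Pool.Agent.CY
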