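import Pool.Agent.Lib.MP_b6ecfd_co.Flip_56

/-! StComb (MP_b6ecfd_co), helper56. -/

set_option autoImplicit false

namespace Pool.Agent.CY

open Finset

/-- a symmetric irreflexive relation with at most one partner gives an involution. -/
theorem exists_inv_56 {X : Type} (R : X → X → Prop) (hs : ∀ x y, R x y → R y x)
    (hu : ∀ x y z, R x y → R x z → y = z) :
    ∃ σ : X → X, (∀ x, σ (σ x) = x) ∧ (∀ x, σ x ≠ x → R x (σ x)) ∧
      (∀ x y, R x y → σ x = y) := by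
  classical
  let σ : X → X := fun x => if h : ∃ y, R x y then Classical.choose h else x
  have h1 : ∀ x y, R x y → σ x = y := by
    intro x y hxy
    have h : ∃ y, R x y := ⟨y, hxy⟩
    have h2 : σ x = Classical.choose h := by simp only [σ, dif_pos h]
    rw [h2]
    exact hu x _ _ (Classical.choose_spec h) hxy
  have h3 : ∀ x, (¬ ∃ y, R x y) → σ x = x := by
    intro x h
    simp only [σ, dif_neg h]
  refine ⟨σ, ?_, ?_, h1⟩
  · intro x
    by_cases h : ∃ y, R x y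
    · obtain ⟨y, hy⟩ := h
      rw [h1 x y hy, h1 y x (hs x y hy)]
    · rw [h3 x h, h3 x h]
  · intro x hx
    by_cases h : ∃ y, R x y
    · obtain ⟨y, hy⟩ := h
      rw [h1 x y hy]; exact hy
    · exact absurd (h3 x h) hx

section

variable {P : Type} [DecidableEq P]

/-- facets at `x`. -/
def ft (Fs : Finset (Finset P)) (x : P) : Finset (Finset P) := Fs.filter (fun G => x ∈ G)

/-- common facets. -/
def cm (Fs : Finset (Finset P)) (x y : P) : Finset (Finset P) :=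
  Fs.filter (fun G => x ∈ G ∧ y ∈ G)

/-- neighbours. -/
def nbr (S : Finset P) (Fs : Finset (Finset P)) (x : P) : Finset P :=
  S.filter (fun y => y ≠ x ∧ 2 ≤ (cm Fs x y).card)

theorem mem_ft {Fs : Finset (Finset P)} {x : P} {G : Finset P} :
    G ∈ ft Fs x ↔ G ∈ Fs ∧ x ∈ G := by simp [ft]

theorem mem_cm {Fs : Finset (Finset P)} {x y : P} {G : Finset P} :
    G ∈ cm Fs x y ↔ G ∈ Fs ∧ x ∈ G ∧ y ∈ G := by simp [cm]

theorem mem_nbr {S : Finset P} {Fs : Finset (Finset P)} {x y : P} :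
    y ∈ nbr S Fs x ↔ y ∈ S ∧ y ≠ x ∧ 2 ≤ (cm Fs x y).card := by simp [nbr]

variable {S : Finset P} {Fs : Finset (Finset P)}

theorem cm_card_nbr (h : FSys S Fs) {x y : P} (hy : y ∈ nbr S Fs x) : (cm Fs x y).card = 2 := by
  rw [mem_nbr] at hy
  exact le_antisymm (h.pair x y (Ne.symm hy.2.1)) hy.2.2

theorem nbr_inter (h : FSys S Fs) {F : Finset P} (hF : F ∈ Fs) {x : P} (hx : x ∈ F) :
    (nbr S Fs x ∩ F).card = 2 := by
  rw [← h.nb F hF x hx]
  congr 1
  ext y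
  simp only [mem_inter, mem_nbr, mem_filter, cm]
  constructor
  · rintro ⟨⟨_, h2, h3⟩, h4⟩
    exact ⟨h4, h2, h3⟩
  · rintro ⟨h4, h2, h3⟩
    exact ⟨⟨h.sub F hF h4, h2, h3⟩, h4⟩

theorem nbr_card (h : FSys S Fs) (x : P) : (nbr S Fs x).card = (ft Fs x).card := by
  have key : (ft Fs x).card * 2 = (nbr S Fs x).card * 2 := by
    apply Finset.card_mul_eq_card_mul (fun (F : Finset P) (y : P) => y ∈ F)
    · intro F hF
      rw [mem_ft] at hF
      rw [← nbr_inter h hF.1 hF.2]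
      congr 1
    · intro y hy
      rw [← cm_card_nbr h hy]
      congr 1
      ext G
      simp only [Finset.bipartiteBelow, mem_filter, mem_ft, mem_cm]
      tauto
  omega

/-- the vertices of a triangle at `x` are neighbours of `x`. -/
theorem tri_nbr (h : FSys S Fs) {F : Finset P} (hF : F ∈ Fs) {x y : P} (hx : x ∈ F) (hy : y ∈ F)
    (hxy : y ≠ x) (hc : F.card = 3) : y ∈ nbr S Fs x := by
  have h1 : nbr S Fs x ∩ F ⊆ F.erase x := by
    intro z hz
    rw [mem_inter, mem_nbr] at hz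
    exact Finset.mem_erase.mpr ⟨hz.1.2.1, hz.2⟩
  have h2 : (F.erase x).card = 2 := by rw [Finset.card_erase_of_mem hx, hc]
  have h3 : nbr S Fs x ∩ F = F.erase x :=
    Finset.eq_of_subset_of_card_le h1 (by rw [h2, nbr_inter h hF hx])
  have h4 : y ∈ F.erase x := Finset.mem_erase.mpr ⟨hxy, hy⟩
  rw [← h3, mem_inter] at h4
  exact h4.1

theorem quad_opp (h : FSys S Fs) {F : Finset P} (hF : F ∈ Fs) {x : P} (hx : x ∈ F)
    (hc : F.card = 4) : ((F.erase x) \ nbr S Fs x).card = 1 := by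
  have h0 : nbr S Fs x ∩ F ⊆ F.erase x := by
    intro z hz
    rw [mem_inter, mem_nbr] at hz
    exact Finset.mem_erase.mpr ⟨hz.1.2.1, hz.2⟩
  have h1 : (F.erase x) \ nbr S Fs x = (F.erase x) \ (nbr S Fs x ∩ F) := by
    ext z
    simp only [mem_sdiff, mem_inter, mem_erase]
    tauto
  rw [h1, Finset.card_sdiff_of_subset h0, nbr_inter h hF hx, Finset.card_erase_of_mem hx, hc]

theorem mem_ess {Q : Finset (Finset P)} {k : ℕ} {F : Finset P} :
    F ∈ ess Fs Q k ↔ F ∈ Fs ∧ 4 ≤ F.card ∧ F.card ≤ k ∧ F ∉ Q := by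
  simp [ess]

/-- cofacial in a small facet. -/
def Hc (Fs : Finset (Finset P)) (k : ℕ) (x y : P) : Prop :=
  ∃ F ∈ Fs, F.card ≤ k ∧ x ∈ F ∧ y ∈ F

/-- the three kinds of small facets. -/
theorem Hc_cases (h : FSys S Fs) {Q : Finset (Finset P)} (hQ4 : ∀ F ∈ Q, F.card = 4) {k : ℕ}
    {x y : P} (hyx : y ≠ x) (hH : Hc Fs k x y) :
    (∃ F ∈ ess Fs Q k, x ∈ F ∧ y ∈ F) ∨ y ∈ nbr S Fs x ∨
      (∃ F ∈ Q, F ∈ Fs ∧ x ∈ F ∧ y ∈ F.erase x \ nbr S Fs x) := by
  obtain ⟨F, hF, hk, hx, hy⟩ := hH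
  by_cases h1 : F ∈ Q
  · by_cases h2 : y ∈ nbr S Fs x
    · exact Or.inr (Or.inl h2)
    · refine Or.inr (Or.inr ⟨F, h1, hF, hx, ?_⟩)
      rw [mem_sdiff, mem_erase]
      exact ⟨⟨hyx, hy⟩, h2⟩
  · by_cases h3 : 4 ≤ F.card
    · exact Or.inl ⟨F, mem_ess.mpr ⟨hF, h3, hk, h1⟩, hx, hy⟩
    · have h4 := h.three F hF
      exact Or.inr (Or.inl (tri_nbr h hF hx hy hyx (by omega)))

/-- the vertices which are joined to `x` by the diagonal of a quadrilateral of `Q`. -/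
def opp (S : Finset P) (Fs Q : Finset (Finset P)) (x : P) : Finset P :=
  (Q.filter (fun F => x ∈ F)).biUnion (fun F => F.erase x \ nbr S Fs x)

theorem opp_empty {Q : Finset (Finset P)} {x : P} (hx : ¬ ∃ m ∈ Q, x ∈ m) :
    opp S Fs Q x = ∅ := by
  rw [opp]
  have : Q.filter (fun F => x ∈ F) = ∅ := by
    apply Finset.filter_eq_empty_iff.mpr
    intro F hF hxF
    exact hx ⟨F, hF, hxF⟩
  rw [this]
  rfl

theorem opp_card (h : FSys S Fs) {Q : Finset (Finset P)} (hQF : Q ⊆ Fs)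
    (hQ4 : ∀ F ∈ Q, F.card = 4) (hQd : ∀ F ∈ Q, ∀ G ∈ Q, F ≠ G → Disjoint F G)
    (x : P) : (opp S Fs Q x).card ≤ 1 := by
  by_cases hx : ∃ m ∈ Q, x ∈ m
  · obtain ⟨m, hm, hxm⟩ := hx
    have h1 : Q.filter (fun F => x ∈ F) = {m} := by
      ext F
      rw [mem_filter, mem_singleton]
      constructor
      · rintro ⟨hF, hxF⟩
        by_contra hne
        exact Finset.disjoint_left.mp (hQd F hF m hm hne) hxF hxm
      · rintro rfl
        exact ⟨hm, hxm⟩
    rw [opp, h1, Finset.singleton_biUnion]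
    exact (quad_opp h (hQF hm) hxm (hQ4 m hm)).le
  · rw [opp_empty hx]
    simp

theorem mem_opp {Q : Finset (Finset P)} {x y : P} :
    y ∈ opp S Fs Q x ↔ ∃ F ∈ Q, x ∈ F ∧ y ∈ F.erase x \ nbr S Fs x := by
  simp only [opp, mem_biUnion, mem_filter]
  constructor
  · rintro ⟨F, ⟨h1, h2⟩, h3⟩; exact ⟨F, h1, h2, h3⟩
  · rintro ⟨F, h1, h2, h3⟩; exact ⟨F, ⟨h1, h2⟩, h3⟩

theorem bound0 (h : FSys S Fs) {Q : Finset (Finset P)} (hQF : Q ⊆ Fs)
    (hQ4 : ∀ F ∈ Q, F.card = 4) (hQd : ∀ F ∈ Q, ∀ G ∈ Q, F ≠ G → Disjoint F G)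
    (hQ3 : ∀ F ∈ Q, ∀ x ∈ F, (Fs.filter (fun G => x ∈ G)).card = 3) {k : ℕ} (hk : 3 ≤ k)
    {x : P} (he : (ess Fs Q k).filter (fun F => x ∈ F) = ∅)
    (hd : (Fs.filter (fun G => x ∈ G)).card ≤ k + 1) :
    ∃ T : Finset P, T.card ≤ k + 1 ∧ ∀ y ∈ S, y ≠ x → Hc Fs k x y → y ∈ T := by
  refine ⟨nbr S Fs x ∪ opp S Fs Q x, ?_, ?_⟩
  · have h1 := Finset.card_union_le (nbr S Fs x) (opp S Fs Q x)
    have h2 := nbr_card h x
    have h3 : (ft Fs x).card = (Fs.filter (fun G => x ∈ G)).card := rfl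
    by_cases hx : ∃ m ∈ Q, x ∈ m
    · obtain ⟨m, hm, hxm⟩ := hx
      have h4 := hQ3 m hm x hxm
      have h5 := opp_card h hQF hQ4 hQd x
      omega
    · rw [opp_empty hx] at h1 ⊢
      rw [Finset.card_empty] at h1
      omega
  · intro y _ hyx hH
    rw [mem_union]
    rcases Hc_cases h hQ4 hyx hH with ⟨F, hF, hx, hy⟩ | h1 | ⟨F, hF, _, hx, hy⟩
    · have : F ∈ (ess Fs Q k).filter (fun F => x ∈ F) := mem_filter.mpr ⟨hF, hx⟩
      rw [he] at this
      simp at this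
    · exact Or.inl h1
    · exact Or.inr (mem_opp.mpr ⟨F, hF, hx, hy⟩)

theorem bound1 (h : FSys S Fs) {Q : Finset (Finset P)} (hQF : Q ⊆ Fs)
    (hQ4 : ∀ F ∈ Q, F.card = 4) (hQd : ∀ F ∈ Q, ∀ G ∈ Q, F ≠ G → Disjoint F G)
    (hQ3 : ∀ F ∈ Q, ∀ x ∈ F, (Fs.filter (fun G => x ∈ G)).card = 3) {k : ℕ}
    {x : P} {f : Finset P} (he : (ess Fs Q k).filter (fun F => x ∈ F) = {f})
    (hd : f.card + (Fs.filter (fun G => x ∈ G)).card ≤ k + 4) :
    ∃ T : Finset P, T.card ≤ k + 1 ∧ ∀ y ∈ S, y ≠ x → Hc Fs k x y → y ∈ T := by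
  have hf : f ∈ (ess Fs Q k).filter (fun F => x ∈ F) := by rw [he]; simp
  rw [mem_filter, mem_ess] at hf
  obtain ⟨⟨hfF, hf4, hfk, hfQ⟩, hxf⟩ := hf
  refine ⟨f.erase x ∪ (nbr S Fs x \ f) ∪ opp S Fs Q x, ?_, ?_⟩
  · have h1 := Finset.card_union_le (f.erase x ∪ (nbr S Fs x \ f)) (opp S Fs Q x)
    have h1' := Finset.card_union_le (f.erase x) (nbr S Fs x \ f)
    have h2 := nbr_card h x
    have h3 : (ft Fs x).card = (Fs.filter (fun G => x ∈ G)).card := rfl
    have h6 : (nbr S Fs x \ f).card + (nbr S Fs x ∩ f).card = (nbr S Fs x).card :=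
      Finset.card_sdiff_add_card_inter _ _
    have h7 := nbr_inter h hfF hxf
    have h8 : (f.erase x).card = f.card - 1 := Finset.card_erase_of_mem hxf
    by_cases hx : ∃ m ∈ Q, x ∈ m
    · obtain ⟨m, hm, hxm⟩ := hx
      have h4 := hQ3 m hm x hxm
      have h5 := opp_card h hQF hQ4 hQd x
      omega
    · rw [opp_empty hx] at h1 ⊢
      rw [Finset.card_empty] at h1
      omega
  · intro y _ hyx hH
    rw [mem_union, mem_union, mem_sdiff]
    by_cases hyf : y ∈ f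
    · exact Or.inl (Or.inl (mem_erase.mpr ⟨hyx, hyf⟩))
    rcases Hc_cases h hQ4 hyx hH with ⟨F, hF, hx, hy⟩ | h1 | ⟨F, hF, _, hx, hy⟩
    · have : F ∈ (ess Fs Q k).filter (fun F => x ∈ F) := mem_filter.mpr ⟨hF, hx⟩
      rw [he, mem_singleton] at this
      rw [this] at hy
      exact absurd hy hyf
    · exact Or.inl (Or.inr ⟨h1, hyf⟩)
    · exact Or.inr (mem_opp.mpr ⟨F, hF, hx, hy⟩)

/-- conflict vertices of `x`: cofacial, but in no common essential facet. -/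
theorem conflict (h : FSys S Fs) {Q : Finset (Finset P)} (hQF : Q ⊆ Fs)
    (hQ4 : ∀ F ∈ Q, F.card = 4) (hQd : ∀ F ∈ Q, ∀ G ∈ Q, F ≠ G → Disjoint F G)
    (hQ3 : ∀ F ∈ Q, ∀ x ∈ F, (Fs.filter (fun G => x ∈ G)).card = 3) {k : ℕ}
    {x : P} {f g : Finset P} (hfg : f ≠ g)
    (he : (ess Fs Q k).filter (fun F => x ∈ F) = {f, g})
    (hd : (Fs.filter (fun G => x ∈ G)).card ≤ 4) :
    (∀ z ∈ S, z ≠ x → Hc Fs k x z → z ∉ f → z ∉ g → ∃ u ∈ S, u ≠ x ∧ u ∈ f ∧ u ∈ g) ∧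
    (∀ z ∈ S, ∀ w ∈ S, z ≠ x → w ≠ x → Hc Fs k x z → Hc Fs k x w → z ∉ f → z ∉ g →
      w ∉ f → w ∉ g → z = w) := by
  have hf : f ∈ (ess Fs Q k).filter (fun F => x ∈ F) := by rw [he]; simp
  have hg : g ∈ (ess Fs Q k).filter (fun F => x ∈ F) := by rw [he]; simp
  rw [mem_filter, mem_ess] at hf hg
  obtain ⟨⟨hfF, hf4, hfk, hfQ⟩, hxf⟩ := hf
  obtain ⟨⟨hgF, hg4, hgk, hgQ⟩, hxg⟩ := hg
  have hff : f ∈ ft Fs x := mem_ft.mpr ⟨hfF, hxf⟩
  have hgf : g ∈ ft Fs x := mem_ft.mpr ⟨hgF, hxg⟩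
  have hdd : (ft Fs x).card ≤ 4 := hd
  have hn := nbr_card h x
  have hnf := nbr_inter h hfF hxf
  have hng := nbr_inter h hgF hxg
  -- a conflict vertex is in no essential facet through x
  have hcase : ∀ z, z ≠ x → Hc Fs k x z → z ∉ f → z ∉ g →
      z ∈ nbr S Fs x ∨ z ∈ opp S Fs Q x := by
    intro z hzx hH hzf hzg
    rcases Hc_cases h hQ4 hzx hH with ⟨F, hF, hx, hy⟩ | h1 | ⟨F, hF, _, hx, hy⟩
    · have : F ∈ (ess Fs Q k).filter (fun F => x ∈ F) := mem_filter.mpr ⟨hF, hx⟩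
      rw [he, mem_insert, mem_singleton] at this
      rcases this with rfl | rfl
      · exact absurd hy hzf
      · exact absurd hy hzg
    · exact Or.inl h1
    · exact Or.inr (mem_opp.mpr ⟨F, hF, hx, hy⟩)
  -- the common facets of x and a conflict neighbour
  have hsub : ∀ z, z ∉ f → z ∉ g → cm Fs x z ⊆ ft Fs x \ {f, g} := by
    intro z hzf hzg G hG
    rw [mem_cm] at hG
    rw [mem_sdiff, mem_ft, mem_insert, mem_singleton]
    refine ⟨⟨hG.1, hG.2.1⟩, ?_⟩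
    rintro (rfl | rfl)
    · exact hzf hG.2.2
    · exact hzg hG.2.2
  have hcs : (ft Fs x \ {f, g}).card + 2 = (ft Fs x).card := by
    have h1 : ({f, g} : Finset (Finset P)) ⊆ ft Fs x := by
      intro G hG
      rw [mem_insert, mem_singleton] at hG
      rcases hG with rfl | rfl
      · exact hff
      · exact hgf
    have h2 := Finset.card_sdiff_add_card_eq_card h1
    rw [Finset.card_pair hfg] at h2
    exact h2
  have hopp3 : (∃ m ∈ Q, x ∈ m) → (ft Fs x).card = 3 := by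
    rintro ⟨m, hm, hxm⟩
    exact hQ3 m hm x hxm
  have hnbr4 : ∀ z, z ∈ nbr S Fs x → z ∉ f → z ∉ g → (ft Fs x).card = 4 := by
    intro z hz hzf hzg
    have h1 := Finset.card_le_card (hsub z hzf hzg)
    rw [cm_card_nbr h hz] at h1
    omega
  constructor
  · intro z hz hzx hH hzf hzg
    by_contra hcon
    push Not at hcon
    have hdis : Disjoint (nbr S Fs x ∩ f) (nbr S Fs x ∩ g) := by
      rw [Finset.disjoint_left]
      intro u hu1 hu2
      rw [mem_inter, mem_nbr] at hu1 hu2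
      exact hcon u hu1.1.1 hu1.1.2.1 hu1.2 hu2.2
    have hcu := Finset.card_union_of_disjoint hdis
    have hsu : (nbr S Fs x ∩ f) ∪ (nbr S Fs x ∩ g) ⊆ nbr S Fs x :=
      Finset.union_subset Finset.inter_subset_left Finset.inter_subset_left
    have hcl := Finset.card_le_card hsu
    rcases hcase z hzx hH hzf hzg with h1 | h1
    · have h4 := hnbr4 z h1 hzf hzg
      have h5 : (nbr S Fs x ∩ f) ∪ (nbr S Fs x ∩ g) = nbr S Fs x :=
        Finset.eq_of_subset_of_card_le hsu (by omega)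
      rw [← h5, mem_union, mem_inter, mem_inter] at h1
      rcases h1 with h1 | h1
      · exact hzf h1.2
      · exact hzg h1.2
    · have h2 : ∃ m ∈ Q, x ∈ m := by
        obtain ⟨F, hF, hx, _⟩ := mem_opp.mp h1
        exact ⟨F, hF, hx⟩
      have h3 := hopp3 h2
      omega
  · intro z hz w hw hzx hwx hHz hHw hzf hzg hwf hwg
    rcases hcase z hzx hHz hzf hzg with h1 | h1
    · have h4 := hnbr4 z h1 hzf hzg
      rcases hcase w hwx hHw hwf hwg with h2 | h2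
      · by_contra hne
        have e1 : cm Fs x z = ft Fs x \ {f, g} :=
          Finset.eq_of_subset_of_card_le (hsub z hzf hzg) (by rw [cm_card_nbr h h1]; omega)
        have e2 : cm Fs x w = ft Fs x \ {f, g} :=
          Finset.eq_of_subset_of_card_le (hsub w hwf hwg) (by rw [cm_card_nbr h h2]; omega)
        have hc2 : (ft Fs x \ {f, g}).card = 2 := by omega
        obtain ⟨s, t, hst, hEq⟩ := Finset.card_eq_two.mp hc2
        have hs1 : s ∈ cm Fs x z := by rw [e1, hEq]; simp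
        have ht1 : t ∈ cm Fs x z := by rw [e1, hEq]; simp
        have hs2 : s ∈ cm Fs x w := by rw [e2, hEq]; simp
        have ht2 : t ∈ cm Fs x w := by rw [e2, hEq]; simp
        rw [mem_cm] at hs1 ht1 hs2 ht2
        have h3 := h.inter s hs1.1 t ht1.1 hst
        have h5 : ({x, z, w} : Finset P) ⊆ s ∩ t := by
          intro a ha
          rw [mem_insert, mem_insert, mem_singleton] at ha
          rw [mem_inter]
          rcases ha with rfl | rfl | rfl
          · exact ⟨hs1.2.1, ht1.2.1⟩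
          · exact ⟨hs1.2.2, ht1.2.2⟩
          · exact ⟨hs2.2.2, ht2.2.2⟩
        have h6 : ({x, z, w} : Finset P).card = 3 :=
          Finset.card_eq_three.mpr ⟨x, z, w, hzx.symm, hwx.symm, hne, rfl⟩
        have h7 := Finset.card_le_card h5
        omega
      · have h3 : ∃ m ∈ Q, x ∈ m := by
          obtain ⟨F, hF, hx, _⟩ := mem_opp.mp h2
          exact ⟨F, hF, hx⟩
        have := hopp3 h3
        omega
    · have h3 : ∃ m ∈ Q, x ∈ m := by
        obtain ⟨F, hF, hx, _⟩ := mem_opp.mp h1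
        exact ⟨F, hF, hx⟩
      have h3' := hopp3 h3
      rcases hcase w hwx hHw hwf hwg with h2 | h2
      · have := hnbr4 w h2 hwf hwg
        omega
      · exact Finset.card_le_one.mp (opp_card h hQF hQ4 hQd x) z h1 w h2

end

end Pool.Agent.CY
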