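import Pool.Agent.Lib.MP_b6ecfd_co.CoreS16

/-! The theorem for core vertices on two members of `E` (MP_b6ecfd), helper16.  The proof follows
combA_56 (helper56). -/

set_option autoImplicit false

namespace Pool.Agent.CY

open Finset

/-- the theorem for core vertices on two members of `E`. -/
theorem coreA_16 (hV : StVizing) (P : Type) [DecidableEq P] (S : Finset P)
    (Fs E : Finset (Finset P)) (k n : ℕ) (hkn : k + 1 ≤ n) (h : FSys S Fs) (hEF : E ⊆ Fs)
    (hEk : ∀ F ∈ E, F.card ≤ k)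
    (hh : ∀ x ∈ core S ∅ Fs k (n + 1), ∃ f g : Finset P, f ≠ g ∧ eE E x = {f, g} ∧
      (outK S Fs E k (core S ∅ Fs k (n + 1)) x).card < (f ∩ g ∩ core S ∅ Fs k (n + 1)).card) :
    ∃ col : P → Fin (n + 1), ∀ F ∈ Fs, F.card ≤ k → Set.InjOn col (F : Set P) := by
  classical
  set e : P → Finset (Finset P) := eE E with he
  have memE : ∀ x F, F ∈ e x ↔ F ∈ E ∧ x ∈ F := by
    intro x F
    simp [he, eE]
  set X : Finset P := core S ∅ Fs k (n + 1) with hX
  have hXS : X ⊆ S := core_sub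
  have hpq : ∀ x : X, ∃ f g : Finset P, f ≠ g ∧ e x.1 = {f, g} ∧
      (outK S Fs E k X x.1).card < (f ∩ g ∩ X).card := fun x => hh x.1 x.2
  choose p q hpq1 hpq2 hpq3 using hpq
  have hp : ∀ x : X, p x ∈ E ∧ x.1 ∈ p x := by
    intro x
    rw [← memE, hpq2]
    simp
  have hq : ∀ x : X, q x ∈ E ∧ x.1 ∈ q x := by
    intro x
    rw [← memE, hpq2]
    simp
  -- Vizing
  obtain ⟨φ, hφ⟩ := hV X (Finset P) p q k 2 hpq1 (by
    intro v
    by_cases hv : v ∈ E
    · have h1 : (univ.filter (fun x : X => p x = v ∨ q x = v)).card ≤ v.card := by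
        apply Finset.card_le_card_of_injOn (fun x => x.1)
        · intro x hx
          simp only [coe_filter, mem_univ, true_and, Set.mem_ofPred_eq] at hx
          rcases hx with rfl | rfl
          · exact (hp x).2
          · exact (hq x).2
        · intro x _ y _ hxy
          exact Subtype.ext hxy
      exact h1.trans (hEk v hv)
    · have h1 : univ.filter (fun x : X => p x = v ∨ q x = v) = ∅ := by
        apply Finset.filter_eq_empty_iff.mpr
        intro x _ hx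
        rcases hx with rfl | rfl
        · exact hv (hp x).1
        · exact hv (hq x).1
      rw [h1]
      simp) (by
    intro u v huv
    by_cases hv : u ∈ E ∧ v ∈ E
    · have h1 : (univ.filter (fun x : X => (p x = u ∧ q x = v) ∨ (p x = v ∧ q x = u))).card
          ≤ (u ∩ v).card := by
        apply Finset.card_le_card_of_injOn (fun x => x.1)
        · intro x hx
          simp only [coe_filter, mem_univ, true_and, Set.mem_ofPred_eq] at hx
          simp only [coe_inter, Set.mem_inter_iff, mem_coe]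
          rcases hx with ⟨rfl, rfl⟩ | ⟨rfl, rfl⟩
          · exact ⟨(hp x).2, (hq x).2⟩
          · exact ⟨(hq x).2, (hp x).2⟩
        · intro x _ y _ hxy
          exact Subtype.ext hxy
      exact h1.trans (h.inter u (hEF hv.1) v (hEF hv.2) huv)
    · have h1 : univ.filter (fun x : X => (p x = u ∧ q x = v) ∨ (p x = v ∧ q x = u)) = ∅ := by
        apply Finset.filter_eq_empty_iff.mpr
        intro x _ hx
        apply hv
        rcases hx with ⟨rfl, rfl⟩ | ⟨rfl, rfl⟩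
        · exact ⟨(hp x).1, (hq x).1⟩
        · exact ⟨(hq x).1, (hp x).1⟩
      rw [h1]
      simp) (by norm_num)
  have hcommon : ∀ x y : X, x ≠ y → ∀ F ∈ E, x.1 ∈ F → y.1 ∈ F → φ x ≠ φ y := by
    intro x y hxy F hF hxF hyF
    apply hφ x y hxy
    have h1 : F ∈ e x.1 := (memE _ _).mpr ⟨hF, hxF⟩
    have h2 : F ∈ e y.1 := (memE _ _).mpr ⟨hF, hyF⟩
    rw [hpq2, mem_insert, mem_singleton] at h1 h2
    rcases h1 with h1 | h1 <;> rcases h2 with h2 | h2 <;> rw [← h1, ← h2] <;> simp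
  -- two vertices determine the pair
  have huniq : ∀ x y z : X, x ≠ y → x ≠ z → e x.1 = e y.1 → e x.1 = e z.1 → y = z := by
    intro x y z hxy hxz hey hez
    by_contra hyz
    have h1 := h.inter (p x) (hEF (hp x).1) (q x) (hEF (hq x).1) (hpq1 x)
    have hsub : ({x.1, y.1, z.1} : Finset P) ⊆ p x ∩ q x := by
      intro a ha
      rw [mem_insert, mem_insert, mem_singleton] at ha
      rw [mem_inter]
      have hpx : p x ∈ e x.1 := (memE _ _).mpr (hp x)
      have hqx : q x ∈ e x.1 := (memE _ _).mpr (hq x)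
      rcases ha with rfl | rfl | rfl
      · exact ⟨(hp x).2, (hq x).2⟩
      · rw [hey] at hpx hqx
        exact ⟨((memE _ _).mp hpx).2, ((memE _ _).mp hqx).2⟩
      · rw [hez] at hpx hqx
        exact ⟨((memE _ _).mp hpx).2, ((memE _ _).mp hqx).2⟩
    have h6 : ({x.1, y.1, z.1} : Finset P).card = 3 :=
      Finset.card_eq_three.mpr ⟨x.1, y.1, z.1, fun hE => hxy (Subtype.ext hE),
        fun hE => hxz (Subtype.ext hE), fun hE => hyz (Subtype.ext hE), rfl⟩
    have h7 := Finset.card_le_card hsub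
    omega
  -- at most one conflict, and then two common vertices
  have hout1 : ∀ x : X, (outK S Fs E k X x.1).card ≤ 1 := by
    intro x
    have h1 := hpq3 x
    have h2 := h.inter (p x) (hEF (hp x).1) (q x) (hEF (hq x).1) (hpq1 x)
    have h3 : (p x ∩ q x ∩ X).card ≤ (p x ∩ q x).card :=
      Finset.card_le_card Finset.inter_subset_left
    omega
  obtain ⟨σ, hσ1, hσ2, hσ3⟩ := exists_inv_56 (fun x y : X => x ≠ y ∧ e x.1 = e y.1)
    (fun x y hxy => ⟨hxy.1.symm, hxy.2.symm⟩)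
    (fun x y z hxy hxz => huniq x y z hxy.1 hxz.1 hxy.2 hxz.2)
  obtain ⟨τ, hτ1, hτ2, hτ3⟩ := exists_inv_56 (fun x y : X => x ≠ y ∧ Hc Fs k x.1 y.1 ∧
      ∀ F ∈ E, x.1 ∈ F → y.1 ∉ F)
    (by
      rintro x y ⟨h1, ⟨F, hF, hFk, hxF, hyF⟩, h3⟩
      exact ⟨h1.symm, ⟨F, hF, hFk, hyF, hxF⟩, fun G hG hyG hxG => h3 G hG hxG hyG⟩)
    (by
      rintro x y z ⟨h1, h2, h3⟩ ⟨h4, h5, h6⟩
      apply Subtype.ext
      exact Finset.card_le_one.mp (hout1 x) y.1
        (mem_outK.mpr ⟨⟨⟨hXS y.2, fun hE => h1 (Subtype.ext hE.symm), h2⟩, h3⟩, y.2⟩) z.1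
        (mem_outK.mpr ⟨⟨⟨hXS z.2, fun hE => h4 (Subtype.ext hE.symm), h5⟩, h6⟩, z.2⟩))
  have hmate : ∀ x : X, τ x ≠ x → ∃ v : X, v ≠ x ∧ e x.1 = e v.1 := by
    intro x hx
    obtain ⟨h1, h2, h3⟩ := hτ2 x hx
    have hto : (τ x).1 ∈ outK S Fs E k X x.1 :=
      mem_outK.mpr ⟨⟨⟨hXS (τ x).2, fun hE => h1 (Subtype.ext hE.symm), h2⟩, h3⟩, (τ x).2⟩
    have h4 : 1 ≤ (outK S Fs E k X x.1).card := Finset.card_pos.mpr ⟨_, hto⟩
    have h5 := hpq3 x
    obtain ⟨u, hu, hux⟩ := Finset.exists_mem_ne (show 1 < (p x ∩ q x ∩ X).card by omega) x.1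
    rw [mem_inter, mem_inter] at hu
    have hsub : ({p x, q x} : Finset (Finset P)) ⊆ e u := by
      intro G hG
      rw [mem_insert, mem_singleton] at hG
      rw [memE]
      rcases hG with rfl | rfl
      · exact ⟨(hp x).1, hu.1.1⟩
      · exact ⟨(hq x).1, hu.1.2⟩
    refine ⟨⟨u, hu.2⟩, fun hE => hux (congrArg Subtype.val hE), ?_⟩
    rw [hpq2 x]
    apply Finset.eq_of_subset_of_card_le hsub
    have h6 : (e u).card = 2 := by
      rw [hpq2 ⟨u, hu.2⟩, Finset.card_pair (hpq1 ⟨u, hu.2⟩)]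
    rw [h6, Finset.card_pair (hpq1 x)]
  obtain ⟨π, hπ1, hπ2, hπ3⟩ := stFlip_56 X (Fin (k + 2)) σ τ φ hσ1 hτ1 (by
      intro x hx
      obtain ⟨v, hvx, hve⟩ := hmate x hx
      have := hσ3 x v ⟨hvx.symm, hve⟩
      rw [this]
      exact hvx) (by
      intro x hx
      obtain ⟨h1, h2⟩ := hσ2 x hx
      have hpx : p x ∈ e x.1 := (memE _ _).mpr (hp x)
      rw [h2] at hpx
      exact hcommon (σ x) x hx (p x) (hp x).1 ((memE _ _).mp hpx).2 (hp x).2)
  have hπe : ∀ x : X, e (π x).1 = e x.1 := by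
    intro x
    rcases hπ1 x with h1 | h1
    · rw [h1]
    · by_cases hx : σ x = x
      · rw [h1, hx]
      · rw [h1]
        exact (hσ2 x hx).2.symm
  have hfinal : ∀ x y : X, x ≠ y → Hc Fs k x.1 y.1 → φ (π x) ≠ φ (π y) := by
    intro x y hxy hH
    by_cases hc : ∃ F ∈ E, x.1 ∈ F ∧ y.1 ∈ F
    · obtain ⟨F, hF, hxF, hyF⟩ := hc
      apply hcommon (π x) (π y) (fun hE => hxy (hπ2 hE)) F hF
      · have : F ∈ e x.1 := (memE _ _).mpr ⟨hF, hxF⟩
        rw [← hπe] at this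
        exact ((memE _ _).mp this).2
      · have : F ∈ e y.1 := (memE _ _).mpr ⟨hF, hyF⟩
        rw [← hπe] at this
        exact ((memE _ _).mp this).2
    · have hc' : ∀ F ∈ E, x.1 ∈ F → y.1 ∉ F :=
        fun F hF hxF hyF => hc ⟨F, hF, hxF, hyF⟩
      have h1 : τ x = y := hτ3 x y ⟨hxy, hH, hc'⟩
      rw [← h1]
      apply hπ3
      rw [h1]
      exact hxy.symm
  -- the colouring
  let col1 : P → Fin (n + 1) := fun x => if hx : x ∈ X then
    ⟨(φ (π ⟨x, hx⟩)).1, by have := (φ (π ⟨x, hx⟩)).2; omega⟩ else 0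
  have hprop : ∀ x ∈ X, ∀ y ∈ X, x ≠ y → Hc Fs k x y → col1 x ≠ col1 y := by
    intro x hx y hy hxy hH hE
    simp only [col1, dif_pos hx, dif_pos hy] at hE
    have h1 : (φ (π ⟨x, hx⟩)).1 = (φ (π ⟨y, hy⟩)).1 := congrArg (fun a : Fin (n + 1) => a.1) hE
    exact hfinal ⟨x, hx⟩ ⟨y, hy⟩ (fun hE' => hxy (Subtype.mk.inj hE')) hH (Fin.ext h1)
  obtain ⟨col, hcol⟩ := core_ext col1 hprop
  refine ⟨col, ?_⟩
  intro G hG hGk x hx y hy hE
  by_contra hxy
  exact hcol x (h.sub G hG hx) y (h.sub G hG hy) hxy ⟨G, hG, hGk, hx, hy⟩ hE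

end Pool.Agent.CY
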