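import Pool.Agent.Lib.MP_b6ecfd_co.Geo12

/-! A facet with three vertices which are pairwise joined by edges is a triangle (MP_b6ecfd),
helper16. -/

set_option autoImplicit false

namespace Pool.Agent.CY

open Finset

/-- triangles: pairwise neighbours in a facet. -/
def TriAx {P : Type} [DecidableEq P] (Fs : Finset (Finset P)) : Prop :=
  ∀ F ∈ Fs, ∀ x ∈ F, ∀ y ∈ F, ∀ z ∈ F, x ≠ y → x ≠ z → y ≠ z →
    2 ≤ (Fs.filter (fun G => x ∈ G ∧ y ∈ G)).card →
    2 ≤ (Fs.filter (fun G => x ∈ G ∧ z ∈ G)).card →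
    2 ≤ (Fs.filter (fun G => y ∈ G ∧ z ∈ G)).card → F.card ≤ 3

theorem tri_core (S F Gxy Gxz Gyz : Finset E3) (hS : affineSpan ℝ (S : Set E3) = ⊤)
    (hsep : ∀ x ∈ S, ∃ m : E3 →L[ℝ] ℝ, ∀ s ∈ S, s ≠ x → 0 < m (s - x))
    (hF : IsFacet S (F : Set E3)) (h1 : IsFacet S (Gxy : Set E3)) (h2 : IsFacet S (Gxz : Set E3))
    (h3 : IsFacet S (Gyz : Set E3)) (n1 : Gxy ≠ F) (n2 : Gxz ≠ F) (n3 : Gyz ≠ F)
    (x y z : E3) (hx : x ∈ F) (hy : y ∈ F) (hz : z ∈ F) (hxy : x ≠ y) (hxz : x ≠ z) (hyz : y ≠ z)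
    (x1 : x ∈ Gxy) (y1 : y ∈ Gxy) (x2 : x ∈ Gxz) (z2 : z ∈ Gxz) (y3 : y ∈ Gyz) (z3 : z ∈ Gyz) :
    ∀ s ∈ F, s = x ∨ s = y ∨ s = z := by
  intro s hs
  by_contra hcon
  push Not at hcon
  obtain ⟨hsx, hsy, hsz⟩ := hcon
  have hFS := G12.facet_sub S F hF
  have hzG : z ∉ Gxy := by
    intro hc
    have h5 := G12.facet_inter S F Gxy hS hsep hF h1 n1.symm
    have h6 : ({x, y, z} : Finset E3) ⊆ F ∩ Gxy := by
      intro a ha
      rw [mem_insert, mem_insert, mem_singleton] at ha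
      rw [mem_inter]
      rcases ha with rfl | rfl | rfl
      · exact ⟨hx, x1⟩
      · exact ⟨hy, y1⟩
      · exact ⟨hz, hc⟩
    have h7 := Finset.card_le_card h6
    rw [Finset.card_eq_three.mpr ⟨x, y, z, hxy, hxz, hyz, rfl⟩] at h7
    omega
  have hyG : y ∉ Gxz := by
    intro hc
    have h5 := G12.facet_inter S F Gxz hS hsep hF h2 n2.symm
    have h6 : ({x, y, z} : Finset E3) ⊆ F ∩ Gxz := by
      intro a ha
      rw [mem_insert, mem_insert, mem_singleton] at ha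
      rw [mem_inter]
      rcases ha with rfl | rfl | rfl
      · exact ⟨hx, x2⟩
      · exact ⟨hy, hc⟩
      · exact ⟨hz, z2⟩
    have h7 := Finset.card_le_card h6
    rw [Finset.card_eq_three.mpr ⟨x, y, z, hxy, hxz, hyz, rfl⟩] at h7
    omega
  have hxG : x ∉ Gyz := by
    intro hc
    have h5 := G12.facet_inter S F Gyz hS hsep hF h3 n3.symm
    have h6 : ({x, y, z} : Finset E3) ⊆ F ∩ Gyz := by
      intro a ha
      rw [mem_insert, mem_insert, mem_singleton] at ha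
      rw [mem_inter]
      rcases ha with rfl | rfl | rfl
      · exact ⟨hx, hc⟩
      · exact ⟨hy, y3⟩
      · exact ⟨hz, z3⟩
    have h7 := Finset.card_le_card h6
    rw [Finset.card_eq_three.mpr ⟨x, y, z, hxy, hxz, hyz, rfl⟩] at h7
    omega
  obtain ⟨f, hf⟩ := G12.facet_FA S F hS hF x hx
  obtain ⟨_, hf2, u, hu, hu0⟩ := hf
  obtain ⟨a, b, c, habc, he⟩ := G12.dep_vec f (u - x) (y - x) (z - x) (s - x) hu0
    ((hf2 y (hFS hy)).1 hy) ((hf2 z (hFS hz)).1 hz) ((hf2 s (hFS hs)).1 hs)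
  have hc : c ≠ 0 := by
    intro hc
    rw [hc, zero_smul, add_zero] at he
    have := G12.noncol S hsep x y z (hFS hx) (hFS hy) (hFS hz) hxy.symm hxz.symm hyz.symm a b he
    rcases habc with h | h | h
    · exact h this.1
    · exact h this.2
    · exact h hc
  obtain ⟨β, γ, hsv⟩ : ∃ β γ : ℝ, s - x = β • (y - x) + γ • (z - x) := by
    refine ⟨-(a / c), -(b / c), ?_⟩
    have h5 : c • (s - x) = -(a • (y - x) + b • (z - x)) := by
      rw [eq_neg_iff_add_eq_zero, add_comm]; exact he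
    have h6 : s - x = c⁻¹ • (c • (s - x)) := by
      rw [smul_smul, inv_mul_cancel₀ hc, one_smul]
    rw [h6, h5, smul_neg, smul_add, smul_smul, smul_smul, neg_smul, neg_smul, neg_add,
      div_eq_inv_mul, div_eq_inv_mul]
  have hge : ∀ (G : Finset E3), IsFacet S (G : Set E3) → ∀ p ∈ G, ∀ q ∈ G, ∀ r ∈ S, r ∉ G →
      ∃ g : E3 →L[ℝ] ℝ, g (q - p) = 0 ∧ 0 < g (r - p) ∧ 0 ≤ g (s - p) := by
    intro G hG p hp q hq r hr hrG
    obtain ⟨g, g1, g2, _⟩ := G12.facet_FA S G hS hG p hp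
    have hGS := G12.facet_sub S G hG
    refine ⟨g, (g2 q (hGS hq)).1 hq, ?_, g1 s (hFS hs)⟩
    exact lt_of_le_of_ne (g1 r hr) (fun h => hrG ((g2 r hr).2 h.symm))
  have hγ : 0 ≤ γ := by
    obtain ⟨g, g1, g2, g3⟩ := hge Gxy h1 x x1 y y1 z (hFS hz) hzG
    rw [hsv, map_add, map_smul, map_smul, g1, smul_zero, zero_add, smul_eq_mul] at g3
    exact nonneg_of_mul_nonneg_left g3 g2
  have hβ : 0 ≤ β := by
    obtain ⟨g, g1, g2, g3⟩ := hge Gxz h2 x x2 z z2 y (hFS hy) hyG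
    rw [hsv, map_add, map_smul, map_smul, g1, smul_zero, add_zero, smul_eq_mul] at g3
    exact nonneg_of_mul_nonneg_left g3 g2
  have hα : 0 ≤ 1 - β - γ := by
    obtain ⟨g, g1, g2, g3⟩ := hge Gyz h3 y y3 z z3 x (hFS hx) hxG
    have h5 : s - y = γ • (z - y) + (1 - β - γ) • (x - y) := by
      have h6 : s = x + (β • (y - x) + γ • (z - x)) := by rw [← hsv]; abel
      rw [h6]
      module
    rw [h5, map_add, map_smul, map_smul, g1, smul_zero, zero_add, smul_eq_mul] at g3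
    exact nonneg_of_mul_nonneg_left g3 g2
  obtain ⟨m, hm⟩ := hsep s (hFS hs)
  have hmx := hm x (hFS hx) (Ne.symm hsx)
  have hmy := hm y (hFS hy) (Ne.symm hsy)
  have hmz := hm z (hFS hz) (Ne.symm hsz)
  have h7 : (1 - β - γ) • (x - s) + β • (y - s) + γ • (z - s) = 0 := by
    have h6 : s = x + (β • (y - x) + γ • (z - x)) := by rw [← hsv]; abel
    rw [h6]
    module
  have h8 := congrArg m h7
  simp only [map_add, map_smul, smul_eq_mul, map_zero] at h8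
  have p1 := mul_nonneg hα hmx.le
  have p2 := mul_nonneg hβ hmy.le
  have p3 := mul_nonneg hγ hmz.le
  have q1 : (1 - β - γ) * m (x - s) = 0 := by linarith
  have q2 : β * m (y - s) = 0 := by linarith
  have q3 : γ * m (z - s) = 0 := by linarith
  have r2 : β = 0 := by
    rcases mul_eq_zero.1 q2 with h | h
    · exact h
    · exact absurd h hmy.ne'
  have r3 : γ = 0 := by
    rcases mul_eq_zero.1 q3 with h | h
    · exact h
    · exact absurd h hmz.ne'
  rcases mul_eq_zero.1 q1 with h | h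
  · rw [r2, r3] at h
    norm_num at h
  · exact absurd h hmx.ne'

/-- the facets of a polytope satisfy `TriAx`. -/
theorem tri_16 (S : Finset E3) (Fs : Finset (Finset E3)) (hS : affineSpan ℝ (S : Set E3) = ⊤)
    (hconv : ∀ x ∈ S, x ∉ convexHull ℝ ((S : Set E3) \ {x}))
    (hFs : ∀ F : Finset E3, F ∈ Fs ↔ IsFacet S (F : Set E3)) : TriAx Fs := by
  classical
  have hsep : ∀ x ∈ S, ∃ m : E3 →L[ℝ] ℝ, ∀ s ∈ S, s ≠ x → 0 < m (s - x) :=
    fun x hx => G12.sep S x (hconv x hx)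
  intro F hF x hx y hy z hz hxy hxz hyz c1 c2 c3
  obtain ⟨G1, hG1, n1⟩ := Finset.exists_mem_ne (show 1 < _ from c1) F
  obtain ⟨G2, hG2, n2⟩ := Finset.exists_mem_ne (show 1 < _ from c2) F
  obtain ⟨G3, hG3, n3⟩ := Finset.exists_mem_ne (show 1 < _ from c3) F
  rw [Finset.mem_filter] at hG1 hG2 hG3
  have h := tri_core S F G1 G2 G3 hS hsep ((hFs F).1 hF) ((hFs G1).1 hG1.1) ((hFs G2).1 hG2.1)
    ((hFs G3).1 hG3.1) n1 n2 n3 x y z hx hy hz hxy hxz hyz hG1.2.1 hG1.2.2 hG2.2.1 hG2.2.2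
    hG3.2.1 hG3.2.2
  have hsub : F ⊆ {x, y, z} := by
    intro s hs
    rw [mem_insert, mem_insert, mem_singleton]
    exact h s hs
  exact (Finset.card_le_card hsub).trans Finset.card_le_three

end Pool.Agent.CY
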