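import Pool.Agent.Lib.MP_b6ecfd_co.Pairs16
import Pool.Agent.Lib.MP_b6ecfd_co.Tri16

/-! Vertices of degree three in two quadrilaterals and a face of size `k` (MP_b6ecfd), helper16. -/

set_option autoImplicit false

namespace Pool.Agent.CY

open Finset

section

variable {P : Type} [DecidableEq P]

/-- `y` has degree three and lies in two quadrilaterals of `Q` and in the facet `f` of size `k`
which is not in `Q`. -/
def R4 (Fs Q : Finset (Finset P)) (k : ℕ) (y : P) (f : Finset P) : Prop :=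
  f ∉ Q ∧ f.card = k ∧ ∃ q1 q2 : Finset P, q1 ≠ q2 ∧ q1 ∈ Q ∧ q2 ∈ Q ∧ q1.card = 4 ∧ q2.card = 4 ∧
    ft Fs y = {q1, q2, f}

/-- `y` and `c` are the two common vertices of two members of `Q`. -/
def Pt (Q : Finset (Finset P)) (y c : P) : Prop :=
  c ≠ y ∧ ∃ q1 q2 : Finset P, q1 ≠ q2 ∧ q1 ∈ Q ∧ q2 ∈ Q ∧ y ∈ q1 ∧ y ∈ q2 ∧ c ∈ q1 ∧ c ∈ q2

/-- in a common member of `Q`, not neighbours. -/
def Op (S : Finset P) (Fs Q : Finset (Finset P)) (y z : P) : Prop :=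
  ∃ q ∈ Q, y ∈ q ∧ z ∈ q ∧ z ≠ y ∧ z ∉ nbr S Fs y

variable {S : Finset P} {Fs Q : Finset (Finset P)} {k : ℕ}

theorem Pt_symm {y c : P} (hp : Pt Q y c) : Pt Q c y := by
  obtain ⟨h1, q1, q2, h2, h3, h4, h5, h6, h7, h8⟩ := hp
  exact ⟨h1.symm, q1, q2, h2, h3, h4, h7, h8, h5, h6⟩

theorem Op_symm (h : FSys S Fs) (hQF : Q ⊆ Fs) {y z : P} (ho : Op S Fs Q y z) :
    Op S Fs Q z y := by
  obtain ⟨q, hq, hy, hz, hne, hn⟩ := ho
  refine ⟨q, hq, hz, hy, hne.symm, fun hc => hn ?_⟩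
  exact nbr_symm (h.sub q (hQF hq) hz) hc

/-- the two facets of `Q` at a vertex of type `R4`. -/
theorem R4_mem (hQF : Q ⊆ Fs) {y : P} {f : Finset P} (hR : R4 Fs Q k y f) :
    f ∈ Fs ∧ y ∈ f ∧ (∀ G ∈ Fs, y ∈ G → G ∉ Q → G = f) ∧
    (∀ G ∈ Q, y ∈ G → G.card = 4) ∧
    (∀ G1 ∈ Q, ∀ G2 ∈ Q, y ∈ G1 → y ∈ G2 → G1 ≠ G2 → ∀ G ∈ Q, y ∈ G → G = G1 ∨ G = G2) := by
  obtain ⟨hfQ, hfk, q1, q2, h12, hq1, hq2, c1, c2, hft⟩ := hR
  have hf : f ∈ ft Fs y := by rw [hft]; simp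
  have hall : ∀ G ∈ Fs, y ∈ G → G = q1 ∨ G = q2 ∨ G = f := by
    intro G hG hy
    have : G ∈ ft Fs y := mem_ft.mpr ⟨hG, hy⟩
    rw [hft] at this
    simpa using this
  rw [mem_ft] at hf
  refine ⟨hf.1, hf.2, ?_, ?_, ?_⟩
  · intro G hG hy hGQ
    rcases hall G hG hy with rfl | rfl | rfl
    · exact absurd hq1 hGQ
    · exact absurd hq2 hGQ
    · rfl
  · intro G hG hy
    rcases hall G (hQF hG) hy with rfl | rfl | rfl
    · exact c1
    · exact c2
    · exact absurd hG hfQ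
  · intro G1 hG1 G2 hG2 hy1 hy2 hne G hG hy
    rcases hall G (hQF hG) hy with rfl | rfl | rfl
    · rcases hall G1 (hQF hG1) hy1 with rfl | rfl | rfl
      · exact Or.inl rfl
      · rcases hall G2 (hQF hG2) hy2 with rfl | rfl | rfl
        · exact Or.inr rfl
        · exact absurd rfl hne
        · exact absurd hG2 hfQ
      · exact absurd hG1 hfQ
    · rcases hall G1 (hQF hG1) hy1 with rfl | rfl | rfl
      · rcases hall G2 (hQF hG2) hy2 with rfl | rfl | rfl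
        · exact absurd rfl hne
        · exact Or.inr rfl
        · exact absurd hG2 hfQ
      · exact Or.inl rfl
      · exact absurd hG1 hfQ
    · exact absurd hG hfQ

/-- the partner of `y` lies in all members of `Q` at `y`. -/
theorem Pt_all (hQF : Q ⊆ Fs) {y c : P} {f : Finset P} (hR : R4 Fs Q k y f) (hp : Pt Q y c) :
    ∀ G ∈ Q, y ∈ G → c ∈ G := by
  obtain ⟨_, q1, q2, h12, hq1, hq2, y1, y2, c1, c2⟩ := hp
  intro G hG hy
  rcases (R4_mem hQF hR).2.2.2.2 q1 hq1 q2 hq2 y1 y2 h12 G hG hy with rfl | rfl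
  · exact c1
  · exact c2

theorem Pt_unique (h : FSys S Fs) (hQF : Q ⊆ Fs) {y c c' : P} {f : Finset P}
    (hR : R4 Fs Q k y f) (hp : Pt Q y c) (hp' : Pt Q y c') : c = c' := by
  have hall := Pt_all hQF hR hp'
  obtain ⟨hcy, q1, q2, h12, hq1, hq2, y1, y2, c1, c2⟩ := hp
  by_contra hne
  have h3 := h.inter q1 (hQF hq1) q2 (hQF hq2) h12
  have hsub : ({y, c, c'} : Finset P) ⊆ q1 ∩ q2 := by
    intro a ha
    rw [mem_insert, mem_insert, mem_singleton] at ha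
    rw [mem_inter]
    rcases ha with rfl | rfl | rfl
    · exact ⟨y1, y2⟩
    · exact ⟨c1, c2⟩
    · exact ⟨hall q1 hq1 y1, hall q2 hq2 y2⟩
  have h7 := Finset.card_le_card hsub
  rw [Finset.card_eq_three.mpr ⟨y, c, c', hcy.symm, hp'.1.symm, hne, rfl⟩] at h7
  omega

/-- the partner is a neighbour and is not in `f`. -/
theorem Pt_nbr (h : FSys S Fs) (hQF : Q ⊆ Fs) {y c : P} {f : Finset P}
    (hR : R4 Fs Q k y f) (hp : Pt Q y c) : c ∈ nbr S Fs y ∧ c ∉ f := by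
  have hm := R4_mem hQF hR
  obtain ⟨hfQ, _⟩ := hR
  obtain ⟨hcy, q1, q2, h12, hq1, hq2, y1, y2, c1, c2⟩ := hp
  have hsub : ({q1, q2} : Finset (Finset P)) ⊆ cm Fs y c := by
    intro G hG
    rw [mem_insert, mem_singleton] at hG
    rw [mem_cm]
    rcases hG with rfl | rfl
    · exact ⟨hQF hq1, y1, c1⟩
    · exact ⟨hQF hq2, y2, c2⟩
  constructor
  · rw [mem_nbr]
    refine ⟨h.sub q1 (hQF hq1) c1, hcy, ?_⟩
    have := Finset.card_le_card hsub
    rwa [Finset.card_pair h12] at this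
  · intro hcf
    have hsub2 : ({q1, q2, f} : Finset (Finset P)) ⊆ cm Fs y c := by
      intro G hG
      rw [mem_insert, mem_insert, mem_singleton] at hG
      rcases hG with rfl | rfl | rfl
      · exact hsub (by simp)
      · exact hsub (by simp)
      · exact mem_cm.mpr ⟨hm.1, hm.2.1, hcf⟩
    have h7 := Finset.card_le_card hsub2
    have h8 : ({q1, q2, f} : Finset (Finset P)).card = 3 :=
      Finset.card_eq_three.mpr ⟨q1, q2, f, h12, fun hE => hfQ (hE ▸ hq1),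
        fun hE => hfQ (hE ▸ hq2), rfl⟩
    have h9 := h.pair y c hcy.symm
    have h10 : (cm Fs y c).card = (Fs.filter (fun F => y ∈ F ∧ c ∈ F)).card := rfl
    omega

/-- the partner exists. -/
theorem Pt_exists (h : FSys S Fs) (hQF : Q ⊆ Fs) {y : P} {f : Finset P}
    (hR : R4 Fs Q k y f) : ∃ c ∈ S, Pt Q y c := by
  have hm := R4_mem hQF hR
  obtain ⟨hfQ, hfk, q1, q2, h12, hq1, hq2, e1, e2, hft⟩ := hR
  have hc3 : (ft Fs y).card = 3 := by
    rw [hft]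
    exact Finset.card_eq_three.mpr ⟨q1, q2, f, h12, fun hE => hfQ (hE ▸ hq1),
        fun hE => hfQ (hE ▸ hq2), rfl⟩
  have hn := nbr_card h y
  have hi := nbr_inter h hm.1 hm.2.1
  have hlt : (nbr S Fs y ∩ f).card < (nbr S Fs y).card := by omega
  obtain ⟨c, hc, hcn⟩ := Finset.exists_mem_notMem_of_card_lt_card hlt
  have hcf : c ∉ f := fun hE => hcn (mem_inter.mpr ⟨hc, hE⟩)
  have hcm := cm_card_nbr h hc
  have hsub : cm Fs y c ⊆ {q1, q2} := by
    intro G hG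
    rw [mem_cm] at hG
    have : G ∈ ft Fs y := mem_ft.mpr ⟨hG.1, hG.2.1⟩
    rw [hft] at this
    rw [mem_insert, mem_insert, mem_singleton] at this
    rw [mem_insert, mem_singleton]
    rcases this with h1 | h1 | h1
    · exact Or.inl h1
    · exact Or.inr h1
    · exact absurd (h1 ▸ hG.2.2) hcf
  have hEq : cm Fs y c = {q1, q2} :=
    Finset.eq_of_subset_of_card_le hsub (by rw [hcm, Finset.card_pair h12])
  have g1 : q1 ∈ cm Fs y c := by rw [hEq]; simp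
  have g2 : q2 ∈ cm Fs y c := by rw [hEq]; simp
  rw [mem_cm] at g1 g2
  rw [mem_nbr] at hc
  exact ⟨c, hc.1, hc.2.1, q1, q2, h12, hq1, hq2, g1.2.1, g2.2.1, g1.2.2, g2.2.2⟩

/-- the conflicts of a vertex of type `R4`. -/
theorem R4_conf (h : FSys S Fs) (hQF : Q ⊆ Fs) {y c : P} {f : Finset P}
    (hR : R4 Fs Q k y f) (hp : Pt Q y c) {z : P} (hzy : z ≠ y) (hH : Hc Fs k y z) :
    z ∈ f ∨ z = c ∨ Op S Fs Q y z := by
  have hm := R4_mem hQF hR
  obtain ⟨G, hG, hGk, hyG, hzG⟩ := hH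
  by_cases hGQ : G ∈ Q
  · by_cases hzn : z ∈ nbr S Fs y
    · -- another common facet
      by_cases hzf : z ∈ f
      · exact Or.inl hzf
      · right; left
        have hcm := cm_card_nbr h hzn
        obtain ⟨G', hG', hne⟩ := Finset.exists_mem_ne (show 1 < (cm Fs y z).card by omega) G
        rw [mem_cm] at hG'
        have hG'Q : G' ∈ Q := by
          by_contra hc
          have := hm.2.2.1 G' hG'.1 hG'.2.1 hc
          exact hzf (this ▸ hG'.2.2)
        exact (Pt_unique h hQF hR hp ⟨hzy, G, G', hne.symm, hGQ, hG'Q, hyG, hG'.2.1, hzG,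
          hG'.2.2⟩).symm
    · exact Or.inr (Or.inr ⟨G, hGQ, hyG, hzG, hzy, hzn⟩)
  · left
    have := hm.2.2.1 G hG hyG hGQ
    exact this ▸ hzG

/-- opposite vertices in a quadrilateral: the other two are neighbours of both. -/
theorem quad_other (h : FSys S Fs) {q : Finset P} (hq : q ∈ Fs) (hc : q.card = 4) {y z w : P}
    (hy : y ∈ q) (hz : z ∈ q) (hw : w ∈ q) (hzy : z ≠ y) (hn : z ∉ nbr S Fs y) (hwy : w ≠ y)
    (hwz : w ≠ z) : w ∈ nbr S Fs y := by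
  by_contra hcon
  have h1 := quad_opp h hq hy hc
  have h2 : ({z, w} : Finset P) ⊆ q.erase y \ nbr S Fs y := by
    intro a ha
    rw [mem_insert, mem_singleton] at ha
    rw [mem_sdiff, mem_erase]
    rcases ha with rfl | rfl
    · exact ⟨⟨hzy, hz⟩, hn⟩
    · exact ⟨⟨hwy, hw⟩, hcon⟩
  have h3 := Finset.card_le_card h2
  rw [Finset.card_pair hwz.symm] at h3
  omega

/-- an opposite vertex is a neighbour of the partner and lies in the large facet of the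
partner. -/
theorem Op_facet (h : FSys S Fs) (hQF : Q ⊆ Fs) {y c z : P} {f g : Finset P}
    (hR : R4 Fs Q k y f) (hRc : R4 Fs Q k c g) (hp : Pt Q y c) (ho : Op S Fs Q y z) :
    z ∈ g ∧ c ≠ z ∧ z ∈ nbr S Fs c ∧ c ∈ nbr S Fs z := by
  have hm := R4_mem hQF hR
  have hmc := R4_mem hQF hRc
  have hpn := Pt_nbr h hQF hR hp
  have hpall := Pt_all hQF hR hp
  obtain ⟨q, hq, hy, hz, hzy, hn⟩ := ho
  have hcz : c ≠ z := fun hE => hn (hE ▸ hpn.1)
  have hcq : c ∈ q := hpall q hq hy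
  have hq4 := hm.2.2.2.1 q hq hy
  have hyn : y ∉ nbr S Fs z := fun hc => hn (nbr_symm (h.sub q (hQF hq) hz) hc)
  have hcn : c ∈ nbr S Fs z := quad_other h (hQF hq) hq4 hz hy hcq hzy.symm hyn hcz hp.1
  have hzn : z ∈ nbr S Fs c := nbr_symm (h.sub q (hQF hq) hz) hcn
  refine ⟨?_, hcz, hzn, hcn⟩
  -- the second common facet of z and c
  have hcm := cm_card_nbr h hzn
  obtain ⟨G', hG', hne⟩ := Finset.exists_mem_ne (show 1 < (cm Fs c z).card by omega) q
  rw [mem_cm] at hG'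
  by_cases hG'Q : G' ∈ Q
  · -- then z is the partner of c, that is y
    have hpz : Pt Q c z := ⟨hcz.symm, q, G', hne.symm, hq, hG'Q, hcq, hG'.2.1, hz, hG'.2.2⟩
    exact absurd (Pt_unique h hQF hRc hpz (Pt_symm hp)) hzy
  · have := hmc.2.2.1 G' hG'.1 hG'.2.1 hG'Q
    exact this ▸ hG'.2.2

/-- the opposite vertices. -/
theorem Op_card (h : FSys S Fs) (hQF : Q ⊆ Fs) {y : P} {f : Finset P}
    (hR : R4 Fs Q k y f) {B : Finset P} (hB : ∀ z ∈ B, Op S Fs Q y z) : B.card ≤ 2 := by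
  have hm := R4_mem hQF hR
  obtain ⟨hfQ, hfk, q1, q2, h12, hq1, hq2, e1, e2, hft⟩ := hR
  have g1 : q1 ∈ ft Fs y := by rw [hft]; simp
  have g2 : q2 ∈ ft Fs y := by rw [hft]; simp
  rw [mem_ft] at g1 g2
  have hsub : B ⊆ (q1.erase y \ nbr S Fs y) ∪ (q2.erase y \ nbr S Fs y) := by
    intro z hz
    obtain ⟨q, hq, hy, hzq, hzy, hn⟩ := hB z hz
    rw [mem_union, mem_sdiff, mem_sdiff, mem_erase, mem_erase]
    rcases hm.2.2.2.2 q1 hq1 q2 hq2 g1.2 g2.2 h12 q hq hy with rfl | rfl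
    · exact Or.inl ⟨⟨hzy, hzq⟩, hn⟩
    · exact Or.inr ⟨⟨hzy, hzq⟩, hn⟩
  have h1 := quad_opp h (hQF hq1) g1.2 e1
  have h2 := quad_opp h (hQF hq2) g2.2 e2
  have h3 := Finset.card_le_card hsub
  have h4 := Finset.card_union_le (q1.erase y \ nbr S Fs y) (q2.erase y \ nbr S Fs y)
  omega

/-- diagonals of a ladder. -/
theorem Op_partner (h : FSys S Fs) (hQF : Q ⊆ Fs) {y c z d : P} {f g f' g' : Finset P}
    (hR : R4 Fs Q k y f) (hRc : R4 Fs Q k c g) (hp : Pt Q y c)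
    (hRz : R4 Fs Q k z f') (hRd : R4 Fs Q k d g') (hpz : Pt Q z d) (ho : Op S Fs Q y z) :
    Op S Fs Q c d := by
  have h1 := Op_facet h hQF hR hRc hp ho
  have hn := Pt_nbr h hQF hR hp
  have hnz := Pt_nbr h hQF hRz hpz
  have ho' := ho
  obtain ⟨q, hq, hy, hz, hzy, hzn⟩ := ho'
  have hq4 := (R4_mem hQF hR).2.2.2.1 q hq hy
  have hcq := Pt_all hQF hR hp q hq hy
  have hdq := Pt_all hQF hRz hpz q hq hz
  have hyn : y ∉ nbr S Fs z := fun hc => hzn (nbr_symm (h.sub q (hQF hq) hz) hc)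
  have hdy : d ≠ y := fun hE => hyn (hE ▸ hnz.1)
  have hdc : d ≠ c := by
    intro hE
    have := Pt_unique h hQF hRd (Pt_symm hpz) (hE ▸ Pt_symm hp)
    exact hzy this
  refine ⟨q, hq, hcq, hdq, hdc, ?_⟩
  intro hcon
  -- y, z, d are three neighbours of c in q
  have h5 := nbr_inter h (hQF hq) hcq
  have hyS := h.sub q (hQF hq) hy
  have hcS := h.sub q (hQF hq) hcq
  have hyc : y ∈ nbr S Fs c := nbr_symm hyS hn.1
  have hsub : ({y, z, d} : Finset P) ⊆ nbr S Fs c ∩ q := by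
    intro a ha
    rw [mem_insert, mem_insert, mem_singleton] at ha
    rw [mem_inter]
    rcases ha with rfl | rfl | rfl
    · exact ⟨hyc, hy⟩
    · exact ⟨h1.2.2.1, hz⟩
    · exact ⟨hcon, hdq⟩
  have h7 := Finset.card_le_card hsub
  rw [Finset.card_eq_three.mpr ⟨y, z, d, hzy.symm, hdy.symm, hpz.1.symm, rfl⟩] at h7
  omega

end

end Pool.Agent.CY
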