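import Pool.Agent.Lib.MP_b6ecfd_co.PairsK16
import Pool.Agent.Lib.MP_b6ecfd_co.RungsE16

/-! The theorem with pairs of colours and rungs for core vertices (MP_b6ecfd), helper16. -/

set_option autoImplicit false

namespace Pool.Agent.CY

open Finset

section

variable {P : Type} [DecidableEq P] {S W : Finset P} {Fs E Q : Finset (Finset P)} {k : ℕ}

/-- the partner of a rung in the core is in the core, and it is not of the kind `PK`. -/
theorem rung_core (h : FSys S Fs) (hk : 4 ≤ k) (hEF : E ⊆ Fs) (hQ : Q = Fs \ E) {n : ℕ}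
    (hkn : k + 1 ≤ n) {x c : P} {f : Finset P} (hx : x ∈ core S W Fs k (n + 1)) (hxW : x ∉ W)
    (hR : R4 Fs Q k x f) (hp : Pt Q x c) :
    c ∈ core S W Fs k (n + 1) ∧ ¬ PK S Fs E k (core S W Fs k (n + 1)) c := by
  classical
  set K := core S W Fs k (n + 1) with hK
  have hQF : Q ⊆ Fs := by rw [hQ]; exact Finset.sdiff_subset
  have hQE : ∀ G, G ∈ Q → G ∈ Fs ∧ G ∉ E := fun G hG => by
    rw [hQ] at hG; exact mem_sdiff.mp hG
  have hm := R4_mem hQF hR
  have hd := (core_dense hx).resolve_left hxW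
  rw [← hK] at hd
  have hop : (S.filter (fun z => Op S Fs Q x z)).card ≤ 2 :=
    Op_card h hQF hR (fun z hz => (mem_filter.mp hz).2)
  have hfe := Finset.card_erase_add_one hm.2.1
  have hfk := hR.2.1
  have hconf : ∀ z, z ∈ cof S Fs k x ∩ K → z ∈ f.erase x ∨ z = c ∨
      z ∈ S.filter (fun z => Op S Fs Q x z) := by
    intro z hz
    rw [mem_inter, mem_cof] at hz
    rcases R4_conf h hQF hR hp hz.1.2.1 hz.1.2.2 with h1 | h1 | h1
    · exact Or.inl (mem_erase.mpr ⟨hz.1.2.1, h1⟩)
    · exact Or.inr (Or.inl h1)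
    · exact Or.inr (Or.inr (mem_filter.mpr ⟨hz.1.1, h1⟩))
  constructor
  · by_contra hc
    have h1 : cof S Fs k x ∩ K ⊆ f.erase x ∪ S.filter (fun z => Op S Fs Q x z) := by
      intro z hz
      rw [mem_union]
      rcases hconf z hz with h2 | h2 | h2
      · exact Or.inl h2
      · exact absurd (mem_inter.mp hz).2 (h2 ▸ hc)
      · exact Or.inr h2
    have h2 := Finset.card_le_card h1
    have h3 := Finset.card_union_le (f.erase x) (S.filter (fun z => Op S Fs Q x z))
    omega
  · intro hP
    obtain ⟨hcx, q1, q2, h12, hq1, hq2, x1, x2, c1, c2⟩ := hp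
    have hq14 := hm.2.2.2.1 q1 hq1 x1
    obtain ⟨hq1F, hq1E⟩ := hQE q1 hq1
    obtain ⟨hq2F, hq2E⟩ := hQE q2 hq2
    have hxS := h.sub q1 hq1F x1
    have hxn : x ∈ nbr S Fs c := by
      rw [mem_nbr]
      refine ⟨hxS, hcx.symm, ?_⟩
      have hsub : ({q1, q2} : Finset (Finset P)) ⊆ cm Fs c x := by
        intro G hG
        rw [mem_insert, mem_singleton] at hG
        rw [mem_cm]
        rcases hG with rfl | rfl
        · exact ⟨hq1F, c1, x1⟩
        · exact ⟨hq2F, c2, x2⟩
      have := Finset.card_le_card hsub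
      rwa [Finset.card_pair h12] at this
    have hxo : x ∈ outK S Fs E k K c := by
      rw [mem_outK]
      refine ⟨⟨⟨hxS, hcx.symm, q1, hq1F, by omega, c1, x1⟩, ?_⟩, hx⟩
      intro F hF hcF hxF
      have hsub : ({q1, q2, F} : Finset (Finset P)) ⊆ cm Fs c x := by
        intro G hG
        rw [mem_insert, mem_insert, mem_singleton] at hG
        rw [mem_cm]
        rcases hG with rfl | rfl | rfl
        · exact ⟨hq1F, c1, x1⟩
        · exact ⟨hq2F, c2, x2⟩
        · exact ⟨hEF hF, hcF, hxF⟩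
      have h3 := Finset.card_le_card hsub
      rw [Finset.card_eq_three.mpr ⟨q1, q2, F, h12, fun hE => hq1E (hE ▸ hF),
        fun hE => hq2E (hE ▸ hF), rfl⟩, cm_card_nbr h hxn] at h3
      omega
    have hopp := quad_opp h hq1F c1 hq14
    obtain ⟨b, hb⟩ := Finset.card_pos.mp (show 0 < ((q1.erase c) \ nbr S Fs c).card by omega)
    rw [mem_sdiff, mem_erase] at hb
    have hbS := h.sub q1 hq1F hb.1.2
    have hxb : x ≠ b := fun hE => hb.2 (hE ▸ hxn)
    -- b is on f
    have hcb : c ∉ nbr S Fs b := fun hc => hb.2 (nbr_symm hbS hc)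
    have hxnb : x ∈ nbr S Fs b := quad_other h hq1F hq14 hb.1.2 c1 x1 hb.1.1.symm hcb hxb
      hcx.symm
    have hbnx : b ∈ nbr S Fs x := nbr_symm hbS hxnb
    obtain ⟨G, hG, hGne⟩ := Finset.exists_mem_ne
      (show 1 < (cm Fs x b).card by rw [cm_card_nbr h hbnx]; norm_num) q1
    rw [mem_cm] at hG
    have hGf : G = f := by
      by_cases hGQ : G ∈ Q
      · exfalso
        rcases hm.2.2.2.2 q1 hq1 q2 hq2 x1 x2 h12 G hGQ hG.2.1 with h1 | h1
        · exact hGne h1
        · rw [h1] at hG
          have h3 := h.inter q1 hq1F q2 hq2F h12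
          have hsub : ({c, x, b} : Finset P) ⊆ q1 ∩ q2 := by
            intro a ha
            rw [mem_insert, mem_insert, mem_singleton] at ha
            rw [mem_inter]
            rcases ha with rfl | rfl | rfl
            · exact ⟨c1, c2⟩
            · exact ⟨x1, x2⟩
            · exact ⟨hb.1.2, hG.2.2⟩
          have h4 := Finset.card_le_card hsub
          rw [Finset.card_eq_three.mpr ⟨c, x, b, hcx, hb.1.1.symm, hxb, rfl⟩] at h4
          omega
      · exact hm.2.2.1 G hG.1 hG.2.1 hGQ
    have hbf : b ∈ f := hGf ▸ hG.2.2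
    -- at most one conflict of c
    have hone : (outK S Fs E k K c).card ≤ 1 := by
      obtain ⟨f', g', hfg, he, _, hcc⟩ := hP
      rcases hcc with hcc | ⟨hd3, _⟩
      · exact hcc
      · exfalso
        obtain ⟨⟨hf', hcf'⟩, hg', hcg'⟩ := pair_mem he
        have hsub : ({q1, q2, f', g'} : Finset (Finset P)) ⊆ ft Fs c := by
          intro G hG
          simp only [mem_insert, mem_singleton] at hG
          rw [mem_ft]
          rcases hG with rfl | rfl | rfl | rfl
          · exact ⟨hq1F, c1⟩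
          · exact ⟨hq2F, c2⟩
          · exact ⟨hEF hf', hcf'⟩
          · exact ⟨hEF hg', hcg'⟩
        have hc4 : ({q1, q2, f', g'} : Finset (Finset P)).card = 4 := by
          rw [Finset.card_insert_of_notMem, Finset.card_insert_of_notMem, Finset.card_pair hfg]
          · rw [mem_insert, mem_singleton]
            rintro (hE | hE)
            · exact hq2E (hE ▸ hf')
            · exact hq2E (hE ▸ hg')
          · rw [mem_insert, mem_insert, mem_singleton]
            rintro (hE | hE | hE)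
            · exact h12 hE
            · exact hq1E (hE ▸ hf')
            · exact hq1E (hE ▸ hg')
        have := Finset.card_le_card hsub
        omega
    have hbK : b ∉ K := by
      intro hbK
      have hbo : b ∈ outK S Fs E k K c := by
        rw [mem_outK]
        refine ⟨⟨⟨hbS, hb.1.1, q1, hq1F, by omega, c1, hb.1.2⟩, ?_⟩, hbK⟩
        intro F hF hcF hbF
        apply hb.2
        rw [mem_nbr]
        refine ⟨hbS, hb.1.1, ?_⟩
        have hsub : ({q1, F} : Finset (Finset P)) ⊆ cm Fs c b := by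
          intro G hG
          rw [mem_insert, mem_singleton] at hG
          rw [mem_cm]
          rcases hG with rfl | rfl
          · exact ⟨hq1F, c1, hb.1.2⟩
          · exact ⟨hEF hF, hcF, hbF⟩
        have h3 := Finset.card_le_card hsub
        have hqF : q1 ≠ F := fun hE => hq1E (by rw [hE]; exact hF)
        rwa [Finset.card_pair hqF] at h3
      exact hxb (Finset.card_le_one.mp hone x hxo b hbo)
    have h1 : cof S Fs k x ∩ K ⊆ insert c ((f.erase x).erase b) ∪
        S.filter (fun z => Op S Fs Q x z) := by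
      intro z hz
      rw [mem_union, mem_insert, mem_erase]
      have hzb : z ≠ b := fun hE => hbK (hE ▸ (mem_inter.mp hz).2)
      rcases hconf z hz with h2 | h2 | h2
      · exact Or.inl (Or.inr ⟨hzb, h2⟩)
      · exact Or.inl (Or.inl h2)
      · exact Or.inr h2
    have h2 := Finset.card_le_card h1
    have h3 := Finset.card_union_le (insert c ((f.erase x).erase b))
      (S.filter (fun z => Op S Fs Q x z))
    have h4 := Finset.card_insert_le c ((f.erase x).erase b)
    have h5 := Finset.card_erase_add_one (show b ∈ f.erase x from mem_erase.mpr ⟨hxb.symm, hbf⟩)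
    omega

end

/-- the theorem with pairs and rungs. -/
theorem coreB_16 (hV : StVizing) (P : Type) [DecidableEq P] (S W : Finset P)
    (Fs E : Finset (Finset P)) (k n : ℕ) (hk : 4 ≤ k) (hkn : 2 * (k / 2) + 1 ≤ n)
    (h : FSys S Fs) (htri : TriAx Fs) (hEF : E ⊆ Fs) (hEk : ∀ F ∈ E, F.card ≤ k)
    (hh : ∀ x ∈ core S W Fs k (n + 1), PK S Fs E k (core S W Fs k (n + 1)) x ∨
      (k + 1 ≤ n ∧ x ∉ W ∧ ∃ f, R4 Fs (Fs \ E) k x f)) :
    ∃ col : P → Fin (n + 1), ∀ F ∈ Fs, F.card ≤ k → Set.InjOn col (F : Set P) := by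
  classical
  have hQF : Fs \ E ⊆ Fs := Finset.sdiff_subset
  set K := core S W Fs k (n + 1) with hK
  obtain ⟨φ, φ1, φ2, φ3, φ4⟩ := pairsK_16 hV P S Fs E k h hEF hEk K core_sub
  set X : Finset P := XK S Fs E k K with hX
  have hXmem : ∀ x, x ∈ X ↔ x ∈ K ∧ PK S Fs E k K x ∧
      ∃ u ∈ K, u ≠ x ∧ PK S Fs E k K u ∧ eE E x = eE E u := fun x => mem_XK
  -- vertices of the kind PK have a mate
  have hPX : ∀ x ∈ K, PK S Fs E k K x → x ∈ X := by
    intro x hx hxP
    have hxP' := hxP
    obtain ⟨f, g, hfg, he, hi, _⟩ := hxP'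
    obtain ⟨⟨hf, hxf⟩, hg, hxg⟩ := pair_mem he
    obtain ⟨u, hu, hux⟩ := Finset.exists_mem_ne (show 1 < (f ∩ g ∩ K).card by omega) x
    rw [mem_inter, mem_inter] at hu
    rcases hh u hu.2 with huP | ⟨_, _, g', hg'⟩
    · exact (hXmem x).mpr ⟨hx, hxP, u, hu.2, hux, huP,
        eE_eq_of_mem hfg he hu.1.1 hu.1.2 (PK_card huP)⟩
    · exfalso
      have h1 := R4_eE_card hEF rfl hg'
      have h2 : ({f, g} : Finset (Finset P)) ⊆ eE E u := by
        intro G hG
        rw [mem_insert, mem_singleton] at hG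
        rw [mem_eE]
        rcases hG with rfl | rfl
        · exact ⟨hf, hu.1.1⟩
        · exact ⟨hg, hu.1.2⟩
      have h3 := Finset.card_le_card h2
      rw [Finset.card_pair hfg] at h3
      omega
  obtain ⟨col1, hprop⟩ : ∃ col1 : P → Fin (n + 1),
      ∀ x ∈ K, ∀ y ∈ K, x ≠ y → Hc Fs k x y → col1 x ≠ col1 y := by
    by_cases hc : k + 1 ≤ n
    · obtain ⟨col0, hcol0⟩ := rungsE_16 P S Fs E (Fs \ E) k h htri hEF rfl hk X φ
        (fun x hx => PK_card ((hXmem x).mp hx).2.1)
        (by
          intro x hx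
          obtain ⟨hxK, hxG, u, huK, hux, huG, hE⟩ := (hXmem x).mp hx
          exact ⟨u, (hXmem u).mpr ⟨huK, huG, x, hxK, hux.symm, hxG, hE.symm⟩, hux, hE⟩)
        φ1 φ2 φ3 φ4
      have hall : ∀ x ∈ K, x ∈ X ∪ HE16 S Fs (Fs \ E) k := by
        intro x hx
        rw [mem_union]
        rcases hh x hx with hxP | ⟨_, hxW, f, hf⟩
        · exact Or.inl (hPX x hx hxP)
        · right
          obtain ⟨c, hcS, hpc⟩ := Pt_exists h hQF hf
          obtain ⟨hcK, hcP⟩ := rung_core h hk hEF rfl hc hx hxW hf hpc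
          rcases hh c hcK with h1 | ⟨_, _, h1⟩
          · exact absurd h1 hcP
          · exact mem_HE16.mpr ⟨core_sub hx, ⟨f, hf⟩, c, hcS, hpc, h1⟩
      refine ⟨fun x => ⟨(col0 x).1, by have := (col0 x).2; omega⟩, ?_⟩
      intro x hx y hy hxy hH hE
      have h1 : (col0 x).1 = (col0 y).1 := congrArg (fun a : Fin (n + 1) => a.1) hE
      exact hcol0 x (hall x hx) y (hall y hy) hxy hH (Fin.ext h1)
    · let ι : Fin (k / 2 + 1) × Bool → Fin (n + 1) :=
        fun a => ⟨2 * a.1.1 + (if a.2 then 1 else 0), by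
          have := a.1.2
          split <;> omega⟩
      have hι : Function.Injective ι := by
        rintro ⟨a, b⟩ ⟨c, d⟩ hE
        have h1 : 2 * a.1 + (if b then 1 else 0) = 2 * c.1 + (if d then 1 else 0) :=
          congrArg Fin.val hE
        have h2 : a = c := by
          apply Fin.ext
          rcases b <;> rcases d <;> simp at h1 <;> omega
        subst h2
        rcases b <;> rcases d <;> simp at h1 ⊢
      have hall : ∀ x ∈ K, x ∈ X := by
        intro x hx
        rcases hh x hx with hxP | ⟨h1, _⟩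
        · exact hPX x hx hxP
        · exact absurd h1 hc
      refine ⟨fun x => ι (φ x), ?_⟩
      intro x hx y hy hxy hH hE
      exact φ1 x (hall x hx) y (hall y hy) hxy hH (hι hE)
  obtain ⟨col, hcol⟩ := core_ext col1 hprop
  refine ⟨col, ?_⟩
  intro G hG hGk x hx y hy hE
  by_contra hxy
  exact hcol x (h.sub G hG hx) y (h.sub G hG hy) hxy ⟨G, hG, hGk, hx, hy⟩ hE

end Pool.Agent.CY
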