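import Pool.Agent.Lib.MP_b6ecfd_co.Cof16

/-! The core of the graph of cofacial vertices, and the extension of a colouring of the core
(MP_b6ecfd), helper16. -/

set_option autoImplicit false

namespace Pool.Agent.CY

open Finset

section

variable {P : Type} [DecidableEq P]

open Classical in
/-- the vertices in a set all of whose members are in `W` or cofacial with at least `t`
members. -/
noncomputable def core (S W : Finset P) (Fs : Finset (Finset P)) (k t : ℕ) : Finset P :=
  S.filter (fun x => ∃ C : Finset P, C ⊆ S ∧ x ∈ C ∧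
    ∀ y ∈ C, y ∈ W ∨ t ≤ (cof S Fs k y ∩ C).card)

/-- the vertices of `K` cofacial with `x` which are on no member of `E` at `x`. -/
noncomputable def outK (S : Finset P) (Fs E : Finset (Finset P)) (k : ℕ) (K : Finset P) (x : P) :
    Finset P := out S Fs E k x ∩ K

variable {S W : Finset P} {Fs E : Finset (Finset P)} {k t : ℕ}

theorem mem_core {x : P} : x ∈ core S W Fs k t ↔ x ∈ S ∧ ∃ C : Finset P, C ⊆ S ∧ x ∈ C ∧
    ∀ y ∈ C, y ∈ W ∨ t ≤ (cof S Fs k y ∩ C).card := by
  simp [core]

theorem mem_outK {K : Finset P} {x y : P} :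
    y ∈ outK S Fs E k K x ↔ ((y ∈ S ∧ y ≠ x ∧ Hc Fs k x y) ∧ ∀ F ∈ E, x ∈ F → y ∉ F) ∧ y ∈ K := by
  rw [outK, mem_inter, mem_out]

theorem core_sub : core S W Fs k t ⊆ S := fun _ hx => (mem_core.mp hx).1

theorem core_dense {y : P} (hy : y ∈ core S W Fs k t) :
    y ∈ W ∨ t ≤ (cof S Fs k y ∩ core S W Fs k t).card := by
  obtain ⟨_, C, hC, hyC, hCd⟩ := mem_core.mp hy
  rcases hCd y hyC with h1 | h1
  · exact Or.inl h1
  · right
    refine h1.trans (Finset.card_le_card ?_)
    apply Finset.inter_subset_inter_left
    intro z hz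
    exact mem_core.mpr ⟨hC hz, C, hC, hz, hCd⟩

theorem core_max {Y : Finset P} (hY : Y ⊆ S)
    (hd : ∀ y ∈ Y, y ∈ W ∨ t ≤ (cof S Fs k y ∩ Y).card) :
    Y ⊆ core S W Fs k t := fun _ hy => mem_core.mpr ⟨hY hy, Y, hY, hy, hd⟩

/-- a vertex which is not in the core has few cofacial vertices in the core. -/
theorem core_notMem {u : P} (hu : u ∈ S) (hn : u ∉ core S W Fs k t) :
    (cof S Fs k u ∩ core S W Fs k t).card < t := by
  by_contra hc
  push Not at hc
  apply hn
  have h1 : insert u (core S W Fs k t) ⊆ core S W Fs k t := by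
    apply core_max
    · exact Finset.insert_subset hu core_sub
    · intro y hy
      rw [mem_insert] at hy
      have h2 : cof S Fs k y ∩ core S W Fs k t ⊆ cof S Fs k y ∩ insert u (core S W Fs k t) :=
        Finset.inter_subset_inter_left (Finset.subset_insert _ _)
      rcases hy with rfl | hy
      · exact Or.inr (hc.trans (Finset.card_le_card h2))
      · exact (core_dense hy).imp_right (fun h3 => h3.trans (Finset.card_le_card h2))
  exact h1 (Finset.mem_insert_self _ _)

/-- a colouring of the core extends. -/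
theorem core_ext {n : ℕ} (φ : P → Fin (n + 1))
    (hφ : ∀ x ∈ core S W Fs k (n + 1), ∀ y ∈ core S W Fs k (n + 1), x ≠ y → Hc Fs k x y →
      φ x ≠ φ y) :
    ∃ ψ : P → Fin (n + 1), ∀ x ∈ S, ∀ y ∈ S, x ≠ y → Hc Fs k x y → ψ x ≠ ψ y := by
  classical
  set K := core S W Fs k (n + 1) with hK
  have key : ∀ (m : ℕ) (Y : Finset P), Y.card = m → K ⊆ Y → Y ⊆ S →
      ∃ ψ : P → Fin (n + 1), ∀ x ∈ Y, ∀ y ∈ Y, x ≠ y → Hc Fs k x y → ψ x ≠ ψ y := by
    intro m
    induction m with
    | zero =>
      intro Y hY _ _
      rw [Finset.card_eq_zero] at hY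
      subst hY
      exact ⟨φ, fun x hx => absurd hx (Finset.notMem_empty x)⟩
    | succ m ih =>
      intro Y hY hKY hYS
      by_cases hE : Y = K
      · rw [hE]
        exact ⟨φ, hφ⟩
      · obtain ⟨y, hyY, hyK, hyc⟩ : ∃ y ∈ Y, y ∉ K ∧ (cof S Fs k y ∩ Y).card < n + 1 := by
          by_contra hcon
          push Not at hcon
          apply hE
          apply Finset.Subset.antisymm _ hKY
          apply core_max hYS
          intro y hy
          by_cases hyK : y ∈ K
          · exact (core_dense hyK).imp_right (fun h3 => h3.trans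
              (Finset.card_le_card (Finset.inter_subset_inter_left hKY)))
          · exact Or.inr (hcon y hy hyK)
        obtain ⟨ψ, hψ⟩ := ih (Y.erase y) (by rw [Finset.card_erase_of_mem hyY, hY]; rfl)
          (fun z hz => mem_erase.mpr ⟨fun hE' => hyK (hE' ▸ hz), hKY hz⟩)
          (fun z hz => hYS (mem_of_mem_erase hz))
        obtain ⟨c, hc⟩ : ∃ c : Fin (n + 1), c ∉ (cof S Fs k y ∩ Y).image ψ := by
          by_contra hcon
          push Not at hcon
          have h1 : (univ : Finset (Fin (n + 1))) ⊆ (cof S Fs k y ∩ Y).image ψ :=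
            fun c _ => hcon c
          have h2 := Finset.card_le_card h1
          rw [Finset.card_univ, Fintype.card_fin] at h2
          have h3 := Finset.card_image_le (s := cof S Fs k y ∩ Y) (f := ψ)
          omega
        refine ⟨Function.update ψ y c, ?_⟩
        have hcy : ∀ z ∈ Y, z ≠ y → Hc Fs k y z → ψ z ≠ c := by
          intro z hz hzy hH hE'
          apply hc
          rw [Finset.mem_image]
          exact ⟨z, mem_inter.mpr ⟨mem_cof.mpr ⟨hYS hz, hzy, hH⟩, hz⟩, hE'⟩
        intro a ha b hb hab hH
        by_cases hay : a = y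
        · subst hay
          rw [Function.update_self, Function.update_of_ne hab.symm]
          exact (hcy b hb hab.symm hH).symm
        · by_cases hby : b = y
          · subst hby
            rw [Function.update_self, Function.update_of_ne hab]
            exact hcy a ha hab (Hc_symm hH)
          · rw [Function.update_of_ne hay, Function.update_of_ne hby]
            exact hψ a (mem_erase.mpr ⟨hay, ha⟩) b (mem_erase.mpr ⟨hby, hb⟩) hab hH
  exact key S.card S rfl core_sub (Finset.Subset.refl _)

end

end Pool.Agent.CY
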