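import Pool.Agent.Lib.MP_b6ecfd_co.Final_56
import Pool.Agent.Lib.MP_b6ecfd_co.CoreA16
import Pool.Agent.Lib.MP_b6ecfd_co.CoreB16

/-! From finite sets of facets to polytopes in space: the two theorems on the core
(MP_b6ecfd_co), helper16. -/

set_option autoImplicit false

namespace Pool.Agent.CY

open Finset

/-- the core relative to `K`. -/
def coreS (S : Finset E3) (k t : ℕ) (K : Set E3) : Set E3 :=
  {x : E3 | ∃ C : Set E3, C ⊆ S ∧ x ∈ C ∧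
    ∀ y ∈ C, y ∈ K ∨ t ≤ Set.ncard {z : E3 | z ∈ C ∧ z ≠ y ∧ CofacialS S k y z}}

/-- core vertices cofacial with `x`, on neither `f` nor `g`. -/
def outS (S : Finset E3) (k t : ℕ) (K : Set E3) (x : E3) (f g : Set E3) : Set E3 :=
  {y : E3 | y ∈ coreS S k t K ∧ y ≠ x ∧ CofacialS S k x y ∧ y ∉ f ∧ y ∉ g}

/-- the core. -/
def core0 (S : Finset E3) (k t : ℕ) : Set E3 :=
  {x : E3 | ∃ C : Set E3, C ⊆ S ∧ x ∈ C ∧
    ∀ y ∈ C, t ≤ Set.ncard {z : E3 | z ∈ C ∧ z ≠ y ∧ CofacialS S k y z}}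

/-- core vertices cofacial with `x`, on neither `f` nor `g`. -/
def out0 (S : Finset E3) (k t : ℕ) (x : E3) (f g : Set E3) : Set E3 :=
  {y : E3 | y ∈ core0 S k t ∧ y ≠ x ∧ CofacialS S k x y ∧ y ∉ f ∧ y ∉ g}

theorem core0_eq (S : Finset E3) (k t : ℕ) : core0 S k t = coreS S k t ∅ := by
  ext x
  simp only [core0, coreS, Set.mem_ofPred_eq, Set.mem_empty_iff_false, false_or]

theorem out0_eq (S : Finset E3) (k t : ℕ) (x : E3) (f g : Set E3) :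
    out0 S k t x f g = outS S k t ∅ x f g := by
  simp only [out0, outS, core0_eq]

section bridge

variable {S : Finset E3} {k t : ℕ} {K : Set E3} {E : Set (Set E3)}

open Classical in
/-- the members of `K` as a finite set. -/
noncomputable def Wf (S : Finset E3) (K : Set E3) : Finset E3 := S.filter (fun z => z ∈ K)

theorem mem_Wf {z : E3} : z ∈ Wf S K ↔ z ∈ S ∧ z ∈ K := by simp [Wf]

theorem Wf_empty : Wf S (∅ : Set E3) = ∅ := by
  ext z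
  rw [mem_Wf]
  simp

theorem coe_cof_inter (C : Finset E3) (y : E3) (hC : C ⊆ S) :
    {z : E3 | z ∈ (C : Set E3) ∧ z ≠ y ∧ CofacialS S k y z} =
      ((cof S (facets S) k y ∩ C : Finset E3) : Set E3) := by
  ext z
  rw [Finset.mem_coe, mem_inter, mem_cof]
  constructor
  · rintro ⟨h1, h2, h3⟩
    exact ⟨⟨hC h1, h2, (cof_iff y z).mp h3⟩, h1⟩
  · rintro ⟨⟨_, h2, h3⟩, h1⟩
    exact ⟨h1, h2, (cof_iff y z).mpr h3⟩

theorem core_iff (x : E3) : x ∈ coreS S k t K ↔ x ∈ core S (Wf S K) (facets S) k t := by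
  classical
  rw [mem_core]
  constructor
  · rintro ⟨C, hC, hxC, hd⟩
    refine ⟨hC hxC, S.filter (fun z => z ∈ C), Finset.filter_subset _ _, ?_, ?_⟩
    · rw [mem_filter]
      exact ⟨hC hxC, hxC⟩
    · intro y hy
      rw [mem_filter] at hy
      rw [mem_Wf]
      have h1 : ((S.filter (fun z => z ∈ C) : Finset E3) : Set E3) = C := by
        ext z
        simp only [Finset.coe_filter]
        exact ⟨fun h => h.2, fun h => ⟨hC h, h⟩⟩
      have h2 := coe_cof_inter (S := S) (k := k) (S.filter (fun z => z ∈ C)) y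
        (Finset.filter_subset _ _)
      rw [h1] at h2
      rcases hd y hy.2 with h3 | h3
      · exact Or.inl ⟨hy.1, h3⟩
      · right
        rw [h2, Set.ncard_coe_finset] at h3
        exact h3
  · rintro ⟨hxS, C, hC, hxC, hd⟩
    refine ⟨(C : Set E3), fun z hz => hC hz, hxC, ?_⟩
    intro y hy
    rw [coe_cof_inter C y hC, Set.ncard_coe_finset]
    exact (hd y hy).imp_left (fun h => (mem_Wf.mp h).2)

open Classical in
/-- the members of `E` as a finite set. -/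
noncomputable def Ef (S : Finset E3) (E : Set (Set E3)) : Finset (Finset E3) :=
  (facets S).filter (fun F => (F : Set E3) ∈ E)

theorem mem_Ef {F : Finset E3} : F ∈ Ef S E ↔ F ∈ facets S ∧ (F : Set E3) ∈ E := by
  simp [Ef]

theorem exists_Ef (hE : ∀ F ∈ E, IsFacet S F ∧ F.ncard ≤ k) {F : Set E3} (hF : F ∈ E) :
    ∃ F' ∈ Ef S E, (F' : Set E3) = F := by
  obtain ⟨F', h1, h2⟩ := exists_fin (hE F hF).1
  exact ⟨F', mem_Ef.mpr ⟨h1, by rw [h2]; exact hF⟩, h2⟩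

theorem eE_Ef (hE : ∀ F ∈ E, IsFacet S F ∧ F.ncard ≤ k) {x : E3} {f g : Finset E3}
    (h : {F : Set E3 | F ∈ E ∧ x ∈ F} = {(f : Set E3), (g : Set E3)}) :
    eE (Ef S E) x = {f, g} := by
  ext F
  rw [mem_eE, mem_Ef, mem_insert, mem_singleton]
  have h1 : (F : Set E3) ∈ {F : Set E3 | F ∈ E ∧ x ∈ F} ↔
      (F : Set E3) ∈ ({(f : Set E3), (g : Set E3)} : Set (Set E3)) := by rw [h]
  simp only [Set.mem_ofPred_eq, Set.mem_insert_iff, Set.mem_singleton_iff, Finset.coe_inj,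
    Finset.mem_coe] at h1
  rw [← h1]
  constructor
  · rintro ⟨⟨_, h2⟩, h3⟩
    exact ⟨h2, h3⟩
  · rintro ⟨h2, h3⟩
    obtain ⟨F', h4, h5⟩ := exists_Ef hE h2
    have h6 : F' = F := Finset.coe_injective h5
    rw [← h6] at h3 ⊢
    exact ⟨⟨(mem_Ef.mp h4).1, (mem_Ef.mp h4).2⟩, h3⟩

theorem mem_of_pair {x : E3} {f g : Set E3} (h : {F : Set E3 | F ∈ E ∧ x ∈ F} = {f, g}) :
    (f ∈ E ∧ x ∈ f) ∧ (g ∈ E ∧ x ∈ g) := by
  have hf : f ∈ ({f, g} : Set (Set E3)) := Set.mem_insert _ _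
  have hg : g ∈ ({f, g} : Set (Set E3)) := Set.mem_insert_of_mem _ rfl
  rw [← h] at hf hg
  exact ⟨hf, hg⟩

theorem outS_eq {x : E3} {f g : Finset E3} (h : eE (Ef S E) x = {f, g}) :
    outS S k t K x (f : Set E3) (g : Set E3) =
      ((outK S (facets S) (Ef S E) k (core S (Wf S K) (facets S) k t) x : Finset E3) :
        Set E3) := by
  ext y
  rw [Finset.mem_coe, mem_outK, outS, Set.mem_ofPred_eq, core_iff]
  obtain ⟨⟨hf, hxf⟩, hg, hxg⟩ := pair_mem h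
  constructor
  · rintro ⟨h1, h2, h3, h4, h5⟩
    refine ⟨⟨⟨core_sub h1, h2, (cof_iff x y).mp h3⟩, ?_⟩, h1⟩
    intro F hF hxF hyF
    have : F ∈ eE (Ef S E) x := mem_eE.mpr ⟨hF, hxF⟩
    rw [h, mem_insert, mem_singleton] at this
    rcases this with rfl | rfl
    · exact h4 hyF
    · exact h5 hyF
  · rintro ⟨⟨⟨h1, h2, h3⟩, h4⟩, h5⟩
    exact ⟨h5, h2, (cof_iff x y).mpr h3, h4 f hf hxf, h4 g hg hxg⟩

theorem common_eq {f g : Finset E3} :
    {y : E3 | y ∈ coreS S k t K ∧ y ∈ (f : Set E3) ∧ y ∈ (g : Set E3)} =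
      ((f ∩ g ∩ core S (Wf S K) (facets S) k t : Finset E3) : Set E3) := by
  ext y
  rw [Finset.mem_coe, mem_inter, mem_inter, Set.mem_ofPred_eq, core_iff]
  constructor
  · rintro ⟨h1, h2, h3⟩
    exact ⟨⟨h2, h3⟩, h1⟩
  · rintro ⟨⟨h2, h3⟩, h1⟩
    exact ⟨h1, h2, h3⟩

theorem Ef_sub : Ef S E ⊆ facets S := fun _ hF => (mem_Ef.mp hF).1

theorem Ef_card (hE : ∀ F ∈ E, IsFacet S F ∧ F.ncard ≤ k) : ∀ F ∈ Ef S E, F.card ≤ k := by
  intro F hF
  have := (hE _ (mem_Ef.mp hF).2).2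
  rwa [Set.ncard_coe_finset] at this

end bridge

/-- the first theorem for polytopes. -/
theorem finalA_16 (S : Finset E3) (hspan : affineSpan ℝ (S : Set E3) = ⊤)
    (hconv : ∀ x ∈ S, x ∉ convexHull ℝ ((S : Set E3) \ {x})) (k t : ℕ) (ht : k + 2 ≤ t)
    (E : Set (Set E3)) (hE : ∀ F ∈ E, IsFacet S F ∧ F.ncard ≤ k)
    (hh : ∀ x ∈ core0 S k t, ∃ f g : Set E3, f ≠ g ∧ {F : Set E3 | F ∈ E ∧ x ∈ F} = {f, g} ∧
      Set.ncard (out0 S k t x f g) < Set.ncard {y : E3 | y ∈ core0 S k t ∧ y ∈ f ∧ y ∈ g}) :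
    ∃ col : E3 → Fin t, ∀ (ℓ : E3 →L[ℝ] ℝ) (c : ℝ), (∀ x ∈ S, ℓ x ≤ c) →
      Module.finrank ℝ (vectorSpan ℝ {x : E3 | x ∈ S ∧ ℓ x = c}) = 2 →
      Set.ncard {x : E3 | x ∈ S ∧ ℓ x = c} ≤ k →
      Set.InjOn col {x : E3 | x ∈ S ∧ ℓ x = c} := by
  classical
  obtain ⟨n, rfl⟩ : ∃ n, t = n + 1 := ⟨t - 1, by omega⟩
  have hF := stGeo_12 S (facets S) hspan hconv mem_facets
  apply col_of
  apply coreA_16 Viz.stVizing_16 E3 S (facets S) (Ef S E) k n (by omega) hF Ef_sub (Ef_card hE)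
  rw [core0_eq] at hh
  simp only [out0_eq] at hh
  rw [← Wf_empty (S := S)]
  intro x hx
  obtain ⟨f, g, hfg, he, hc⟩ := hh x ((core_iff x).mpr hx)
  obtain ⟨⟨hf, _⟩, hg, _⟩ := mem_of_pair he
  obtain ⟨f', hf', rfl⟩ := exists_Ef hE hf
  obtain ⟨g', hg', rfl⟩ := exists_Ef hE hg
  have he' := eE_Ef hE he
  refine ⟨f', g', fun hE' => hfg (by rw [hE']), he', ?_⟩
  rw [outS_eq he', common_eq, Set.ncard_coe_finset, Set.ncard_coe_finset] at hc
  exact hc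

/-- the second theorem for polytopes. -/
theorem finalB_16 (S : Finset E3) (hspan : affineSpan ℝ (S : Set E3) = ⊤)
    (hconv : ∀ x ∈ S, x ∉ convexHull ℝ ((S : Set E3) \ {x})) (k t : ℕ) (hk : 4 ≤ k)
    (ht : 2 * (k / 2) + 2 ≤ t) (K : Set E3)
    (E : Set (Set E3)) (hE : ∀ F ∈ E, IsFacet S F ∧ F.ncard ≤ k)
    (hh : ∀ x ∈ coreS S k t K,
      (∃ f g : Set E3, f ≠ g ∧ {F : Set E3 | F ∈ E ∧ x ∈ F} = {f, g} ∧
        2 ≤ Set.ncard {y : E3 | y ∈ coreS S k t K ∧ y ∈ f ∧ y ∈ g} ∧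
        (Set.ncard (outS S k t K x f g) ≤ 1 ∨
          (degS S x = 3 ∧ ∃ m : Set E3, IsFacet S m ∧ m ∉ E ∧ x ∈ m ∧ m.ncard ≤ 5))) ∨
      (k + 2 ≤ t ∧ x ∉ K ∧ degS S x = 3 ∧ ∃ f q r : Set E3, f ∈ E ∧ x ∈ f ∧ f.ncard = k ∧
        q ≠ r ∧ (IsFacet S q ∧ q ∉ E ∧ x ∈ q ∧ q.ncard = 4) ∧
        (IsFacet S r ∧ r ∉ E ∧ x ∈ r ∧ r.ncard = 4))) :
    ∃ col : E3 → Fin t, ∀ (ℓ : E3 →L[ℝ] ℝ) (c : ℝ), (∀ x ∈ S, ℓ x ≤ c) →
      Module.finrank ℝ (vectorSpan ℝ {x : E3 | x ∈ S ∧ ℓ x = c}) = 2 →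
      Set.ncard {x : E3 | x ∈ S ∧ ℓ x = c} ≤ k →
      Set.InjOn col {x : E3 | x ∈ S ∧ ℓ x = c} := by
  classical
  obtain ⟨n, rfl⟩ : ∃ n, t = n + 1 := ⟨t - 1, by omega⟩
  have hF := stGeo_12 S (facets S) hspan hconv mem_facets
  apply col_of
  apply coreB_16 Viz.stVizing_16 E3 S (Wf S K) (facets S) (Ef S E) k n hk (by omega) hF
    (tri_16 S (facets S) hspan hconv mem_facets) Ef_sub (Ef_card hE)
  intro x hx
  rcases hh x ((core_iff x).mpr hx) with ⟨f, g, hfg, he, hi, hc⟩ | ⟨hkt, hxK, hd, f, q, r, hf, hxf, hfk,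
    hqr, ⟨hq1, hq2, hq3, hq4⟩, ⟨hr1, hr2, hr3, hr4⟩⟩
  · left
    obtain ⟨⟨hf, _⟩, hg, _⟩ := mem_of_pair he
    obtain ⟨f', hf', rfl⟩ := exists_Ef hE hf
    obtain ⟨g', hg', rfl⟩ := exists_Ef hE hg
    have he' := eE_Ef hE he
    refine ⟨f', g', fun hE' => hfg (by rw [hE']), he', ?_, ?_⟩
    · rw [common_eq, Set.ncard_coe_finset] at hi
      exact hi
    · rcases hc with hc | ⟨hd, m, hm1, hm2, hm3, hm4⟩
      · left
        rw [outS_eq he', Set.ncard_coe_finset] at hc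
        exact hc
      · right
        rw [degS_eq] at hd
        obtain ⟨m', hm', rfl⟩ := exists_fin hm1
        rw [Set.ncard_coe_finset] at hm4
        exact ⟨hd.le, m', hm', fun hc => hm2 (mem_Ef.mp hc).2, hm3, hm4⟩
  · right
    refine ⟨by omega, fun hc => hxK (mem_Wf.mp hc).2, ?_⟩
    obtain ⟨f', hf', rfl⟩ := exists_Ef hE hf
    obtain ⟨q', hq', rfl⟩ := exists_fin hq1
    obtain ⟨r', hr', rfl⟩ := exists_fin hr1
    rw [Set.ncard_coe_finset] at hfk hq4 hr4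
    rw [degS_eq] at hd
    have hqE : q' ∉ Ef S E := fun hc => hq2 (mem_Ef.mp hc).2
    have hrE : r' ∉ Ef S E := fun hc => hr2 (mem_Ef.mp hc).2
    have hqr' : q' ≠ r' := fun hE' => hqr (by rw [hE'])
    refine ⟨f', fun hc => (mem_sdiff.mp hc).2 hf', hfk, q', r', hqr', mem_sdiff.mpr ⟨hq', hqE⟩,
      mem_sdiff.mpr ⟨hr', hrE⟩, hq4, hr4, ?_⟩
    symm
    apply Finset.eq_of_subset_of_card_le
    · intro G hG
      rw [mem_insert, mem_insert, mem_singleton] at hG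
      rw [mem_ft]
      rcases hG with rfl | rfl | rfl
      · exact ⟨hq', hq3⟩
      · exact ⟨hr', hr3⟩
      · exact ⟨(mem_Ef.mp hf').1, hxf⟩
    · rw [hd, Finset.card_eq_three.mpr ⟨q', r', f', hqr', fun hE' => hqE (hE' ▸ hf'),
        fun hE' => hrE (hE' ▸ hf'), rfl⟩]

end Pool.Agent.CY
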