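import Pool.Agent.Lib.MP_b6ecfd_co.Stmts

/-!
MP_b6ecfd_co, module (G) StGeo: the facets of a three dimensional polytope form a system FSys.
helper12.
-/

set_option autoImplicit false

namespace Pool.Agent.CY

open Finset

namespace G12

theorem key (g : E3 →L[ℝ] ℝ) (v : E3) :
    g v = ∑ j, g (EuclideanSpace.single j 1) * v j := by
  have h : v = ∑ j, v j • EuclideanSpace.single j (1 : ℝ) := by
    ext i
    simp [Finset.sum_apply, Pi.single_apply]
  conv_lhs => rw [h]
  rw [map_sum]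
  refine Finset.sum_congr rfl (fun j _ => ?_)
  rw [map_smul, smul_eq_mul, mul_comm]

/-- three functionals vanishing on a non-zero vector are dependent -/
theorem dep_fun (f1 f2 f3 : E3 →L[ℝ] ℝ) (w : E3) (hw : w ≠ 0) (h1 : f1 w = 0) (h2 : f2 w = 0)
    (h3 : f3 w = 0) :
    ∃ a b c : ℝ, (a ≠ 0 ∨ b ≠ 0 ∨ c ≠ 0) ∧ ∀ v, a * f1 v + b * f2 v + c * f3 v = 0 := by
  classical
  let f : Fin 3 → (E3 →L[ℝ] ℝ) := ![f1, f2, f3]
  let M : Matrix (Fin 3) (Fin 3) ℝ := fun i j => f i (EuclideanSpace.single j 1)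
  have hf : ∀ i, f i w = 0 := by
    intro i
    fin_cases i
    · exact h1
    · exact h2
    · exact h3
  have h0 : M.det = 0 := by
    rw [← Matrix.exists_mulVec_eq_zero_iff]
    refine ⟨fun j => w j, ?_, ?_⟩
    · intro hc
      apply hw
      ext j
      exact congrFun hc j
    · ext i
      have := hf i
      rw [key] at this
      exact this
  obtain ⟨a, ha0, ha⟩ := Matrix.exists_vecMul_eq_zero_iff.2 h0
  refine ⟨a 0, a 1, a 2, ?_, fun v => ?_⟩
  · by_contra hc
    push Not at hc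
    apply ha0
    ext i
    fin_cases i
    · exact hc.1
    · exact hc.2.1
    · exact hc.2.2
  · have e : ∀ j, a 0 * f1 (EuclideanSpace.single j 1) + a 1 * f2 (EuclideanSpace.single j 1)
        + a 2 * f3 (EuclideanSpace.single j 1) = 0 := by
      intro j
      have := congrFun ha j
      simp only [Matrix.vecMul, dotProduct, Fin.sum_univ_three, Pi.zero_apply] at this
      exact this
    rw [key f1 v, key f2 v, key f3 v]
    simp only [Fin.sum_univ_three]
    linear_combination v 0 * e 0 + v 1 * e 1 + v 2 * e 2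

/-- three vectors in a plane through the origin are dependent -/
theorem dep_vec (f : E3 →L[ℝ] ℝ) (u v1 v2 v3 : E3) (hu : f u ≠ 0) (h1 : f v1 = 0)
    (h2 : f v2 = 0) (h3 : f v3 = 0) :
    ∃ a b c : ℝ, (a ≠ 0 ∨ b ≠ 0 ∨ c ≠ 0) ∧ a • v1 + b • v2 + c • v3 = 0 := by
  classical
  let v : Fin 3 → E3 := ![v1, v2, v3]
  let M : Matrix (Fin 3) (Fin 3) ℝ := fun i j => v j i
  have hf : ∀ i, f (v i) = 0 := by
    intro i
    fin_cases i
    · exact h1
    · exact h2
    · exact h3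
  have h0 : M.det = 0 := by
    rw [← Matrix.exists_vecMul_eq_zero_iff]
    refine ⟨fun j => f (EuclideanSpace.single j 1), ?_, ?_⟩
    · intro hc
      apply hu
      rw [key f u]
      refine Finset.sum_eq_zero (fun j _ => ?_)
      have := congrFun hc j
      simp only [Pi.zero_apply] at this
      rw [this, zero_mul]
    · ext i
      have := hf i
      rw [key] at this
      exact this
  obtain ⟨a, ha0, ha⟩ := Matrix.exists_mulVec_eq_zero_iff.2 h0
  refine ⟨a 0, a 1, a 2, ?_, ?_⟩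
  · by_contra hc
    push Not at hc
    apply ha0
    ext i
    fin_cases i
    · exact hc.1
    · exact hc.2.1
    · exact hc.2.2
  · ext i
    have := congrFun ha i
    simp only [Matrix.mulVec, dotProduct, Fin.sum_univ_three, Pi.zero_apply] at this
    simp only [PiLp.add_apply, PiLp.smul_apply, smul_eq_mul, PiLp.zero_apply]
    have e : M i 0 = v1 i ∧ M i 1 = v2 i ∧ M i 2 = v3 i := ⟨rfl, rfl, rfl⟩
    rw [e.1, e.2.1, e.2.2] at this
    linarith

/-- separation of a vertex from the others -/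
theorem sep (S : Finset E3) (x : E3) (hx : x ∉ convexHull ℝ ((S : Set E3) \ {x})) :
    ∃ m : E3 →L[ℝ] ℝ, ∀ s ∈ S, s ≠ x → 0 < m (s - x) := by
  have hfin : ((S : Set E3) \ {x}).Finite := S.finite_toSet.subset (fun _ h => h.1)
  have hcl : IsClosed (convexHull ℝ ((S : Set E3) \ {x})) :=
    (hfin.isCompact_convexHull (𝕜 := ℝ)).isClosed
  obtain ⟨m, u, h1, h2⟩ := geometric_hahn_banach_point_closed (convex_convexHull ℝ _) hcl hx
  refine ⟨m, fun s hs hne => ?_⟩
  have := h2 s (subset_convexHull ℝ _ ⟨hs, hne⟩)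
  rw [map_sub]
  linarith

/-- no three vertices are collinear -/
theorem noncol (S : Finset E3)
    (hS : ∀ x ∈ S, ∃ m : E3 →L[ℝ] ℝ, ∀ s ∈ S, s ≠ x → 0 < m (s - x))
    (x y z : E3) (hx : x ∈ S) (hy : y ∈ S) (hz : z ∈ S) (hxy : y ≠ x) (hxz : z ≠ x)
    (hyz : z ≠ y) (a b : ℝ) (h : a • (y - x) + b • (z - x) = 0) : a = 0 ∧ b = 0 := by
  obtain ⟨mx, hmx⟩ := hS x hx
  obtain ⟨my, hmy⟩ := hS y hy
  obtain ⟨mz, hmz⟩ := hS z hz
  have x1 := hmx y hy hxy
  have x2 := hmx z hz hxz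
  have y1 := hmy x hx (Ne.symm hxy)
  have y2 := hmy z hz hyz
  have z1 := hmz x hx (Ne.symm hxz)
  have z2 := hmz y hy (Ne.symm hyz)
  have ex : a * mx (y - x) + b * mx (z - x) = 0 := by
    have := congrArg mx h
    simpa only [map_add, map_smul, smul_eq_mul, map_zero] using this
  have ey : (-(a + b)) * my (x - y) + b * my (z - y) = 0 := by
    have := congrArg my h
    simp only [map_add, map_smul, smul_eq_mul, map_zero, map_sub] at this ⊢
    linarith
  have ez : (-(a + b)) * mz (x - z) + a * mz (y - z) = 0 := by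
    have := congrArg mz h
    simp only [map_add, map_smul, smul_eq_mul, map_zero, map_sub] at this ⊢
    linarith
  have sgn : ∀ p q s t : ℝ, 0 < s → 0 < t → p * s + q * t = 0 → p * q ≤ 0 ∧
      (p = 0 → q = 0) := by
    intro p q s t hs ht he
    constructor
    · by_contra hc
      push Not at hc
      rcases pos_and_pos_or_neg_and_neg_of_mul_pos hc with ⟨hp, hq⟩ | ⟨hp, hq⟩
      · nlinarith [mul_pos hp hs, mul_pos hq ht]
      · nlinarith [mul_neg_of_neg_of_pos hp hs, mul_neg_of_neg_of_pos hq ht]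
    · intro hp
      rw [hp, zero_mul, zero_add] at he
      rcases mul_eq_zero.1 he with h | h
      · exact h
      · exact absurd h ht.ne'
  have s1 := sgn _ _ _ _ x1 x2 ex
  have s2 := sgn _ _ _ _ y1 y2 ey
  have s3 := sgn _ _ _ _ z1 z2 ez
  have ha : a = 0 := by
    by_contra ha
    have hb : b ≠ 0 := by
      intro hb
      rw [hb, zero_mul, add_zero] at ex
      rcases mul_eq_zero.1 ex with h | h
      · exact ha h
      · exact x1.ne' h
    have hab : a * b < 0 := lt_of_le_of_ne s1.1 (mul_ne_zero ha hb)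
    have s21 := s2.1
    have s31 := s3.1
    rcases lt_trichotomy (a + b) 0 with hlt | heq | hgt
    · have hb0 : b ≤ 0 := by
        by_contra hc
        push Not at hc
        nlinarith [mul_neg_of_neg_of_pos hlt hc]
      have ha0 : a ≤ 0 := by
        by_contra hc
        push Not at hc
        nlinarith [mul_neg_of_neg_of_pos hlt hc]
      nlinarith [mul_nonneg_of_nonpos_of_nonpos ha0 hb0]
    · exact hb (s2.2 (by rw [heq, neg_zero]))
    · have hb0 : 0 ≤ b := by
        by_contra hc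
        push Not at hc
        nlinarith [mul_neg_of_pos_of_neg hgt hc]
      have ha0 : 0 ≤ a := by
        by_contra hc
        push Not at hc
        nlinarith [mul_neg_of_pos_of_neg hgt hc]
      nlinarith [mul_nonneg ha0 hb0]
  exact ⟨ha, s1.2 ha⟩

/-- functional form of a facet at one of its vertices -/
def FA (S F : Finset E3) (x : E3) (f : E3 →L[ℝ] ℝ) : Prop :=
  (∀ s ∈ S, 0 ≤ f (s - x)) ∧ (∀ s ∈ S, (s ∈ F ↔ f (s - x) = 0)) ∧ ∃ s ∈ S, f (s - x) ≠ 0

theorem facet_sub (S F : Finset E3) (hF : IsFacet S (F : Set E3)) : F ⊆ S := by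
  obtain ⟨l, c, _, hc, _⟩ := hF
  intro s hs
  have : s ∈ (F : Set E3) := hs
  rw [hc] at this
  exact this.1

theorem facet_FA (S F : Finset E3) (hS : affineSpan ℝ (S : Set E3) = ⊤)
    (hF : IsFacet S (F : Set E3)) (x : E3) (hx : x ∈ F) :
    ∃ f : E3 →L[ℝ] ℝ, FA S F x f := by
  obtain ⟨l, c, hle, hc, hr⟩ := hF
  have hxc : l x = c := by
    have : x ∈ (F : Set E3) := hx
    rw [hc] at this
    exact this.2
  have hmem : ∀ s ∈ S, (s ∈ F ↔ l s = c) := by
    intro s hs
    constructor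
    · intro h
      have : s ∈ (F : Set E3) := h
      rw [hc] at this
      exact this.2
    · intro h
      have : s ∈ (F : Set E3) := by
        rw [hc]
        exact ⟨hs, h⟩
      exact this
  refine ⟨-l, ?_, ?_, ?_⟩
  · intro s hs
    have := hle s hs
    simp only [neg_apply, map_sub]
    linarith
  · intro s hs
    rw [hmem s hs]
    simp only [neg_apply, map_sub]
    constructor
    · intro h
      linarith
    · intro h
      linarith
  · by_contra hcon
    push Not at hcon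
    have hFS : (F : Set E3) = (S : Set E3) := by
      rw [hc]
      ext s
      constructor
      · intro h
        exact h.1
      · intro h
        refine ⟨h, ?_⟩
        have := hcon s h
        simp only [neg_apply, map_sub] at this
        linarith
    rw [hFS, AffineSubspace.vectorSpan_eq_top_of_affineSpan_eq_top ℝ E3 E3 hS, finrank_top,
      finrank_euclideanSpace_fin] at hr
    omega

theorem facet_three (S F : Finset E3) (hF : IsFacet S (F : Set E3)) : 3 ≤ F.card := by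
  classical
  obtain ⟨l, c, _, _, hr⟩ := hF
  by_contra hcon
  push Not at hcon
  have h0 : F.card ≠ 0 := by
    intro h
    rw [Finset.card_eq_zero] at h
    rw [h, Finset.coe_empty, vectorSpan_empty, finrank_bot] at hr
    omega
  have h1 : Module.finrank ℝ (vectorSpan ℝ (F : Set E3)) ≤ F.card - 1 := by
    have := finrank_vectorSpan_image_finset_le ℝ (id : E3 → E3) F (n := F.card - 1) (by omega)
    rwa [Finset.image_id] at this
  omega

theorem facet_plane (S F : Finset E3)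
    (hsep : ∀ x ∈ S, ∃ m : E3 →L[ℝ] ℝ, ∀ s ∈ S, s ≠ x → 0 < m (s - x))
    (hFS : F ⊆ S) (x y z : E3) (hx : x ∈ F) (hy : y ∈ F) (hz : z ∈ F) (hxy : y ≠ x)
    (hxz : z ≠ x) (hyz : z ≠ y) (f g : E3 →L[ℝ] ℝ) (hf : FA S F x f)
    (h1 : g (y - x) = 0) (h2 : g (z - x) = 0) : ∀ s ∈ F, g (s - x) = 0 := by
  intro s hs
  obtain ⟨_, hf2, u, hu, hu0⟩ := hf
  obtain ⟨a, b, c, habc, he⟩ := dep_vec f (u - x) (y - x) (z - x) (s - x) hu0
    ((hf2 y (hFS hy)).1 hy) ((hf2 z (hFS hz)).1 hz) ((hf2 s (hFS hs)).1 hs)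
  have hc : c ≠ 0 := by
    intro hc
    rw [hc, zero_smul, add_zero] at he
    have := noncol S hsep x y z (hFS hx) (hFS hy) (hFS hz) hxy hxz hyz a b he
    rcases habc with h | h | h
    · exact h this.1
    · exact h this.2
    · exact h hc
  have := congrArg g he
  simp only [map_add, map_smul, smul_eq_mul, map_zero, h1, h2, mul_zero, zero_add] at this
  rcases mul_eq_zero.1 this with h | h
  · exact absurd h hc
  · exact h

theorem facet_inter (S F G : Finset E3) (hS : affineSpan ℝ (S : Set E3) = ⊤)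
    (hsep : ∀ x ∈ S, ∃ m : E3 →L[ℝ] ℝ, ∀ s ∈ S, s ≠ x → 0 < m (s - x))
    (hF : IsFacet S (F : Set E3)) (hG : IsFacet S (G : Set E3)) (hFG : F ≠ G) :
    (F ∩ G).card ≤ 2 := by
  classical
  by_contra hcon
  push Not at hcon
  obtain ⟨x, hx, y, hy, z, hz, hxy, hxz, hyz⟩ := Finset.two_lt_card.1 hcon
  rw [Finset.mem_inter] at hx hy hz
  obtain ⟨f, hf⟩ := facet_FA S F hS hF x hx.1
  obtain ⟨g, hg⟩ := facet_FA S G hS hG x hx.2
  have hFS := facet_sub S F hF
  have hGS := facet_sub S G hG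
  have h1 := facet_plane S F hsep hFS x y z hx.1 hy.1 hz.1 hxy.symm hxz.symm hyz.symm f g hf
    ((hg.2.1 y (hGS hy.2)).1 hy.2) ((hg.2.1 z (hGS hz.2)).1 hz.2)
  have h2 := facet_plane S G hsep hGS x y z hx.2 hy.2 hz.2 hxy.symm hxz.symm hyz.symm g f hg
    ((hf.2.1 y (hFS hy.1)).1 hy.1) ((hf.2.1 z (hFS hz.1)).1 hz.1)
  apply hFG
  ext s
  constructor
  · intro hs
    exact (hg.2.1 s (hFS hs)).2 (h1 s hs)
  · intro hs
    exact (hf.2.1 s (hGS hs)).2 (h2 s hs)

theorem facet_not_sub (S F G : Finset E3) (hS : affineSpan ℝ (S : Set E3) = ⊤)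
    (hsep : ∀ x ∈ S, ∃ m : E3 →L[ℝ] ℝ, ∀ s ∈ S, s ≠ x → 0 < m (s - x))
    (hF : IsFacet S (F : Set E3)) (hG : IsFacet S (G : Set E3)) (hFG : F ≠ G) : ¬ F ⊆ G := by
  classical
  intro h
  have h1 := facet_inter S F G hS hsep hF hG hFG
  have h2 := facet_three S F hF
  have h3 : F ∩ G = F := Finset.inter_eq_left.2 h
  rw [h3] at h1
  omega

/-- the sign argument behind `pair`: one of the three facets is contained in another one -/
theorem pair_sign (S F1 F2 F3 : Finset E3) (h1S : F1 ⊆ S) (h2S : F2 ⊆ S) (h3S : F3 ⊆ S)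
    (x : E3) (f1 f2 f3 : E3 →L[ℝ] ℝ)
    (hf1 : FA S F1 x f1) (hf2 : FA S F2 x f2) (hf3 : FA S F3 x f3) (a b c : ℝ)
    (habc : a ≠ 0 ∨ b ≠ 0 ∨ c ≠ 0)
    (he : ∀ v, a * f1 v + b * f2 v + c * f3 v = 0) :
    F1 ⊆ F2 ∨ F1 ⊆ F3 ∨ F2 ⊆ F1 ∨ F2 ⊆ F3 ∨ F3 ⊆ F1 ∨ F3 ⊆ F2 := by
  obtain ⟨p1, q1, s1, hs1, r1⟩ := hf1
  obtain ⟨p2, q2, s2, hs2, r2⟩ := hf2
  obtain ⟨p3, q3, s3, hs3, r3⟩ := hf3
  -- one non-trivial relation with one sign different
  have main : ∀ (A B : Finset E3) (f g h : E3 →L[ℝ] ℝ) (α β γ : ℝ), A ⊆ S →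
      (∀ s ∈ S, 0 ≤ g (s - x)) → (∀ s ∈ S, 0 ≤ h (s - x)) →
      (∀ s ∈ S, (s ∈ A ↔ f (s - x) = 0)) → (∀ s ∈ S, (s ∈ B ↔ g (s - x) = 0)) →
      0 < β → 0 ≤ γ → (∀ v, α * f v + β * g v + γ * h v = 0) → A ⊆ B := by
    intro A B f g h α β γ hA pg ph qf qg hβ hγ hh s hs
    have hsS := hA hs
    have e := hh (s - x)
    rw [(qf s hsS).1 hs, mul_zero, zero_add] at e
    have e1 : 0 ≤ β * g (s - x) := mul_nonneg hβ.le (pg s hsS)
    have e2 : 0 ≤ γ * h (s - x) := mul_nonneg hγ (ph s hsS)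
    have e3 : β * g (s - x) = 0 := by linarith
    rcases mul_eq_zero.1 e3 with h0 | h0
    · exact absurd h0 hβ.ne'
    · exact (qg s hsS).2 h0
  -- all the same sign is impossible
  have same : ∀ (f g h : E3 →L[ℝ] ℝ) (α β γ : ℝ) (s : E3), s ∈ S → f (s - x) ≠ 0 →
      (∀ s ∈ S, 0 ≤ f (s - x)) → (∀ s ∈ S, 0 ≤ g (s - x)) → (∀ s ∈ S, 0 ≤ h (s - x)) →
      0 < α → 0 ≤ β → 0 ≤ γ → (∀ v, α * f v + β * g v + γ * h v = 0) → False := by
    intro f g h α β γ s hsS hf0 pf pg ph hα hβ hγ hh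
    have e := hh (s - x)
    have e1 : 0 < α * f (s - x) := mul_pos hα (lt_of_le_of_ne (pf s hsS) (Ne.symm hf0))
    have e2 : 0 ≤ β * g (s - x) := mul_nonneg hβ (pg s hsS)
    have e3 : 0 ≤ γ * h (s - x) := mul_nonneg hγ (ph s hsS)
    linarith
  -- reduce to the case with at least two non-negative coefficients
  have red : ∀ (a b c : ℝ), (a ≠ 0 ∨ b ≠ 0 ∨ c ≠ 0) →
      (∀ v, a * f1 v + b * f2 v + c * f3 v = 0) →
      ((0 ≤ a ∧ 0 ≤ b) ∨ (0 ≤ a ∧ 0 ≤ c) ∨ (0 ≤ b ∧ 0 ≤ c)) →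
      F1 ⊆ F2 ∨ F1 ⊆ F3 ∨ F2 ⊆ F1 ∨ F2 ⊆ F3 ∨ F3 ⊆ F1 ∨ F3 ⊆ F2 := by
    intro a b c hne hh hcase
    rcases hcase with ⟨ha, hb⟩ | ⟨ha, hc⟩ | ⟨hb, hc⟩
    · -- F3 is special
      rcases ha.lt_or_eq with ha | ha
      · exact Or.inr (Or.inr (Or.inr (Or.inr (Or.inl
          (main F3 F1 f3 f1 f2 c a b h3S p1 p2 q3 q1 ha hb
            (fun v => by linarith [hh v]))))))
      · rcases hb.lt_or_eq with hb | hb
        · exact Or.inr (Or.inr (Or.inr (Or.inr (Or.inr
            (main F3 F2 f3 f2 f1 c b a h3S p2 p1 q3 q2 hb ha.le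
              (fun v => by linarith [hh v]))))))
        · exfalso
          have hc0 : c ≠ 0 := by
            rcases hne with h | h | h
            · exact absurd ha.symm h
            · exact absurd hb.symm h
            · exact h
          have := hh (s3 - x)
          rw [← ha, ← hb, zero_mul, zero_mul, zero_add, zero_add] at this
          rcases mul_eq_zero.1 this with h | h
          · exact hc0 h
          · exact r3 h
    · rcases ha.lt_or_eq with ha | ha
      · exact Or.inr (Or.inr (Or.inl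
          (main F2 F1 f2 f1 f3 b a c h2S p1 p3 q2 q1 ha hc
            (fun v => by linarith [hh v]))))
      · rcases hc.lt_or_eq with hc | hc
        · exact Or.inr (Or.inr (Or.inr (Or.inl
            (main F2 F3 f2 f3 f1 b c a h2S p3 p1 q2 q3 hc ha.le
              (fun v => by linarith [hh v])))))
        · exfalso
          have hb0 : b ≠ 0 := by
            rcases hne with h | h | h
            · exact absurd ha.symm h
            · exact h
            · exact absurd hc.symm h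
          have := hh (s2 - x)
          rw [← ha, ← hc, zero_mul, zero_mul, zero_add, add_zero] at this
          rcases mul_eq_zero.1 this with h | h
          · exact hb0 h
          · exact r2 h
    · rcases hb.lt_or_eq with hb | hb
      · exact Or.inl
          (main F1 F2 f1 f2 f3 a b c h1S p2 p3 q1 q2 hb hc
            (fun v => by linarith [hh v]))
      · rcases hc.lt_or_eq with hc | hc
        · exact Or.inr (Or.inl
            (main F1 F3 f1 f3 f2 a c b h1S p3 p2 q1 q3 hc hb.le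
              (fun v => by linarith [hh v])))
        · exfalso
          have ha0 : a ≠ 0 := by
            rcases hne with h | h | h
            · exact h
            · exact absurd hb.symm h
            · exact absurd hc.symm h
          have := hh (s1 - x)
          rw [← hb, ← hc, zero_mul, zero_mul, add_zero, add_zero] at this
          rcases mul_eq_zero.1 this with h | h
          · exact ha0 h
          · exact r1 h
  have he' : ∀ v, (-a) * f1 v + (-b) * f2 v + (-c) * f3 v = 0 := fun v => by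
    linarith [he v]
  have hne' : (-a) ≠ 0 ∨ (-b) ≠ 0 ∨ (-c) ≠ 0 := by
    rcases habc with h | h | h
    · exact Or.inl (neg_ne_zero.2 h)
    · exact Or.inr (Or.inl (neg_ne_zero.2 h))
    · exact Or.inr (Or.inr (neg_ne_zero.2 h))
  rcases le_total 0 a with ha | ha
  · rcases le_total 0 b with hb | hb
    · exact red a b c habc he (Or.inl ⟨ha, hb⟩)
    · rcases le_total 0 c with hc | hc
      · exact red a b c habc he (Or.inr (Or.inl ⟨ha, hc⟩))
      · exact red (-a) (-b) (-c) hne' he' (Or.inr (Or.inr ⟨by linarith, by linarith⟩))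
  · rcases le_total 0 b with hb | hb
    · rcases le_total 0 c with hc | hc
      · exact red a b c habc he (Or.inr (Or.inr ⟨hb, hc⟩))
      · exact red (-a) (-b) (-c) hne' he' (Or.inr (Or.inl ⟨by linarith, by linarith⟩))
    · exact red (-a) (-b) (-c) hne' he' (Or.inl ⟨by linarith, by linarith⟩)

theorem facet_pair (S F1 F2 F3 : Finset E3) (hS : affineSpan ℝ (S : Set E3) = ⊤)
    (hsep : ∀ x ∈ S, ∃ m : E3 →L[ℝ] ℝ, ∀ s ∈ S, s ≠ x → 0 < m (s - x))
    (h1 : IsFacet S (F1 : Set E3)) (h2 : IsFacet S (F2 : Set E3)) (h3 : IsFacet S (F3 : Set E3))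
    (h12 : F1 ≠ F2) (h13 : F1 ≠ F3) (h23 : F2 ≠ F3) (x y : E3) (hxy : x ≠ y)
    (x1 : x ∈ F1) (x2 : x ∈ F2) (x3 : x ∈ F3) (y1 : y ∈ F1) (y2 : y ∈ F2) (y3 : y ∈ F3) :
    False := by
  obtain ⟨f1, hf1⟩ := facet_FA S F1 hS h1 x x1
  obtain ⟨f2, hf2⟩ := facet_FA S F2 hS h2 x x2
  obtain ⟨f3, hf3⟩ := facet_FA S F3 hS h3 x x3
  have s1 := facet_sub S F1 h1
  have s2 := facet_sub S F2 h2
  have s3 := facet_sub S F3 h3
  obtain ⟨a, b, c, habc, he⟩ := dep_fun f1 f2 f3 (y - x) (sub_ne_zero.2 hxy.symm)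
    ((hf1.2.1 y (s1 y1)).1 y1) ((hf2.2.1 y (s2 y2)).1 y2) ((hf3.2.1 y (s3 y3)).1 y3)
  rcases pair_sign S F1 F2 F3 s1 s2 s3 x f1 f2 f3 hf1 hf2 hf3 a b c habc he with
    h | h | h | h | h | h
  · exact facet_not_sub S F1 F2 hS hsep h1 h2 h12 h
  · exact facet_not_sub S F1 F3 hS hsep h1 h3 h13 h
  · exact facet_not_sub S F2 F1 hS hsep h2 h1 h12.symm h
  · exact facet_not_sub S F2 F3 hS hsep h2 h3 h23 h
  · exact facet_not_sub S F3 F1 hS hsep h3 h1 h13.symm h
  · exact facet_not_sub S F3 F2 hS hsep h3 h2 h23.symm h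

/-- the second facet at an edge of a facet -/
theorem facet_second (S F : Finset E3) (hFS : F ⊆ S) (x y : E3) (hx : x ∈ F) (hy : y ∈ F)
    (hyx : y ≠ x) (f n : E3 →L[ℝ] ℝ) (hf : FA S F x f) (hn0 : n (y - x) = 0)
    (hn1 : ∀ s ∈ F, 0 ≤ n (s - x)) (hn2 : ∃ s ∈ F, n (s - x) ≠ 0) :
    ∃ G : Finset E3, IsFacet S (G : Set E3) ∧ x ∈ G ∧ y ∈ G ∧ G ≠ F := by
  classical
  obtain ⟨p1, q1, s1, hs1, r1⟩ := hf
  have hT : (S.filter (fun s => s ∉ F)).Nonempty := by
    refine ⟨s1, Finset.mem_filter.2 ⟨hs1, fun h => r1 ((q1 s1 hs1).1 h)⟩⟩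
  obtain ⟨z, hz, hmax⟩ := Finset.exists_max_image _ (fun s => -(n (s - x)) / f (s - x)) hT
  rw [Finset.mem_filter] at hz
  set t := -(n (z - x)) / f (z - x) with ht
  have hpos : ∀ s ∈ S, s ∉ F → 0 < f (s - x) := by
    intro s hs hsF
    refine lt_of_le_of_ne (p1 s hs) (fun h => hsF ((q1 s hs).2 h.symm))
  have hz0 := hpos z hz.1 hz.2
  let g : E3 →L[ℝ] ℝ := n + t • f
  have hg : ∀ v, g v = n v + t * f v := fun v => rfl
  have hgS : ∀ s ∈ S, 0 ≤ g (s - x) := by
    intro s hs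
    rw [hg]
    by_cases hsF : s ∈ F
    · rw [(q1 s hs).1 hsF, mul_zero, add_zero]
      exact hn1 s hsF
    · have h1 := hmax s (Finset.mem_filter.2 ⟨hs, hsF⟩)
      have h2 := hpos s hs hsF
      rw [div_le_iff₀ h2] at h1
      linarith
  have hgx : g (x - x) = 0 := by rw [sub_self, map_zero]
  have hgy : g (y - x) = 0 := by
    rw [hg, hn0, (q1 y (hFS hy)).1 hy, mul_zero, add_zero]
  have hgz : g (z - x) = 0 := by
    rw [hg, ht, div_mul_cancel₀ _ hz0.ne']
    ring
  let G := S.filter (fun s => g (s - x) = 0)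
  have hG : ∀ s, s ∈ G ↔ s ∈ S ∧ g (s - x) = 0 := fun s => Finset.mem_filter
  refine ⟨G, ⟨-g, -(g x), ?_, ?_, ?_⟩, (hG x).2 ⟨hFS hx, hgx⟩, (hG y).2 ⟨hFS hy, hgy⟩, ?_⟩
  · intro s hs
    have := hgS s hs
    rw [map_sub] at this
    simp only [neg_apply]
    linarith
  · ext s
    rw [Finset.mem_coe, hG]
    simp only [Set.mem_ofPred_eq, neg_apply, neg_inj, map_sub, sub_eq_zero]
  · obtain ⟨s0, hs0, hs1⟩ := hn2
    have hg0 : g (s0 - x) ≠ 0 := by
      rw [hg, (q1 s0 (hFS hs0)).1 hs0, mul_zero, add_zero]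
      exact hs1
    have hker : ∀ v ∈ vectorSpan ℝ (G : Set E3), g v = 0 := by
      intro v hv
      have hle : vectorSpan ℝ (G : Set E3) ≤ LinearMap.ker (g : E3 →ₗ[ℝ] ℝ) := by
        rw [vectorSpan_def, Submodule.span_le]
        rintro u ⟨a, ha, b, hb, rfl⟩
        have h1 := ((hG a).1 ha).2
        have h2 := ((hG b).1 hb).2
        rw [map_sub] at h1 h2
        change g (a - b) = 0
        rw [map_sub]
        linarith
      exact hle hv
    have hlt : Module.finrank ℝ (vectorSpan ℝ (G : Set E3)) < Module.finrank ℝ E3 := by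
      apply Submodule.finrank_lt
      intro htop
      apply hg0
      apply hker
      rw [htop]
      exact Submodule.mem_top
    rw [finrank_euclideanSpace_fin] at hlt
    have hli : LinearIndependent ℝ ![y - x, z - x] := by
      rw [LinearIndependent.pair_iff]
      intro a b hab
      have h1 := congrArg f hab
      simp only [map_add, map_smul, smul_eq_mul, map_zero, (q1 y (hFS hy)).1 hy, mul_zero,
        zero_add] at h1
      have hb : b = 0 := by
        rcases mul_eq_zero.1 h1 with h | h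
        · exact h
        · exact absurd h hz0.ne'
      rw [hb, zero_smul, add_zero] at hab
      rcases smul_eq_zero.1 hab with h | h
      · exact ⟨h, hb⟩
      · exact absurd (sub_eq_zero.1 h) hyx
    have h2 := finrank_span_eq_card hli
    have h3 : Submodule.span ℝ (Set.range ![y - x, z - x]) ≤ vectorSpan ℝ (G : Set E3) := by
      rw [Submodule.span_le]
      rintro u ⟨i, rfl⟩
      have hxG : x ∈ (G : Set E3) := (hG x).2 ⟨hFS hx, hgx⟩
      fin_cases i
      · exact vsub_mem_vectorSpan ℝ (show y ∈ (G : Set E3) from (hG y).2 ⟨hFS hy, hgy⟩) hxG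
      · exact vsub_mem_vectorSpan ℝ (show z ∈ (G : Set E3) from (hG z).2 ⟨hz.1, hgz⟩) hxG
    have h4 := Submodule.finrank_mono h3
    rw [h2, Fintype.card_fin] at h4
    omega
  · intro h
    apply hz.2
    rw [← h]
    exact (hG z).2 ⟨hz.1, hgz⟩

/-- a functional vanishing at one and not at the other of two directions -/
theorem exists_fun (u v : E3) (h : ∀ a b : ℝ, a • u + b • v = 0 → a = 0 ∧ b = 0) :
    ∃ w : E3 →L[ℝ] ℝ, w u = 0 ∧ w v ≠ 0 := by
  have hv : v ∉ Submodule.span ℝ {u} := by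
    intro hc
    rw [Submodule.mem_span_singleton] at hc
    obtain ⟨a, ha⟩ := hc
    have := (h a (-1) (by rw [ha, neg_one_smul, add_neg_cancel])).2
    norm_num at this
  obtain ⟨f, hf, hf2⟩ := Submodule.exists_dual_map_eq_bot_of_notMem hv inferInstance
  refine ⟨LinearMap.toContinuousLinearMap f, ?_, ?_⟩
  · have : f u ∈ Submodule.map f (Submodule.span ℝ {u}) :=
      Submodule.mem_map_of_mem (Submodule.mem_span_singleton_self u)
    rw [hf2, Submodule.mem_bot] at this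
    exact this
  · exact hf

theorem facet_nb_ge (S F : Finset E3) (hS : affineSpan ℝ (S : Set E3) = ⊤)
    (hsep : ∀ x ∈ S, ∃ m : E3 →L[ℝ] ℝ, ∀ s ∈ S, s ≠ x → 0 < m (s - x))
    (hF : IsFacet S (F : Set E3)) (x : E3) (hx : x ∈ F) :
    ∃ y1 ∈ F, ∃ y2 ∈ F, y1 ≠ x ∧ y2 ≠ x ∧ y1 ≠ y2 ∧
      (∃ G : Finset E3, IsFacet S (G : Set E3) ∧ x ∈ G ∧ y1 ∈ G ∧ G ≠ F) ∧
      (∃ G : Finset E3, IsFacet S (G : Set E3) ∧ x ∈ G ∧ y2 ∈ G ∧ G ≠ F) := by
  classical
  obtain ⟨f, hf⟩ := facet_FA S F hS hF x hx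
  have hFS := facet_sub S F hF
  have h3 := facet_three S F hF
  obtain ⟨m, hm⟩ := hsep x (hFS hx)
  have hcard : 1 < (F.erase x).card := by
    rw [Finset.card_erase_of_mem hx]
    omega
  obtain ⟨p, hp, q, hq, hpq⟩ := Finset.one_lt_card.1 hcard
  rw [Finset.mem_erase] at hp hq
  obtain ⟨w, hw1, hw2⟩ := exists_fun (p - x) (q - x)
    (fun a b h => noncol S hsep x p q (hFS hx) (hFS hp.2) (hFS hq.2) hp.1 hq.1 hpq.symm a b h)
  have hne : (F.erase x).Nonempty := ⟨p, Finset.mem_erase.2 hp⟩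
  obtain ⟨y1, hy1, hmin⟩ := Finset.exists_min_image _ (fun s => w (s - x) / m (s - x)) hne
  obtain ⟨y2, hy2, hmax⟩ := Finset.exists_max_image _ (fun s => w (s - x) / m (s - x)) hne
  rw [Finset.mem_erase] at hy1 hy2
  have hm1 := hm y1 (hFS hy1.2) hy1.1
  have hm2 := hm y2 (hFS hy2.2) hy2.1
  have hmp := hm p (hFS hp.2) hp.1
  have hmq := hm q (hFS hq.2) hq.1
  set t1 := w (y1 - x) / m (y1 - x) with ht1
  set t2 := w (y2 - x) / m (y2 - x) with ht2
  have e1 : w (y1 - x) = t1 * m (y1 - x) := by rw [ht1, div_mul_cancel₀ _ hm1.ne']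
  have e2 : w (y2 - x) = t2 * m (y2 - x) := by rw [ht2, div_mul_cancel₀ _ hm2.ne']
  have hlt : t1 < t2 := by
    by_contra hcon
    push Not at hcon
    have a1 := hmin p (Finset.mem_erase.2 hp)
    have a2 := hmax p (Finset.mem_erase.2 hp)
    have b1 := hmin q (Finset.mem_erase.2 hq)
    have b2 := hmax q (Finset.mem_erase.2 hq)
    simp only [hw1, zero_div] at a1 a2
    have c1 : w (q - x) / m (q - x) = 0 := by linarith
    rcases div_eq_zero_iff.1 c1 with h | h
    · exact hw2 h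
    · exact hmq.ne' h
  have hlo : ∀ s ∈ F, 0 ≤ (w - t1 • m) (s - x) := by
    intro s hs
    change 0 ≤ w (s - x) - t1 * m (s - x)
    by_cases hsx : s = x
    · rw [hsx, sub_self, map_zero, map_zero, mul_zero, sub_zero]
    · have h1 := hmin s (Finset.mem_erase.2 ⟨hsx, hs⟩)
      have h2 := hm s (hFS hs) hsx
      rw [le_div_iff₀ h2] at h1
      linarith
  have hhi : ∀ s ∈ F, 0 ≤ (t2 • m - w) (s - x) := by
    intro s hs
    change 0 ≤ t2 * m (s - x) - w (s - x)
    by_cases hsx : s = x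
    · rw [hsx, sub_self, map_zero, map_zero, mul_zero, sub_zero]
    · have h1 := hmax s (Finset.mem_erase.2 ⟨hsx, hs⟩)
      have h2 := hm s (hFS hs) hsx
      rw [div_le_iff₀ h2] at h1
      linarith
  refine ⟨y1, hy1.2, y2, hy2.2, hy1.1, hy2.1, ?_, ?_, ?_⟩
  · intro h
    rw [ht1, ht2, h] at hlt
    exact lt_irrefl _ hlt
  · refine facet_second S F hFS x y1 hx hy1.2 hy1.1 f (w - t1 • m) hf ?_ hlo ⟨y2, hy2.2, ?_⟩
    · change w (y1 - x) - t1 * m (y1 - x) = 0
      rw [e1, sub_self]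
    · change w (y2 - x) - t1 * m (y2 - x) ≠ 0
      rw [e2, ← sub_mul]
      exact mul_ne_zero (sub_ne_zero.2 hlt.ne') hm2.ne'
  · refine facet_second S F hFS x y2 hx hy2.2 hy2.1 f (t2 • m - w) hf ?_ hhi ⟨y1, hy1.2, ?_⟩
    · change t2 * m (y2 - x) - w (y2 - x) = 0
      rw [e2, sub_self]
    · change t2 * m (y1 - x) - w (y1 - x) ≠ 0
      rw [e1, ← sub_mul]
      exact mul_ne_zero (sub_ne_zero.2 hlt.ne') hm1.ne'

theorem facet_nb_le (S F : Finset E3) (hS : affineSpan ℝ (S : Set E3) = ⊤)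
    (hsep : ∀ x ∈ S, ∃ m : E3 →L[ℝ] ℝ, ∀ s ∈ S, s ≠ x → 0 < m (s - x))
    (hF : IsFacet S (F : Set E3)) (x : E3) (hx : x ∈ F) (y1 y2 y3 : E3) (hy1 : y1 ∈ F)
    (hy2 : y2 ∈ F) (hy3 : y3 ∈ F) (h1x : y1 ≠ x) (h2x : y2 ≠ x) (h3x : y3 ≠ x)
    (h12 : y1 ≠ y2) (h13 : y1 ≠ y3) (h23 : y2 ≠ y3)
    (hG1 : ∃ G : Finset E3, IsFacet S (G : Set E3) ∧ x ∈ G ∧ y1 ∈ G ∧ G ≠ F)
    (hG2 : ∃ G : Finset E3, IsFacet S (G : Set E3) ∧ x ∈ G ∧ y2 ∈ G ∧ G ≠ F)
    (hG3 : ∃ G : Finset E3, IsFacet S (G : Set E3) ∧ x ∈ G ∧ y3 ∈ G ∧ G ≠ F) : False := by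
  classical
  have hFS := facet_sub S F hF
  have main : ∀ (y1 y2 y3 : E3), y1 ∈ F → y2 ∈ F → y3 ∈ F → y1 ≠ x → y2 ≠ x → y1 ≠ y2 →
      (∃ G : Finset E3, IsFacet S (G : Set E3) ∧ x ∈ G ∧ y1 ∈ G ∧ G ≠ F) →
      ∀ α β γ : ℝ, 0 < β → 0 ≤ γ → α • (y1 - x) + β • (y2 - x) + γ • (y3 - x) = 0 →
      False := by
    intro y1 y2 y3 hy1 hy2 hy3 h1x h2x h12 hG α β γ hβ hγ he
    obtain ⟨G, hG, hxG, hyG, hGF⟩ := hG
    obtain ⟨g, hg1, hg2, _⟩ := facet_FA S G hS hG x hxG
    have e := congrArg g he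
    simp only [map_add, map_smul, smul_eq_mul, map_zero, (hg2 y1 (hFS hy1)).1 hyG, mul_zero,
      zero_add] at e
    have e1 : 0 ≤ β * g (y2 - x) := mul_nonneg hβ.le (hg1 y2 (hFS hy2))
    have e2 : 0 ≤ γ * g (y3 - x) := mul_nonneg hγ (hg1 y3 (hFS hy3))
    have e3 : β * g (y2 - x) = 0 := by linarith
    have e4 : y2 ∈ G := by
      rcases mul_eq_zero.1 e3 with h | h
      · exact absurd h hβ.ne'
      · exact (hg2 y2 (hFS hy2)).2 h
    have hi := facet_inter S G F hS hsep hG hF hGF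
    have hsub : ({x, y1, y2} : Finset E3) ⊆ G ∩ F := by
      intro s hs
      rw [Finset.mem_insert, Finset.mem_insert, Finset.mem_singleton] at hs
      rw [Finset.mem_inter]
      rcases hs with rfl | rfl | rfl
      · exact ⟨hxG, hx⟩
      · exact ⟨hyG, hy1⟩
      · exact ⟨e4, hy2⟩
    have hc := Finset.card_le_card hsub
    have hc3 : ({x, y1, y2} : Finset E3).card = 3 := by
      rw [Finset.card_eq_three]
      exact ⟨x, y1, y2, h1x.symm, h2x.symm, h12, rfl⟩
    omega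
  have red : ∀ (a b c : ℝ), (a ≠ 0 ∨ b ≠ 0 ∨ c ≠ 0) →
      a • (y1 - x) + b • (y2 - x) + c • (y3 - x) = 0 →
      ((0 ≤ a ∧ 0 ≤ b) ∨ (0 ≤ a ∧ 0 ≤ c) ∨ (0 ≤ b ∧ 0 ≤ c)) → False := by
    intro a b c hne hh hcase
    have z1 : y1 - x ≠ 0 := sub_ne_zero.2 h1x
    have z2 : y2 - x ≠ 0 := sub_ne_zero.2 h2x
    have z3 : y3 - x ≠ 0 := sub_ne_zero.2 h3x
    have r1 : b • (y2 - x) + a • (y1 - x) + c • (y3 - x) = 0 := by rw [← hh]; abel
    have r2 : b • (y2 - x) + c • (y3 - x) + a • (y1 - x) = 0 := by rw [← hh]; abel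
    have r3 : c • (y3 - x) + a • (y1 - x) + b • (y2 - x) = 0 := by rw [← hh]; abel
    have r4 : c • (y3 - x) + b • (y2 - x) + a • (y1 - x) = 0 := by rw [← hh]; abel
    have r5 : a • (y1 - x) + c • (y3 - x) + b • (y2 - x) = 0 := by rw [← hh]; abel
    rcases hcase with ⟨ha, hb⟩ | ⟨ha, hc⟩ | ⟨hb, hc⟩
    · rcases ha.lt_or_eq with ha | ha
      · exact main y3 y1 y2 hy3 hy1 hy2 h3x h1x h13.symm hG3 c a b ha hb r3
      · rcases hb.lt_or_eq with hb | hb
        · exact main y3 y2 y1 hy3 hy2 hy1 h3x h2x h23.symm hG3 c b a hb ha.le r4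
        · have hc0 : c ≠ 0 := by
            rcases hne with h | h | h
            · exact absurd ha.symm h
            · exact absurd hb.symm h
            · exact h
          rw [← ha, ← hb, zero_smul, zero_smul, zero_add, zero_add] at hh
          rcases smul_eq_zero.1 hh with h | h
          · exact hc0 h
          · exact z3 h
    · rcases ha.lt_or_eq with ha | ha
      · exact main y2 y1 y3 hy2 hy1 hy3 h2x h1x h12.symm hG2 b a c ha hc r1
      · rcases hc.lt_or_eq with hc | hc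
        · exact main y2 y3 y1 hy2 hy3 hy1 h2x h3x h23 hG2 b c a hc ha.le r2
        · have hb0 : b ≠ 0 := by
            rcases hne with h | h | h
            · exact absurd ha.symm h
            · exact h
            · exact absurd hc.symm h
          rw [← ha, ← hc, zero_smul, zero_smul, zero_add, add_zero] at hh
          rcases smul_eq_zero.1 hh with h | h
          · exact hb0 h
          · exact z2 h
    · rcases hb.lt_or_eq with hb | hb
      · exact main y1 y2 y3 hy1 hy2 hy3 h1x h2x h12 hG1 a b c hb hc hh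
      · rcases hc.lt_or_eq with hc | hc
        · exact main y1 y3 y2 hy1 hy3 hy2 h1x h3x h13 hG1 a c b hc hb.le r5
        · have ha0 : a ≠ 0 := by
            rcases hne with h | h | h
            · exact h
            · exact absurd hb.symm h
            · exact absurd hc.symm h
          rw [← hb, ← hc, zero_smul, zero_smul, add_zero, add_zero] at hh
          rcases smul_eq_zero.1 hh with h | h
          · exact ha0 h
          · exact z1 h
  obtain ⟨f, _, hf2, u, hu, hu0⟩ := facet_FA S F hS hF x hx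
  obtain ⟨a, b, c, habc, he⟩ := dep_vec f (u - x) (y1 - x) (y2 - x) (y3 - x) hu0
    ((hf2 y1 (hFS hy1)).1 hy1) ((hf2 y2 (hFS hy2)).1 hy2) ((hf2 y3 (hFS hy3)).1 hy3)
  have he' : (-a) • (y1 - x) + (-b) • (y2 - x) + (-c) • (y3 - x) = 0 := by
    have : (-a) • (y1 - x) + (-b) • (y2 - x) + (-c) • (y3 - x) =
        -(a • (y1 - x) + b • (y2 - x) + c • (y3 - x)) := by
      rw [neg_smul, neg_smul, neg_smul]
      abel
    rw [this, he, neg_zero]
  have hne' : (-a) ≠ 0 ∨ (-b) ≠ 0 ∨ (-c) ≠ 0 := by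
    rcases habc with h | h | h
    · exact Or.inl (neg_ne_zero.2 h)
    · exact Or.inr (Or.inl (neg_ne_zero.2 h))
    · exact Or.inr (Or.inr (neg_ne_zero.2 h))
  rcases le_total 0 a with ha | ha
  · rcases le_total 0 b with hb | hb
    · exact red a b c habc he (Or.inl ⟨ha, hb⟩)
    · rcases le_total 0 c with hc | hc
      · exact red a b c habc he (Or.inr (Or.inl ⟨ha, hc⟩))
      · exact red (-a) (-b) (-c) hne' he' (Or.inr (Or.inr ⟨by linarith, by linarith⟩))
  · rcases le_total 0 b with hb | hb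
    · rcases le_total 0 c with hc | hc
      · exact red a b c habc he (Or.inr (Or.inr ⟨hb, hc⟩))
      · exact red (-a) (-b) (-c) hne' he' (Or.inr (Or.inl ⟨by linarith, by linarith⟩))
    · exact red (-a) (-b) (-c) hne' he' (Or.inl ⟨by linarith, by linarith⟩)

end G12

/-- module (G): the facets of a three dimensional polytope form a system `FSys`. -/
theorem stGeo_12 : StGeo := by
  classical
  intro S Fs hS hconv hFs
  have hsep : ∀ x ∈ S, ∃ m : E3 →L[ℝ] ℝ, ∀ s ∈ S, s ≠ x → 0 < m (s - x) :=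
    fun x hx => G12.sep S x (hconv x hx)
  refine ⟨fun F hF => G12.facet_sub S F ((hFs F).1 hF), fun F hF =>
    G12.facet_three S F ((hFs F).1 hF), fun F hF G hG hFG =>
    G12.facet_inter S F G hS hsep ((hFs F).1 hF) ((hFs G).1 hG) hFG, ?_, ?_⟩
  · intro x y hxy
    by_contra hcon
    push Not at hcon
    obtain ⟨F1, h1, F2, h2, F3, h3, h12, h13, h23⟩ := Finset.two_lt_card.1 hcon
    rw [Finset.mem_filter] at h1 h2 h3
    exact G12.facet_pair S F1 F2 F3 hS hsep ((hFs F1).1 h1.1) ((hFs F2).1 h2.1)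
      ((hFs F3).1 h3.1) h12 h13 h23 x y hxy h1.2.1 h2.2.1 h3.2.1 h1.2.2 h2.2.2 h3.2.2
  · intro F hF x hx
    have hFf := (hFs F).1 hF
    have hiff : ∀ y ∈ F, (2 ≤ (Fs.filter (fun G => x ∈ G ∧ y ∈ G)).card ↔
        ∃ G : Finset E3, IsFacet S (G : Set E3) ∧ x ∈ G ∧ y ∈ G ∧ G ≠ F) := by
      intro y hy
      have hmem : F ∈ Fs.filter (fun G => x ∈ G ∧ y ∈ G) :=
        Finset.mem_filter.2 ⟨hF, hx, hy⟩
      constructor
      · intro h
        obtain ⟨G, hG, hne⟩ := Finset.exists_mem_ne (show 1 < _ from h) F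
        rw [Finset.mem_filter] at hG
        exact ⟨G, (hFs G).1 hG.1, hG.2.1, hG.2.2, hne⟩
      · rintro ⟨G, hG, hxG, hyG, hne⟩
        have : G ∈ Fs.filter (fun G => x ∈ G ∧ y ∈ G) :=
          Finset.mem_filter.2 ⟨(hFs G).2 hG, hxG, hyG⟩
        exact Finset.one_lt_card.2 ⟨G, this, F, hmem, hne⟩
    apply le_antisymm
    · by_contra hcon
      push Not at hcon
      obtain ⟨y1, h1, y2, h2, y3, h3, h12, h13, h23⟩ := Finset.two_lt_card.1 hcon
      rw [Finset.mem_filter] at h1 h2 h3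
      exact G12.facet_nb_le S F hS hsep hFf x hx y1 y2 y3 h1.1 h2.1 h3.1 h1.2.1 h2.2.1 h3.2.1
        h12 h13 h23 ((hiff y1 h1.1).1 h1.2.2) ((hiff y2 h2.1).1 h2.2.2)
        ((hiff y3 h3.1).1 h3.2.2)
    · obtain ⟨y1, hy1, y2, hy2, h1x, h2x, h12, hG1, hG2⟩ :=
        G12.facet_nb_ge S F hS hsep hFf x hx
      exact Finset.one_lt_card.2 ⟨y1, Finset.mem_filter.2 ⟨hy1, h1x, (hiff y1 hy1).2 hG1⟩,
        y2, Finset.mem_filter.2 ⟨hy2, h2x, (hiff y2 hy2).2 hG2⟩, h12⟩

end Pool.Agent.CY
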