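import Pool.Agent.Lib.MP_b6ecfd_co.Stmts

/-! Vizing's theorem for multigraphs (module V of MP_b6ecfd_co), helper16. -/

set_option autoImplicit false

namespace Pool.Agent.CY.Viz

open Finset

section
variable {E N : Type} {K : ℕ}

/-- incidence of an edge and a node -/
def Inc (p q : E → N) (e : E) (v : N) : Prop := p e = v ∨ q e = v

/-- the colouring is proper on the edges of `T` -/
def Prp (p q : E → N) (T : Finset E) (φ : E → Fin K) : Prop :=
  ∀ e ∈ T, ∀ e' ∈ T, e ≠ e' → ∀ v, Inc p q e v → Inc p q e' v → φ e ≠ φ e'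

/-- the colour `c` is missing at `v` -/
def Mis (p q : E → N) (T : Finset E) (φ : E → Fin K) (v : N) (c : Fin K) : Prop :=
  ∀ e ∈ T, Inc p q e v → φ e ≠ c

/-- the other end -/
def oth [DecidableEq N] (p q : E → N) (x : N) (e : E) : N := if p e = x then q e else p e

variable [DecidableEq N] {p q : E → N}

/-- reachable edges, only colours in `P` used -/
inductive Reach (p q : E → N) (T : Finset E) (x : N) (e0 : E) (φ : E → Fin K)
    (P : Fin K → Prop) : ℕ → E → Prop
  | base : Reach p q T x e0 φ P 0 e0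
  | step (n : ℕ) (g h : E) : Reach p q T x e0 φ P n g → h ∈ T → Inc p q h x →
      Mis p q T φ (oth p q x g) (φ h) → P (φ h) → Reach p q T x e0 φ P (n + 1) h

theorem inc_oth {x : N} {e : E} : Inc p q e (oth p q x e) := by
  unfold Inc oth
  split_ifs
  · right; rfl
  · left; rfl

theorem oth_ne (hl : ∀ e, p e ≠ q e) {x : N} {e : E} (_h : Inc p q e x) : oth p q x e ≠ x := by
  unfold oth
  split_ifs with h1
  · rw [← h1]; exact (hl e).symm
  · exact h1

theorem inc_cases {x v : N} {e : E} (h : Inc p q e x) (hv : Inc p q e v) :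
    v = x ∨ v = oth p q x e := by
  unfold oth
  rcases hv with hv | hv
  · split_ifs with h1
    · left; rw [← hv, h1]
    · right; exact hv.symm
  · split_ifs with h1
    · right; exact hv.symm
    · rcases h with h | h
      · exact absurd h h1
      · left; rw [← hv, h]

theorem oth_oth (hl : ∀ e, p e ≠ q e) {x : N} {e : E} (h : Inc p q e x) :
    oth p q (oth p q x e) e = x := by
  unfold oth
  rcases h with h | h
  · subst h
    simp [hl e]
  · subst h
    have := hl e
    simp [this]

theorem Reach.inc {T : Finset E} {x : N} {e0 : E} {φ : E → Fin K} {P : Fin K → Prop}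
    (he0 : Inc p q e0 x) {n : ℕ} {g : E} (h : Reach p q T x e0 φ P n g) : Inc p q g x := by
  cases h with
  | base => exact he0
  | step _ _ _ _ _ h _ _ => exact h

theorem Reach.eq_or_mem {T : Finset E} {x : N} {e0 : E} {φ : E → Fin K} {P : Fin K → Prop}
    {n : ℕ} {g : E} (h : Reach p q T x e0 φ P n g) : g = e0 ∨ g ∈ T := by
  cases h with
  | base => left; rfl
  | step _ _ _ _ h _ _ _ => right; exact h

theorem Reach.mono {T : Finset E} {x : N} {e0 : E} {φ : E → Fin K} {P P' : Fin K → Prop}
    (hP : ∀ c, P c → P' c) {n : ℕ} {g : E} (h : Reach p q T x e0 φ P n g) :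
    Reach p q T x e0 φ P' n g := by
  induction h with
  | base => exact Reach.base
  | step n g h _ h2 h3 h4 h5 ih => exact Reach.step n g h ih h2 h3 h4 (hP _ h5)

variable [DecidableEq E]

theorem claim1 (_hl : ∀ e, p e ≠ q e) {T : Finset E} {x : N} {e0 : E} (he0 : Inc p q e0 x)
    (hT : e0 ∉ T) : ∀ (n : ℕ) (φ : E → Fin K) (g : E) (c : Fin K), Prp p q T φ →
    Reach p q T x e0 φ (fun _ => True) n g → Mis p q T φ x c → Mis p q T φ (oth p q x g) c →
    ∃ φ' : E → Fin K, Prp p q (insert e0 T) φ' := by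
  intro n
  induction n using Nat.strong_induction_on with
  | _ n IH =>
  intro φ g c hφ hg hcx hcg
  cases hg with
  | base =>
    refine ⟨Function.update φ e0 c, ?_⟩
    have key : ∀ e ∈ T, ∀ v, Inc p q e v → Inc p q e0 v → φ e ≠ c := by
      intro e he v hv h0
      rcases inc_cases he0 h0 with h | h
      · subst h; exact hcx e he hv
      · subst h; exact hcg e he hv
    intro e he e' he' hne v hv hv'
    rcases Finset.mem_insert.1 he with h | h <;> rcases Finset.mem_insert.1 he' with h' | h'
    · exact absurd (h.trans h'.symm) hne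
    · subst h
      have h2 : e' ≠ e := fun h => hne h.symm
      rw [Function.update_self, Function.update_of_ne h2]
      exact (key e' h' v hv' hv).symm
    · subst h'
      rw [Function.update_self, Function.update_of_ne hne]
      exact key e h v hv hv'
    · have h2 : e ≠ e0 := fun hh => hT (hh ▸ h)
      have h3 : e' ≠ e0 := fun hh => hT (hh ▸ h')
      rw [Function.update_of_ne h2, Function.update_of_ne h3]
      exact hφ e h e' h' hne v hv hv'
  | step n g1 _ hg1 hgT hgx hgm _ =>
    have hcne : φ g ≠ c := hcx g hgT hgx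
    by_cases hex : ∃ m, m ≤ n ∧ Reach p q T x e0 φ (fun _ => True) m g
    · obtain ⟨m, hm, hr⟩ := hex
      exact IH m (by omega) φ g c hφ hr hcx hcg
    -- the shifted colouring
    have hup : ∀ e, e ≠ g → Function.update φ g c e = φ e := fun e he =>
      Function.update_of_ne he _ _
    have hself : Function.update φ g c g = c := Function.update_self _ _ _
    have keyg : ∀ e ∈ T, ∀ v, Inc p q e v → Inc p q g v → φ e ≠ c := by
      intro e he v hv h0
      rcases inc_cases hgx h0 with h | h
      · subst h; exact hcx e he hv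
      · subst h; exact hcg e he hv
    have hprp : Prp p q T (Function.update φ g c) := by
      intro e he e' he' hne v hv hv'
      by_cases h : e = g
      · subst h
        rw [hself, hup e' (fun h => hne h.symm)]
        exact (keyg e' he' v hv' hv).symm
      · by_cases h' : e' = g
        · subst h'
          rw [hself, hup e hne]
          exact keyg e he v hv hv'
        · rw [hup e h, hup e' h']
          exact hφ e he e' he' hne v hv hv'
    have hreach : ∀ k, k ≤ n → ∀ h, Reach p q T x e0 φ (fun _ => True) k h →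
        Reach p q T x e0 (Function.update φ g c) (fun _ => True) k h := by
      intro k
      induction k with
      | zero =>
        intro _ h hh
        cases hh with
        | base => exact Reach.base
      | succ k ih =>
        intro hk h hh
        have hhg : h ≠ g := by
          intro hEq
          exact hex ⟨k + 1, hk, hEq ▸ hh⟩
        cases hh with
        | step _ h1 _ a1 a2 a3 a4 _ =>
          refine Reach.step k h1 h (ih (by omega) h1 a1) a2 a3 ?_ trivial
          rw [hup h hhg]
          intro e he hv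
          by_cases h' : e = g
          · rw [h', hself]
            exact (hcx h a2 a3).symm
          · rw [hup e h']
            exact a4 e he hv
    refine IH n (by omega) (Function.update φ g c) g1 (φ g) hprp (hreach n le_rfl g1 hg1) ?_ ?_
    · intro e he hv
      by_cases h' : e = g
      · rw [h', hself]; exact hcne.symm
      · rw [hup e h']
        exact hφ e he g hgT h' x hv hgx
    · intro e he hv
      by_cases h' : e = g
      · rw [h', hself]; exact hcne.symm
      · rw [hup e h']
        exact hgm e he hv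


/-! ### Kempe chains -/

open Classical in
/-- the neighbour along the edge of colour `a`, or the node itself -/
noncomputable def nbr (p q : E → N) (T : Finset E) (φ : E → Fin K) (a : Fin K) (v : N) : N :=
  if h : ∃ e, e ∈ T ∧ Inc p q e v ∧ φ e = a then oth p q v h.choose else v

omit [DecidableEq E] in
theorem nbr_eq {T : Finset E} {φ : E → Fin K} (hφ : Prp p q T φ) {a : Fin K} {v : N} {e : E}
    (he : e ∈ T) (hv : Inc p q e v) (ha : φ e = a) : nbr p q T φ a v = oth p q v e := by
  have h : ∃ e, e ∈ T ∧ Inc p q e v ∧ φ e = a := ⟨e, he, hv, ha⟩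
  unfold nbr
  rw [dif_pos h]
  obtain ⟨h1, h2, h3⟩ := h.choose_spec
  by_contra hne
  have h4 : h.choose ≠ e := fun hh => hne (by rw [hh])
  exact hφ _ h1 e he h4 v h2 hv (h3.trans ha.symm)

omit [DecidableEq E] in
theorem nbr_mis {T : Finset E} {φ : E → Fin K} {a : Fin K} {v : N}
    (ha : Mis p q T φ v a) : nbr p q T φ a v = v := by
  unfold nbr
  rw [dif_neg]
  rintro ⟨e, h1, h2, h3⟩
  exact ha e h1 h2 h3

omit [DecidableEq E] in
theorem nbr_nbr (hl : ∀ e, p e ≠ q e) {T : Finset E} {φ : E → Fin K} (hφ : Prp p q T φ)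
    (a : Fin K) : Function.Involutive (nbr p q T φ a) := by
  intro v
  by_cases h : ∃ e, e ∈ T ∧ Inc p q e v ∧ φ e = a
  · obtain ⟨e, h1, h2, h3⟩ := h
    rw [nbr_eq hφ h1 h2 h3, nbr_eq hφ h1 inc_oth h3, oth_oth hl h2]
  · have : nbr p q T φ a v = v := by
      unfold nbr
      rw [dif_neg h]
    rw [this, this]

/-- the rotation of two involutions -/
def rot (sa sc : Equiv.Perm N) : Equiv.Perm N := sc * sa

/-- the chain of a node -/
def Chain (sa sc : Equiv.Perm N) (y v : N) : Prop := ∃ n : ℤ, v = (rot sa sc ^ n) y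

omit [DecidableEq N] in
theorem chain_self (sa sc : Equiv.Perm N) (y : N) : Chain sa sc y y := ⟨0, by simp⟩

omit [DecidableEq N] in
theorem semi_c {sa sc : Equiv.Perm N} (ha : sa * sa = 1) (hc : sc * sc = 1) (n : ℤ) :
    sc * rot sa sc ^ n = rot sa sc ^ (-n) * sc := by
  have h1 : SemiconjBy sc (rot sa sc) (rot sa sc)⁻¹ := by
    unfold SemiconjBy rot
    have ha' : sa⁻¹ = sa := inv_eq_of_mul_eq_one_left ha
    have hc' : sc⁻¹ = sc := inv_eq_of_mul_eq_one_left hc
    rw [mul_inv_rev, ha', hc', ← mul_assoc, hc, mul_assoc, hc, one_mul, mul_one]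
  have h2 := h1.zpow_right n
  unfold SemiconjBy at h2
  rw [h2, inv_zpow, zpow_neg]

omit [DecidableEq N] in
theorem semi_a {sa sc : Equiv.Perm N} (ha : sa * sa = 1) (hc : sc * sc = 1) (n : ℤ) :
    sa * rot sa sc ^ n = rot sa sc ^ (-n) * sa := by
  have h1 : SemiconjBy sa (rot sa sc) (rot sa sc)⁻¹ := by
    unfold SemiconjBy rot
    have ha' : sa⁻¹ = sa := inv_eq_of_mul_eq_one_left ha
    have hc' : sc⁻¹ = sc := inv_eq_of_mul_eq_one_left hc
    rw [mul_inv_rev, ha', hc', mul_assoc]
  have h2 := h1.zpow_right n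
  unfold SemiconjBy at h2
  rw [h2, inv_zpow, zpow_neg]

omit [DecidableEq N] in
theorem chain_c {sa sc : Equiv.Perm N} (ha : sa * sa = 1) (hc : sc * sc = 1) {y v : N}
    (hy : sc y = y) (h : Chain sa sc y v) : Chain sa sc y (sc v) := by
  obtain ⟨n, rfl⟩ := h
  refine ⟨-n, ?_⟩
  have := congrArg (fun s : Equiv.Perm N => s y) (semi_c ha hc n)
  simp only [Equiv.Perm.mul_apply] at this
  rw [this, hy]

omit [DecidableEq N] in
theorem chain_a {sa sc : Equiv.Perm N} (ha : sa * sa = 1) (hc : sc * sc = 1) {y v : N}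
    (hy : sc y = y) (h : Chain sa sc y v) : Chain sa sc y (sa v) := by
  obtain ⟨n, rfl⟩ := h
  refine ⟨-n + -1, ?_⟩
  have := congrArg (fun s : Equiv.Perm N => s y) (semi_a ha hc n)
  simp only [Equiv.Perm.mul_apply] at this
  rw [this, zpow_add, Equiv.Perm.mul_apply]
  congr 1
  have ha' : sa⁻¹ = sa := inv_eq_of_mul_eq_one_left ha
  have hc' : sc⁻¹ = sc := inv_eq_of_mul_eq_one_left hc
  rw [zpow_neg_one, rot, mul_inv_rev, ha', hc', Equiv.Perm.mul_apply, hy]

omit [DecidableEq N] in
/-- three fixed points in one chain -/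
theorem three_fixed {sa sc : Equiv.Perm N} (ha : sa * sa = 1) (hc : sc * sc = 1) {x y y' : N}
    (hx : sa x = x) (hy : sc y = y) (hy' : sc y' = y') (h1 : Chain sa sc y x)
    (h2 : Chain sa sc y y') : y' = y := by
  obtain ⟨n, hn⟩ := h1
  obtain ⟨m, hm⟩ := h2
  have ha' : sa⁻¹ = sa := inv_eq_of_mul_eq_one_left ha
  have hc' : sc⁻¹ = sc := inv_eq_of_mul_eq_one_left hc
  have e1 : (rot sa sc ^ (-m)) y = (rot sa sc ^ m) y := by
    have := congrArg (fun s : Equiv.Perm N => s y) (semi_c ha hc m)
    simp only [Equiv.Perm.mul_apply] at this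
    rw [hy, ← hm, hy'] at this
    rw [← this, ← hm]
  have e2 : (rot sa sc ^ (-n + -1)) y = (rot sa sc ^ n) y := by
    have := congrArg (fun s : Equiv.Perm N => s y) (semi_a ha hc n)
    simp only [Equiv.Perm.mul_apply] at this
    rw [← hn, hx] at this
    rw [← hn, this, zpow_add, Equiv.Perm.mul_apply]
    congr 1
    rw [zpow_neg_one, rot, mul_inv_rev, ha', hc', Equiv.Perm.mul_apply, hy]
  have f1 : (rot sa sc ^ (2 * m)) y = y := by
    have : (rot sa sc ^ m) ((rot sa sc ^ (-m)) y) = (rot sa sc ^ m) ((rot sa sc ^ m) y) := by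
      rw [e1]
    rw [← Equiv.Perm.mul_apply, ← Equiv.Perm.mul_apply, ← zpow_add, ← zpow_add] at this
    rw [two_mul, ← this]
    simp
  have f2 : (rot sa sc ^ (2 * n + 1)) y = y := by
    have : (rot sa sc ^ (n + 1)) ((rot sa sc ^ (-n + -1)) y) =
        (rot sa sc ^ (n + 1)) ((rot sa sc ^ n) y) := by
      rw [e2]
    rw [← Equiv.Perm.mul_apply, ← Equiv.Perm.mul_apply, ← zpow_add, ← zpow_add] at this
    have h3 : n + 1 + (-n + -1) = 0 := by ring
    have h4 : n + 1 + n = 2 * n + 1 := by ring
    rw [h3, h4] at this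
    rw [← this]
    simp
  have g1 : ∀ k : ℤ, ((rot sa sc ^ (2 * m)) ^ k) y = y := by
    intro k
    exact Function.IsFixedPt.perm_zpow f1 k
  have g2 : ∀ k : ℤ, ((rot sa sc ^ (2 * n + 1)) ^ k) y = y := by
    intro k
    exact Function.IsFixedPt.perm_zpow f2 k
  have h5 : rot sa sc ^ m = (rot sa sc ^ (2 * n + 1)) ^ m * (rot sa sc ^ (2 * m)) ^ (-n) := by
    rw [← zpow_mul, ← zpow_mul, ← zpow_add]
    congr 1
    ring
  rw [hm, h5, Equiv.Perm.mul_apply, g1, g2]

/-- exchange of the two colours on the edges touching `Q` -/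
noncomputable def swp (p q : E → N) (φ : E → Fin K) (a c : Fin K) (Q : N → Prop) (e : E) :
    Fin K :=
  open Classical in if Q (p e) ∨ Q (q e) then Equiv.swap a c (φ e) else φ e

omit [DecidableEq N] [DecidableEq E] in
theorem swp_of {T : Finset E} {φ : E → Fin K} {a c : Fin K} {Q : N → Prop}
    (hQ : ∀ e ∈ T, φ e = a ∨ φ e = c → (Q (p e) ↔ Q (q e))) {e : E} (he : e ∈ T) {v : N}
    (hv : Inc p q e v) (h : Q v) : swp p q φ a c Q e = Equiv.swap a c (φ e) := by
  unfold swp
  rw [if_pos]
  rcases hv with hv | hv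
  · left; rw [hv]; exact h
  · right; rw [hv]; exact h

omit [DecidableEq N] [DecidableEq E] in
theorem swp_not {T : Finset E} {φ : E → Fin K} {a c : Fin K} {Q : N → Prop}
    (hQ : ∀ e ∈ T, φ e = a ∨ φ e = c → (Q (p e) ↔ Q (q e))) {e : E} (he : e ∈ T) {v : N}
    (hv : Inc p q e v) (h : ¬ Q v) : swp p q φ a c Q e = φ e := by
  unfold swp
  split_ifs with h1
  · by_cases h2 : φ e = a ∨ φ e = c
    · have h3 := hQ e he h2
      exfalso
      apply h
      rcases hv with hv | hv
      · rw [← hv]; tauto
      · rw [← hv]; tauto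
    · push Not at h2
      exact Equiv.swap_apply_of_ne_of_ne h2.1 h2.2
  · rfl

omit [DecidableEq N] [DecidableEq E] in
theorem prp_swp {T : Finset E} {φ : E → Fin K} (hφ : Prp p q T φ) {a c : Fin K} {Q : N → Prop}
    (hQ : ∀ e ∈ T, φ e = a ∨ φ e = c → (Q (p e) ↔ Q (q e))) :
    Prp p q T (swp p q φ a c Q) := by
  intro e he e' he' hne v hv hv'
  by_cases h : Q v
  · rw [swp_of hQ he hv h, swp_of hQ he' hv' h]
    intro h1
    exact hφ e he e' he' hne v hv hv' ((Equiv.swap a c).injective h1)
  · rw [swp_not hQ he hv h, swp_not hQ he' hv' h]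
    exact hφ e he e' he' hne v hv hv'

omit [DecidableEq N] [DecidableEq E] in
theorem mis_not {T : Finset E} {φ : E → Fin K} {a c : Fin K} {Q : N → Prop}
    (hQ : ∀ e ∈ T, φ e = a ∨ φ e = c → (Q (p e) ↔ Q (q e))) {v : N} (h : ¬ Q v) {d : Fin K}
    (hd : Mis p q T φ v d) : Mis p q T (swp p q φ a c Q) v d := by
  intro e he hv
  rw [swp_not hQ he hv h]
  exact hd e he hv

omit [DecidableEq N] [DecidableEq E] in
theorem mis_of {T : Finset E} {φ : E → Fin K} {a c : Fin K} {Q : N → Prop}
    (hQ : ∀ e ∈ T, φ e = a ∨ φ e = c → (Q (p e) ↔ Q (q e))) {v : N} (h : Q v)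
    (hd : Mis p q T φ v c) : Mis p q T (swp p q φ a c Q) v a := by
  intro e he hv
  rw [swp_of hQ he hv h]
  intro h2
  apply hd e he hv
  have h3 := congrArg (Equiv.swap a c) h2
  rw [Equiv.swap_apply_self, Equiv.swap_apply_left] at h3
  exact h3

omit [DecidableEq N] [DecidableEq E] in
theorem mis_other {T : Finset E} {φ : E → Fin K} {a c : Fin K} {Q : N → Prop}
    (hQ : ∀ e ∈ T, φ e = a ∨ φ e = c → (Q (p e) ↔ Q (q e))) {v : N} {d : Fin K}
    (h1 : d ≠ a) (h2 : d ≠ c)
    (hd : Mis p q T φ v d) : Mis p q T (swp p q φ a c Q) v d := by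
  intro e he hv
  by_cases h : Q v
  · rw [swp_of hQ he hv h]
    intro h3
    apply hd e he hv
    have h4 := congrArg (Equiv.swap a c) h3
    rw [Equiv.swap_apply_self, Equiv.swap_apply_of_ne_of_ne h1 h2] at h4
    exact h4
  · rw [swp_not hQ he hv h]
    exact hd e he hv

/-- the Kempe involution of a colour -/
noncomputable def sg (hl : ∀ e, p e ≠ q e) {T : Finset E} {φ : E → Fin K} (hφ : Prp p q T φ)
    (a : Fin K) : Equiv.Perm N := Function.Involutive.toPerm _ (nbr_nbr hl hφ a)

omit [DecidableEq E] in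
theorem sg_apply (hl : ∀ e, p e ≠ q e) {T : Finset E} {φ : E → Fin K} (hφ : Prp p q T φ)
    (a : Fin K) (v : N) : sg hl hφ a v = nbr p q T φ a v := rfl

omit [DecidableEq E] in
theorem sg_mul (hl : ∀ e, p e ≠ q e) {T : Finset E} {φ : E → Fin K} (hφ : Prp p q T φ)
    (a : Fin K) : sg hl hφ a * sg hl hφ a = 1 := by
  ext v
  simp only [Equiv.Perm.mul_apply, sg_apply, Equiv.Perm.one_apply]
  exact nbr_nbr hl hφ a v

omit [DecidableEq E] in
theorem chain_closed (hl : ∀ e, p e ≠ q e) {T : Finset E} {φ : E → Fin K} (hφ : Prp p q T φ)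
    {a c : Fin K} {y : N} (hy : sg hl hφ c y = y) :
    ∀ e ∈ T, φ e = a ∨ φ e = c →
      (Chain (sg hl hφ a) (sg hl hφ c) y (p e) ↔ Chain (sg hl hφ a) (sg hl hφ c) y (q e)) := by
  have ha := sg_mul hl hφ a
  have hc := sg_mul hl hφ c
  intro e he h
  have e1 : oth p q (p e) e = q e := by unfold oth; rw [if_pos rfl]
  have e2 : oth p q (q e) e = p e := by unfold oth; rw [if_neg (hl e)]
  have ip : Inc p q e (p e) := Or.inl rfl
  have iq : Inc p q e (q e) := Or.inr rfl
  rcases h with h | h
  · have h1 : sg hl hφ a (p e) = q e := by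
      rw [sg_apply, nbr_eq hφ he ip h, e1]
    have h2 : sg hl hφ a (q e) = p e := by
      rw [sg_apply, nbr_eq hφ he iq h, e2]
    constructor
    · intro h3
      rw [← h1]; exact chain_a ha hc hy h3
    · intro h3
      rw [← h2]; exact chain_a ha hc hy h3
  · have h1 : sg hl hφ c (p e) = q e := by
      rw [sg_apply, nbr_eq hφ he ip h, e1]
    have h2 : sg hl hφ c (q e) = p e := by
      rw [sg_apply, nbr_eq hφ he iq h, e2]
    constructor
    · intro h3
      rw [← h1]; exact chain_c ha hc hy h3
    · intro h3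
      rw [← h2]; exact chain_c ha hc hy h3

theorem claim2 (hl : ∀ e, p e ≠ q e) {T : Finset E} {x : N} {e0 : E} (he0 : Inc p q e0 x)
    (hT : e0 ∉ T) {φ : E → Fin K} (hφ : Prp p q T φ) {n n' : ℕ} {g g' : E}
    (hg : Reach p q T x e0 φ (fun _ => True) n g)
    (hg' : Reach p q T x e0 φ (fun _ => True) n' g')
    (hne : oth p q x g ≠ oth p q x g') {c a : Fin K} (hc : Mis p q T φ (oth p q x g) c)
    (hc' : Mis p q T φ (oth p q x g') c) (ha : Mis p q T φ x a) :
    ∃ φ' : E → Fin K, Prp p q (insert e0 T) φ' := by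
  -- first the case where one of the two is reachable without the colour `c`
  have main : ∀ {m m' : ℕ} {h h' : E}, Reach p q T x e0 φ (fun d => d ≠ c) m h →
      Reach p q T x e0 φ (fun _ => True) m' h' → oth p q x h ≠ oth p q x h' →
      Mis p q T φ (oth p q x h) c → Mis p q T φ (oth p q x h') c →
      ∃ φ' : E → Fin K, Prp p q (insert e0 T) φ' := by
    intro m m' h h' hh hh' hneq hcm hcm'
    have hsc : sg hl hφ c (oth p q x h) = oth p q x h := by rw [sg_apply]; exact nbr_mis hcm
    have hsc' : sg hl hφ c (oth p q x h') = oth p q x h' := by rw [sg_apply]; exact nbr_mis hcm'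
    have hsa : sg hl hφ a x = x := by rw [sg_apply]; exact nbr_mis ha
    by_cases hx : Chain (sg hl hφ a) (sg hl hφ c) (oth p q x h) x
    · -- swap on the chain of the other one
      have hcl := chain_closed hl hφ (a := a) hsc'
      have hsub : ∀ {v}, Chain (sg hl hφ a) (sg hl hφ c) (oth p q x h) v →
          ¬ Chain (sg hl hφ a) (sg hl hφ c) (oth p q x h') v := by
        rintro v ⟨i, hi⟩ ⟨j, hj⟩
        apply hneq
        refine (three_fixed (sg_mul hl hφ a) (sg_mul hl hφ c) hsa hsc hsc' hx ⟨-j + i, ?_⟩).symm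
        rw [zpow_add, Equiv.Perm.mul_apply, ← hi, hj, ← Equiv.Perm.mul_apply, ← zpow_add]
        simp
      have hxn := hsub hx
      have hhn := hsub (chain_self (sg hl hφ a) (sg hl hφ c) (oth p q x h))
      -- `h` stays reachable
      have key0 : ∀ k l, Reach p q T x e0 φ (fun d => d ≠ c) k l →
          Reach p q T x e0 (swp p q φ a c (Chain (sg hl hφ a) (sg hl hφ c) (oth p q x h')))
            (fun _ => True) k l := by
        intro k l hk
        induction hk with
        | base => exact Reach.base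
        | step k l1 l _ h2 h3 h4 h5 ih =>
          refine Reach.step k l1 l ih h2 h3 ?_ trivial
          rw [swp_not hcl h2 h3 hxn]
          exact mis_other hcl (ha l h2 h3) h5 h4
      have key : ∀ k l, Reach p q T x e0 φ (fun _ => True) k l →
          ∃ k', Reach p q T x e0 (swp p q φ a c (Chain (sg hl hφ a) (sg hl hφ c) (oth p q x h')))
            (fun _ => True) k' l := by
        intro k l hk
        induction hk with
        | base => exact ⟨0, Reach.base⟩
        | step k l1 l _ h2 h3 h4 _ ih =>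
          obtain ⟨k', hk'⟩ := ih
          by_cases hlc : φ l = c
          · refine ⟨m + 1, Reach.step m h l (key0 m h hh) h2 h3 ?_ trivial⟩
            rw [swp_not hcl h2 h3 hxn, hlc]
            exact mis_not hcl hhn hcm
          · refine ⟨k' + 1, Reach.step k' l1 l hk' h2 h3 ?_ trivial⟩
            rw [swp_not hcl h2 h3 hxn]
            exact mis_other hcl (ha l h2 h3) hlc h4
      obtain ⟨k', hk'⟩ := key m' h' hh'
      exact claim1 hl he0 hT k' _ h' a (prp_swp hφ hcl) hk' (mis_not hcl hxn ha)
        (mis_of hcl (chain_self _ _ _) hcm')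
    · -- swap on the chain of `h`
      have hcl := chain_closed hl hφ (a := a) hsc
      have key0 : ∀ k l, Reach p q T x e0 φ (fun d => d ≠ c) k l →
          Reach p q T x e0 (swp p q φ a c (Chain (sg hl hφ a) (sg hl hφ c) (oth p q x h)))
            (fun _ => True) k l := by
        intro k l hk
        induction hk with
        | base => exact Reach.base
        | step k l1 l _ h2 h3 h4 h5 ih =>
          refine Reach.step k l1 l ih h2 h3 ?_ trivial
          rw [swp_not hcl h2 h3 hx]
          exact mis_other hcl (ha l h2 h3) h5 h4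
      exact claim1 hl he0 hT m _ h a (prp_swp hφ hcl) (key0 m h hh) (mis_not hcl hx ha)
        (mis_of hcl (chain_self _ _ _) hcm)
  by_cases h0 : ∃ m h, Reach p q T x e0 φ (fun d => d ≠ c) m h ∧ Mis p q T φ (oth p q x h) c
  · obtain ⟨m, h, h1, h2⟩ := h0
    by_cases h3 : oth p q x h = oth p q x g
    · exact main h1 hg' (by rw [h3]; exact hne) h2 hc'
    · exact main h1 hg h3 h2 hc
  · exfalso
    apply h0
    have key : ∀ k l, Reach p q T x e0 φ (fun _ => True) k l →
        Reach p q T x e0 φ (fun d => d ≠ c) k l := by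
      intro k l hk
      induction hk with
      | base => exact Reach.base
      | step k l1 l _ h2 h3 h4 _ ih =>
        refine Reach.step k l1 l ih h2 h3 h4 ?_
        intro h5
        exact h0 ⟨k, l1, ih, h5 ▸ h4⟩
    exact ⟨n, g, key n g hg, hc⟩

/-- one more edge can be coloured -/
theorem extend [Fintype E] {D m : ℕ} (hl : ∀ e, p e ≠ q e)
    (hD : ∀ v, (univ.filter (fun e => p e = v ∨ q e = v)).card ≤ D)
    (hm : ∀ u v, u ≠ v →
      (univ.filter (fun e => (p e = u ∧ q e = v) ∨ (p e = v ∧ q e = u))).card ≤ m)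
    {T : Finset E} {e0 : E} (hT : e0 ∉ T) {φ : E → Fin (D + m)} (hφ : Prp p q T φ) :
    ∃ φ' : E → Fin (D + m), Prp p q (insert e0 T) φ' := by
  classical
  by_contra hno
  set x : N := p e0 with hx
  have he0 : Inc p q e0 x := Or.inl rfl
  set M : N → Finset (Fin (D + m)) := fun v => univ.filter (fun c => Mis p q T φ v c) with hM
  have memM : ∀ v c, c ∈ M v ↔ Mis p q T φ v c := by
    intro v c; simp [hM]
  have cardM : ∀ v, D + m ≤ (M v).card + (T.filter (fun e => p e = v ∨ q e = v)).card := by
    intro v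
    have h1 : (univ : Finset (Fin (D + m))) ⊆
        M v ∪ (T.filter (fun e => p e = v ∨ q e = v)).image φ := by
      intro c _
      rw [Finset.mem_union]
      by_cases h : Mis p q T φ v c
      · left; exact (memM v c).2 h
      · right
        unfold Mis at h
        push Not at h
        obtain ⟨e, h1, h2, h3⟩ := h
        rw [Finset.mem_image]
        exact ⟨e, Finset.mem_filter.2 ⟨h1, h2⟩, h3⟩
    have h2 := Finset.card_le_card h1
    rw [Finset.card_univ, Fintype.card_fin] at h2
    have h3 := Finset.card_union_le (M v) ((T.filter (fun e => p e = v ∨ q e = v)).image φ)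
    have h4 := Finset.card_image_le (s := T.filter (fun e => p e = v ∨ q e = v)) (f := φ)
    omega
  have cardM1 : ∀ v, m ≤ (M v).card := by
    intro v
    have h1 := cardM v
    have h2 : (T.filter (fun e => p e = v ∨ q e = v)).card ≤ D :=
      le_trans (Finset.card_le_card (Finset.filter_subset_filter _ (Finset.subset_univ T)))
        (hD v)
    omega
  have cardM2 : ∀ v, Inc p q e0 v → m + 1 ≤ (M v).card := by
    intro v hv
    have h1 := cardM v
    have h2 : (T.filter (fun e => p e = v ∨ q e = v)).card + 1 ≤ D := by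
      have h3 : insert e0 (T.filter (fun e => p e = v ∨ q e = v)) ⊆
          univ.filter (fun e => p e = v ∨ q e = v) := by
        intro e he
        rcases Finset.mem_insert.1 he with h | h
        · rw [h]; exact Finset.mem_filter.2 ⟨Finset.mem_univ _, hv⟩
        · exact Finset.mem_filter.2 ⟨Finset.mem_univ _, (Finset.mem_filter.1 h).2⟩
      have h4 := Finset.card_le_card h3
      rw [Finset.card_insert_of_notMem (fun h => hT (Finset.mem_filter.1 h).1)] at h4
      exact le_trans h4 (hD v)
    omega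
  set A : Finset E := univ.filter (fun g => ∃ n, Reach p q T x e0 φ (fun _ => True) n g) with hA
  have memA : ∀ g, g ∈ A ↔ ∃ n, Reach p q T x e0 φ (fun _ => True) n g := by
    intro g; simp [hA]
  have he0A : e0 ∈ A := (memA e0).2 ⟨0, Reach.base⟩
  set Y : Finset N := A.image (oth p q x) with hY
  -- a colour missing at `x`
  obtain ⟨a, haM⟩ : (M x).Nonempty := by
    rw [← Finset.card_pos]
    have := cardM2 x he0
    omega
  have ha := (memM x a).1 haM
  have hdisj : ∀ y ∈ Y, ∀ y' ∈ Y, y ≠ y' → Disjoint (M y) (M y') := by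
    intro y hy y' hy' hne
    obtain ⟨g, hg, rfl⟩ := Finset.mem_image.1 hy
    obtain ⟨g', hg', rfl⟩ := Finset.mem_image.1 hy'
    obtain ⟨n, hn⟩ := (memA g).1 hg
    obtain ⟨n', hn'⟩ := (memA g').1 hg'
    rw [Finset.disjoint_left]
    intro c hc hc'
    exact hno (claim2 hl he0 hT hφ hn hn' hne ((memM _ c).1 hc) ((memM _ c).1 hc') ha)
  have hsub : Y.biUnion M ⊆ (A.erase e0).image φ := by
    intro c hc
    obtain ⟨y, hy, hcy⟩ := Finset.mem_biUnion.1 hc
    obtain ⟨g, hg, rfl⟩ := Finset.mem_image.1 hy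
    obtain ⟨n, hn⟩ := (memA g).1 hg
    have hcg := (memM _ c).1 hcy
    have hcx : ¬ Mis p q T φ x c := fun h => hno (claim1 hl he0 hT n φ g c hφ hn h hcg)
    unfold Mis at hcx
    push Not at hcx
    obtain ⟨e, h1, h2, h3⟩ := hcx
    rw [Finset.mem_image]
    refine ⟨e, Finset.mem_erase.2 ⟨fun h => hT (h ▸ h1), (memA e).2 ⟨n + 1, ?_⟩⟩, h3⟩
    exact Reach.step n g e hn h1 h2 (by rw [h3]; exact hcg) trivial
  have hcard1 : (Y.biUnion M).card = ∑ y ∈ Y, (M y).card :=
    Finset.card_biUnion hdisj
  have hcard2 : (Y.biUnion M).card ≤ A.card - 1 := by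
    refine le_trans (Finset.card_le_card hsub) (le_trans Finset.card_image_le ?_)
    rw [Finset.card_erase_of_mem he0A]
  have hcard3 : A.card ≤ m * Y.card := by
    refine Finset.card_le_mul_card_image A m ?_
    intro y hy
    obtain ⟨g, hg, hgy⟩ := Finset.mem_image.1 hy
    obtain ⟨n, hn⟩ := (memA g).1 hg
    have hxy : x ≠ y := by
      rw [← hgy]; exact (oth_ne hl (hn.inc he0)).symm
    refine le_trans (Finset.card_le_card ?_) (hm x y hxy)
    intro e he
    obtain ⟨h1, h2⟩ := Finset.mem_filter.1 he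
    obtain ⟨k, hk⟩ := (memA e).1 h1
    have h3 := hk.inc he0
    refine Finset.mem_filter.2 ⟨Finset.mem_univ _, ?_⟩
    unfold oth at h2
    split_ifs at h2 with h4
    · left; exact ⟨h4, h2⟩
    · right
      refine ⟨h2, ?_⟩
      rcases h3 with h3 | h3
      · exact absurd h3 h4
      · exact h3
  have hcard4 : ∑ _y ∈ Y, m < ∑ y ∈ Y, (M y).card := by
    refine Finset.sum_lt_sum (fun y _ => cardM1 y) ⟨oth p q x e0, ?_, ?_⟩
    · exact Finset.mem_image_of_mem _ he0A
    · exact cardM2 _ inc_oth
  rw [Finset.sum_const, smul_eq_mul, mul_comm] at hcard4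
  have hApos : 0 < A.card := Finset.card_pos.2 ⟨e0, he0A⟩
  omega

end

theorem stVizing_16 : StVizing := by
  intro E N _ _ _ p q D m hl hD hm h1
  have key : ∀ T : Finset E, ∃ φ : E → Fin (D + m), Prp p q T φ := by
    intro T
    induction T using Finset.induction_on with
    | empty =>
      refine ⟨fun _ => ⟨0, by omega⟩, ?_⟩
      intro e he
      exact absurd he (Finset.notMem_empty e)
    | insert e0 T hT ih =>
      obtain ⟨φ, hφ⟩ := ih
      exact extend hl hD hm hT hφ
  obtain ⟨φ, hφ⟩ := key univ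
  refine ⟨φ, ?_⟩
  intro e e' hne h
  have h2 : ∃ v, Inc p q e v ∧ Inc p q e' v := by
    rcases h with h | h | h | h
    · exact ⟨p e, Or.inl rfl, Or.inl h.symm⟩
    · exact ⟨p e, Or.inl rfl, Or.inr h.symm⟩
    · exact ⟨q e, Or.inr rfl, Or.inl h.symm⟩
    · exact ⟨q e, Or.inr rfl, Or.inr h.symm⟩
  obtain ⟨v, hv, hv'⟩ := h2
  exact hφ e (Finset.mem_univ _) e' (Finset.mem_univ _) hne v hv hv'

end Pool.Agent.CY.Viz
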