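import Pool.Agent.Lib.MP_b6ecfd_co.CombB_56
import Pool.Agent.Lib.MP_b6ecfd_co.Geo12
import Pool.Agent.Lib.MP_b6ecfd_co.Vizing16

/-! From finite sets of facets to sets of points: the two theorems for polytopes in space
(MP_b6ecfd_co), helper56. -/

set_option autoImplicit false

namespace Pool.Agent.CY

open Finset

/-- the degree of a vertex: the number of facets through it. -/
noncomputable def degS (S : Finset E3) (x : E3) : ℕ :=
  Set.ncard {F : Set E3 | IsFacet S F ∧ x ∈ F}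

/-- two points on a common facet with at most `k` vertices. -/
def CofacialS (S : Finset E3) (k : ℕ) (x y : E3) : Prop :=
  ∃ F : Set E3, IsFacet S F ∧ F.ncard ≤ k ∧ x ∈ F ∧ y ∈ F

/-- essential facets: between four and `k` vertices and not in `Q`. -/
def EssentialS (S : Finset E3) (Q : Set (Set E3)) (k : ℕ) (F : Set E3) : Prop :=
  IsFacet S F ∧ 4 ≤ F.ncard ∧ F.ncard ≤ k ∧ F ∉ Q

/-- good vertices. -/
def GoodS (S : Finset E3) (Q : Set (Set E3)) (k : ℕ) (x : E3) : Prop :=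
  Set.ncard {F : Set E3 | EssentialS S Q k F ∧ x ∈ F} = 2 ∧
    (degS S x ≤ 3 ∨ (degS S x ≤ 4 ∧ ∀ F ∈ Q, x ∉ F))

section bridge

variable (S : Finset E3)

open Classical in
/-- the finite set of facets. -/
noncomputable def facets : Finset (Finset E3) :=
  S.powerset.filter (fun F => IsFacet S (F : Set E3))

variable {S}

theorem facet_subset {F : Set E3} (h : IsFacet S F) : F ⊆ (S : Set E3) := by
  obtain ⟨ℓ, c, _, h2, _⟩ := h
  rw [h2]
  intro x hx
  exact hx.1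

theorem mem_facets (F : Finset E3) : F ∈ facets S ↔ IsFacet S (F : Set E3) := by
  classical
  simp only [facets, Finset.mem_filter, Finset.mem_powerset]
  constructor
  · exact fun h => h.2
  · intro h
    exact ⟨fun x hx => facet_subset h hx, h⟩

theorem exists_fin {F : Set E3} (h : IsFacet S F) : ∃ F' ∈ facets S, (F' : Set E3) = F := by
  classical
  have h1 : F.Finite := (S.finite_toSet).subset (facet_subset h)
  refine ⟨h1.toFinset, ?_, h1.coe_toFinset⟩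
  rw [mem_facets, h1.coe_toFinset]
  exact h

open Classical in
/-- the members of `Q` as a finite set. -/
noncomputable def Qf (S : Finset E3) (Q : Set (Set E3)) : Finset (Finset E3) :=
  (facets S).filter (fun F => (F : Set E3) ∈ Q)

theorem mem_Qf {Q : Set (Set E3)} (F : Finset E3) :
    F ∈ Qf S Q ↔ F ∈ facets S ∧ (F : Set E3) ∈ Q := by
  simp [Qf]

theorem ess_iff {Q : Set (Set E3)} {k : ℕ} (F : Finset E3) :
    F ∈ ess (facets S) (Qf S Q) k ↔ EssentialS S Q k (F : Set E3) := by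
  classical
  rw [mem_ess, mem_Qf, EssentialS, Set.ncard_coe_finset, mem_facets]
  constructor
  · rintro ⟨h1, h2, h3, h4⟩
    exact ⟨h1, h2, h3, fun h5 => h4 ⟨h1, h5⟩⟩
  · rintro ⟨h1, h2, h3, h4⟩
    exact ⟨h1, h2, h3, fun h5 => h4 h5.2⟩

theorem ncard_ess {Q : Set (Set E3)} {k : ℕ} (x : E3) :
    Set.ncard {F : Set E3 | EssentialS S Q k F ∧ x ∈ F} =
      ((ess (facets S) (Qf S Q) k).filter (fun F => x ∈ F)).card := by
  classical
  have h1 : {F : Set E3 | EssentialS S Q k F ∧ x ∈ F} =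
      (fun F : Finset E3 => (F : Set E3)) ''
        (((ess (facets S) (Qf S Q) k).filter (fun F => x ∈ F) : Finset (Finset E3)) :
          Set (Finset E3)) := by
    ext F
    simp only [Set.mem_ofPred_eq, Set.mem_image, Finset.coe_filter]
    constructor
    · rintro ⟨h1, h2⟩
      obtain ⟨F', _, h4⟩ := exists_fin h1.1
      refine ⟨F', ⟨?_, ?_⟩, h4⟩
      · rw [ess_iff, h4]; exact h1
      · rw [← h4] at h2; exact h2
    · rintro ⟨F', ⟨h1, h2⟩, rfl⟩
      exact ⟨(ess_iff F').mp h1, h2⟩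
  rw [h1, Set.ncard_image_of_injective _ Finset.coe_injective, Set.ncard_coe_finset]

theorem degS_eq (x : E3) : degS S x = (ft (facets S) x).card := by
  classical
  have h1 : {F : Set E3 | IsFacet S F ∧ x ∈ F} =
      (fun F : Finset E3 => (F : Set E3)) '' ((ft (facets S) x : Finset (Finset E3)) :
          Set (Finset E3)) := by
    ext F
    simp only [Set.mem_ofPred_eq, Set.mem_image, Finset.mem_coe, mem_ft, mem_facets]
    constructor
    · rintro ⟨h1, h2⟩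
      obtain ⟨F', _, h4⟩ := exists_fin h1
      refine ⟨F', ⟨?_, ?_⟩, h4⟩
      · rw [h4]; exact h1
      · rw [← h4] at h2; exact h2
    · rintro ⟨F', ⟨h1, h2⟩, rfl⟩
      exact ⟨h1, h2⟩
  rw [degS, h1, Set.ncard_image_of_injective _ Finset.coe_injective, Set.ncard_coe_finset]

theorem good_iff {Q : Set (Set E3)} (hQ : ∀ F ∈ Q, IsFacet S F) {k : ℕ} (x : E3) :
    GoodS S Q k x ↔ Good (facets S) (Qf S Q) k x := by
  rw [GoodS, Good, ncard_ess, degS_eq]
  have h1 : (∀ F ∈ Q, x ∉ F) ↔ (∀ F ∈ Qf S Q, x ∉ F) := by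
    constructor
    · intro h F hF hx
      exact h _ ((mem_Qf F).mp hF).2 hx
    · intro h F hF hx
      obtain ⟨F', h2, rfl⟩ := exists_fin (hQ F hF)
      exact h F' ((mem_Qf F').mpr ⟨h2, hF⟩) hx
  rw [h1]

theorem cof_iff {k : ℕ} (x y : E3) : CofacialS S k x y ↔ Hc (facets S) k x y := by
  constructor
  · rintro ⟨F, h1, h2, h3, h4⟩
    obtain ⟨F', h5, rfl⟩ := exists_fin h1
    rw [Set.ncard_coe_finset] at h2
    exact ⟨F', h5, h2, h3, h4⟩
  · rintro ⟨F, h1, h2, h3, h4⟩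
    refine ⟨F, (mem_facets F).mp h1, ?_, h3, h4⟩
    rw [Set.ncard_coe_finset]; exact h2

theorem light_of {k n : ℕ} (x : E3)
    (h : Set.ncard {y : E3 | y ∈ S ∧ y ≠ x ∧ CofacialS S k x y} ≤ n) :
    LightN S (facets S) k n x := by
  classical
  refine ⟨S.filter (fun y => y ≠ x ∧ CofacialS S k x y), ?_, ?_⟩
  · rw [← Set.ncard_coe_finset]
    have h1 : ((S.filter (fun y => y ≠ x ∧ CofacialS S k x y) : Finset E3) : Set E3) =
        {y : E3 | y ∈ S ∧ y ≠ x ∧ CofacialS S k x y} := by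
      ext y; simp
    rw [h1]; exact h
  · intro y hy hyx hH
    rw [Finset.mem_filter]
    exact ⟨hy, hyx, (cof_iff x y).mpr hH⟩

end bridge

/-- colouring in the form of the problem. -/
theorem col_of {S : Finset E3} {k n : ℕ} (h : ∃ col : E3 → Fin n, ∀ F ∈ facets S, F.card ≤ k →
    Set.InjOn col (F : Set E3)) :
    ∃ col : E3 → Fin n, ∀ (ℓ : E3 →L[ℝ] ℝ) (c : ℝ), (∀ x ∈ S, ℓ x ≤ c) →
      Module.finrank ℝ (vectorSpan ℝ {x : E3 | x ∈ S ∧ ℓ x = c}) = 2 →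
      Set.ncard {x : E3 | x ∈ S ∧ ℓ x = c} ≤ k →
      Set.InjOn col {x : E3 | x ∈ S ∧ ℓ x = c} := by
  obtain ⟨col, hcol⟩ := h
  refine ⟨col, ?_⟩
  intro ℓ c h1 h2 h3
  have h4 : IsFacet S {x : E3 | x ∈ S ∧ ℓ x = c} := ⟨ℓ, c, h1, rfl, h2⟩
  obtain ⟨F', h5, h6⟩ := exists_fin h4
  rw [← h6] at h3 ⊢
  rw [Set.ncard_coe_finset] at h3
  exact hcol F' h5 h3

/-- Theorem A for polytopes. -/
theorem finalA_56 (S : Finset E3) (hspan : affineSpan ℝ (S : Set E3) = ⊤)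
    (hconv : ∀ x ∈ S, x ∉ convexHull ℝ ((S : Set E3) \ {x})) (k t : ℕ) (ht : k + 2 ≤ t)
    (Q : Set (Set E3)) (hQ : ∀ F ∈ Q, IsFacet S F ∧ F.ncard = 4)
    (hgl : ∀ x ∈ S, GoodS S Q k x ∨
      Set.ncard {y : E3 | y ∈ S ∧ y ≠ x ∧ CofacialS S k x y} < t ∨
      (degS S x ≤ 4 ∧ (∀ F ∈ Q, x ∉ F) ∧
        Set.ncard {F : Set E3 | EssentialS S Q k F ∧ x ∈ F} ≤ 1))
    (hpart : ∀ x ∈ S, ∀ z ∈ S, GoodS S Q k x → GoodS S Q k z → x ≠ z → CofacialS S k x z →
      (∀ F, EssentialS S Q k F → x ∈ F → z ∉ F) →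
      ∀ u ∈ S, (∀ F, EssentialS S Q k F → x ∈ F → u ∈ F) → GoodS S Q k u) :
    ∃ col : E3 → Fin t, ∀ (ℓ : E3 →L[ℝ] ℝ) (c : ℝ), (∀ x ∈ S, ℓ x ≤ c) →
      Module.finrank ℝ (vectorSpan ℝ {x : E3 | x ∈ S ∧ ℓ x = c}) = 2 →
      Set.ncard {x : E3 | x ∈ S ∧ ℓ x = c} ≤ k →
      Set.InjOn col {x : E3 | x ∈ S ∧ ℓ x = c} := by
  classical
  obtain ⟨n, rfl⟩ : ∃ n, t = n + 1 := ⟨t - 1, by omega⟩
  have hF := stGeo_12 S (facets S) hspan hconv mem_facets
  have hQ' : ∀ F ∈ Q, IsFacet S F := fun F hF => (hQ F hF).1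
  apply col_of
  apply combA_56 Viz.stVizing_16 E3 S (facets S) (Qf S Q) k n (by omega) hF
  · intro F hF
    exact ((mem_Qf F).mp hF).1
  · intro F hF
    have := (hQ _ ((mem_Qf F).mp hF).2).2
    rwa [Set.ncard_coe_finset] at this
  · intro x hx
    rcases hgl x hx with h1 | h1 | ⟨h1, h2, h3⟩
    · exact Or.inl ((good_iff hQ' x).mp h1)
    · exact Or.inr (light_of x (by omega))
    · refine Or.inr (light3 (Q := Qf S Q) hF (by omega) ?_ ?_ ?_)
      · rw [← degS_eq]; exact h1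
      · intro F hFQ
        exact h2 _ ((mem_Qf F).mp hFQ).2
      · rw [← ncard_ess]; exact h3
  · intro x hx z hz hgx hgz hxz hH hno u hu hxu
    rw [← good_iff hQ']
    apply hpart x hx z hz ((good_iff hQ' x).mpr hgx) ((good_iff hQ' z).mpr hgz) hxz
      ((cof_iff x z).mpr hH) ?_ u hu ?_
    · intro F hF hxF hzF
      obtain ⟨F', h5, rfl⟩ := exists_fin hF.1
      exact hno F' ((ess_iff F').mpr hF) hxF hzF
    · intro F hF hxF
      obtain ⟨F', h5, rfl⟩ := exists_fin hF.1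
      exact hxu F' ((ess_iff F').mpr hF) hxF

/-- Theorem B for polytopes. -/
theorem finalB_56 (S : Finset E3) (hspan : affineSpan ℝ (S : Set E3) = ⊤)
    (hconv : ∀ x ∈ S, x ∉ convexHull ℝ ((S : Set E3) \ {x})) (k t : ℕ)
    (ht : 2 * (k / 2) + 2 ≤ t)
    (Q : Set (Set E3)) (hQ : ∀ F ∈ Q, IsFacet S F ∧ F.ncard ≤ 5)
    (hgl : ∀ x ∈ S, (GoodS S Q k x ∧ ∃ u ∈ S, u ≠ x ∧ GoodS S Q k u ∧
        ∀ F, EssentialS S Q k F → x ∈ F → u ∈ F) ∨
      Set.ncard {y : E3 | y ∈ S ∧ y ≠ x ∧ CofacialS S k x y} < t) :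
    ∃ col : E3 → Fin t, ∀ (ℓ : E3 →L[ℝ] ℝ) (c : ℝ), (∀ x ∈ S, ℓ x ≤ c) →
      Module.finrank ℝ (vectorSpan ℝ {x : E3 | x ∈ S ∧ ℓ x = c}) = 2 →
      Set.ncard {x : E3 | x ∈ S ∧ ℓ x = c} ≤ k →
      Set.InjOn col {x : E3 | x ∈ S ∧ ℓ x = c} := by
  classical
  obtain ⟨n, rfl⟩ : ∃ n, t = n + 1 := ⟨t - 1, by omega⟩
  have hF := stGeo_12 S (facets S) hspan hconv mem_facets
  have hQ' : ∀ F ∈ Q, IsFacet S F := fun F hF => (hQ F hF).1
  apply col_of
  apply combB_56 Viz.stVizing_16 E3 S (facets S) (Qf S Q) k n (by omega) hF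
  · intro F hF
    exact ((mem_Qf F).mp hF).1
  · intro F hF
    have := (hQ _ ((mem_Qf F).mp hF).2).2
    rwa [Set.ncard_coe_finset] at this
  · intro x hx
    rcases hgl x hx with ⟨h1, u, hu, hux, hgu, hxu⟩ | h1
    · refine Or.inr ⟨(good_iff hQ' x).mp h1, u, hu, hux, (good_iff hQ' u).mp hgu, ?_⟩
      intro F hF hxF
      exact hxu F ((ess_iff F).mp hF) hxF
    · exact Or.inl (light_of x (by omega))

end Pool.Agent.CY
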