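import Pool.Agent.Lib.MP_b6ecfd_co.CombC_16
import Pool.Agent.Lib.MP_b6ecfd_co.Final_56

/-! Polytopes whose vertices of large cyclic degree lie on facets with at most four vertices
(MP_b6ecfd_co), helper56 (with helper16). -/

set_option autoImplicit false

namespace Pool.Agent.CY

open Finset

section

variable {P : Type} [DecidableEq P] {S : Finset P} {Fs : Finset (Finset P)}

/-- degree three and in a facet with at most four vertices. -/
def Tame3 (Fs : Finset (Finset P)) (x : P) : Prop :=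
  (ft Fs x).card = 3 ∧ ∃ F ∈ Fs, x ∈ F ∧ F.card ≤ 4

/-- the contribution of a facet. -/
def ctr (k : ℕ) (F : Finset P) : ℕ := if F.card ≤ k then F.card - 3 else 0

/-- the number of cofacial vertices. -/
theorem light_sum (h : FSys S Fs) {k n : ℕ} {x : P}
    (hs : (ft Fs x).card + ∑ F ∈ ft Fs x, ctr k F ≤ n) : LightN S Fs k n x := by
  refine ⟨nbr S Fs x ∪ ((ft Fs x).filter (fun F => F.card ≤ k)).biUnion
    (fun F => F.erase x \ nbr S Fs x), ?_, ?_⟩
  · have h1 := Finset.card_union_le (nbr S Fs x)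
      (((ft Fs x).filter (fun F => F.card ≤ k)).biUnion (fun F => F.erase x \ nbr S Fs x))
    have h2 := nbr_card h x
    have h3 : (((ft Fs x).filter (fun F => F.card ≤ k)).biUnion
        (fun F => F.erase x \ nbr S Fs x)).card ≤
        ∑ F ∈ (ft Fs x).filter (fun F => F.card ≤ k), (F.erase x \ nbr S Fs x).card :=
      Finset.card_biUnion_le
    have h4 : ∑ F ∈ (ft Fs x).filter (fun F => F.card ≤ k), (F.erase x \ nbr S Fs x).card =
        ∑ F ∈ ft Fs x, ctr k F := by
      rw [Finset.sum_filter]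
      apply Finset.sum_congr rfl
      intro F hF
      rw [mem_ft] at hF
      unfold ctr
      split
      · have h0 : nbr S Fs x ∩ F ⊆ F.erase x := by
          intro z hz
          rw [mem_inter, mem_nbr] at hz
          exact Finset.mem_erase.mpr ⟨hz.1.2.1, hz.2⟩
        have h1 : (F.erase x) \ nbr S Fs x = (F.erase x) \ (nbr S Fs x ∩ F) := by
          ext z
          simp only [mem_sdiff, mem_inter, mem_erase]
          tauto
        rw [h1, Finset.card_sdiff_of_subset h0, nbr_inter h hF.1 hF.2,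
          Finset.card_erase_of_mem hF.2]
        omega
      · rfl
    omega
  · rintro y _ hyx ⟨F, hF, hFk, hxF, hyF⟩
    rw [mem_union, mem_biUnion]
    by_cases hn : y ∈ nbr S Fs x
    · exact Or.inl hn
    · refine Or.inr ⟨F, mem_filter.mpr ⟨mem_ft.mpr ⟨hF, hxF⟩, hFk⟩, ?_⟩
      rw [mem_sdiff, mem_erase]
      exact ⟨⟨hyx, hyF⟩, hn⟩

/-- the quadrilaterals. -/
def quads (Fs : Finset (Finset P)) : Finset (Finset P) := Fs.filter (fun F => F.card = 4)

theorem mem_quads {F : Finset P} : F ∈ quads Fs ↔ F ∈ Fs ∧ F.card = 4 := by simp [quads]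

/-- three facets. -/
theorem light_three (h : FSys S Fs) {k : ℕ} {x : P} {a b c : Finset P} (hab : a ≠ b)
    (hac : a ≠ c) (hbc : b ≠ c) (hft : ft Fs x = {a, b, c})
    (hs : ctr k a + ctr k b + ctr k c + 3 ≤ k + 1) : LightN S Fs k (k + 1) x := by
  apply light_sum h
  rw [hft, Finset.sum_insert (by simp [hab, hac]), Finset.sum_pair hbc,
    Finset.card_eq_three.mpr ⟨a, b, c, hab, hac, hbc, rfl⟩]
  omega

theorem ctr_le {k : ℕ} {F : Finset P} : ctr k F ≤ F.card - 3 ∧ (k < F.card → ctr k F = 0) := by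
  unfold ctr
  split
  · exact ⟨le_rfl, fun h => by omega⟩
  · exact ⟨Nat.zero_le _, fun _ => rfl⟩

theorem ctr_small {k : ℕ} {F : Finset P} (hF : F.card ≤ 4 ∨ k < F.card) :
    ctr k F ≤ 1 ∧ (ctr k F = 1 → F.card = 4) := by
  have t := ctr_le (k := k) (F := F)
  rcases hF with h1 | h1
  · have := t.1
    constructor
    · omega
    · omega
  · have := t.2 h1
    omega

theorem mem_es' {k : ℕ} {x : P} {F : Finset P} : F ∈ (ess Fs (quads Fs) k).filter (fun F => x ∈ F) ↔
    F ∈ Fs ∧ x ∈ F ∧ 5 ≤ F.card ∧ F.card ≤ k := by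
  rw [mem_filter, mem_ess, mem_quads]
  constructor
  · rintro ⟨⟨h1, h2, h3, h4⟩, h5⟩
    refine ⟨h1, h5, ?_, h3⟩
    by_contra hc
    exact h4 ⟨h1, by omega⟩
  · rintro ⟨h1, h5, h2, h3⟩
    exact ⟨⟨h1, by omega, h3, fun h6 => by omega⟩, h5⟩

/-- a tame vertex with two essential facets is good, and they are all. -/
theorem tame_good {k : ℕ} {x : P} (ht : Tame3 Fs x) {f g : Finset P} (hfg : f ≠ g)
    (hf : f ∈ Fs) (hg : g ∈ Fs) (hxf : x ∈ f) (hxg : x ∈ g) (hf5 : 5 ≤ f.card) (hfk : f.card ≤ k)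
    (hg5 : 5 ≤ g.card) (hgk : g.card ≤ k) :
    Good Fs (quads Fs) k x ∧
      (ess Fs (quads Fs) k).filter (fun F => x ∈ F) = {f, g} := by
  obtain ⟨h3, q, hq, hxq, hq4⟩ := ht
  have hE : (ess Fs (quads Fs) k).filter (fun F => x ∈ F) = {f, g} := by
    symm
    apply Finset.eq_of_subset_of_card_le
    · intro G hG
      rw [mem_insert, mem_singleton] at hG
      rw [mem_es']
      rcases hG with rfl | rfl
      · exact ⟨hf, hxf, hf5, hfk⟩
      · exact ⟨hg, hxg, hg5, hgk⟩
    · rw [Finset.card_pair hfg]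
      have h1 : (ess Fs (quads Fs) k).filter (fun F => x ∈ F) ⊆ (ft Fs x).erase q := by
        intro G hG
        rw [mem_es'] at hG
        rw [mem_erase, mem_ft]
        refine ⟨?_, hG.1, hG.2.1⟩
        rintro rfl
        omega
      have h2 := Finset.card_le_card h1
      rw [Finset.card_erase_of_mem (mem_ft.mpr ⟨hq, hxq⟩), h3] at h2
      exact h2
  refine ⟨⟨?_, Or.inl h3.le⟩, hE⟩
  rw [hE, Finset.card_pair hfg]

/-- the kinds of a tame vertex. -/
theorem tame_kinds (h : FSys S Fs) {k : ℕ} (hk : 5 ≤ k) {x : P}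
    (ht : Tame3 Fs x) (hn : ∀ y ∈ nbr S Fs x, Tame3 Fs y) :
    LightN S Fs k (k + 1) x ∨
      (Good Fs (quads Fs) k x ∧ ∃ u ∈ S, u ≠ x ∧ Good Fs (quads Fs) k u ∧
        ∀ F ∈ ess Fs (quads Fs) k, x ∈ F → u ∈ F) ∨
      (∃ f, R4 Fs (quads Fs) k x f ∧ ∀ c ∈ S, Pt (quads Fs) x c →
        LightN S Fs k (k + 1) c ∨ ∃ g, R4 Fs (quads Fs) k c g) := by
  have hQF : quads Fs ⊆ Fs := Finset.filter_subset _ _
  by_cases hE : ∃ f g : Finset P, f ≠ g ∧ f ∈ Fs ∧ g ∈ Fs ∧ x ∈ f ∧ x ∈ g ∧ 5 ≤ f.card ∧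
      f.card ≤ k ∧ 5 ≤ g.card ∧ g.card ≤ k
  · -- two essential facets
    obtain ⟨f, g, hfg, hf, hg, hxf, hxg, hf5, hfk, hg5, hgk⟩ := hE
    obtain ⟨hG, hEq⟩ := tame_good ht hfg hf hg hxf hxg hf5 hfk hg5 hgk
    have hnf := nbr_inter h hf hxf
    have hng := nbr_inter h hg hxg
    have hnc := nbr_card h x
    have h3 := ht.1
    obtain ⟨u, hu⟩ : ∃ u, u ∈ (nbr S Fs x ∩ f) ∩ (nbr S Fs x ∩ g) := by
      by_contra hcon
      push Not at hcon
      have hdis : Disjoint (nbr S Fs x ∩ f) (nbr S Fs x ∩ g) := by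
        rw [Finset.disjoint_left]
        intro u hu1 hu2
        exact hcon u (mem_inter.mpr ⟨hu1, hu2⟩)
      have hcu := Finset.card_union_of_disjoint hdis
      have hsu : (nbr S Fs x ∩ f) ∪ (nbr S Fs x ∩ g) ⊆ nbr S Fs x :=
        Finset.union_subset Finset.inter_subset_left Finset.inter_subset_left
      have hcl := Finset.card_le_card hsu
      omega
    rw [mem_inter, mem_inter, mem_inter] at hu
    obtain ⟨⟨hun, huf⟩, _, hug⟩ := hu
    have hun' := mem_nbr.mp hun
    obtain ⟨hG', _⟩ := tame_good (hn u hun) hfg hf hg huf hug hf5 hfk hg5 hgk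
    refine Or.inr (Or.inl ⟨hG, u, hun'.1, hun'.2.1, hG', ?_⟩)
    intro F hF hxF
    have h5 : F ∈ (ess Fs (quads Fs) k).filter (fun F => x ∈ F) := mem_filter.mpr ⟨hF, hxF⟩
    rw [hEq, mem_insert, mem_singleton] at h5
    rcases h5 with rfl | rfl
    · exact huf
    · exact hug
  · -- at most one essential facet
    obtain ⟨a, b, c, hab, hac, hbc, hft⟩ := Finset.card_eq_three.mp ht.1
    have ha : a ∈ ft Fs x := by rw [hft]; simp
    have hb : b ∈ ft Fs x := by rw [hft]; simp
    have hc : c ∈ ft Fs x := by rw [hft]; simp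
    rw [mem_ft] at ha hb hc
    have ka := h.three a ha.1
    have kb := h.three b hb.1
    have kc := h.three c hc.1
    -- the main case: f large
    have main : ∀ a b f : Finset P, a ≠ b → a ≠ f → b ≠ f → ft Fs x = {a, b, f} →
        a.card = 4 → b.card = 4 → f.card = k → 
        (∃ f, R4 Fs (quads Fs) k x f ∧ ∀ c ∈ S, Pt (quads Fs) x c →
          LightN S Fs k (k + 1) c ∨ ∃ g, R4 Fs (quads Fs) k c g) := by
      intro a b f hab haf hbf hft ha4 hb4 hfk
      have ha : a ∈ ft Fs x := by rw [hft]; simp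
      have hb : b ∈ ft Fs x := by rw [hft]; simp
      rw [mem_ft] at ha hb
      have hR : R4 Fs (quads Fs) k x f := by
        refine ⟨?_, hfk, a, b, hab, mem_quads.mpr ⟨ha.1, ha4⟩, mem_quads.mpr ⟨hb.1, hb4⟩, ha4,
          hb4, hft⟩
        rw [mem_quads]
        omega
      refine ⟨f, hR, ?_⟩
      intro c hcS hp
      have hcn := Pt_nbr h hQF hR hp
      obtain ⟨hc3, _⟩ := hn c hcn.1
      obtain ⟨hcx, q1, q2, h12, hq1, hq2, x1, x2, c1, c2⟩ := hp
      have hq1' := mem_quads.mp hq1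
      have hq2' := mem_quads.mp hq2
      have m1 : q1 ∈ ft Fs c := mem_ft.mpr ⟨hq1'.1, c1⟩
      have m2 : q2 ∈ (ft Fs c).erase q1 := mem_erase.mpr ⟨h12.symm, mem_ft.mpr ⟨hq2'.1, c2⟩⟩
      have e1 : ((ft Fs c).erase q1).card = 2 := by
        rw [Finset.card_erase_of_mem m1, hc3]
      have e2 : (((ft Fs c).erase q1).erase q2).card = 1 := by
        rw [Finset.card_erase_of_mem m2, e1]
      obtain ⟨g, hg⟩ := Finset.card_eq_one.mp e2
      have hgm : g ∈ ((ft Fs c).erase q1).erase q2 := by rw [hg]; simp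
      rw [mem_erase, mem_erase, mem_ft] at hgm
      obtain ⟨hg2, hg1, hgF, hcg⟩ := hgm
      have hftc : ft Fs c = {q1, q2, g} := by
        rw [← Finset.insert_erase m1, ← Finset.insert_erase m2, hg]
      by_cases hgk : g.card = k
      · right
        refine ⟨g, ?_, hgk, q1, q2, h12, hq1, hq2, hq1'.2, hq2'.2, hftc⟩
        rw [mem_quads]
        omega
      · left
        apply light_three h h12 (Ne.symm hg1) (Ne.symm hg2) hftc
        have t1 := (ctr_le (k := k) (F := q1)).1
        have t2 := (ctr_le (k := k) (F := q2)).1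
        have t3 := ctr_le (k := k) (F := g)
        have t4 := hq1'.2
        have t5 := hq2'.2
        by_cases hgg : k < g.card
        · have := t3.2 hgg
          omega
        · have := t3.1
          omega
    -- light otherwise
    by_cases hL : ctr k a + ctr k b + ctr k c + 3 ≤ k + 1
    · exact Or.inl (light_three h hab hac hbc hft hL)
    right; right
    have t1 := (ctr_le (k := k) (F := a)).1
    have t2 := (ctr_le (k := k) (F := b)).1
    have t3 := (ctr_le (k := k) (F := c)).1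
    have alt : ∀ F : Finset P, ¬ (5 ≤ F.card ∧ F.card ≤ k) → F.card ≤ 4 ∨ k < F.card := by
      intro F hF
      omega
    by_cases ca : 5 ≤ a.card ∧ a.card ≤ k
    · have ub := ctr_small (k := k) (F := b) (alt b (fun hcb => hE ⟨a, b, hab, ha.1, hb.1, ha.2,
        hb.2, ca.1, ca.2, hcb.1, hcb.2⟩))
      have uc := ctr_small (k := k) (F := c) (alt c (fun hcb => hE ⟨a, c, hac, ha.1, hc.1, ha.2,
        hc.2, ca.1, ca.2, hcb.1, hcb.2⟩))
      have e1 : ctr k b = 1 := by omega
      have e2 : ctr k c = 1 := by omega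
      have e3 : a.card = k := by omega
      apply main b c a hbc hab.symm hac.symm ?_ (ub.2 e1) (uc.2 e2) e3
      rw [hft]
      ext G
      simp only [mem_insert, mem_singleton]
      tauto
    have ua := ctr_small (k := k) (F := a) (alt a ca)
    by_cases cb : 5 ≤ b.card ∧ b.card ≤ k
    · have uc := ctr_small (k := k) (F := c) (alt c (fun hcb => hE ⟨b, c, hbc, hb.1, hc.1, hb.2,
        hc.2, cb.1, cb.2, hcb.1, hcb.2⟩))
      have e1 : ctr k a = 1 := by omega
      have e2 : ctr k c = 1 := by omega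
      have e3 : b.card = k := by omega
      apply main a c b hac hab hbc.symm ?_ (ua.2 e1) (uc.2 e2) e3
      rw [hft]
      ext G
      simp only [mem_insert, mem_singleton]
      tauto
    have ub := ctr_small (k := k) (F := b) (alt b cb)
    by_cases cc : 5 ≤ c.card ∧ c.card ≤ k
    · have e1 : ctr k a = 1 := by omega
      have e2 : ctr k b = 1 := by omega
      have e3 : c.card = k := by omega
      exact main a b c hab hac hbc hft (ua.2 e1) (ub.2 e2) e3
    · exfalso
      have uc := ctr_small (k := k) (F := c) (alt c cc)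
      have := uc.1
      have := ub.1
      have := ua.1
      omega

end

/-- tame vertices of a polytope. -/
def TameS (S : Finset E3) (x : E3) : Prop :=
  degS S x = 3 ∧ ∃ F : Set E3, IsFacet S F ∧ x ∈ F ∧ F.ncard ≤ 4

theorem tame_iff {S : Finset E3} (x : E3) : TameS S x ↔ Tame3 (facets S) x := by
  rw [TameS, Tame3, degS_eq]
  constructor
  · rintro ⟨h1, F, h2, h3, h4⟩
    obtain ⟨F', h5, rfl⟩ := exists_fin h2
    rw [Set.ncard_coe_finset] at h4
    exact ⟨h1, F', h5, h3, h4⟩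
  · rintro ⟨h1, F, h2, h3, h4⟩
    refine ⟨h1, F, (mem_facets F).mp h2, h3, ?_⟩
    rw [Set.ncard_coe_finset]
    exact h4

theorem ncard_cm {S : Finset E3} (x y : E3) :
    Set.ncard {F : Set E3 | IsFacet S F ∧ x ∈ F ∧ y ∈ F} = (cm (facets S) x y).card := by
  classical
  have h1 : {F : Set E3 | IsFacet S F ∧ x ∈ F ∧ y ∈ F} =
      (fun F : Finset E3 => (F : Set E3)) '' ((cm (facets S) x y : Finset (Finset E3)) :
          Set (Finset E3)) := by
    ext F
    simp only [Set.mem_ofPred_eq, Set.mem_image, Finset.mem_coe, mem_cm, mem_facets]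
    constructor
    · rintro ⟨h1, h2, h3⟩
      obtain ⟨F', _, h4⟩ := exists_fin h1
      refine ⟨F', ⟨?_, ?_, ?_⟩, h4⟩
      · rw [h4]; exact h1
      · rw [← h4] at h2; exact h2
      · rw [← h4] at h3; exact h3
    · rintro ⟨F', ⟨h1, h2, h3⟩, rfl⟩
      exact ⟨h1, h2, h3⟩
  rw [h1, Set.ncard_image_of_injective _ Finset.coe_injective, Set.ncard_coe_finset]

/-- Theorem C for polytopes. -/
theorem finalC_56 (S : Finset E3) (hspan : affineSpan ℝ (S : Set E3) = ⊤)
    (hconv : ∀ x ∈ S, x ∉ convexHull ℝ ((S : Set E3) \ {x})) (k : ℕ) (hk : 5 ≤ k)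
    (hgl : ∀ x ∈ S, Set.ncard {y : E3 | y ∈ S ∧ y ≠ x ∧ CofacialS S k x y} < k + 2 ∨
      (TameS S x ∧ ∀ y ∈ S, y ≠ x →
        2 ≤ Set.ncard {F : Set E3 | IsFacet S F ∧ x ∈ F ∧ y ∈ F} → TameS S y)) :
    ∃ col : E3 → Fin (k + 2), ∀ (ℓ : E3 →L[ℝ] ℝ) (c : ℝ), (∀ x ∈ S, ℓ x ≤ c) →
      Module.finrank ℝ (vectorSpan ℝ {x : E3 | x ∈ S ∧ ℓ x = c}) = 2 →
      Set.ncard {x : E3 | x ∈ S ∧ ℓ x = c} ≤ k →
      Set.InjOn col {x : E3 | x ∈ S ∧ ℓ x = c} := by
  classical
  have hF := stGeo_12 S (facets S) hspan hconv mem_facets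
  have hT := tri_16 S (facets S) hspan hconv mem_facets
  apply col_of
  apply combC_16 Viz.stVizing_16 E3 S (facets S) (quads (facets S)) k (by omega) hF hT
  · exact Finset.filter_subset _ _
  · intro F hF
    have := (mem_quads.mp hF).2
    omega
  · intro x hx
    rcases hgl x hx with h1 | ⟨h1, h2⟩
    · exact Or.inl (light_of x (by omega))
    · refine tame_kinds hF hk ((tame_iff x).mp h1) ?_
      intro y hy
      rw [mem_nbr] at hy
      rw [← tame_iff]
      exact h2 y hy.1 hy.2.1 (by rw [ncard_cm]; exact hy.2.2)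

end Pool.Agent.CY
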