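import Pool.Agent.Lib.MP_b6ecfd_co.Stmts

/-! StGreedy and StFlip (MP_b6ecfd_co), helper56. -/

set_option autoImplicit false

namespace Pool.Agent.CY

open Finset

theorem stGreedy_56 : StGreedy := by
  intro V _ S H n X φ hsym hX hT hXS
  induction h : (S \ X).card generalizing X φ with
  | zero =>
    have hS : S ⊆ X := Finset.sdiff_eq_empty_iff_subset.mp (Finset.card_eq_zero.mp h)
    exact ⟨φ, fun x hx y hy hxy hH => hX x (hS hx) y (hS hy) hxy hH⟩
  | succ m ih =>
    have hne : (S \ X).Nonempty := by
      rw [← Finset.card_pos, h]; omega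
    obtain ⟨x, hx⟩ := hne
    rw [Finset.mem_sdiff] at hx
    obtain ⟨T, hTc, hTn⟩ := hT x hx.1 hx.2
    obtain ⟨c, hc⟩ : ∃ c, c ∉ T.image φ := by
      by_contra hcon
      push Not at hcon
      have h1 : (Finset.univ : Finset (Fin (n + 1))) ⊆ T.image φ := fun c _ => hcon c
      have h2 := Finset.card_le_card h1
      have h3 := Finset.card_image_le (s := T) (f := φ)
      rw [Finset.card_univ, Fintype.card_fin] at h2
      omega
    have hcT : ∀ y ∈ T, φ y ≠ c := by
      intro y hy hyc
      exact hc (Finset.mem_image.mpr ⟨y, hy, hyc⟩)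
    apply ih (insert x X) (Function.update φ x c)
    · intro a ha b hb hab hH
      rw [Finset.mem_insert] at ha hb
      rcases ha with rfl | ha
      · rcases hb with rfl | hb
        · exact absurd rfl hab
        · rw [Function.update_self, Function.update_of_ne (Ne.symm hab)]
          exact (hcT b (hTn b (hXS hb) (Ne.symm hab) hH)).symm
      · rcases hb with rfl | hb
        · rw [Function.update_self, Function.update_of_ne hab]
          exact hcT a (hTn a (hXS ha) hab (hsym _ _ hH))
        · have hax : a ≠ x := fun hE => hx.2 (hE ▸ ha)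
          have hbx : b ≠ x := fun hE => hx.2 (hE ▸ hb)
          rw [Function.update_of_ne hax, Function.update_of_ne hbx]
          exact hX a ha b hb hab hH
    · intro y hy hyX
      exact hT y hy (fun hyX' => hyX (Finset.mem_insert_of_mem hyX'))
    · intro y hy
      rw [Finset.mem_insert] at hy
      rcases hy with rfl | hy
      · exact hx.1
      · exact hXS hy
    · have hE : S \ insert x X = (S \ X).erase x := by
        ext y
        simp only [Finset.mem_sdiff, Finset.mem_insert, Finset.mem_erase]
        tauto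
      rw [hE, Finset.card_erase_of_mem (Finset.mem_sdiff.mpr hx), h]
      rfl

section Flip

variable {X C : Type} [Fintype X] [DecidableEq X] [DecidableEq C]

/-- conflicts of a colouring. -/
def conf56 (τ : X → X) (φ : X → C) : Finset X :=
  univ.filter (fun x => τ x ≠ x ∧ φ x = φ (τ x))

/-- one step: a flip with fewer conflicts. -/
theorem flip_step_56 (σ τ : X → X) (φ : X → C)
    (hσ : ∀ x, σ (σ x) = x) (hτ : ∀ x, τ (τ x) = x) (hτσ : ∀ x, τ x ≠ x → σ x ≠ x)
    (hφ : ∀ x, σ x ≠ x → φ (σ x) ≠ φ x) (x0 : X) (hx0 : x0 ∈ conf56 τ φ) :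
    ∃ F : Finset X, (∀ x, x ∈ F → σ x ∈ F) ∧
      (conf56 τ (fun x => φ (if x ∈ F then σ x else x))).card < (conf56 τ φ).card := by
  classical
  obtain ⟨hne0, heq0⟩ : τ x0 ≠ x0 ∧ φ x0 = φ (τ x0) := by
    simpa [conf56] using hx0
  set T : X → X := fun x => τ (σ x) with hT
  set α := φ x0 with hα
  have hchain_ne : ∀ j, (∀ i ≤ j, φ (T^[i] x0) = α) → σ (T^[j] x0) ≠ T^[j] x0 := by
    intro j
    induction j with
    | zero => intro _; exact hτσ x0 hne0
    | succ j ih =>
      intro hj hE
      have ih' := ih (fun i hi => hj i (by omega))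
      have h1 : T^[j + 1] x0 = τ (σ (T^[j] x0)) := by
        rw [Function.iterate_succ_apply']
      have h2 : τ (T^[j + 1] x0) = T^[j + 1] x0 := by
        by_contra hcon
        exact hτσ _ hcon hE
      rw [h1, hτ] at h2
      have h3 : φ (T^[j + 1] x0) = α := hj (j + 1) le_rfl
      rw [h1, ← h2] at h3
      have h4 : φ (T^[j] x0) = α := hj j (by omega)
      exact hφ _ ih' (h3.trans h4.symm)
  have hchain_col : ∀ j, (∀ i ≤ j, φ (T^[i] x0) = α) → φ (σ (T^[j] x0)) ≠ α := by
    intro j hj hE
    exact hφ _ (hchain_ne j hj) (hE.trans (hj j le_rfl).symm)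
  set A : Finset X := univ.filter (fun w => ∃ j, w = T^[j] x0 ∧ ∀ i ≤ j, φ (T^[i] x0) = α) with hA
  have memA : ∀ w, w ∈ A ↔ ∃ j, w = T^[j] x0 ∧ ∀ i ≤ j, φ (T^[i] x0) = α := by
    intro w; simp [hA]
  set F : Finset X := A ∪ A.image σ with hF
  have memF : ∀ w, w ∈ F ↔ w ∈ A ∨ ∃ v ∈ A, σ v = w := by
    intro w; simp [hF]
  have colA : ∀ w ∈ A, φ w = α := by
    intro w hw
    obtain ⟨j, rfl, hj⟩ := (memA w).1 hw
    exact hj j le_rfl
  have colsA : ∀ w ∈ A, φ (σ w) ≠ α := by
    intro w hw
    obtain ⟨j, rfl, hj⟩ := (memA w).1 hw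
    exact hchain_col j hj
  have hx0A : x0 ∈ A := (memA x0).2 ⟨0, rfl, by
    intro i hi
    have : i = 0 := by omega
    subst this
    rfl⟩
  have hzF : τ x0 ∉ F := by
    intro hz
    rcases (memF _).1 hz with hz | ⟨v, hv, hvz⟩
    · obtain ⟨j, hj1, hj2⟩ := (memA _).1 hz
      cases j with
      | zero => exact hne0 hj1
      | succ j =>
        rw [Function.iterate_succ_apply'] at hj1
        have h1 : x0 = σ (T^[j] x0) := by
          have := congrArg τ hj1
          simpa [hτ, hT] using this
        exact hchain_col j (fun i hi => hj2 i (by omega)) (by rw [← h1])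
    · apply colsA v hv
      rw [hvz, ← heq0]
  have hFσ : ∀ x, x ∈ F → σ x ∈ F := by
    intro x hx
    rcases (memF _).1 hx with hx | ⟨v, hv, hvx⟩
    · exact (memF _).2 (Or.inr ⟨x, hx, rfl⟩)
    · exact (memF _).2 (Or.inl (by rw [← hvx, hσ]; exact hv))
  set π : X → X := fun x => if x ∈ F then σ x else x with hπ
  have πin : ∀ x ∈ F, π x = σ x := fun x hx => by simp [hπ, hx]
  have πout : ∀ x, x ∉ F → π x = x := fun x hx => by simp [hπ, hx]
  have key : ∀ v, v ∈ F → τ v ≠ v → φ (π v) ≠ φ (π (τ v)) := by
    intro v hv hτv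
    rcases (memF _).1 hv with hvA | ⟨w, hw, hwv⟩
    · obtain ⟨j, hj1, hj2⟩ := (memA _).1 hvA
      rw [πin v hv]
      cases j with
      | zero =>
        have hv0 : v = x0 := hj1
        rw [hv0, πout _ hzF, ← heq0]
        exact colsA x0 hx0A
      | succ j =>
        rw [Function.iterate_succ_apply'] at hj1
        have hw1A : T^[j] x0 ∈ A := (memA _).2 ⟨j, rfl, fun i hi => hj2 i (by omega)⟩
        have h1 : τ v = σ (T^[j] x0) := by
          rw [hj1, hT]
          exact hτ _
        have h2 : τ v ∈ F := by
          rw [h1]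
          exact (memF _).2 (Or.inr ⟨_, hw1A, rfl⟩)
        rw [πin _ h2, h1, hσ, colA _ hw1A]
        exact colsA v hvA
    · rw [πin v hv]
      have h1 : σ v = w := by rw [← hwv, hσ]
      rw [h1, colA w hw]
      obtain ⟨j, hj1, hj2⟩ := (memA _).1 hw
      have hTw : τ v = T^[j + 1] x0 := by
        rw [Function.iterate_succ_apply', ← hj1, ← hwv]
      by_cases hc : φ (τ v) = α
      · have hA1 : τ v ∈ A := by
          refine (memA _).2 ⟨j + 1, hTw, ?_⟩
          intro i hi
          rcases Nat.lt_or_ge i (j + 1) with h | h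
          · exact hj2 i (by omega)
          · have : i = j + 1 := by omega
            rw [this, ← hTw, hc]
        rw [πin _ ((memF _).2 (Or.inl hA1))]
        exact (colsA _ hA1).symm
      · have hnF : τ v ∉ F := by
          intro hF1
          rcases (memF _).1 hF1 with h | ⟨w2, hw2, hw2v⟩
          · exact hc (colA _ h)
          · obtain ⟨i, hi1, hi2⟩ := (memA _).1 hw2
            -- σ w2 = τ v, v = σ w
            have h3 : v = T^[i + 1] x0 := by
              rw [Function.iterate_succ_apply', ← hi1, hT]
              simp only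
              rw [hw2v, hτ]
            rcases Nat.lt_trichotomy i j with h | h | h
            · have : φ v = α := by rw [h3]; exact hj2 (i + 1) (by omega)
              exact colsA w hw (by rw [hwv, this])
            · have : w = w2 := by rw [hj1, hi1, h]
              apply hτv
              rw [← hw2v, ← this, hwv]
            · have : φ (τ v) = α := by rw [hTw]; exact hi2 (j + 1) (by omega)
              exact hc this
        rw [πout _ hnF]
        exact fun h => hc h.symm
  refine ⟨F, hFσ, ?_⟩
  apply Finset.card_lt_card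
  rw [Finset.ssubset_iff_of_subset]
  · refine ⟨x0, hx0, ?_⟩
    intro hcon
    have h1 : τ x0 ≠ x0 ∧ φ (π x0) = φ (π (τ x0)) := by
      simpa [conf56, hπ] using hcon
    exact key x0 ((memF _).2 (Or.inl hx0A)) hne0 h1.2
  · intro v hv
    have h1 : τ v ≠ v ∧ φ (π v) = φ (π (τ v)) := by
      simpa [conf56, hπ] using hv
    have h2 : v ∉ F := fun h => key v h h1.1 h1.2
    have h3 : τ v ∉ F := by
      intro h
      refine key (τ v) h ?_ ?_
      · rw [hτ]; exact fun h => h1.1 h.symm
      · rw [hτ]; exact h1.2.symm
    rw [πout _ h2, πout _ h3] at h1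
    simp only [conf56, Finset.mem_filter, Finset.mem_univ, true_and]
    exact h1

end Flip

theorem stFlip_56 : StFlip := by
  intro X C _ _ _ σ τ φ hσ hτ hτσ hφ
  induction h : (conf56 τ φ).card using Nat.strong_induction_on generalizing φ with
  | _ n ih =>
    by_cases hE : conf56 τ φ = ∅
    · refine ⟨id, fun x => Or.inl rfl, Function.injective_id, ?_⟩
      intro x hx hc
      have : x ∈ conf56 τ φ := by
        simp only [conf56, Finset.mem_filter, Finset.mem_univ, true_and]
        exact ⟨hx, hc⟩
      rw [hE] at this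
      simp at this
    · obtain ⟨x0, hx0⟩ := Finset.nonempty_iff_ne_empty.mpr hE
      obtain ⟨F, hF, hlt⟩ := flip_step_56 σ τ φ hσ hτ hτσ hφ x0 hx0
      have hF' : ∀ x, x ∈ F ↔ σ x ∈ F := by
        intro x
        refine ⟨hF x, fun hx => ?_⟩
        have := hF _ hx
        rwa [hσ] at this
      set π : X → X := fun x => if x ∈ F then σ x else x with hπ
      have hcomm : ∀ x, π (σ x) = σ (π x) := by
        intro x
        by_cases hx : x ∈ F
        · have h1 : σ x ∈ F := (hF' x).1 hx
          simp [hπ, hx, h1]
        · have h1 : σ x ∉ F := fun h1 => hx ((hF' x).2 h1)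
          simp [hπ, hx, h1]
      have hinv : ∀ x, π (π x) = x := by
        intro x
        by_cases hx : x ∈ F
        · have h1 : σ x ∈ F := (hF' x).1 hx
          simp [hπ, hx, h1, hσ]
        · simp [hπ, hx]
      have hor : ∀ x, π x = x ∨ π x = σ x := by
        intro x
        by_cases hx : x ∈ F
        · right; simp [hπ, hx]
        · left; simp [hπ, hx]
      obtain ⟨π', h1, h2, h3⟩ := ih _ (h ▸ hlt) (fun x => φ (π x)) (by
        intro x hx
        rw [hcomm]
        apply hφ
        intro hcon
        apply hx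
        rcases hor x with h | h
        · rwa [h] at hcon
        · rw [h, hσ] at hcon; exact hcon.symm) rfl
      refine ⟨fun x => π (π' x), ?_, ?_, h3⟩
      · intro x
        change π (π' x) = x ∨ π (π' x) = σ x
        rcases h1 x with h | h <;> rw [h]
        · exact hor x
        · rcases hor (σ x) with h' | h' <;> rw [h']
          · right; rfl
          · left; exact hσ x
      · intro a b hab
        apply h2
        have := congrArg π hab
        simpa [hinv] using this

end Pool.Agent.CY
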