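import Pool.Agent.Lib.MP_b6ecfd_co.CombB_56

/-! The pairs of colours, with their structure in the conclusion (MP_b6ecfd), helper16. The proof
is that of combB_56 (helper56). -/

set_option autoImplicit false

namespace Pool.Agent.CY

open Finset

/-- the essential facets at `x`. -/
def es {P : Type} [DecidableEq P] (Fs Q : Finset (Finset P)) (k : ℕ) (x : P) :
    Finset (Finset P) := (ess Fs Q k).filter (fun F => x ∈ F)

open Classical in
/-- good vertices with a mate. -/
noncomputable def XX {P : Type} [DecidableEq P] (S : Finset P) (Fs Q : Finset (Finset P)) (k : ℕ) :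
    Finset P :=
  S.filter (fun x => Good Fs Q k x ∧ ∃ u ∈ S, u ≠ x ∧ Good Fs Q k u ∧ es Fs Q k x = es Fs Q k u)

theorem mem_XX {P : Type} [DecidableEq P] {S : Finset P} {Fs Q : Finset (Finset P)} {k : ℕ}
    {x : P} : x ∈ XX S Fs Q k ↔ x ∈ S ∧ Good Fs Q k x ∧
      ∃ u ∈ S, u ≠ x ∧ Good Fs Q k u ∧ es Fs Q k x = es Fs Q k u := by
  simp [XX]

/-- the colouring of the mated good vertices by pairs of colours. -/
theorem pairs_16 (hV : StVizing) (P : Type) [DecidableEq P] (S : Finset P)
    (Fs Q : Finset (Finset P)) (k : ℕ) (h : FSys S Fs) (hQF : Q ⊆ Fs)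
    (hQ5 : ∀ F ∈ Q, F.card ≤ 5) :
    ∃ φ : P → Fin (k / 2 + 1) × Bool,
      (∀ x ∈ XX S Fs Q k, ∀ y ∈ XX S Fs Q k, x ≠ y → Hc Fs k x y → φ x ≠ φ y) ∧
      (∀ x ∈ XX S Fs Q k, ∀ y ∈ XX S Fs Q k, es Fs Q k x = es Fs Q k y → (φ x).1 = (φ y).1) ∧
      (∀ x ∈ XX S Fs Q k, ∀ y ∈ XX S Fs Q k, es Fs Q k x ≠ es Fs Q k y →
        ∀ F, F ∈ es Fs Q k x → F ∈ es Fs Q k y → (φ x).1 ≠ (φ y).1) ∧
      (∀ x ∈ XX S Fs Q k, ∀ y ∈ XX S Fs Q k, ∀ z ∈ XX S Fs Q k, x ≠ y → x ≠ z →
        es Fs Q k x = es Fs Q k y → es Fs Q k x = es Fs Q k z → y = z) := by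
  classical
  set e : P → Finset (Finset P) := es Fs Q k with he
  have memE : ∀ x F, F ∈ e x ↔ F ∈ ess Fs Q k ∧ x ∈ F := by
    intro x F
    simp [he, es]
  set X : Finset P := XX S Fs Q k with hX
  have hXS : X ⊆ S := by
    intro x hx
    rw [hX, XX] at hx
    exact (Finset.mem_filter.mp hx).1
  have hXmem : ∀ x, x ∈ X ↔ x ∈ S ∧ Good Fs Q k x ∧
      ∃ u ∈ S, u ≠ x ∧ Good Fs Q k u ∧ e x = e u := by
    intro x; simp [hX, XX, he]
  have hXpart : ∀ x ∈ X, ∃ u ∈ X, u ≠ x ∧ e x = e u := by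
    intro x hx
    obtain ⟨hxS, hxG, u, huS, hux, huG, hE⟩ := (hXmem x).mp hx
    exact ⟨u, (hXmem u).mpr ⟨huS, huG, x, hxS, hux.symm, hxG, hE.symm⟩, hux, hE⟩
  -- units
  set T : Finset (Finset (Finset P)) := X.image e with hT
  have hT2 : ∀ t : T, ∃ f g : Finset P, f ≠ g ∧ t.1 = {f, g} := by
    intro t
    obtain ⟨x, hx, hxt⟩ := Finset.mem_image.mp t.2
    apply Finset.card_eq_two.mp
    rw [← hxt]
    exact ((hXmem x).mp hx).2.1.1
  choose p q hpq1 hpq2 using hT2
  have hTess : ∀ t : T, ∀ F ∈ t.1, F ∈ ess Fs Q k := by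
    intro t F hF
    obtain ⟨x, hx, hxt⟩ := Finset.mem_image.mp t.2
    rw [← hxt, memE] at hF
    exact hF.1
  have hp : ∀ t : T, p t ∈ t.1 := by
    intro t; rw [hpq2]; simp
  have hq : ∀ t : T, q t ∈ t.1 := by
    intro t; rw [hpq2]; simp
  obtain ⟨ψ, hψ⟩ := hV T (Finset P) p q (k / 2) 1 hpq1 (by
    intro v
    by_cases hv : v ∈ ess Fs Q k
    · set Tv : Finset (Finset (Finset P)) := T.filter (fun t => v ∈ t) with hTv
      have h0 : (univ.filter (fun t : T => p t = v ∨ q t = v)).card ≤ Tv.card := by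
        apply Finset.card_le_card_of_injOn (fun t => t.1)
        · intro t ht
          simp only [coe_filter, mem_univ, true_and, Set.mem_ofPred_eq] at ht
          simp only [hTv, coe_filter, Set.mem_ofPred_eq]
          refine ⟨t.2, ?_⟩
          rcases ht with rfl | rfl
          · exact hp t
          · exact hq t
        · intro x _ y _ hxy
          exact Subtype.ext hxy
      set U : Finset P := X.filter (fun x => x ∈ v) with hU
      have hUv : U.card ≤ v.card := by
        apply Finset.card_le_card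
        intro x hx
        exact (mem_filter.mp hx).2
      have hmaps : ∀ x ∈ U, e x ∈ Tv := by
        intro x hx
        rw [hU, mem_filter] at hx
        rw [hTv, mem_filter, memE]
        exact ⟨Finset.mem_image_of_mem e hx.1, hv, hx.2⟩
      have hfib := Finset.card_eq_sum_card_fiberwise (s := U) (t := Tv) (f := e) hmaps
      have hge : Tv.card • 2 ≤ ∑ b ∈ Tv, (U.filter (fun a => e a = b)).card := by
        apply Finset.card_nsmul_le_sum
        intro t ht
        rw [hTv, mem_filter] at ht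
        obtain ⟨x, hx, hxt⟩ := Finset.mem_image.mp ht.1
        obtain ⟨u, hu, hux, hxu⟩ := hXpart x hx
        have hvx : v ∈ e x := by rw [hxt]; exact ht.2
        have hvu : v ∈ e u := by rw [← hxu]; exact hvx
        have hsub : ({x, u} : Finset P) ⊆ U.filter (fun a => e a = t) := by
          intro a ha
          rw [mem_insert, mem_singleton] at ha
          rw [mem_filter, hU, mem_filter]
          rcases ha with rfl | rfl
          · exact ⟨⟨hx, ((memE _ _).mp hvx).2⟩, hxt⟩
          · exact ⟨⟨hu, ((memE _ _).mp hvu).2⟩, by rw [← hxu]; exact hxt⟩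
        have := Finset.card_le_card hsub
        rw [Finset.card_pair hux.symm] at this
        exact this
      have hvk := (mem_ess.mp hv).2.2.1
      rw [smul_eq_mul, ← hfib] at hge
      omega
    · have h1 : univ.filter (fun t : T => p t = v ∨ q t = v) = ∅ := by
        apply Finset.filter_eq_empty_iff.mpr
        intro t _ ht
        rcases ht with rfl | rfl
        · exact hv (hTess t _ (hp t))
        · exact hv (hTess t _ (hq t))
      rw [h1]
      simp) (by
    intro u v huv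
    apply Finset.card_le_one.mpr
    intro s hs t ht
    simp only [mem_filter, mem_univ, true_and] at hs ht
    apply Subtype.ext
    rw [hpq2 s, hpq2 t]
    rcases hs with ⟨h1, h2⟩ | ⟨h1, h2⟩ <;> rcases ht with ⟨h3, h4⟩ | ⟨h3, h4⟩ <;>
      rw [h1, h2, h3, h4] <;> first | rfl | exact Finset.pair_comm _ _) le_rfl
  -- colour of a vertex: the colour of its unit and a bit
  let un : X → T := fun x => ⟨e x.1, Finset.mem_image_of_mem e x.2⟩
  have hψun : ∀ x y : X, e x.1 ≠ e y.1 → ∀ F, F ∈ e x.1 → F ∈ e y.1 → ψ (un x) ≠ ψ (un y) := by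
    intro x y hne F hFx hFy
    apply hψ (un x) (un y) (fun hE => hne (Subtype.mk.inj hE))
    have h1 : F ∈ (un x).1 := hFx
    have h2 : F ∈ (un y).1 := hFy
    rw [hpq2, mem_insert, mem_singleton] at h1 h2
    rcases h1 with h1 | h1 <;> rcases h2 with h2 | h2 <;> rw [← h1, ← h2] <;> simp
  have hrep : ∀ t : T, ∃ x : X, un x = t := by
    intro t
    obtain ⟨x, hx, hxt⟩ := Finset.mem_image.mp t.2
    exact ⟨⟨x, hx⟩, Subtype.ext hxt⟩
  choose rep hrep1 using hrep
  let φ : X → Fin (k / 2 + 1) × Bool := fun x => (ψ (un x), decide (x = rep (un x)))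
  have huniq : ∀ x y z : X, x ≠ y → x ≠ z → e x.1 = e y.1 → e x.1 = e z.1 → y = z := by
    intro x y z hxy hxz hey hez
    by_contra hyz
    have hpx : p (un x) ∈ e x.1 := hp (un x)
    have hqx : q (un x) ∈ e x.1 := hq (un x)
    have h1 := h.inter (p (un x)) (mem_ess.mp ((memE _ _).mp hpx).1).1 (q (un x))
      (mem_ess.mp ((memE _ _).mp hqx).1).1 (hpq1 (un x))
    have hsub : ({x.1, y.1, z.1} : Finset P) ⊆ p (un x) ∩ q (un x) := by
      intro a ha
      rw [mem_insert, mem_insert, mem_singleton] at ha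
      rw [mem_inter]
      rcases ha with rfl | rfl | rfl
      · exact ⟨((memE _ _).mp hpx).2, ((memE _ _).mp hqx).2⟩
      · rw [hey] at hpx hqx
        exact ⟨((memE _ _).mp hpx).2, ((memE _ _).mp hqx).2⟩
      · rw [hez] at hpx hqx
        exact ⟨((memE _ _).mp hpx).2, ((memE _ _).mp hqx).2⟩
    have h6 : ({x.1, y.1, z.1} : Finset P).card = 3 :=
      Finset.card_eq_three.mpr ⟨x.1, y.1, z.1, fun hE => hxy (Subtype.ext hE),
        fun hE => hxz (Subtype.ext hE), fun hE => hyz (Subtype.ext hE), rfl⟩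
    have h7 := Finset.card_le_card hsub
    omega
  have hφp : ∀ x y : X, x ≠ y → e x.1 = e y.1 → φ x ≠ φ y := by
    intro x y hxy hE hφE
    have hun : un x = un y := Subtype.ext hE
    have h2 : decide (x = rep (un x)) = decide (y = rep (un y)) := congrArg Prod.snd hφE
    have hr : un (rep (un x)) = un x := hrep1 (un x)
    have hr' : e (rep (un x)).1 = e x.1 := congrArg Subtype.val hr
    by_cases hx : x = rep (un x)
    · have hy : y = rep (un y) := by
        have h3 : decide (x = rep (un x)) = true := decide_eq_true hx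
        rw [h3] at h2
        exact of_decide_eq_true h2.symm
      apply hxy
      rw [hx, hy, hun]
    · have hy : ¬ (y = rep (un y)) := by
        have h3 : decide (x = rep (un x)) = false := decide_eq_false hx
        rw [h3] at h2
        exact of_decide_eq_false h2.symm
      apply hy
      rw [← hun]
      exact huniq x y (rep (un x)) hxy hx hE hr'.symm
  have hcommon : ∀ x y : X, x ≠ y → ∀ F ∈ ess Fs Q k, x.1 ∈ F → y.1 ∈ F → φ x ≠ φ y := by
    intro x y hxy F hF hxF hyF
    by_cases hE : e x.1 = e y.1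
    · exact hφp x y hxy hE
    · intro hφE
      exact hψun x y hE F ((memE _ _).mpr ⟨hF, hxF⟩) ((memE _ _).mpr ⟨hF, hyF⟩)
        (congrArg Prod.fst hφE)
  obtain ⟨σ, hσ1, hσ2, hσ3⟩ := exists_inv_56 (fun x y : X => x ≠ y ∧ e x.1 = e y.1)
    (fun x y hxy => ⟨hxy.1.symm, hxy.2.symm⟩)
    (fun x y z hxy hxz => huniq x y z hxy.1 hxz.1 hxy.2 hxz.2)
  have hσne : ∀ x : X, σ x ≠ x := by
    intro x
    obtain ⟨u, hu, hux, hxu⟩ := hXpart x.1 x.2
    have := hσ3 x ⟨u, hu⟩ ⟨fun hE => hux (by rw [hE]), hxu⟩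
    rw [this]
    exact fun hE => hux (by rw [← hE])
  obtain ⟨τ, hτ1, hτ2, hτ3⟩ := exists_inv_56 (fun x y : X => (x ≠ y ∧ Hc Fs k x.1 y.1 ∧
      ∀ F ∈ ess Fs Q k, x.1 ∈ F → y.1 ∉ F) ∧ ψ (un x) = ψ (un y))
    (by
      rintro x y ⟨⟨h1, ⟨F, hF, hFk, hxF, hyF⟩, h3⟩, h4⟩
      exact ⟨⟨h1.symm, ⟨F, hF, hFk, hyF, hxF⟩, fun G hG hyG hxG => h3 G hG hxG hyG⟩, h4.symm⟩)
    (by
      rintro x y z ⟨⟨h1, h2, h3⟩, h7⟩ ⟨⟨h4, h5, h6⟩, h8⟩
      apply Subtype.ext
      have hpx : p (un x) ∈ e x.1 := hp (un x)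
      have hqx : q (un x) ∈ e x.1 := hq (un x)
      have hpx' := (memE _ _).mp hpx
      have hqx' := (memE _ _).mp hqx
      rcases conflictB h hQF hQ5 (hpq1 (un x)) (hpq2 (un x)) ((hXmem x.1).mp x.2).2.1.2
        y.1 (hXS y.2) z.1 (hXS z.2) (fun hE => h1 (Subtype.ext hE.symm))
        (fun hE => h4 (Subtype.ext hE.symm)) h2 h5 (h3 _ hpx'.1 hpx'.2)
        (h3 _ hqx'.1 hqx'.2) (h6 _ hpx'.1 hpx'.2) (h6 _ hqx'.1 hqx'.2) with hE | ⟨m, hm, hym, hzm, hnb⟩
      · exact hE
      · exfalso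
        -- y and z are neighbours on m
        have hyG := ((hXmem y.1).mp y.2).2.1
        have hy3 : (ft Fs y.1).card ≤ 3 := by
          rcases hyG.2 with h9 | h9
          · exact h9
          · exact absurd hym (h9.2 m hm)
        have hmess : m ∉ ess Fs Q k := fun hE => (mem_ess.mp hE).2.2.2 hm
        have hsub1 : e y.1 ⊆ ft Fs y.1 := by
          intro F hF
          rw [memE] at hF
          exact mem_ft.mpr ⟨(mem_ess.mp hF.1).1, hF.2⟩
        have hmft : m ∈ ft Fs y.1 := mem_ft.mpr ⟨hQF hm, hym⟩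
        have hins : (insert m (e y.1)).card = 3 := by
          rw [Finset.card_insert_of_notMem (fun hE => hmess ((memE _ _).mp hE).1)]
          have : (e y.1).card = 2 := hyG.1
          omega
        have hft : insert m (e y.1) = ft Fs y.1 := by
          apply Finset.eq_of_subset_of_card_le
          · exact Finset.insert_subset hmft hsub1
          · omega
        have hcm2 := cm_card_nbr h hnb
        have hmcm : m ∈ cm Fs y.1 z.1 := mem_cm.mpr ⟨hQF hm, hym, hzm⟩
        by_cases hE : e y.1 = e z.1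
        · -- three common facets
          have hsub2 : insert m (e y.1) ⊆ cm Fs y.1 z.1 := by
            apply Finset.insert_subset hmcm
            intro F hF
            have hF' := hF
            rw [hE] at hF'
            rw [memE] at hF hF'
            exact mem_cm.mpr ⟨(mem_ess.mp hF.1).1, hF.2, hF'.2⟩
          have := Finset.card_le_card hsub2
          omega
        · -- another common facet is essential
          have hone : 1 < (cm Fs y.1 z.1).card := by omega
          obtain ⟨F, hF, hFm⟩ := Finset.exists_mem_ne hone m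
          rw [mem_cm] at hF
          have hF1 : F ∈ insert m (e y.1) := by
            rw [hft]
            exact mem_ft.mpr ⟨hF.1, hF.2.1⟩
          rw [mem_insert] at hF1
          have hF2 : F ∈ e y.1 := by
            rcases hF1 with h9 | h9
            · exact absurd h9 hFm
            · exact h9
          have hF3 : F ∈ e z.1 := (memE _ _).mpr ⟨((memE _ _).mp hF2).1, hF.2.2⟩
          exact hψun y z hE F hF2 hF3 (h7.symm.trans h8))
  obtain ⟨π, hπ1, hπ2, hπ3⟩ := stFlip_56 X (Fin (k / 2 + 1) × Bool) σ τ φ hσ1 hτ1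
    (fun x _ => hσne x)
    (fun x hx => hφp (σ x) x hx (hσ2 x hx).2.symm)
  have hπe : ∀ x : X, e (π x).1 = e x.1 := by
    intro x
    rcases hπ1 x with h1 | h1
    · rw [h1]
    · rw [h1]
      exact (hσ2 x (hσne x)).2.symm
  have hfinal : ∀ x y : X, x ≠ y → Hc Fs k x.1 y.1 → φ (π x) ≠ φ (π y) := by
    intro x y hxy hH
    by_cases hc : ∃ F ∈ ess Fs Q k, x.1 ∈ F ∧ y.1 ∈ F
    · obtain ⟨F, hF, hxF, hyF⟩ := hc
      apply hcommon (π x) (π y) (fun hE => hxy (hπ2 hE)) F hF
      · have : F ∈ e x.1 := (memE _ _).mpr ⟨hF, hxF⟩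
        rw [← hπe] at this
        exact ((memE _ _).mp this).2
      · have : F ∈ e y.1 := (memE _ _).mpr ⟨hF, hyF⟩
        rw [← hπe] at this
        exact ((memE _ _).mp this).2
    · have hc' : ∀ F ∈ ess Fs Q k, x.1 ∈ F → y.1 ∉ F :=
        fun F hF hxF hyF => hc ⟨F, hF, hxF, hyF⟩
      by_cases hψE : ψ (un x) = ψ (un y)
      · have h1 : τ x = y := hτ3 x y ⟨⟨hxy, hH, hc'⟩, hψE⟩
        rw [← h1]
        apply hπ3
        rw [h1]
        exact hxy.symm
      · intro hφE
        apply hψE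
        have h1 : ψ (un (π x)) = ψ (un (π y)) := congrArg Prod.fst hφE
        have h2 : un (π x) = un x := Subtype.ext (hπe x)
        have h3 : un (π y) = un y := Subtype.ext (hπe y)
        rw [h2, h3] at h1
        exact h1
  have hfst : ∀ x : X, (φ (π x)).1 = ψ (un x) := by
    intro x
    have h2 : un (π x) = un x := Subtype.ext (hπe x)
    change ψ (un (π x)) = ψ (un x)
    rw [h2]
  refine ⟨fun x => if hx : x ∈ X then φ (π ⟨x, hx⟩) else (0, false), ?_, ?_, ?_, ?_⟩
  · intro x hx y hy hxy hH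
    simp only [dif_pos hx, dif_pos hy]
    exact hfinal ⟨x, hx⟩ ⟨y, hy⟩ (fun hE => hxy (Subtype.mk.inj hE)) hH
  · intro x hx y hy hE
    simp only [dif_pos hx, dif_pos hy]
    rw [hfst, hfst]
    congr 1
    exact Subtype.ext hE
  · intro x hx y hy hne F hFx hFy
    simp only [dif_pos hx, dif_pos hy]
    rw [hfst, hfst]
    exact hψun ⟨x, hx⟩ ⟨y, hy⟩ hne F hFx hFy
  · intro x hx y hy z hz hxy hxz h1 h2
    have := huniq ⟨x, hx⟩ ⟨y, hy⟩ ⟨z, hz⟩ (fun hE => hxy (Subtype.mk.inj hE))
      (fun hE => hxz (Subtype.mk.inj hE)) h1 h2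
    exact Subtype.mk.inj this

end Pool.Agent.CY
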