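import Pool.Agent.Lib.MP_b6ecfd_co.CoreS16
import Pool.Agent.Lib.MP_b6ecfd_co.CombB_56

/-! The pairs of colours for any set `E` of facets with at most `k` vertices and any set `K` of
vertices (MP_b6ecfd), helper16.  The proof follows combB_56 (helper56). -/

set_option autoImplicit false

namespace Pool.Agent.CY

open Finset

section

variable {P : Type} [DecidableEq P]

/-- two members of `E` at `x` with two common vertices in `K`, and at most one cofacial vertex in
`K` off them, or degree three and a facet off `E` with at most five vertices. -/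
def PK (S : Finset P) (Fs E : Finset (Finset P)) (k : ℕ) (K : Finset P) (x : P) : Prop :=
  ∃ f g : Finset P, f ≠ g ∧ eE E x = {f, g} ∧ 2 ≤ (f ∩ g ∩ K).card ∧
    ((outK S Fs E k K x).card ≤ 1 ∨
      ((ft Fs x).card ≤ 3 ∧ ∃ m ∈ Fs, m ∉ E ∧ x ∈ m ∧ m.card ≤ 5))

open Classical in
/-- vertices of `K` of the kind `PK`. -/
noncomputable def XK (S : Finset P) (Fs E : Finset (Finset P)) (k : ℕ) (K : Finset P) : Finset P :=
  K.filter (fun x => PK S Fs E k K x ∧ ∃ u ∈ K, u ≠ x ∧ PK S Fs E k K u ∧ eE E x = eE E u)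

theorem mem_XK {S : Finset P} {Fs E : Finset (Finset P)} {k : ℕ} {K : Finset P} {x : P} :
    x ∈ XK S Fs E k K ↔ x ∈ K ∧ PK S Fs E k K x ∧
      ∃ u ∈ K, u ≠ x ∧ PK S Fs E k K u ∧ eE E x = eE E u := by
  simp [XK]

variable {S : Finset P} {Fs E : Finset (Finset P)} {k : ℕ} {K : Finset P}

theorem PK_card {x : P} (hx : PK S Fs E k K x) : (eE E x).card = 2 := by
  obtain ⟨f, g, hfg, he, _⟩ := hx
  rw [he, Finset.card_pair hfg]

/-- two cofacial vertices off the two facets. -/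
theorem PK_out (h : FSys S Fs) (hEF : E ⊆ Fs)
    {x y z : P} (hx : PK S Fs E k K x) (hy : y ∈ outK S Fs E k K x) (hz : z ∈ outK S Fs E k K x)
    (hyz : y ≠ z) : (ft Fs x).card ≤ 3 ∧ ∃ m ∈ Fs, m ∉ E ∧ m.card ≤ k ∧ x ∈ m ∧ y ∈ m ∧ z ∈ m ∧
      z ∈ nbr S Fs y := by
  obtain ⟨f, g, hfg, he, _, hx⟩ := hx
  obtain ⟨⟨hf, hxf⟩, hg, hxg⟩ := pair_mem he
  have h2 : 2 ≤ (outK S Fs E k K x).card := by
    have h1 : ({y, z} : Finset P) ⊆ outK S Fs E k K x := by
      intro a ha
      rw [mem_insert, mem_singleton] at ha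
      rcases ha with rfl | rfl
      · exact hy
      · exact hz
    have := Finset.card_le_card h1
    rwa [Finset.card_pair hyz] at this
  rcases hx with hx | ⟨hd, m, hm, hmE, hxm, hm5⟩
  · omega
  rw [mem_outK] at hy hz
  obtain ⟨⟨⟨hyS, hyx, m1, hm1, hm1k, hxm1, hym1⟩, hyE⟩, _⟩ := hy
  obtain ⟨⟨⟨hzS, hzx, m2, hm2, hm2k, hxm2, hzm2⟩, hzE⟩, _⟩ := hz
  have hm1E : m1 ∉ E := fun hc => hyE m1 hc hxm1 hym1
  have hm2E : m2 ∉ E := fun hc => hzE m2 hc hxm2 hzm2
  have hmf : m ≠ f := fun hE => hmE (hE ▸ hf)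
  have hmg : m ≠ g := fun hE => hmE (hE ▸ hg)
  have hft : ft Fs x = {m, f, g} := by
    symm
    apply Finset.eq_of_subset_of_card_le
    · intro G hG
      rw [mem_insert, mem_insert, mem_singleton] at hG
      rw [mem_ft]
      rcases hG with rfl | rfl | rfl
      · exact ⟨hm, hxm⟩
      · exact ⟨hEF hf, hxf⟩
      · exact ⟨hEF hg, hxg⟩
    · rw [Finset.card_eq_three.mpr ⟨m, f, g, hmf, hmg, hfg, rfl⟩]
      exact hd
  have hthird : ∀ G ∈ Fs, x ∈ G → G ∉ E → G = m := by
    intro G hG hxG hGE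
    have : G ∈ ft Fs x := mem_ft.mpr ⟨hG, hxG⟩
    rw [hft, mem_insert, mem_insert, mem_singleton] at this
    rcases this with h1 | h1 | h1
    · exact h1
    · exact absurd (by rw [h1]; exact hf) hGE
    · exact absurd (by rw [h1]; exact hg) hGE
  have e1 := hthird m1 hm1 hxm1 hm1E
  have e2 := hthird m2 hm2 hxm2 hm2E
  rw [e1] at hym1 hm1k
  rw [e2] at hzm2
  -- neighbours of x are on f or g
  have hnb : ∀ v ∈ nbr S Fs x, v ∈ f ∨ v ∈ g := by
    intro v hv
    by_contra hcon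
    push Not at hcon
    have h1 := cm_card_nbr h hv
    have h3 : cm Fs x v ⊆ {m} := by
      intro G hG
      rw [mem_cm] at hG
      have : G ∈ ft Fs x := mem_ft.mpr ⟨hG.1, hG.2.1⟩
      rw [hft, mem_insert, mem_insert, mem_singleton] at this
      rw [mem_singleton]
      rcases this with h1 | h1 | h1
      · exact h1
      · exact absurd (h1 ▸ hG.2.2) hcon.1
      · exact absurd (h1 ▸ hG.2.2) hcon.2
    have h4 := Finset.card_le_card h3
    rw [Finset.card_singleton] at h4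
    omega
  have hyn : y ∉ nbr S Fs x := by
    intro hc
    rcases hnb y hc with h1 | h1
    · exact hyE f hf hxf h1
    · exact hyE g hg hxg h1
  have hzn : z ∉ nbr S Fs x := by
    intro hc
    rcases hnb z hc with h1 | h1
    · exact hzE f hf hxf h1
    · exact hzE g hg hxg h1
  exact ⟨hd, m, hm, hmE, hm1k, hxm, hym1, hzm2, penta h hm hm5 hxm hym1 hzm2 hyx hzx hyz hyn hzn⟩

/-- a common facet of neighbours. -/
theorem nbr_other (h : FSys S Fs) {m : Finset P} (hm : m ∈ Fs) {y z : P} (hy : y ∈ m)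
    (hz : z ∈ m) (hn : z ∈ nbr S Fs y) : ∃ F ∈ Fs, F ≠ m ∧ y ∈ F ∧ z ∈ F ∧
      ∀ G ∈ Fs, y ∈ G → z ∈ G → G = m ∨ G = F := by
  have h2 := cm_card_nbr h hn
  have hmc : m ∈ cm Fs y z := mem_cm.mpr ⟨hm, hy, hz⟩
  obtain ⟨F, hF, hFm⟩ := Finset.exists_mem_ne (show 1 < (cm Fs y z).card by omega) m
  have h3 : cm Fs y z = {m, F} := by
    symm
    apply Finset.eq_of_subset_of_card_le
    · intro G hG
      rw [mem_insert, mem_singleton] at hG
      rcases hG with rfl | rfl
      · exact hmc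
      · exact hF
    · rw [Finset.card_pair hFm.symm, h2]
  rw [mem_cm] at hF
  refine ⟨F, hF.1, hFm, hF.2.1, hF.2.2, ?_⟩
  intro G hG hyG hzG
  have : G ∈ cm Fs y z := mem_cm.mpr ⟨hG, hyG, hzG⟩
  rw [h3, mem_insert, mem_singleton] at this
  exact this

/-- two conflicting vertices of `x`, both of the kind `PK`, have one common member of `E`. -/
theorem PK_conf (h : FSys S Fs) (hEF : E ⊆ Fs)
    {x y z : P} (hxS : x ∈ S) (hxK : x ∈ K) (hx : PK S Fs E k K x) (hyP : PK S Fs E k K y)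
    (hy : y ∈ outK S Fs E k K x) (hz : z ∈ outK S Fs E k K x) (hyz : y ≠ z) :
    eE E y ≠ eE E z ∧ ∃ F, F ∈ eE E y ∧ F ∈ eE E z := by
  obtain ⟨hd, m, hm, hmE, hmk, hxm, hym, hzm, hn⟩ := PK_out h hEF hx hy hz hyz
  obtain ⟨F, hF, hFm, hyF, hzF, hall⟩ := nbr_other h hm hym hzm hn
  constructor
  · intro hE
    obtain ⟨f, g, hfg, he, _⟩ := hyP
    obtain ⟨⟨hf, hyf⟩, hg, hyg⟩ := pair_mem he
    have he' : eE E z = {f, g} := by rw [← hE]; exact he
    obtain ⟨⟨_, hzf⟩, _, hzg⟩ := pair_mem he'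
    rcases hall f (hEF hf) hyf hzf with h1 | h1
    · exact hmE (h1 ▸ hf)
    · rcases hall g (hEF hg) hyg hzg with h2 | h2
      · exact hmE (h2 ▸ hg)
      · exact hfg (h1.trans h2.symm)
  · by_cases hFE : F ∈ E
    · exact ⟨F, mem_eE.mpr ⟨hFE, hyF⟩, mem_eE.mpr ⟨hFE, hzF⟩⟩
    · exfalso
      have hxo : x ∈ outK S Fs E k K y := by
        rw [mem_outK] at hy ⊢
        refine ⟨⟨⟨hxS, hy.1.1.2.1.symm, Hc_symm hy.1.1.2.2⟩, ?_⟩, hxK⟩
        intro G hG hyG hxG
        exact hy.1.2 G hG hxG hyG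
      have hzo : z ∈ outK S Fs E k K y := by
        rw [mem_outK] at hz ⊢
        refine ⟨⟨⟨hz.1.1.1, hyz.symm, m, hm, hmk, hym, hzm⟩, ?_⟩, hz.2⟩
        intro G hG hyG hzG
        rcases hall G (hEF hG) hyG hzG with h1 | h1
        · exact hmE (h1 ▸ hG)
        · exact hFE (h1 ▸ hG)
      have hxz : x ≠ z := (mem_outK.mp hz).1.1.2.1.symm
      obtain ⟨hd', _⟩ := PK_out h hEF hyP hxo hzo hxz
      obtain ⟨f, g, hfg, he, _⟩ := hyP
      obtain ⟨⟨hf, hyf⟩, hg, hyg⟩ := pair_mem he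
      have hsub : ({m, F, f, g} : Finset (Finset P)) ⊆ ft Fs y := by
        intro G hG
        simp only [mem_insert, mem_singleton] at hG
        rw [mem_ft]
        rcases hG with rfl | rfl | rfl | rfl
        · exact ⟨hm, hym⟩
        · exact ⟨hF, hyF⟩
        · exact ⟨hEF hf, hyf⟩
        · exact ⟨hEF hg, hyg⟩
      have hc4 : ({m, F, f, g} : Finset (Finset P)).card = 4 := by
        rw [Finset.card_insert_of_notMem, Finset.card_insert_of_notMem,
          Finset.card_pair hfg]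
        · rw [mem_insert, mem_singleton]
          rintro (hE | hE)
          · exact hFE (hE ▸ hf)
          · exact hFE (hE ▸ hg)
        · rw [mem_insert, mem_insert, mem_singleton]
          rintro (hE | hE | hE)
          · exact hFm hE.symm
          · exact hmE (hE ▸ hf)
          · exact hmE (hE ▸ hg)
      have := Finset.card_le_card hsub
      omega

end

/-- the colouring of the mated vertices of the kind `PK` by pairs of colours. -/
theorem pairsK_16 (hV : StVizing) (P : Type) [DecidableEq P] (S : Finset P)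
    (Fs E : Finset (Finset P)) (k : ℕ) (h : FSys S Fs) (hEF : E ⊆ Fs)
    (hEk : ∀ F ∈ E, F.card ≤ k) (K : Finset P) (hKS : K ⊆ S) :
    ∃ φ : P → Fin (k / 2 + 1) × Bool,
      (∀ x ∈ XK S Fs E k K, ∀ y ∈ XK S Fs E k K, x ≠ y → Hc Fs k x y → φ x ≠ φ y) ∧
      (∀ x ∈ XK S Fs E k K, ∀ y ∈ XK S Fs E k K, eE E x = eE E y → (φ x).1 = (φ y).1) ∧
      (∀ x ∈ XK S Fs E k K, ∀ y ∈ XK S Fs E k K, eE E x ≠ eE E y →
        ∀ F, F ∈ eE E x → F ∈ eE E y → (φ x).1 ≠ (φ y).1) ∧
      (∀ x ∈ XK S Fs E k K, ∀ y ∈ XK S Fs E k K, ∀ z ∈ XK S Fs E k K, x ≠ y → x ≠ z →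
        eE E x = eE E y → eE E x = eE E z → y = z) := by
  classical
  set e : P → Finset (Finset P) := eE E with he
  have memE : ∀ x F, F ∈ e x ↔ F ∈ E ∧ x ∈ F := by
    intro x F
    simp [he, eE]
  set X : Finset P := XK S Fs E k K with hX
  have hXmem : ∀ x, x ∈ X ↔ x ∈ K ∧ PK S Fs E k K x ∧
      ∃ u ∈ K, u ≠ x ∧ PK S Fs E k K u ∧ e x = e u := by
    intro x; simp [hX, XK, he]
  have hXK : X ⊆ K := fun x hx => ((hXmem x).mp hx).1
  have hXS : X ⊆ S := hXK.trans hKS
  have hXpart : ∀ x ∈ X, ∃ u ∈ X, u ≠ x ∧ e x = e u := by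
    intro x hx
    obtain ⟨hxS, hxG, u, huS, hux, huG, hE⟩ := (hXmem x).mp hx
    exact ⟨u, (hXmem u).mpr ⟨huS, huG, x, hxS, hux.symm, hxG, hE.symm⟩, hux, hE⟩
  -- units
  set T : Finset (Finset (Finset P)) := X.image e with hT
  have hT2 : ∀ t : T, ∃ f g : Finset P, f ≠ g ∧ t.1 = {f, g} := by
    intro t
    obtain ⟨x, hx, hxt⟩ := Finset.mem_image.mp t.2
    apply Finset.card_eq_two.mp
    rw [← hxt]
    exact PK_card ((hXmem x).mp hx).2.1
  choose p q hpq1 hpq2 using hT2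
  have hTess : ∀ t : T, ∀ F ∈ t.1, F ∈ E := by
    intro t F hF
    obtain ⟨x, hx, hxt⟩ := Finset.mem_image.mp t.2
    rw [← hxt, memE] at hF
    exact hF.1
  have hp : ∀ t : T, p t ∈ t.1 := by
    intro t; rw [hpq2]; simp
  have hq : ∀ t : T, q t ∈ t.1 := by
    intro t; rw [hpq2]; simp
  obtain ⟨ψ, hψ⟩ := hV T (Finset P) p q (k / 2) 1 hpq1 (by
    intro v
    by_cases hv : v ∈ E
    · set Tv : Finset (Finset (Finset P)) := T.filter (fun t => v ∈ t) with hTv
      have h0 : (univ.filter (fun t : T => p t = v ∨ q t = v)).card ≤ Tv.card := by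
        apply Finset.card_le_card_of_injOn (fun t => t.1)
        · intro t ht
          simp only [coe_filter, mem_univ, true_and, Set.mem_ofPred_eq] at ht
          simp only [hTv, coe_filter, Set.mem_ofPred_eq]
          refine ⟨t.2, ?_⟩
          rcases ht with rfl | rfl
          · exact hp t
          · exact hq t
        · intro x _ y _ hxy
          exact Subtype.ext hxy
      set U : Finset P := X.filter (fun x => x ∈ v) with hU
      have hUv : U.card ≤ v.card := by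
        apply Finset.card_le_card
        intro x hx
        exact (mem_filter.mp hx).2
      have hmaps : ∀ x ∈ U, e x ∈ Tv := by
        intro x hx
        rw [hU, mem_filter] at hx
        rw [hTv, mem_filter, memE]
        exact ⟨Finset.mem_image_of_mem e hx.1, hv, hx.2⟩
      have hfib := Finset.card_eq_sum_card_fiberwise (s := U) (t := Tv) (f := e) hmaps
      have hge : Tv.card • 2 ≤ ∑ b ∈ Tv, (U.filter (fun a => e a = b)).card := by
        apply Finset.card_nsmul_le_sum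
        intro t ht
        rw [hTv, mem_filter] at ht
        obtain ⟨x, hx, hxt⟩ := Finset.mem_image.mp ht.1
        obtain ⟨u, hu, hux, hxu⟩ := hXpart x hx
        have hvx : v ∈ e x := by rw [hxt]; exact ht.2
        have hvu : v ∈ e u := by rw [← hxu]; exact hvx
        have hsub : ({x, u} : Finset P) ⊆ U.filter (fun a => e a = t) := by
          intro a ha
          rw [mem_insert, mem_singleton] at ha
          rw [mem_filter, hU, mem_filter]
          rcases ha with rfl | rfl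
          · exact ⟨⟨hx, ((memE _ _).mp hvx).2⟩, hxt⟩
          · exact ⟨⟨hu, ((memE _ _).mp hvu).2⟩, by rw [← hxu]; exact hxt⟩
        have := Finset.card_le_card hsub
        rw [Finset.card_pair hux.symm] at this
        exact this
      have hvk := hEk v hv
      rw [smul_eq_mul, ← hfib] at hge
      omega
    · have h1 : univ.filter (fun t : T => p t = v ∨ q t = v) = ∅ := by
        apply Finset.filter_eq_empty_iff.mpr
        intro t _ ht
        rcases ht with rfl | rfl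
        · exact hv (hTess t _ (hp t))
        · exact hv (hTess t _ (hq t))
      rw [h1]
      simp) (by
    intro u v huv
    apply Finset.card_le_one.mpr
    intro s hs t ht
    simp only [mem_filter, mem_univ, true_and] at hs ht
    apply Subtype.ext
    rw [hpq2 s, hpq2 t]
    rcases hs with ⟨h1, h2⟩ | ⟨h1, h2⟩ <;> rcases ht with ⟨h3, h4⟩ | ⟨h3, h4⟩ <;>
      rw [h1, h2, h3, h4] <;> first | rfl | exact Finset.pair_comm _ _) le_rfl
  -- colour of a vertex: the colour of its unit and a bit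
  let un : X → T := fun x => ⟨e x.1, Finset.mem_image_of_mem e x.2⟩
  have hψun : ∀ x y : X, e x.1 ≠ e y.1 → ∀ F, F ∈ e x.1 → F ∈ e y.1 → ψ (un x) ≠ ψ (un y) := by
    intro x y hne F hFx hFy
    apply hψ (un x) (un y) (fun hE => hne (Subtype.mk.inj hE))
    have h1 : F ∈ (un x).1 := hFx
    have h2 : F ∈ (un y).1 := hFy
    rw [hpq2, mem_insert, mem_singleton] at h1 h2
    rcases h1 with h1 | h1 <;> rcases h2 with h2 | h2 <;> rw [← h1, ← h2] <;> simp
  have hrep : ∀ t : T, ∃ x : X, un x = t := by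
    intro t
    obtain ⟨x, hx, hxt⟩ := Finset.mem_image.mp t.2
    exact ⟨⟨x, hx⟩, Subtype.ext hxt⟩
  choose rep hrep1 using hrep
  let φ : X → Fin (k / 2 + 1) × Bool := fun x => (ψ (un x), decide (x = rep (un x)))
  have huniq : ∀ x y z : X, x ≠ y → x ≠ z → e x.1 = e y.1 → e x.1 = e z.1 → y = z := by
    intro x y z hxy hxz hey hez
    by_contra hyz
    have hpx : p (un x) ∈ e x.1 := hp (un x)
    have hqx : q (un x) ∈ e x.1 := hq (un x)
    have h1 := h.inter (p (un x)) (hEF ((memE _ _).mp hpx).1) (q (un x))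
      (hEF ((memE _ _).mp hqx).1) (hpq1 (un x))
    have hsub : ({x.1, y.1, z.1} : Finset P) ⊆ p (un x) ∩ q (un x) := by
      intro a ha
      rw [mem_insert, mem_insert, mem_singleton] at ha
      rw [mem_inter]
      rcases ha with rfl | rfl | rfl
      · exact ⟨((memE _ _).mp hpx).2, ((memE _ _).mp hqx).2⟩
      · rw [hey] at hpx hqx
        exact ⟨((memE _ _).mp hpx).2, ((memE _ _).mp hqx).2⟩
      · rw [hez] at hpx hqx
        exact ⟨((memE _ _).mp hpx).2, ((memE _ _).mp hqx).2⟩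
    have h6 : ({x.1, y.1, z.1} : Finset P).card = 3 :=
      Finset.card_eq_three.mpr ⟨x.1, y.1, z.1, fun hE => hxy (Subtype.ext hE),
        fun hE => hxz (Subtype.ext hE), fun hE => hyz (Subtype.ext hE), rfl⟩
    have h7 := Finset.card_le_card hsub
    omega
  have hφp : ∀ x y : X, x ≠ y → e x.1 = e y.1 → φ x ≠ φ y := by
    intro x y hxy hE hφE
    have hun : un x = un y := Subtype.ext hE
    have h2 : decide (x = rep (un x)) = decide (y = rep (un y)) := congrArg Prod.snd hφE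
    have hr : un (rep (un x)) = un x := hrep1 (un x)
    have hr' : e (rep (un x)).1 = e x.1 := congrArg Subtype.val hr
    by_cases hx : x = rep (un x)
    · have hy : y = rep (un y) := by
        have h3 : decide (x = rep (un x)) = true := decide_eq_true hx
        rw [h3] at h2
        exact of_decide_eq_true h2.symm
      apply hxy
      rw [hx, hy, hun]
    · have hy : ¬ (y = rep (un y)) := by
        have h3 : decide (x = rep (un x)) = false := decide_eq_false hx
        rw [h3] at h2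
        exact of_decide_eq_false h2.symm
      apply hy
      rw [← hun]
      exact huniq x y (rep (un x)) hxy hx hE hr'.symm
  have hcommon : ∀ x y : X, x ≠ y → ∀ F ∈ E, x.1 ∈ F → y.1 ∈ F → φ x ≠ φ y := by
    intro x y hxy F hF hxF hyF
    by_cases hE : e x.1 = e y.1
    · exact hφp x y hxy hE
    · intro hφE
      exact hψun x y hE F ((memE _ _).mpr ⟨hF, hxF⟩) ((memE _ _).mpr ⟨hF, hyF⟩)
        (congrArg Prod.fst hφE)
  obtain ⟨σ, hσ1, hσ2, hσ3⟩ := exists_inv_56 (fun x y : X => x ≠ y ∧ e x.1 = e y.1)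
    (fun x y hxy => ⟨hxy.1.symm, hxy.2.symm⟩)
    (fun x y z hxy hxz => huniq x y z hxy.1 hxz.1 hxy.2 hxz.2)
  have hσne : ∀ x : X, σ x ≠ x := by
    intro x
    obtain ⟨u, hu, hux, hxu⟩ := hXpart x.1 x.2
    have := hσ3 x ⟨u, hu⟩ ⟨fun hE => hux (by rw [hE]), hxu⟩
    rw [this]
    exact fun hE => hux (by rw [← hE])
  obtain ⟨τ, hτ1, hτ2, hτ3⟩ := exists_inv_56 (fun x y : X => (x ≠ y ∧ Hc Fs k x.1 y.1 ∧
      ∀ F ∈ E, x.1 ∈ F → y.1 ∉ F) ∧ ψ (un x) = ψ (un y))
    (by
      rintro x y ⟨⟨h1, ⟨F, hF, hFk, hxF, hyF⟩, h3⟩, h4⟩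
      exact ⟨⟨h1.symm, ⟨F, hF, hFk, hyF, hxF⟩, fun G hG hyG hxG => h3 G hG hxG hyG⟩, h4.symm⟩)
    (by
      rintro x y z ⟨⟨h1, h2, h3⟩, h7⟩ ⟨⟨h4, h5, h6⟩, h8⟩
      by_contra hyz
      have hyo : y.1 ∈ outK S Fs E k K x.1 := mem_outK.mpr ⟨⟨⟨hXS y.2,
        fun hE => h1 (Subtype.ext hE.symm), h2⟩, h3⟩, hXK y.2⟩
      have hzo : z.1 ∈ outK S Fs E k K x.1 := mem_outK.mpr ⟨⟨⟨hXS z.2,
        fun hE => h4 (Subtype.ext hE.symm), h5⟩, h6⟩, hXK z.2⟩
      obtain ⟨hne, F, hF1, hF2⟩ := PK_conf h hEF (hXS x.2) (hXK x.2) ((hXmem x.1).mp x.2).2.1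
        ((hXmem y.1).mp y.2).2.1 hyo hzo (fun hE => hyz (Subtype.ext hE))
      exact hψun y z hne F hF1 hF2 (h7.symm.trans h8))
  obtain ⟨π, hπ1, hπ2, hπ3⟩ := stFlip_56 X (Fin (k / 2 + 1) × Bool) σ τ φ hσ1 hτ1
    (fun x _ => hσne x)
    (fun x hx => hφp (σ x) x hx (hσ2 x hx).2.symm)
  have hπe : ∀ x : X, e (π x).1 = e x.1 := by
    intro x
    rcases hπ1 x with h1 | h1
    · rw [h1]
    · rw [h1]
      exact (hσ2 x (hσne x)).2.symm
  have hfinal : ∀ x y : X, x ≠ y → Hc Fs k x.1 y.1 → φ (π x) ≠ φ (π y) := by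
    intro x y hxy hH
    by_cases hc : ∃ F ∈ E, x.1 ∈ F ∧ y.1 ∈ F
    · obtain ⟨F, hF, hxF, hyF⟩ := hc
      apply hcommon (π x) (π y) (fun hE => hxy (hπ2 hE)) F hF
      · have : F ∈ e x.1 := (memE _ _).mpr ⟨hF, hxF⟩
        rw [← hπe] at this
        exact ((memE _ _).mp this).2
      · have : F ∈ e y.1 := (memE _ _).mpr ⟨hF, hyF⟩
        rw [← hπe] at this
        exact ((memE _ _).mp this).2
    · have hc' : ∀ F ∈ E, x.1 ∈ F → y.1 ∉ F :=
        fun F hF hxF hyF => hc ⟨F, hF, hxF, hyF⟩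
      by_cases hψE : ψ (un x) = ψ (un y)
      · have h1 : τ x = y := hτ3 x y ⟨⟨hxy, hH, hc'⟩, hψE⟩
        rw [← h1]
        apply hπ3
        rw [h1]
        exact hxy.symm
      · intro hφE
        apply hψE
        have h1 : ψ (un (π x)) = ψ (un (π y)) := congrArg Prod.fst hφE
        have h2 : un (π x) = un x := Subtype.ext (hπe x)
        have h3 : un (π y) = un y := Subtype.ext (hπe y)
        rw [h2, h3] at h1
        exact h1
  have hfst : ∀ x : X, (φ (π x)).1 = ψ (un x) := by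
    intro x
    have h2 : un (π x) = un x := Subtype.ext (hπe x)
    change ψ (un (π x)) = ψ (un x)
    rw [h2]
  refine ⟨fun x => if hx : x ∈ X then φ (π ⟨x, hx⟩) else (0, false), ?_, ?_, ?_, ?_⟩
  · intro x hx y hy hxy hH
    simp only [dif_pos hx, dif_pos hy]
    exact hfinal ⟨x, hx⟩ ⟨y, hy⟩ (fun hE => hxy (Subtype.mk.inj hE)) hH
  · intro x hx y hy hE
    simp only [dif_pos hx, dif_pos hy]
    rw [hfst, hfst]
    congr 1
    exact Subtype.ext hE
  · intro x hx y hy hne F hFx hFy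
    simp only [dif_pos hx, dif_pos hy]
    rw [hfst, hfst]
    exact hψun ⟨x, hx⟩ ⟨y, hy⟩ hne F hFx hFy
  · intro x hx y hy z hz hxy hxz h1 h2
    have := huniq ⟨x, hx⟩ ⟨y, hy⟩ ⟨z, hz⟩ (fun hE => hxy (Subtype.mk.inj hE))
      (fun hE => hxz (Subtype.mk.inj hE)) h1 h2
    exact Subtype.mk.inj this

end Pool.Agent.CY
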