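import Mathlib

/-!
Module statements for MP_b6ecfd_co (cyclic colourings of 3-polytopes), helper56.
Everything is elementary. Proofs of the modules are described in /team-store/CY56.md.
-/

set_option autoImplicit false

namespace Pool.Agent.CY

open Finset

/-- ambient space -/
abbrev E3 := EuclideanSpace ℝ (Fin 3)

/-- `F` is a facet of the convex hull of the finite set `S`: a section by a supporting
hyperplane whose affine span has dimension two. -/
def IsFacet (S : Finset E3) (F : Set E3) : Prop :=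
  ∃ (ℓ : E3 →L[ℝ] ℝ) (c : ℝ), (∀ x ∈ S, ℓ x ≤ c) ∧ F = {x : E3 | x ∈ S ∧ ℓ x = c} ∧
    Module.finrank ℝ (vectorSpan ℝ F) = 2

/-- Vizing's theorem for multigraphs without loops: edges `e : E` with ends `p e ≠ q e`, at most
`D` edges at each node, at most `m` edges between two nodes, then `D + m` colours suffice. -/
def StVizing : Prop := ∀ (E N : Type) [Fintype E] [DecidableEq E] [DecidableEq N] (p q : E → N)
  (D m : ℕ), (∀ e, p e ≠ q e) →
  (∀ v, (univ.filter (fun e => p e = v ∨ q e = v)).card ≤ D) →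
  (∀ u v, u ≠ v →
    (univ.filter (fun e => (p e = u ∧ q e = v) ∨ (p e = v ∧ q e = u))).card ≤ m) →
  1 ≤ m →
  ∃ φ : E → Fin (D + m), ∀ e e', e ≠ e' →
    (p e = p e' ∨ p e = q e' ∨ q e = p e' ∨ q e = q e') → φ e ≠ φ e'

/-- the flipping lemma: `σ` partners, `τ` conflicts, both involutions; if every vertex with a
conflict has a partner, and partners have different colours, then after flipping some of the
pairs there is no conflict. -/
def StFlip : Prop := ∀ (X C : Type) [Fintype X] [DecidableEq X] [DecidableEq C]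
  (σ τ : X → X) (φ : X → C),
  (∀ x, σ (σ x) = x) → (∀ x, τ (τ x) = x) → (∀ x, τ x ≠ x → σ x ≠ x) →
  (∀ x, σ x ≠ x → φ (σ x) ≠ φ x) →
  ∃ π : X → X, (∀ x, π x = x ∨ π x = σ x) ∧ Function.Injective π ∧
    ∀ x, τ x ≠ x → φ (π x) ≠ φ (π (τ x))

/-- greedy extension of a colouring. -/
def StGreedy : Prop := ∀ (V : Type) [DecidableEq V] (S : Finset V) (H : V → V → Prop) (n : ℕ)
  (X : Finset V) (φ : V → Fin (n + 1)), (∀ x y, H x y → H y x) →
  (∀ x ∈ X, ∀ y ∈ X, x ≠ y → H x y → φ x ≠ φ y) →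
  (∀ x ∈ S, x ∉ X → ∃ T : Finset V, T.card ≤ n ∧ ∀ y ∈ S, y ≠ x → H x y → y ∈ T) →
  X ⊆ S →
  ∃ ψ : V → Fin (n + 1), ∀ x ∈ S, ∀ y ∈ S, x ≠ y → H x y → ψ x ≠ ψ y

/-- the incidences of a polytope of dimension three: `S` vertices, `Fs` facets. -/
structure FSys {P : Type} [DecidableEq P] (S : Finset P) (Fs : Finset (Finset P)) : Prop where
  sub : ∀ F ∈ Fs, F ⊆ S
  three : ∀ F ∈ Fs, 3 ≤ F.card
  inter : ∀ F ∈ Fs, ∀ G ∈ Fs, F ≠ G → (F ∩ G).card ≤ 2
  pair : ∀ x y, x ≠ y → (Fs.filter (fun F => x ∈ F ∧ y ∈ F)).card ≤ 2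
  nb : ∀ F ∈ Fs, ∀ x ∈ F, (F.filter (fun y => y ≠ x ∧
    2 ≤ (Fs.filter (fun G => x ∈ G ∧ y ∈ G)).card)).card = 2

/-- geometry: the facets of a polytope form such a system. -/
def StGeo : Prop := ∀ (S : Finset E3) (Fs : Finset (Finset E3)),
  affineSpan ℝ (S : Set E3) = ⊤ →
  (∀ x ∈ S, x ∉ convexHull ℝ ((S : Set E3) \ {x})) →
  (∀ F : Finset E3, F ∈ Fs ↔ IsFacet S (F : Set E3)) →
  FSys S Fs

/-- the essential facets: between 4 and `k` vertices and not in `Q`. -/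
def ess {P : Type} [DecidableEq P] (Fs Q : Finset (Finset P)) (k : ℕ) : Finset (Finset P) :=
  Fs.filter (fun F => 4 ≤ F.card ∧ F.card ≤ k ∧ F ∉ Q)

/-- the combinatorial theorem. -/
def StComb : Prop := ∀ (P : Type) [DecidableEq P] (S : Finset P) (Fs Q : Finset (Finset P))
  (k : ℕ), 3 ≤ k → FSys S Fs → Q ⊆ Fs →
  (∀ F ∈ Q, F.card = 4) →
  (∀ F ∈ Q, ∀ G ∈ Q, F ≠ G → Disjoint F G) →
  (∀ F ∈ Q, ∀ x ∈ F, (Fs.filter (fun G => x ∈ G)).card = 3) →
  (∀ x ∈ S,
    (((ess Fs Q k).filter (fun F => x ∈ F)).card = 2 ∧ (Fs.filter (fun G => x ∈ G)).card ≤ 4) ∨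
    (((ess Fs Q k).filter (fun F => x ∈ F)).card = 1 ∧
      ∀ F ∈ ess Fs Q k, x ∈ F → F.card + (Fs.filter (fun G => x ∈ G)).card ≤ k + 4) ∨
    (((ess Fs Q k).filter (fun F => x ∈ F)).card = 0 ∧
      (Fs.filter (fun G => x ∈ G)).card ≤ k + 1)) →
  ∃ col : P → Fin (k + 2), ∀ F ∈ Fs, F.card ≤ k → Set.InjOn col (F : Set P)

end Pool.Agent.CY
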